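import Mathlib

/-! Facts on Frobenius maps of finite fields. -/

set_option autoImplicit false

namespace Pool.Agent.Lib.MP_145fc7_co

lemma pow_modEq_of_le {L : Type} [Field L] [Finite L] {a N : ℕ} (ha : 1 < a)
    (hL : Nat.card L = a ^ N) {i j : ℕ} (hij : i ≤ j)
    (h : ∀ x : L, x ^ (a ^ i) = x ^ (a ^ j)) : i ≡ j [MOD N] := by
  have := Fintype.ofFinite L
  obtain ⟨m, rfl⟩ := Nat.exists_eq_add_of_le hij
  have h1 : ∀ x : Lˣ, x ^ (a ^ i * (a ^ m - 1)) = 1 := by
    intro x
    have h2 : x ^ (a ^ i) = x ^ (a ^ (i + m)) := by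
      apply Units.ext; simpa using h x
    have h3 : a ^ (i + m) = a ^ i + a ^ i * (a ^ m - 1) := by
      have : 1 ≤ a ^ m := Nat.one_le_pow _ _ (by omega)
      rw [pow_add, Nat.mul_sub_one, Nat.add_sub_cancel' (Nat.le_mul_of_pos_right _ this)]
    rw [h3, pow_add] at h2
    exact (mul_eq_left.1 h2.symm)
  rw [FiniteField.forall_pow_eq_one_iff, ← Nat.card_eq_fintype_card, hL] at h1
  have hN : N ≠ 0 := by
    rintro rfl
    have : 1 < Nat.card L := Finite.one_lt_card
    rw [hL] at this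
    simp at this
  have h4 : Nat.Coprime (a ^ N - 1) (a ^ i) := by
    apply Nat.Coprime.pow_right
    have h5 : 1 ≤ a ^ N := Nat.one_le_pow _ _ (by omega)
    have h6 : Nat.Coprime (a ^ N - 1) (a ^ N) := by
      rw [Nat.coprime_comm, ← Nat.sub_add_cancel h5]
      simp
    exact (Nat.coprime_pow_right_iff (Nat.pos_of_ne_zero hN) _ _).1 h6
  have h7 := h4.dvd_of_dvd_mul_left h1
  have h8 := Nat.pow_sub_one_mod_pow_sub_one a N m
  rw [Nat.mod_eq_zero_of_dvd h7] at h8
  have h9 : m % N = 0 := by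
    by_contra h10
    have := Nat.one_lt_pow h10 ha
    omega
  exact (Nat.modEq_iff_dvd' (by omega)).2 (by simpa using Nat.dvd_of_mod_eq_zero h9)

lemma pow_modEq {L : Type} [Field L] [Finite L] {a N : ℕ} (ha : 1 < a)
    (hL : Nat.card L = a ^ N) {i j : ℕ}
    (h : ∀ x : L, x ^ (a ^ i) = x ^ (a ^ j)) : i ≡ j [MOD N] := by
  rcases le_total i j with hij | hij
  · exact pow_modEq_of_le ha hL hij h
  · exact (pow_modEq_of_le ha hL hij (fun x => (h x).symm)).symm

lemma ringHom_eq_pow {L : Type} [Field L] [Finite L] (p : ℕ) [CharP L p] (τ : L →+* L) :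
    ∃ s : ℕ, ∀ x, τ x = x ^ (p ^ s) := by
  have := Fintype.ofFinite L
  have hp : Fact p.Prime := ⟨CharP.char_is_prime L p⟩
  let _ : Algebra (ZMod p) L := ZMod.algebra L p
  let τ' : L →ₐ[ZMod p] L :=
    { τ with
      commutes' := fun r => DFunLike.congr_fun
        (RingHom.ext_zmod (τ.comp (algebraMap (ZMod p) L)) (algebraMap (ZMod p) L)) r }
  obtain ⟨s, hs⟩ := (FiniteField.bijective_frobeniusAlgHom_pow (ZMod p) L).2 τ'
  refine ⟨s, fun x => ?_⟩
  have h1 := DFunLike.congr_fun hs x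
  simp only [AlgHom.coe_pow, FiniteField.coe_frobeniusAlgHom, pow_iterate, ZMod.card] at h1
  exact h1.symm

/-- `σ` is the `Q`-Frobenius of the field `E` with `Q ^ n` elements. -/
structure IsFrob {E : Type} [Field E] (Q n : ℕ) (σ : E ≃+* E) : Prop where
  one_lt : 1 < Q
  pos : 0 < n
  card : Nat.card E = Q ^ n
  app : ∀ x, σ x = x ^ Q

section

variable {E : Type} [Field E] {Q n : ℕ} {σ : E ≃+* E}

lemma IsFrob.finite (h : IsFrob Q n σ) : Finite E :=
  Nat.finite_of_card_ne_zero (by rw [h.card]; have := h.one_lt; positivity)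

lemma IsFrob.pow_app (h : IsFrob Q n σ) (i : ℕ) (x : E) : (σ ^ i) x = x ^ (Q ^ i) := by
  induction i generalizing x with
  | zero => simp
  | succ i ih => rw [pow_succ, RingAut.mul_apply, ih, h.app, ← pow_mul, ← pow_succ']

lemma IsFrob.pow_n (h : IsFrob Q n σ) : σ ^ n = 1 := by
  have := h.finite
  have := Fintype.ofFinite E
  ext x
  rw [h.pow_app, ← h.card, Nat.card_eq_fintype_card, FiniteField.pow_card]
  rfl

lemma IsFrob.modEq (h : IsFrob Q n σ) {i j : ℕ} (hij : ∀ x, (σ ^ i) x = (σ ^ j) x) :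
    i ≡ j [MOD n] := by
  have := h.finite
  exact pow_modEq h.one_lt h.card (fun x => by rw [← h.pow_app, ← h.pow_app, hij])

/-- Dedekind independence of the powers of `σ`. -/
lemma IsFrob.dedekind (h : IsFrob Q n σ) {R : Type} [CommRing R] [IsDomain R] [Algebra E R]
    (c : ℕ → R) (hc : ∀ θ : E, ∑ i ∈ Finset.range n, c i * algebraMap E R ((σ ^ i) θ) = 0)
    (i : ℕ) (hi : i < n) : c i = 0 := by
  let f : Fin n → (E →* R) := fun i =>
    ((algebraMap E R).comp (σ ^ (i : ℕ) : E ≃+* E).toRingHom).toMonoidHom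
  have hf : Function.Injective f := by
    intro i j hij
    have h1 : ∀ x, (σ ^ (i : ℕ)) x = (σ ^ (j : ℕ)) x := fun x =>
      (algebraMap E R).injective (DFunLike.congr_fun hij x)
    exact Fin.ext (Nat.ModEq.eq_of_lt_of_lt (h.modEq h1) i.2 j.2)
  have h2 := (linearIndependent_monoidHom E R).comp f hf
  rw [Fintype.linearIndependent_iff] at h2
  refine h2 (fun i => c i) ?_ ⟨i, hi⟩
  ext θ
  have h3 := hc θ
  rw [Finset.sum_range] at h3
  simpa [f] using h3

lemma IsFrob.norm_surj (h : IsFrob Q n σ) {u : E} (hu : u ≠ 0) (hfix : σ u = u) :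
    ∃ θ : E, θ ≠ 0 ∧ ∏ i ∈ Finset.range n, (σ ^ i) θ = u := by
  have := h.finite
  obtain ⟨ζ, hζ⟩ := IsCyclic.exists_generator (α := Eˣ)
  have hord : orderOf ζ = Q ^ n - 1 := by
    rw [orderOf_eq_card_of_forall_mem_zpowers hζ, Nat.card_units, h.card]
  obtain ⟨a, ha⟩ : ∃ a : ℕ, ζ ^ a = Units.mk0 u hu := by
    have := hζ (Units.mk0 u hu)
    rwa [← mem_powers_iff_mem_zpowers] at this
  have hQ := h.one_lt
  have h1 : ζ ^ (a * (Q - 1)) = 1 := by
    rw [pow_mul, ha]
    apply Units.ext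
    rw [h.app] at hfix
    have h2 : u ^ (Q - 1) * u = 1 * u := by
      rw [← pow_succ, Nat.sub_add_cancel (by omega), hfix, one_mul]
    simpa using mul_right_cancel₀ hu h2
  rw [← orderOf_dvd_iff_pow_eq_one, hord] at h1
  have h3 : (∑ i ∈ Finset.range n, Q ^ i) * (Q - 1) = Q ^ n - 1 := by
    have := Nat.geomSum_eq (m := Q) (by omega) n
    rw [this, Nat.div_mul_cancel (Nat.sub_one_dvd_pow_sub_one Q n)]
  rw [← h3] at h1
  obtain ⟨b, hb⟩ := Nat.dvd_of_mul_dvd_mul_right (by omega) h1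
  refine ⟨(ζ ^ b : Eˣ), Units.ne_zero _, ?_⟩
  simp only [h.pow_app]
  rw [Finset.prod_pow_eq_pow_sum, Units.val_pow_eq_pow_val, ← pow_mul, mul_comm, ← hb,
    ← Units.val_pow_eq_pow_val, ha]
  rfl

lemma IsFrob.card_fixed (h : IsFrob Q n σ) : Q ≤ Nat.card {x : E // σ x = x} := by
  classical
  have := h.finite
  have hQ := h.one_lt
  have h1 := IsCyclic.card_powMonoidHom_ker Eˣ (Q - 1)
  rw [Nat.card_units, h.card, Nat.gcd_eq_right (Nat.sub_one_dvd_pow_sub_one Q n)] at h1
  let f : Option (powMonoidHom (Q - 1) : Eˣ →* Eˣ).ker → {x : E // σ x = x} := fun o =>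
    match o with
    | none => ⟨0, by simp⟩
    | some y => ⟨(y.1 : E), by
        have h2 : (y.1 : E) ^ (Q - 1) = 1 := by
          have := y.2
          rw [MonoidHom.mem_ker, powMonoidHom_apply] at this
          rw [← Units.val_pow_eq_pow_val, this, Units.val_one]
        have h4 : (y.1 : E) ^ (Q - 1 + 1) = y.1 := by rw [pow_succ, h2, one_mul]
        rwa [h.app, Nat.sub_add_cancel (show 1 ≤ Q by omega)] at *⟩
  have hf : Function.Injective f := by
    rintro (_ | x) (_ | y) hxy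
    · rfl
    · exact absurd (congrArg Subtype.val hxy).symm (Units.ne_zero _)
    · exact absurd (congrArg Subtype.val hxy) (Units.ne_zero _)
    · have : (x.1 : E) = y.1 := congrArg Subtype.val hxy
      rw [Subtype.ext (Units.ext this)]
  have h3 := Nat.card_le_card_of_injective f hf
  rw [Finite.card_option, h1] at h3
  omega

/-- An automorphism of a degree `δ` extension of `E` of order dividing `n / g` that extends
`σ ^ g` forces `δ` to be coprime to `n / g`. -/
lemma IsFrob.coprime_of_ext (h : IsFrob Q n σ) {L : Type} [Field L] [Algebra E L] {δ g m : ℕ}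
    (hL : Nat.card L = Nat.card E ^ δ) (hn : n = g * m) (τ : L →+* L)
    (hτ : ∀ c, τ (algebraMap E L c) = algebraMap E L ((σ ^ g) c))
    (hτm : ∀ x, τ^[m] x = x) : Nat.Coprime δ m := by
  have := h.finite
  have := Fintype.ofFinite E
  have hQ := h.one_lt
  have hfin : Finite L := Nat.finite_of_card_ne_zero (by
    rw [hL]; exact pow_ne_zero _ Nat.card_pos.ne')
  obtain ⟨p, hp, N, hpp, hN⟩ := FiniteField.card' E
  rw [← Nat.card_eq_fintype_card, h.card] at hN
  have hpos := h.pos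
  obtain ⟨f, -, hf⟩ := (Nat.dvd_prime_pow hpp).1
    (show Q ∣ p ^ (N : ℕ) from hN ▸ dvd_pow_self Q hpos.ne')
  have hf0 : 0 < f := by
    rcases Nat.eq_zero_or_pos f with rfl | h0
    · simp at hf; omega
    · exact h0
  have : CharP L p := charP_of_injective_algebraMap (algebraMap E L).injective p
  obtain ⟨s, hs⟩ := ringHom_eq_pow p τ
  have h1 : s ≡ f * g [MOD f * n] := by
    apply pow_modEq (L := E) hpp.one_lt (by rw [h.card, hf, pow_mul])
    intro x
    apply (algebraMap E L).injective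
    rw [map_pow, ← hs, hτ, h.pow_app, hf, pow_mul]
  have h2 : s * m ≡ 0 [MOD f * n * δ] := by
    apply pow_modEq (L := L) hpp.one_lt (by rw [hL, h.card, hf, pow_mul, pow_mul])
    intro x
    have h3 : (τ : L → L) = fun x => x ^ (p ^ s) := funext hs
    have h4 := hτm x
    rw [h3, pow_iterate] at h4
    simpa [pow_mul] using h4
  have hm : 0 < m := Nat.pos_of_mul_pos_left (hn ▸ hpos)
  have hg : 0 < g := Nat.pos_of_mul_pos_right (hn ▸ hpos)
  rw [Nat.modEq_zero_iff_dvd, hn, show f * (g * m) * δ = f * g * δ * m by ring] at h2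
  obtain ⟨s', hs'⟩ := Nat.dvd_of_mul_dvd_mul_right hm h2
  rw [hs', hn, show f * (g * m) = f * g * m by ring, show f * g * δ * s' = f * g * (δ * s') by ring]
    at h1
  have h5 : δ * s' ≡ 1 [MOD m] := by
    apply Nat.ModEq.mul_left_cancel' (c := f * g) (by positivity)
    simpa using h1
  exact Nat.coprime_of_mul_modEq_one s' h5

end

end Pool.Agent.Lib.MP_145fc7_co
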