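import Pool.Agent.Lib.MP_145fc7_co.Deg
import Pool.Agent.Lib.MP_145fc7_co.Frob

/-! Hilbert 90 and descent for a semilinear automorphism of finite order. -/

set_option autoImplicit false

namespace Pool.Agent.Lib.MP_145fc7_co

open WithZero

/-- The norm `x Φ(x) ... Φ^(n-1)(x)`. -/
noncomputable def nrm {R : Type} [CommRing R] (Φ : R ≃+* R) (n : ℕ) (x : R) : R :=
  ∏ i ∈ Finset.range n, (Φ ^ i) x

/-- `Φ` is an automorphism of order dividing `n` that extends the Frobenius `σ`. -/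
structure IsSemi {E R : Type} [Field E] [CommRing R] [Algebra E R] (Q n : ℕ) (σ : E ≃+* E)
    (Φ : R ≃+* R) : Prop extends IsFrob Q n σ where
  semi_alg : ∀ c, Φ (algebraMap E R c) = algebraMap E R (σ c)
  ord : Φ ^ n = 1

section

variable {E R : Type} [Field E] [CommRing R] [Algebra E R] {Q n : ℕ} {σ : E ≃+* E} {Φ : R ≃+* R}

lemma pow_succ_app (Φ : R ≃+* R) (i : ℕ) (x : R) : (Φ ^ (i + 1)) x = Φ ((Φ ^ i) x) := by
  rw [pow_succ']; rfl

lemma pow_succ_app' (Φ : R ≃+* R) (i : ℕ) (x : R) : (Φ ^ (i + 1)) x = (Φ ^ i) (Φ x) := by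
  rw [pow_succ]; rfl

lemma pow_add_app (Φ : R ≃+* R) (i j : ℕ) (x : R) : (Φ ^ (i + j)) x = (Φ ^ i) ((Φ ^ j) x) := by
  rw [pow_add]; rfl

lemma pow_app_fixed {x : R} (hx : Φ x = x) (i : ℕ) : (Φ ^ i) x = x := by
  induction i with
  | zero => rfl
  | succ i ih => rw [pow_succ_app, ih, hx]

lemma IsFrob.semi (h : IsFrob Q n σ) : IsSemi Q n σ σ :=
  { h with semi_alg := fun _ => rfl, ord := h.pow_n }

lemma IsSemi.pow_alg (h : IsSemi Q n σ Φ) (i : ℕ) (c : E) :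
    (Φ ^ i) (algebraMap E R c) = algebraMap E R ((σ ^ i) c) := by
  induction i with
  | zero => rfl
  | succ i ih => rw [pow_succ_app, pow_succ_app, ih, h.semi_alg]

lemma nrm_mul (x y : R) : nrm Φ n (x * y) = nrm Φ n x * nrm Φ n y := by
  simp [nrm, Finset.prod_mul_distrib]

lemma nrm_ne_zero [IsDomain R] {x : R} (hx : x ≠ 0) : nrm Φ n x ≠ 0 :=
  Finset.prod_ne_zero_iff.2 (fun i _ => (map_ne_zero_iff _ (Φ ^ i).injective).2 hx)

lemma IsSemi.nrm_alg (h : IsSemi Q n σ Φ) (c : E) :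
    nrm Φ n (algebraMap E R c) = algebraMap E R (nrm σ n c) := by
  simp [nrm, h.pow_alg]

lemma prod_shift {M : Type} [CommMonoid M] (f : ℕ → M) (n : ℕ) (h : f n = f 0) :
    ∏ i ∈ Finset.range n, f (i + 1) = ∏ i ∈ Finset.range n, f i := by
  cases n with
  | zero => simp
  | succ n => rw [Finset.prod_range_succ, h, Finset.prod_range_succ']

lemma sum_shift {M : Type} [AddCommMonoid M] (f : ℕ → M) (n : ℕ) (h : f n = f 0) :
    ∑ i ∈ Finset.range n, f (i + 1) = ∑ i ∈ Finset.range n, f i := by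
  cases n with
  | zero => simp
  | succ n => rw [Finset.sum_range_succ, h, Finset.sum_range_succ']

lemma nrm_fixed (hn : Φ ^ n = 1) (x : R) : Φ (nrm Φ n x) = nrm Φ n x := by
  unfold nrm
  rw [map_prod, ← prod_shift (fun i => (Φ ^ i) x) n (by rw [hn]; rfl)]
  simp only [pow_succ_app]

lemma nrm_app (hn : Φ ^ n = 1) (x : R) : nrm Φ n (Φ x) = nrm Φ n x := by
  unfold nrm
  rw [← prod_shift (fun i => (Φ ^ i) x) n (by rw [hn]; rfl)]
  simp only [pow_succ_app']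

lemma nrm_of_fixed {x : R} (hx : Φ x = x) : nrm Φ n x = x ^ n := by
  simp [nrm, pow_app_fixed hx]

/-- Hilbert 90. -/
lemma IsSemi.h90 [IsDomain R] (h : IsSemi Q n σ Φ) {x1 x2 : R} (hx2 : x2 ≠ 0)
    (hN : nrm Φ n x1 = nrm Φ n x2) : ∃ y, y ≠ 0 ∧ x1 * Φ y = x2 * y := by
  let c : ℕ → R := fun i =>
    (∏ j ∈ Finset.range i, (Φ ^ j) x1) * ∏ j ∈ Finset.Ico i n, (Φ ^ j) x2
  have hc0 : c 0 = nrm Φ n x2 := by simp [c, nrm]
  have hcn : c n = nrm Φ n x1 := by simp [c, nrm]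
  have hstep : ∀ i, i < n → x1 * Φ (c i) = x2 * c (i + 1) := by
    intro i hi
    simp only [c, map_mul, map_prod, ← pow_succ_app]
    have h1 : ∏ j ∈ Finset.Ico i n, (Φ ^ (j + 1)) x2 =
        (∏ j ∈ Finset.Ico (i + 1) n, (Φ ^ j) x2) * x2 := by
      rw [Finset.prod_Ico_add' (fun j => (Φ ^ j) x2) i n 1,
        Finset.prod_Ico_succ_top (by omega), h.ord]
      rfl
    rw [h1, Finset.prod_range_succ' (fun j => (Φ ^ j) x1)]
    simp only [pow_zero, RingAut.one_apply]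
    ring
  by_contra hcon
  push Not at hcon
  have h2 : ∀ θ : E, ∑ i ∈ Finset.range n, c i * algebraMap E R ((σ ^ i) θ) = 0 := by
    intro θ
    by_contra h3
    apply hcon _ h3
    rw [map_sum, Finset.mul_sum, Finset.mul_sum,
      ← sum_shift (fun i => x2 * (c i * algebraMap E R ((σ ^ i) θ))) n
        (by rw [hc0, hcn, hN, h.pow_n]; rfl)]
    apply Finset.sum_congr rfl
    intro i hi
    rw [map_mul, ← mul_assoc, hstep i (Finset.mem_range.1 hi), h.semi_alg, ← pow_succ_app, mul_assoc]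
  have h4 := h.dedekind c h2 0 h.pos
  rw [hc0] at h4
  exact nrm_ne_zero hx2 h4

variable {v : Valuation R ZZ}

lemma v_pow_app (hΦ : ∀ x, v (Φ x) = v x) (i : ℕ) (x : R) : v ((Φ ^ i) x) = v x := by
  induction i with
  | zero => rfl
  | succ i ih => rw [pow_succ_app, hΦ, ih]

/-- An invariant element of each degree. -/
lemma IsSemi.exists_inv (h : IsSemi Q n σ Φ) (hv : IsDeg E v) (hΦ : ∀ x, v (Φ x) = v x)
    (I : Ideal R) (hI : ∀ x ∈ I, Φ x ∈ I) {x : R} (hx : x ∈ I) (hx0 : x ≠ 0) :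
    ∃ y ∈ I, Φ y = y ∧ v y = v x := by
  have hI' : ∀ i, ∀ x ∈ I, (Φ ^ i) x ∈ I := by
    intro i
    induction i with
    | zero => intro x hx; exact hx
    | succ i ih => intro x hx; rw [pow_succ_app]; exact hI _ (ih x hx)
  choose c hc using fun i : ℕ => hv.res ((Φ ^ i) x) x hx0 (v_pow_app hΦ i x)
  have hc0 : c 0 ≠ 0 := by
    intro h0
    have := hc 0
    simp [h0] at this
  obtain ⟨θ, hθ⟩ : ∃ θ : E, ∑ i ∈ Finset.range n, c i * algebraMap E E ((σ ^ i) θ) ≠ 0 := by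
    by_contra hcon
    push Not at hcon
    exact hc0 (h.dedekind c hcon 0 h.pos)
  refine ⟨∑ i ∈ Finset.range n, (Φ ^ i) (algebraMap E R θ * x),
    I.sum_mem (fun i _ => hI' i _ (I.mul_mem_left _ hx)), ?_, ?_⟩
  · rw [map_sum, ← sum_shift (fun i => (Φ ^ i) (algebraMap E R θ * x)) n (by rw [h.ord]; rfl)]
    simp only [pow_succ_app]
  · rw [← hv.alg_mul hθ x]
    apply v.map_eq_of_sub_lt
    rw [hv.alg_mul hθ x, map_sum, Finset.sum_mul, ← Finset.sum_sub_distrib]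
    apply v.map_sum_lt (hv.ne x hx0)
    intro i _
    have h1 : (Φ ^ i) (algebraMap E R θ * x) -
        algebraMap E R (c i * algebraMap E E ((σ ^ i) θ)) * x =
        algebraMap E R ((σ ^ i) θ) * ((Φ ^ i) x - algebraMap E R (c i) * x) := by
      rw [map_mul, h.pow_alg, map_mul]
      simp only [Algebra.algebraMap_self, RingHom.id_apply]
      ring
    rw [h1]
    exact (hv.alg_mul_le _ _).trans_lt (hc i)

/-- The invariant elements of an ideal. -/
def invs (Φ : R ≃+* R) (I : Ideal R) : AddSubgroup R where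
  carrier := {x | x ∈ I ∧ Φ x = x}
  add_mem' := fun {a b} ha hb => ⟨I.add_mem ha.1 hb.1, by rw [map_add, ha.2, hb.2]⟩
  zero_mem' := ⟨I.zero_mem, map_zero _⟩
  neg_mem' := fun {a} ha => ⟨I.neg_mem ha.1, by rw [map_neg, ha.2]⟩

lemma IsSemi.degs_invs (h : IsSemi Q n σ Φ) (hv : IsDeg E v) (hΦ : ∀ x, v (Φ x) = v x)
    (I : Ideal R) (hI : ∀ x ∈ I, Φ x ∈ I) : degs v (invs Φ I) = degs v I.toAddSubgroup := by
  ext d
  constructor
  · rintro ⟨x, hx, hd⟩; exact ⟨x, hx.1, hd⟩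
  · rintro ⟨x, hx, hd⟩
    obtain ⟨y, hy, hy1, hy2⟩ := h.exists_inv hv hΦ I hI hx (ne_zero_of_v_eq hd)
    exact ⟨y, ⟨hy, hy1⟩, hy2.trans hd⟩

lemma IsSemi.card_below_invs (h : IsSemi Q n σ Φ) (hv : IsCurveDeg E v)
    (hΦ : ∀ x, v (Φ x) = v x) (I : Ideal R) (hI : ∀ x ∈ I, Φ x ∈ I) (d : ℕ) :
    Nat.card (below v (invs Φ I) d) =
      Nat.card {c : E // σ c = c} ^ cnt (degs v I.toAddSubgroup) d := by
  rw [← h.degs_invs hv.toIsDeg hΦ I hI]
  refine card_below hv.toIsDeg (invs Φ I) {c : E | σ c = c} ?_ ?_ (by simp)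
    (fun x _ hx => hv.ge x hx) d
  · rintro c hc x ⟨hx, hx2⟩
    exact ⟨I.mul_mem_left _ hx, by rw [map_mul, h.semi_alg, hx2, hc]⟩
  · rintro x ⟨-, hx⟩ y ⟨-, hy⟩ c - hc
    have h1 := hc
    rw [← hΦ, map_sub, map_mul, h.semi_alg, hx, hy] at h1
    exact hv.res_unique h1 hc

end

/-- Herbrand count on a finite commutative group. -/
lemma herbrand {G : Type} [CommGroup G] [Finite G] (D N : G →* G) (h1 : ∀ x, N (D x) = 1)
    (h2 : ∀ x, D (N x) = 1) (h3 : ∀ x, D x = 1 → x ∈ N.range) (x : G) (hx : N x = 1) :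
    x ∈ D.range := by
  have e1 : D.ker = N.range := by
    ext y
    exact ⟨fun hy => h3 y hy, by rintro ⟨z, rfl⟩; exact h2 z⟩
  have e2 : D.range ≤ N.ker := by rintro _ ⟨z, rfl⟩; exact h1 z
  have c1 := D.ker.card_mul_index
  have c2 := N.ker.card_mul_index
  rw [Subgroup.index_ker] at c1 c2
  rw [e1, ← c2, mul_comm] at c1
  have c3 := Nat.eq_of_mul_eq_mul_right Nat.card_pos c1
  rw [Subgroup.eq_of_le_of_card_ge e2 c3.ge]
  exact hx

lemma exists_char {G : Type} [CommGroup G] [Finite G] (H : Subgroup G) (x : G) (hx : x ∉ H) :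
    ∃ χ : G →* ℂ, (∀ y ∈ H, χ y = 1) ∧ χ x ≠ 1 := by
  have h1 : (QuotientGroup.mk x : G ⧸ H) ≠ 1 := by
    rwa [Ne, QuotientGroup.eq_one_iff]
  have : NeZero ((Monoid.exponent (G ⧸ H) : ℕ) : ℂ) :=
    ⟨by exact_mod_cast Monoid.exponent_ne_zero_of_finite⟩
  obtain ⟨φ, hφ⟩ := CommGroup.exists_apply_ne_one_of_hasEnoughRootsOfUnity (G ⧸ H) ℂ h1
  refine ⟨(Units.coeHom ℂ).comp (φ.comp (QuotientGroup.mk' H)), fun y hy => ?_, ?_⟩
  · have : (QuotientGroup.mk y : G ⧸ H) = 1 := (QuotientGroup.eq_one_iff y).2 hy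
    simp [this]
  · simpa using hφ

end Pool.Agent.Lib.MP_145fc7_co
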