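import Pool.Agent.Lib.MP_145fc7_co.CabVal
import Pool.Agent.Lib.MP_145fc7_co.Descent

/-! The function field of a plane curve with one rational place at infinity. -/

set_option autoImplicit false

namespace Pool.Agent.Lib.MP_145fc7_co

open Polynomial WithZero

variable {E : Type} [Field E]

/-- The action of `σ` on coefficients. -/
noncomputable def mapc (σ : E ≃+* E) : E[X][X] ≃+* E[X][X] := mapEquiv (mapEquiv σ)

lemma cf_mapc (σ : E ≃+* E) (g : E[X][X]) (a b : ℕ) : cf (mapc σ g) a b = σ (cf g a b) := by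
  simp [cf, mapc, mapEquiv]

lemma ext_cf {g h : E[X][X]} (H : ∀ a b, cf g a b = cf h a b) : g = h := by
  ext b a
  exact H a b

lemma mapc_mono (σ : E ≃+* E) (a b : ℕ) (c : E) : mapc σ (mono a b c) = mono a b (σ c) := by
  apply ext_cf
  intro a' b'
  rw [cf_mapc, cf_mono, cf_mono]
  split_ifs <;> simp

lemma exists_monic {ρ N : ℕ} (hρ : 0 < ρ) (hN : 0 < N) (F : E[X][X])
    (hsupp : ∀ a b, cf F a b ≠ 0 → ρ * a + N * b ≤ ρ * N) (h1 : cf F 0 ρ ≠ 0) :
    ∃ F1 : E[X][X], F1.Monic ∧ F1.natDegree = ρ ∧ F ∣ F1 ∧ F1 ∣ F := by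
  have h2 : F.coeff ρ = C (cf F 0 ρ) := by
    ext a
    rw [coeff_C]
    split_ifs with h
    · rw [h]; rfl
    · by_contra h3
      have h4 := hsupp a ρ h3
      have h5 : 0 < ρ * a := Nat.mul_pos hρ (Nat.pos_of_ne_zero h)
      rw [mul_comm N ρ] at h4
      omega
  have h3 : F.natDegree = ρ := by
    apply natDegree_eq_of_le_of_coeff_ne_zero
    · rw [natDegree_le_iff_coeff_eq_zero]
      intro b hb
      ext a
      by_contra h4
      have h5 := hsupp a b h4
      have h6 : N * ρ < N * b := Nat.mul_lt_mul_of_pos_left hb hN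
      rw [mul_comm N ρ] at h6
      omega
    · rw [h2]; exact C_ne_zero.2 h1
  have h4 : C (cf F 0 ρ)⁻¹ * F.leadingCoeff = 1 := by
    rw [leadingCoeff, h3, h2, ← map_mul, inv_mul_cancel₀ h1, map_one]
  refine ⟨C (C (cf F 0 ρ)⁻¹) * F, monic_C_mul_of_mul_leadingCoeff_eq_one h4, ?_,
    dvd_mul_left _ _, ⟨C (C (cf F 0 ρ)), ?_⟩⟩
  · rw [natDegree_C_mul (C_ne_zero.2 (inv_ne_zero h1)), h3]
  · rw [mul_comm, ← mul_assoc, ← map_mul, ← map_mul, mul_inv_cancel₀ h1]
    simp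

/-- Reduction modulo the curve equation. -/
lemma exists_reduced {ρ N : ℕ} (hρ : 0 < ρ) (hN : 0 < N) (F : E[X][X])
    (hsupp : ∀ a b, cf F a b ≠ 0 → ρ * a + N * b ≤ ρ * N) (h1 : cf F 0 ρ ≠ 0) (g : E[X][X]) :
    ∃ r : E[X][X], r.natDegree < ρ ∧ F ∣ g - r := by
  obtain ⟨F1, hm, hd, h2, -⟩ := exists_monic hρ hN F hsupp h1
  refine ⟨g %ₘ F1, ?_, h2.trans ⟨g /ₘ F1, ?_⟩⟩
  · rw [← hd]
    apply natDegree_modByMonic_lt g hm
    rintro rfl
    simp at hd
    omega
  · have := modByMonic_add_div g F1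
    linear_combination -this

lemma exists_omega {ρ N : ℕ} (hρ : 0 < ρ) (hN : 0 < N) (F : E[X][X])
    (hsupp : ∀ a b, cf F a b ≠ 0 → ρ * a + N * b ≤ ρ * N) (h1 : cf F 0 ρ ≠ 0) :
    ∃ (Ω Γ : Type) (_ : Field Ω) (_ : Algebra E Ω) (_ : LinearOrderedCommGroupWithZero Γ)
      (w : Valuation Ω Γ) (π : E[X][X] →ₐ[E] Ω),
      (∀ c : E, c ≠ 0 → w (algebraMap E Ω c) = 1) ∧ 1 < w (π (C X)) ∧ π F = 0 := by
  let Ω := AlgebraicClosure (FractionRing E[X])
  have hinj : Function.Injective (algebraMap E[X] Ω) := by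
    rw [IsScalarTower.algebraMap_eq E[X] (FractionRing E[X]) Ω]
    exact (algebraMap (FractionRing E[X]) Ω).injective.comp (IsFractionRing.injective _ _)
  obtain ⟨F1, hm, hd, -, h2⟩ := exists_monic hρ hN F hsupp h1
  obtain ⟨s, hs⟩ := IsAlgClosed.exists_eval₂_eq_zero_of_injective (algebraMap E[X] Ω) hinj F1
    (by rw [degree_eq_natDegree hm.ne_zero, hd]; exact_mod_cast hρ.ne')
  have ht : algebraMap E[X] Ω X ∉ (integralClosure E Ω).toSubring := by
    rintro ⟨p, hp, hp2⟩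
    apply hp.ne_zero
    apply hinj
    rw [map_zero, ← hp2, ← aeval_def, aeval_algebraMap_apply, aeval_X_left_apply]
  obtain ⟨V, hV, hV2⟩ := Subring.exists_le_valuationSubring_of_isIntegrallyClosedIn ht
  have hle : ∀ c : E, V.valuation (algebraMap E Ω c) ≤ 1 := fun c =>
    (V.valuation_le_one_iff _).2 (hV (Subalgebra.algebraMap_mem (integralClosure E Ω) c))
  refine ⟨Ω, V.ValueGroup, inferInstance, inferInstance, inferInstance, V.valuation,
    (aeval s : E[X][X] →ₐ[E[X]] Ω).restrictScalars E, ?_, ?_, ?_⟩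
  · intro c hc
    apply le_antisymm (hle c)
    have h3 := hle c⁻¹
    rw [map_inv₀, map_inv₀] at h3
    exact (inv_le_one₀ (by simpa [pos_iff_ne_zero] using hc)).1 h3
  · rw [AlgHom.restrictScalars_apply, aeval_C, ← not_le, V.valuation_le_one_iff]
    exact hV2
  · obtain ⟨q, rfl⟩ := h2
    rw [AlgHom.restrictScalars_apply, map_mul, aeval_def, hs, zero_mul]

lemma exists_quot {Ω : Type} [Field Ω] [Algebra E Ω] (F : E[X][X]) (π0 : E[X][X] →ₐ[E] Ω)
    (hker : ∀ g, π0 g = 0 ↔ F ∣ g) (σ : E ≃+* E) (hFσ : mapc σ F = F) :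
    ∃ (A : Type) (_ : CommRing A) (_ : IsDomain A) (_ : Algebra E A) (mk : E[X][X] →ₐ[E] A)
      (ℓ : A →+* Ω) (ΦA : A ≃+* A), Function.Surjective mk ∧ Function.Injective ℓ ∧
      (∀ g, ℓ (mk g) = π0 g) ∧ ∀ g, ΦA (mk g) = mk (mapc σ g) := by
  have hI : Ideal.span {F} = RingHom.ker π0 := by
    ext g
    rw [Ideal.mem_span_singleton, RingHom.mem_ker, hker]
  have hIp : (Ideal.span {F}).IsPrime := hI ▸ RingHom.ker_isPrime π0
  have hIσ : Ideal.span {F} = (Ideal.span {F}).map (mapc σ : E[X][X] →+* E[X][X]) := by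
    rw [Ideal.map_span, Set.image_singleton]
    exact congrArg (fun x => Ideal.span {x}) hFσ.symm
  refine ⟨E[X][X] ⧸ Ideal.span {F}, inferInstance, Ideal.Quotient.isDomain _, inferInstance,
    Ideal.Quotient.mkₐ E _, Ideal.Quotient.lift _ π0.toRingHom (fun g hg => by
      rw [hI] at hg; exact hg), Ideal.quotientEquiv _ _ (mapc σ) hIσ,
    Ideal.Quotient.mkₐ_surjective E _, ?_, fun g => rfl, fun g => rfl⟩
  rw [injective_iff_map_eq_zero]
  intro x hx
  obtain ⟨g, rfl⟩ := Ideal.Quotient.mk_surjective x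
  rw [Ideal.Quotient.eq_zero_iff_mem, hI]
  exact hx

/-- The function field `K` of the curve `F = 0`, the degree valuation `v` at infinity and the
automorphism `Φ` that acts on constants through `σ`. -/
structure CurveData {K : Type} [Field K] [Algebra E K] (ρ N : ℕ) (F : E[X][X]) (σ : E ≃+* E)
    (π : E[X][X] →ₐ[E] K) (v : Valuation K ZZ) (Φ : K ≃+* K) : Prop where
  ker : ∀ g, π g = 0 ↔ F ∣ g
  frac : ∀ x : K, ∃ g h, π h ≠ 0 ∧ x * π h = π g
  alg : ∀ c : E, c ≠ 0 → v (algebraMap E K c) = 1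
  vt : v (π (C X)) = exp (ρ : ℤ)
  vs : v (π X) = exp (N : ℤ)
  phi : ∀ g, Φ (π g) = π (mapc σ g)
  lead : ∀ g, π g ≠ 0 → ∃ a b : ℕ, ∃ c : E, b < ρ ∧ c ≠ 0 ∧
    v (π g - π (mono a b c)) < exp ((ρ * a + N * b : ℕ) : ℤ) ∧
    v (π g) = exp ((ρ * a + N * b : ℕ) : ℤ)
  integral : ∃ F1 : E[X][X], F1.Monic ∧ π F1 = 0

theorem exists_curve {ρ N : ℕ} (hρ : 0 < ρ) (hN : 0 < N) (hc : Nat.Coprime N ρ) (F : E[X][X])
    (hsupp : ∀ a b, cf F a b ≠ 0 → ρ * a + N * b ≤ ρ * N) (h1 : cf F 0 ρ ≠ 0)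
    (h3 : cf F N 0 ≠ 0) (σ : E ≃+* E) (hσ : ∀ a b, σ (cf F a b) = cf F a b) :
    ∃ (K : Type) (_ : Field K) (_ : Algebra E K) (π : E[X][X] →ₐ[E] K) (v : Valuation K ZZ)
      (Φ : K ≃+* K), CurveData ρ N F σ π v Φ := by
  obtain ⟨Ω, Γ, _, _, _, w, π0, hw, ht, hF⟩ := exists_omega hρ hN F hsupp h1
  have hs := newton_inf w hw π0 hρ hN hc F hsupp h1 h3 hF ht
  have hτ0 : w (π0 (C X)) ≠ 0 := (zero_lt_one.trans ht).ne'
  have hlead : ∀ g, ¬ F ∣ g → ∃ d : ℕ, w (π0 g) ^ ρ = w (π0 (C X)) ^ d := by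
    intro g hg
    obtain ⟨r, hr, q, hq⟩ := exists_reduced hρ hN F hsupp h1 g
    have hr0 : r ≠ 0 := by
      rintro rfl
      exact hg ⟨q, by simpa using hq⟩
    obtain ⟨a, b, c, -, -, -, h4⟩ := lead_term w hw π0 hc ht hs r hr0 hr
    have h5 : π0 g = π0 r := by rw [← sub_eq_zero, ← map_sub, hq, map_mul, hF, zero_mul]
    exact ⟨_, by rw [h5, h4, mono_pow hs]⟩
  have hker : ∀ g, π0 g = 0 ↔ F ∣ g := by
    intro g
    constructor
    · intro h
      by_contra hg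
      obtain ⟨d, hd⟩ := hlead g hg
      rw [h, map_zero, zero_pow hρ.ne'] at hd
      exact pow_ne_zero _ hτ0 hd.symm
    · rintro ⟨q, rfl⟩
      rw [map_mul, hF, zero_mul]
  have hFσ : mapc σ F = F := ext_cf (fun a b => by rw [cf_mapc, hσ])
  obtain ⟨A, _, _, _, mk, ℓ, ΦA, hmk, hℓ, hℓmk, hΦA⟩ := exists_quot F π0 hker σ hFσ
  let K := FractionRing A
  let π : E[X][X] →ₐ[E] K := (IsScalarTower.toAlgHom E A K).comp mk
  have hπ : ∀ g, π g = algebraMap A K (mk g) := fun g => rfl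
  let j : K →+* Ω := IsFractionRing.lift hℓ
  have hj : ∀ g, j (π g) = π0 g := by
    intro g
    rw [hπ, IsFractionRing.lift_algebraMap, hℓmk]
  have hker' : ∀ g, π g = 0 ↔ F ∣ g := by
    intro g
    rw [← hker, ← hj, map_eq_zero_iff _ j.injective]
  have hfrac : ∀ x : K, ∃ g h, π h ≠ 0 ∧ x * π h = π g := by
    intro x
    obtain ⟨a, b, hb, rfl⟩ := IsFractionRing.div_surjective (A := A) x
    obtain ⟨g, rfl⟩ := hmk a
    obtain ⟨h, rfl⟩ := hmk b
    have h4 : π h ≠ 0 := IsFractionRing.to_map_ne_zero_of_mem_nonZeroDivisors hb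
    exact ⟨g, h, h4, div_mul_cancel₀ _ h4⟩
  obtain ⟨v, hv⟩ := exists_ZZ (w.comap j) (w (π0 (C X))) ht ρ (by
    intro x hx
    obtain ⟨g, h, h4, h5⟩ := hfrac x
    have h6 : π g ≠ 0 := h5 ▸ mul_ne_zero hx h4
    obtain ⟨d1, hd1⟩ := hlead g (by rwa [← hker'])
    obtain ⟨d2, hd2⟩ := hlead h (by rwa [← hker'])
    refine ⟨(d1 : ℤ) - d2, ?_⟩
    rw [zpow_sub₀ hτ0, zpow_natCast, zpow_natCast, ← hd1, ← hd2, eq_div_iff
      (by rw [hd2]; exact pow_ne_zero _ hτ0), ← mul_pow, ← hj, ← hj, ← h5]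
    simp)
  have ht0 : π (C X) ≠ 0 := by
    intro h
    apply hτ0
    rw [← hj, h, map_zero, map_zero]
  have hs0 : π X ≠ 0 := by
    intro h
    have h4 : π0 X = 0 := by rw [← hj, h, map_zero]
    rw [h4, map_zero, zero_pow hρ.ne'] at hs
    exact pow_ne_zero _ hτ0 hs.symm
  have hvalg : ∀ c : E, c ≠ 0 → v (algebraMap E K c) = 1 := by
    intro c hc0
    rw [hv _ 0 (by simpa using hc0), exp_zero]
    rw [Valuation.comap_apply, ← π.commutes, hj, π0.commutes, hw c hc0]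
    simp
  have hvt : v (π (C X)) = exp (ρ : ℤ) :=
    hv _ _ ht0 (by rw [Valuation.comap_apply, hj, zpow_natCast])
  have hvs : v (π X) = exp (N : ℤ) :=
    hv _ _ hs0 (by rw [Valuation.comap_apply, hj, zpow_natCast, hs])
  refine ⟨K, inferInstance, inferInstance, π, v, IsFractionRing.ringEquivOfRingEquiv ΦA,
    hker', hfrac, hvalg, hvt, hvs, ?_, ?_, ?_⟩
  · intro g
    rw [hπ, IsFractionRing.ringEquivOfRingEquiv_algebraMap, hΦA, hπ]
  · intro g hg
    obtain ⟨r, hr, hq⟩ := exists_reduced hρ hN F hsupp h1 g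
    have h5 : π g = π r := by rw [← sub_eq_zero, ← map_sub, hker']; exact hq
    have hr0 : r ≠ 0 := by
      rintro rfl
      exact hg (by rw [h5, map_zero])
    obtain ⟨a, b, c, hb, hc0, h6, h7⟩ := lead_term v hvalg π hc
      (by rw [hvt, ← exp_zero, exp_lt_exp]; exact_mod_cast hρ)
      (by rw [hvt, hvs, ← exp_nsmul, ← exp_nsmul]; congr 1; simp [mul_comm]) r hr0 hr
    have h8 : v (π (C X)) ^ a * v (π X) ^ b = exp ((ρ * a + N * b : ℕ) : ℤ) := by
      rw [hvt, hvs, ← exp_nsmul, ← exp_nsmul, ← exp_add]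
      congr 1
      simp [mul_comm]
    rw [h8, ← h5] at h6 h7
    exact ⟨a, b, c, hb, hc0, h6, h7⟩
  · obtain ⟨F1, hm, -, h2, -⟩ := exists_monic hρ hN F hsupp h1
    exact ⟨F1, hm, (hker' _).2 h2⟩

section

variable {K : Type} [Field K] [Algebra E K] {ρ N : ℕ} {F : E[X][X]} {σ : E ≃+* E}
  {π : E[X][X] →ₐ[E] K} {v : Valuation K ZZ} {Φ : K ≃+* K}

lemma CurveData.ge (h : CurveData ρ N F σ π v Φ) (g : E[X][X]) (hg : π g ≠ 0) : 1 ≤ v (π g) := by
  obtain ⟨a, b, c, -, -, -, h1⟩ := h.lead g hg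
  rw [h1, ← exp_zero, exp_le_exp]
  exact Int.natCast_nonneg _

lemma CurveData.v_mono (h : CurveData ρ N F σ π v Φ) (a b : ℕ) {c : E} (hc : c ≠ 0) :
    v (π (mono a b c)) = exp ((ρ * a + N * b : ℕ) : ℤ) := by
  rw [val_mono v h.alg π a b hc, h.vt, h.vs, ← exp_nsmul, ← exp_nsmul, ← exp_add]
  congr 1
  simp [mul_comm]

lemma CurveData.isDeg (h : CurveData ρ N F σ π v Φ) (hc : Nat.Coprime N ρ) : IsDeg E v where
  ne := fun x hx => (v.ne_zero_iff).2 hx
  alg := h.alg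
  res := by
    have key : ∀ g g', π g' ≠ 0 → v (π g) = v (π g') →
        ∃ c : E, v (π g - algebraMap E K c * π g') < v (π g') := by
      intro g g' hg' hv
      have hg : π g ≠ 0 := by
        intro h0
        rw [h0, map_zero] at hv
        exact (v.ne_zero_iff).2 hg' hv.symm
      obtain ⟨a, b, c, hb, hc0, h1, h2⟩ := h.lead g hg
      obtain ⟨a', b', c', hb', hc0', h1', h2'⟩ := h.lead g' hg'
      rw [h2, h2', exp_inj, Nat.cast_inj] at hv
      obtain ⟨rfl, rfl⟩ := weight_inj hc hb hb' hv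
      refine ⟨c / c', ?_⟩
      have h3 : π g - algebraMap E K (c / c') * π g' = (π g - π (mono a b c)) -
          algebraMap E K (c / c') * (π g' - π (mono a b c')) := by
        rw [pi_mono, pi_mono, map_div₀]
        have : algebraMap E K c' ≠ 0 := by simpa using hc0'
        field_simp
        ring
      rw [h3, h2']
      apply v.map_sub_lt h1
      rw [map_mul, h.alg _ (div_ne_zero hc0 hc0'), one_mul]
      exact h1'
    intro x y hy hxy
    obtain ⟨g, d, hd, hx⟩ := h.frac x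
    obtain ⟨g', d', hd', hy'⟩ := h.frac y
    have h1 : π (g * d') = x * (π d * π d') := by rw [map_mul, ← hx]; ring
    have h2 : π (g' * d) = y * (π d * π d') := by rw [map_mul, ← hy']; ring
    have h3 : π d * π d' ≠ 0 := mul_ne_zero hd hd'
    obtain ⟨c, hc⟩ := key (g * d') (g' * d) (by rw [h2]; exact mul_ne_zero hy h3)
      (by rw [h1, h2, map_mul, map_mul v y, hxy])
    refine ⟨c, ?_⟩
    rw [h1, h2, ← mul_assoc (algebraMap E K c), ← sub_mul, map_mul, map_mul v y] at hc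
    exact lt_of_mul_lt_mul_right hc zero_le

lemma CurveData.vinv (h : CurveData ρ N F σ π v Φ) (x : K) : v (Φ x) = v x := by
  have key : ∀ d : ℕ, ∀ g, v (π g) < exp (d : ℤ) → v (Φ (π g)) = v (π g) := by
    intro d
    induction d with
    | zero =>
      intro g hg
      by_cases h0 : π g = 0
      · simp [h0]
      · exact absurd (h.ge g h0) (by simpa using hg)
    | succ d ih =>
      intro g hg
      by_cases h0 : π g = 0
      · simp [h0]
      obtain ⟨a, b, c, -, hc0, h1, h2⟩ := h.lead g h0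
      have h3 := ih (g - mono a b c) (by
        rw [map_sub]
        refine h1.trans_le ?_
        rw [h2, exp_lt_exp] at hg
        rw [exp_le_exp]
        omega)
      rw [map_sub, map_sub, h.phi (mono a b c), mapc_mono] at h3
      have h4 := h.v_mono a b (c := σ c) (by simpa using hc0)
      rw [h2, ← h4]
      apply v.map_eq_of_sub_lt
      rw [h3, h4]
      exact h1
  have key' : ∀ g, v (Φ (π g)) = v (π g) := by
    intro g
    by_cases h0 : π g = 0
    · simp [h0]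
    obtain ⟨a, b, c, -, -, -, h2⟩ := h.lead g h0
    exact key (ρ * a + N * b + 1) g (by rw [h2, exp_lt_exp]; omega)
  obtain ⟨g, d, hd, hx⟩ := h.frac x
  have h1 := key' g
  rw [← hx, map_mul, map_mul, map_mul, key' d] at h1
  exact mul_right_cancel₀ ((v.ne_zero_iff).2 hd) h1

lemma CurveData.phi_t (h : CurveData ρ N F σ π v Φ) : Φ (π (C X)) = π (C X) := by
  rw [h.phi]; simp [mapc, mapEquiv]

lemma CurveData.phi_s (h : CurveData ρ N F σ π v Φ) : Φ (π X) = π X := by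
  rw [h.phi]; simp [mapc, mapEquiv]

lemma CurveData.t_ne (h : CurveData ρ N F σ π v Φ) : π (C X) ≠ 0 := ne_zero_of_v_eq h.vt

lemma CurveData.s_ne (h : CurveData ρ N F σ π v Φ) : π X ≠ 0 := ne_zero_of_v_eq h.vs

lemma CurveData.isSemi (h : CurveData ρ N F σ π v Φ) {Q n : ℕ} (hσ : IsFrob Q n σ) :
    IsSemi Q n σ Φ := by
  have h1 : ∀ c, Φ (algebraMap E K c) = algebraMap E K (σ c) := by
    intro c
    rw [← π.commutes, ← π.commutes, h.phi]
    simp [mapc, mapEquiv]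
  refine { hσ with semi_alg := h1, ord := ?_ }
  have h2 : ∀ i : ℕ, ∀ c, (Φ ^ i) (algebraMap E K c) = algebraMap E K ((σ ^ i) c) := by
    intro i c
    induction i with
    | zero => rfl
    | succ i ih => rw [pow_succ_app, pow_succ_app, ih, h1]
  have h3 : ∀ g, (Φ ^ n) (π g) = π g := by
    intro g
    rw [eq_sum_mono g]
    simp only [map_sum, pi_mono, map_mul, map_pow, h2, hσ.pow_n, pow_app_fixed h.phi_t,
      pow_app_fixed h.phi_s]
    rfl
  ext x
  obtain ⟨g, d, hd, hx⟩ := h.frac x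
  have h4 := h3 g
  rw [← hx, map_mul, h3] at h4
  exact mul_right_cancel₀ hd h4

end

end Pool.Agent.Lib.MP_145fc7_co
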