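import Mathlib

/-! Degree valuations with residue field the constants; counting elements of bounded degree. -/

set_option autoImplicit false

namespace Pool.Agent.Lib.MP_145fc7_co

open WithZero

abbrev ZZ := WithZero (Multiplicative ℤ)

lemma lt_exp_succ_iff {x : ZZ} {d : ℤ} : x < exp (d + 1) ↔ x ≤ exp d := by
  rcases eq_or_ne x 0 with rfl | hx
  · simp
  · rw [← log_lt_iff_lt_exp hx, ← log_le_iff_le_exp hx]; omega

/-- A degree valuation: trivial support, trivial on the constants `E`, residue field `E`. -/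
structure IsDeg (E : Type) {R : Type} [Field E] [CommRing R] [Algebra E R]
    (v : Valuation R ZZ) : Prop where
  ne : ∀ x, x ≠ 0 → v x ≠ 0
  alg : ∀ c : E, c ≠ 0 → v (algebraMap E R c) = 1
  res : ∀ x y, y ≠ 0 → v x = v y → ∃ c : E, v (x - algebraMap E R c * y) < v y

section Count

variable {E R : Type} [Field E] [CommRing R] [Algebra E R] (v : Valuation R ZZ)

/-- The elements of `W` of degree less than `d`. -/
def below (W : AddSubgroup R) (d : ℤ) : AddSubgroup R where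
  carrier := {x | x ∈ W ∧ v x < exp d}
  add_mem' := fun {a b} ha hb => ⟨W.add_mem ha.1 hb.1, v.map_add_lt ha.2 hb.2⟩
  zero_mem' := ⟨W.zero_mem, by simp⟩
  neg_mem' := fun {a} ha => ⟨W.neg_mem ha.1, by rw [v.map_neg]; exact ha.2⟩

lemma mem_below {W : AddSubgroup R} {d : ℤ} {x : R} :
    x ∈ below v W d ↔ x ∈ W ∧ v x < exp d := Iff.rfl

/-- The set of degrees of nonzero elements of `W`. -/
def degs (W : AddSubgroup R) : Set ℕ := {d | ∃ x ∈ W, v x = exp (d : ℤ)}

variable {v}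

lemma IsDeg.alg_le (hv : IsDeg E v) (c : E) : v (algebraMap E R c) ≤ 1 := by
  rcases eq_or_ne c 0 with rfl | hc
  · simp
  · exact (hv.alg c hc).le

lemma IsDeg.alg_mul_le (hv : IsDeg E v) (c : E) (x : R) : v (algebraMap E R c * x) ≤ v x := by
  rw [map_mul]; exact mul_le_of_le_one_left' (hv.alg_le c)

lemma IsDeg.alg_mul (hv : IsDeg E v) {c : E} (hc : c ≠ 0) (x : R) :
    v (algebraMap E R c * x) = v x := by
  rw [map_mul, hv.alg c hc, one_mul]

lemma IsDeg.res_unique (hv : IsDeg E v) {x y : R} {c c' : E}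
    (h : v (x - algebraMap E R c * y) < v y) (h' : v (x - algebraMap E R c' * y) < v y) :
    c = c' := by
  by_contra hne
  have h1 := v.map_sub_lt h h'
  have h2 : x - algebraMap E R c * y - (x - algebraMap E R c' * y) =
      algebraMap E R (c' - c) * y := by rw [map_sub]; ring
  rw [h2, hv.alg_mul (sub_ne_zero.2 (Ne.symm hne))] at h1
  exact lt_irrefl _ h1

lemma card_below_succ_of_mem (hv : IsDeg E v) (W : AddSubgroup R) (C : Set E)
    (hC : ∀ c ∈ C, ∀ x ∈ W, algebraMap E R c * x ∈ W)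
    (hres : ∀ x ∈ W, ∀ y ∈ W, ∀ c : E, v x = v y → v (x - algebraMap E R c * y) < v y → c ∈ C)
    (h0 : (0 : E) ∈ C) (d : ℤ) (y : R) (hy : y ∈ W) (hyd : v y = exp d) :
    Nat.card (below v W (d + 1)) = Nat.card (below v W d) * Nat.card C := by
  rw [← Nat.card_prod]
  symm
  have hy0 : y ≠ 0 := by rintro rfl; simp at hyd; exact exp_ne_zero hyd.symm
  refine Nat.card_congr (Equiv.ofBijective
    (fun p => (⟨p.1.1 + algebraMap E R p.2.1 * y, ?_⟩ : below v W (d + 1))) ⟨?_, ?_⟩)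
  · refine ⟨W.add_mem p.1.2.1 (hC _ p.2.2 _ hy), v.map_add_lt ?_ ?_⟩
    · exact p.1.2.2.trans (exp_lt_exp.2 (by omega))
    · exact (hv.alg_mul_le _ _).trans_lt (by rw [hyd]; exact exp_lt_exp.2 (by omega))
  · rintro ⟨⟨x, hx⟩, ⟨c, hc⟩⟩ ⟨⟨x', hx'⟩, ⟨c', hc'⟩⟩ h
    simp only [Subtype.mk.injEq] at h
    have h1 : c = c' := by
      apply hv.res_unique (x := x + algebraMap E R c * y) (y := y)
      · simpa [hyd] using hx.2
      · rw [h]; simpa [hyd] using hx'.2
    subst h1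
    have h2 : x = x' := add_right_cancel h
    subst h2
    rfl
  · rintro ⟨x, hx, hx2⟩
    rw [lt_exp_succ_iff] at hx2
    rcases hx2.lt_or_eq with h | h
    · exact ⟨⟨⟨x, hx, h⟩, ⟨0, h0⟩⟩, by simp⟩
    · obtain ⟨c, hc⟩ := hv.res x y hy0 (h.trans hyd.symm)
      have hc' := hres x hx y hy c (h.trans hyd.symm) hc
      refine ⟨⟨⟨x - algebraMap E R c * y, W.sub_mem hx (hC _ hc' _ hy), by rwa [← hyd]⟩,
        ⟨c, hc'⟩⟩, by simp⟩

lemma below_succ_of_not (W : AddSubgroup R) (d : ℤ) (h : ¬ ∃ y ∈ W, v y = exp d) :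
    below v W (d + 1) = below v W d := by
  ext x
  simp only [mem_below, lt_exp_succ_iff]
  constructor
  · rintro ⟨h1, h2⟩
    exact ⟨h1, lt_of_le_of_ne h2 (fun h3 => h ⟨x, h1, h3⟩)⟩
  · rintro ⟨h1, h2⟩
    exact ⟨h1, h2.le⟩

open Classical in
/-- The number of elements of `S` below `d`. -/
noncomputable def cnt (S : Set ℕ) (d : ℕ) : ℕ := ((Finset.range d).filter (· ∈ S)).card

lemma cnt_zero (S : Set ℕ) : cnt S 0 = 0 := by simp [cnt]

lemma cnt_succ_of_mem {S : Set ℕ} {d : ℕ} (h : d ∈ S) : cnt S (d + 1) = cnt S d + 1 := by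
  classical
  unfold cnt
  rw [Finset.range_add_one, Finset.filter_insert, if_pos h, Finset.card_insert_of_notMem (by simp)]

lemma cnt_succ_of_not {S : Set ℕ} {d : ℕ} (h : d ∉ S) : cnt S (d + 1) = cnt S d := by
  classical
  unfold cnt
  rw [Finset.range_add_one, Finset.filter_insert, if_neg h]

lemma cnt_add_ncard {S : Set ℕ} {d : ℕ} (h : ∀ j, d ≤ j → j ∈ S) :
    cnt S d + Sᶜ.ncard = d := by
  classical
  have h1 : Sᶜ = ((Finset.range d).filter (fun j => ¬ j ∈ S) : Finset ℕ) := by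
    ext j
    simp only [Set.mem_compl_iff, Finset.coe_filter, Finset.mem_range, Set.mem_ofPred_eq]
    exact ⟨fun hj => ⟨by by_contra h'; exact hj (h j (by omega)), hj⟩, fun hj => hj.2⟩
  rw [h1, Set.ncard_coe_finset]
  unfold cnt
  rw [Finset.card_filter_add_card_filter_not, Finset.card_range]

lemma card_below (hv : IsDeg E v) (W : AddSubgroup R) (C : Set E)
    (hC : ∀ c ∈ C, ∀ x ∈ W, algebraMap E R c * x ∈ W)
    (hres : ∀ x ∈ W, ∀ y ∈ W, ∀ c : E, v x = v y → v (x - algebraMap E R c * y) < v y → c ∈ C)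
    (h0 : (0 : E) ∈ C) (hge : ∀ x ∈ W, x ≠ 0 → 1 ≤ v x) (d : ℕ) :
    Nat.card (below v W d) = Nat.card C ^ cnt (degs v W) d := by
  induction d with
  | zero =>
    have : below v W ((0 : ℕ) : ℤ) = ⊥ := by
      ext x
      simp only [mem_below, AddSubgroup.mem_bot]
      constructor
      · rintro ⟨h1, h2⟩
        by_contra h3
        exact absurd (hge x h1 h3) (by simpa using h2)
      · rintro rfl; simp
    rw [this, cnt_zero]; simp
  | succ d ih =>
    by_cases h : d ∈ degs v W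
    · obtain ⟨y, hy, hyd⟩ := id h
      rw [cnt_succ_of_mem h, pow_succ, ← ih, Nat.cast_succ]
      exact card_below_succ_of_mem hv W C hC hres h0 d y hy hyd
    · rw [cnt_succ_of_not h, ← ih, Nat.cast_succ, below_succ_of_not W d h]

end Count

/-- A degree valuation with nonnegative degrees, all large degrees being attained. -/
structure IsCurveDeg (E : Type) {R : Type} [Field E] [CommRing R] [Algebra E R]
    (v : Valuation R ZZ) : Prop extends IsDeg E v where
  ge : ∀ x, x ≠ 0 → 1 ≤ v x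
  cof : ∃ c : ℕ, ∀ d, c ≤ d → d ∈ degs v ⊤

section Ideals

variable {E B : Type} [Field E] [CommRing B] [Algebra E B] {v : Valuation B ZZ}

/-- The degree as a natural number. -/
noncomputable def dgn (v : Valuation B ZZ) (x : B) : ℕ := (log (v x)).toNat

lemma IsCurveDeg.v_eq (hv : IsCurveDeg E v) {x : B} (hx : x ≠ 0) : v x = exp (dgn v x : ℤ) := by
  have h1 : 0 ≤ log (v x) := by
    rw [le_log_iff_exp_le (hv.ne x hx)]; exact hv.ge x hx
  rw [dgn, Int.toNat_of_nonneg h1, exp_log (hv.ne x hx)]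

lemma dgn_eq {x : B} {d : ℕ} (h : v x = exp (d : ℤ)) : dgn v x = d := by
  simp [dgn, h]

lemma ne_zero_of_v_eq {x : B} {d : ℤ} (h : v x = exp d) : x ≠ 0 := by
  rintro rfl; simp at h; exact exp_ne_zero h.symm

/-- The number of missing degrees. -/
noncomputable def gap (v : Valuation B ZZ) (I : Ideal B) : ℕ := (degs v I.toAddSubgroup)ᶜ.ncard

/-- The degree of an ideal. -/
noncomputable def idg (v : Valuation B ZZ) (I : Ideal B) : ℕ := gap v I - gap v ⊤

lemma IsCurveDeg.cof_ideal (hv : IsCurveDeg E v) {I : Ideal B} (hI : I ≠ ⊥) :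
    ∃ c : ℕ, ∀ d, c ≤ d → d ∈ degs v I.toAddSubgroup := by
  obtain ⟨c, hc⟩ := hv.cof
  obtain ⟨x, hx, hx0⟩ := I.ne_bot_iff.1 hI
  refine ⟨c + dgn v x, fun d hd => ?_⟩
  obtain ⟨y, -, hy⟩ := hc (d - dgn v x) (by omega)
  refine ⟨y * x, I.mul_mem_left y hx, ?_⟩
  rw [map_mul, hy, hv.v_eq hx0, ← exp_add]
  congr 1
  omega

lemma finite_compl_of_cof {S : Set ℕ} (h : ∃ c : ℕ, ∀ d, c ≤ d → d ∈ S) : Sᶜ.Finite := by
  obtain ⟨c, hc⟩ := h
  exact (Set.finite_lt_nat c).subset (fun j hj => by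
    by_contra h'; exact hj (hc j (by simpa using h')))

lemma IsCurveDeg.gap_top_le (hv : IsCurveDeg E v) {I : Ideal B} (hI : I ≠ ⊥) :
    gap v ⊤ ≤ gap v I := by
  apply Set.ncard_le_ncard _ (finite_compl_of_cof (hv.cof_ideal hI))
  apply Set.compl_subset_compl.2
  rintro d ⟨x, -, hx⟩
  exact ⟨x, trivial, hx⟩

lemma IsCurveDeg.gap_eq (hv : IsCurveDeg E v) {I : Ideal B} (hI : I ≠ ⊥) :
    gap v I = gap v ⊤ + idg v I := by
  have := hv.gap_top_le hI
  unfold idg; omega

lemma IsCurveDeg.nontrivial (hv : IsCurveDeg E v) : Nontrivial B := by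
  obtain ⟨c, hc⟩ := hv.cof
  obtain ⟨x, -, hx⟩ := hc c le_rfl
  exact ⟨⟨x, 0, ne_zero_of_v_eq hx⟩⟩

lemma IsCurveDeg.infinite (hv : IsCurveDeg E v) : Infinite B := by
  obtain ⟨c, hc⟩ := hv.cof
  choose f hf using fun d : ℕ => hc (c + d) (by omega)
  refine Infinite.of_injective f (fun i j h => ?_)
  have h1 := (hf i).2
  rw [h, (hf j).2, exp_inj] at h1
  omega

lemma IsCurveDeg.card_below_ideal (hv : IsCurveDeg E v) (I : Ideal B) (d : ℕ) :
    Nat.card (below v I.toAddSubgroup d) = Nat.card E ^ cnt (degs v I.toAddSubgroup) d := by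
  rw [card_below hv.toIsDeg I.toAddSubgroup Set.univ (fun c _ x hx => I.mul_mem_left _ hx)
    (fun _ _ _ _ _ _ _ => trivial) trivial (fun x _ hx => hv.ge x hx) d]
  simp

lemma IsCurveDeg.exists_reduce (hv : IsCurveDeg E v) (I : Ideal B) (c : ℕ)
    (hc : ∀ d, c ≤ d → d ∈ degs v I.toAddSubgroup) (x : B) :
    ∃ y, v y < exp (c : ℤ) ∧ x - y ∈ I := by
  have key : ∀ m : ℕ, ∀ x : B, v x < exp (m : ℤ) → ∃ y, v y < exp (c : ℤ) ∧ x - y ∈ I := by
    intro m
    induction m with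
    | zero => intro x hx; exact ⟨x, hx.trans_le (exp_le_exp.2 (by omega)), by simp⟩
    | succ m ih =>
      intro x hx
      rw [Nat.cast_succ, lt_exp_succ_iff] at hx
      rcases hx.lt_or_eq with h | h
      · exact ih x h
      · by_cases hm : c ≤ m
        · obtain ⟨y, hy, hy2⟩ := hc m hm
          obtain ⟨a, ha⟩ := hv.res x y (ne_zero_of_v_eq hy2) (h.trans hy2.symm)
          obtain ⟨w, hw, hw2⟩ := ih _ (hy2 ▸ ha)
          refine ⟨w, hw, ?_⟩
          have : x - w = (x - algebraMap E B a * y - w) + algebraMap E B a * y := by ring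
          rw [this]
          exact I.add_mem hw2 (I.mul_mem_left _ hy)
        · exact ⟨x, by rw [h]; simp; omega, by simp⟩
  rcases eq_or_ne x 0 with rfl | hx
  · exact ⟨0, by simp, by simp⟩
  · exact key (dgn v x + 1) x (by rw [hv.v_eq hx]; exact exp_lt_exp.2 (by omega))

lemma IsCurveDeg.card_quot [Finite E] (hv : IsCurveDeg E v) {I : Ideal B} (hI : I ≠ ⊥) :
    Nat.card (B ⧸ I) = Nat.card E ^ idg v I := by
  obtain ⟨c, hc⟩ := hv.cof_ideal hI
  have hc' : ∀ d, c ≤ d → d ∈ degs v (⊤ : Ideal B).toAddSubgroup := by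
    intro d hd
    obtain ⟨x, -, hx⟩ := hc d hd
    exact ⟨x, trivial, hx⟩
  let f : below v (⊤ : Ideal B).toAddSubgroup c →+ B ⧸ I :=
    (Ideal.Quotient.mk I).toAddMonoidHom.comp (AddSubgroup.subtype _)
  have hf : Function.Surjective f := by
    intro q
    obtain ⟨x, rfl⟩ := Ideal.Quotient.mk_surjective q
    obtain ⟨y, hy, hy2⟩ := hv.exists_reduce I c hc x
    exact ⟨⟨y, trivial, hy⟩, (Ideal.Quotient.eq.2 hy2).symm⟩
  have h1 : Nat.card f.ker = Nat.card (below v I.toAddSubgroup c) := by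
    refine Nat.card_congr ⟨fun x => ⟨x.1.1, Ideal.Quotient.eq_zero_iff_mem.1 x.2, x.1.2.2⟩,
      fun x => ⟨⟨x.1, trivial, x.2.2⟩, Ideal.Quotient.eq_zero_iff_mem.2 x.2.1⟩,
      fun x => rfl, fun x => rfl⟩
  have h2 := AddSubgroup.card_eq_card_quotient_mul_card_addSubgroup f.ker
  rw [Nat.card_congr (QuotientAddGroup.quotientKerEquivOfSurjective f hf).toEquiv, h1,
    hv.card_below_ideal, hv.card_below_ideal] at h2
  have h3 := cnt_add_ncard hc
  have h4 := cnt_add_ncard hc'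
  have h5 := hv.gap_eq hI
  unfold gap at h5
  have h6 : cnt (degs v (⊤ : Ideal B).toAddSubgroup) c =
      idg v I + cnt (degs v I.toAddSubgroup) c := by omega
  rw [h6, pow_add] at h2
  have h7 : 0 < Nat.card E ^ cnt (degs v I.toAddSubgroup) c := pow_pos Nat.card_pos _
  exact (Nat.eq_of_mul_eq_mul_right h7 h2).symm

lemma cardQuot_mul' [IsDedekindDomain B] [Infinite B] (I J : Ideal B) :
    Submodule.cardQuot (I * J) = Submodule.cardQuot I * Submodule.cardQuot J :=
  UniqueFactorizationMonoid.multiplicative_of_coprime Submodule.cardQuot I J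
      (Submodule.cardQuot_bot _ _)
      (fun {I J} hI => by simp [Ideal.isUnit_iff.mp hI, Ideal.mul_top])
      (fun {I} i hI =>
        have : Ideal.IsPrime I := Ideal.isPrime_of_prime hI
        cardQuot_pow_of_prime hI.ne_zero)
      fun {I J} hIJ => cardQuot_mul_of_coprime <| Ideal.isCoprime_iff_sup_eq.mpr
        (Ideal.isUnit_iff.mp
          (hIJ (Ideal.dvd_iff_le.mpr le_sup_left) (Ideal.dvd_iff_le.mpr le_sup_right)))

lemma IsCurveDeg.idg_mul [Finite E] [IsDedekindDomain B] (hv : IsCurveDeg E v) {I J : Ideal B}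
    (hI : I ≠ ⊥) (hJ : J ≠ ⊥) : idg v (I * J) = idg v I + idg v J := by
  have := hv.infinite
  have h1 := cardQuot_mul' I J
  have hIJ : I * J ≠ ⊥ := mul_ne_zero hI hJ
  rw [Submodule.cardQuot_apply, Submodule.cardQuot_apply, Submodule.cardQuot_apply,
    hv.card_quot hI, hv.card_quot hJ, hv.card_quot hIJ, ← pow_add] at h1
  exact Nat.pow_right_injective Finite.one_lt_card h1

lemma idg_top : idg v (⊤ : Ideal B) = 0 := by simp [idg]

lemma IsCurveDeg.idg_pow [Finite E] [IsDedekindDomain B] (hv : IsCurveDeg E v) {I : Ideal B}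
    (hI : I ≠ ⊥) (r : ℕ) : idg v (I ^ r) = r * idg v I := by
  induction r with
  | zero => simp [idg_top]
  | succ r ih => rw [pow_succ, hv.idg_mul (pow_ne_zero r hI) hI, ih]; ring

lemma IsCurveDeg.idg_prod [Finite E] [IsDedekindDomain B] (hv : IsCurveDeg E v) {ι : Type}
    (s : Finset ι) (f : ι → Ideal B) (hf : ∀ i ∈ s, f i ≠ ⊥) :
    idg v (∏ i ∈ s, f i) = ∑ i ∈ s, idg v (f i) := by
  classical
  induction s using Finset.induction_on with
  | empty => simp [idg_top]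
  | insert a s ha ih =>
    rw [Finset.prod_insert ha, Finset.sum_insert ha, hv.idg_mul (hf a (by simp))
      (Finset.prod_ne_zero_iff.2 (fun i hi => hf i (by simp [hi]))),
      ih (fun i hi => hf i (by simp [hi]))]

lemma IsCurveDeg.idg_pos [Finite E] (hv : IsCurveDeg E v) {I : Ideal B} (hI : I ≠ ⊥)
    (hI' : I ≠ ⊤) : 0 < idg v I := by
  by_contra h
  have h1 := hv.card_quot hI
  rw [show idg v I = 0 by omega, pow_zero] at h1
  have := (Nat.card_eq_one_iff_unique.1 h1).1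
  exact hI' (Ideal.Quotient.subsingleton_iff.1 this)

lemma IsCurveDeg.idg_span (hv : IsCurveDeg E v) {x : B} (hx : x ≠ 0) :
    idg v (Ideal.span {x}) = dgn v x := by
  have hI : Ideal.span {x} ≠ ⊥ := by simpa using hx
  have hmem : ∀ d, d ∈ degs v (Ideal.span {x}).toAddSubgroup ↔
      ∃ j ∈ degs v (⊤ : Ideal B).toAddSubgroup, d = dgn v x + j := by
    intro d
    constructor
    · rintro ⟨y, hy, hyd⟩
      obtain ⟨a, rfl⟩ := Ideal.mem_span_singleton'.1 hy
      have ha : a ≠ 0 := by rintro rfl; exact ne_zero_of_v_eq hyd (by simp)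
      refine ⟨dgn v a, ⟨a, trivial, hv.v_eq ha⟩, ?_⟩
      rw [map_mul, hv.v_eq ha, hv.v_eq hx, ← exp_add, exp_inj] at hyd
      omega
    · rintro ⟨j, ⟨a, -, ha⟩, rfl⟩
      refine ⟨a * x, Ideal.mem_span_singleton'.2 ⟨a, rfl⟩, ?_⟩
      rw [map_mul, ha, hv.v_eq hx, ← exp_add, dgn_eq (hv.v_eq hx)]
      congr 1; push_cast; ring
  have h0 : ∀ j, j ≤ dgn v x → cnt (degs v (Ideal.span {x}).toAddSubgroup) j = 0 := by
    intro j
    induction j with
    | zero => intro _; exact cnt_zero _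
    | succ j ih =>
      intro hj
      rw [cnt_succ_of_not, ih (by omega)]
      rw [hmem]
      rintro ⟨i, -, hi⟩
      omega
  have h1 : ∀ j, cnt (degs v (Ideal.span {x}).toAddSubgroup) (dgn v x + j) =
      cnt (degs v (⊤ : Ideal B).toAddSubgroup) j := by
    intro j
    induction j with
    | zero => rw [cnt_zero]; exact h0 _ le_rfl
    | succ j ih =>
      by_cases h : j ∈ degs v (⊤ : Ideal B).toAddSubgroup
      · rw [← add_assoc, cnt_succ_of_mem h, cnt_succ_of_mem ((hmem _).2 ⟨j, h, rfl⟩), ih]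
      · rw [← add_assoc, cnt_succ_of_not h, cnt_succ_of_not, ih]
        rw [hmem]
        rintro ⟨i, hi, hi2⟩
        exact h (by rwa [show j = i by omega])
  obtain ⟨c, hc⟩ := hv.cof
  have h2 := cnt_add_ncard (S := degs v (⊤ : Ideal B).toAddSubgroup) (d := c) hc
  have h3 := cnt_add_ncard (S := degs v (Ideal.span {x}).toAddSubgroup) (d := dgn v x + c)
    (fun j hj => (hmem j).2 ⟨j - dgn v x, hc _ (by omega), by omega⟩)
  rw [h1] at h3
  unfold idg gap
  omega

lemma IsCurveDeg.exists_small (hv : IsCurveDeg E v) {I : Ideal B} (hI : I ≠ ⊥) :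
    ∃ y ∈ I, y ≠ 0 ∧ dgn v y ≤ gap v I := by
  by_contra h
  push Not at h
  have h1 : ((Finset.range (gap v I + 1) : Finset ℕ) : Set ℕ) ⊆ (degs v I.toAddSubgroup)ᶜ := by
    rintro j hj ⟨y, hy, hyd⟩
    have := h y hy (ne_zero_of_v_eq hyd)
    rw [dgn_eq hyd] at this
    simp at hj
    omega
  have h2 := Set.ncard_le_ncard h1 (finite_compl_of_cof (hv.cof_ideal hI))
  rw [Set.ncard_coe_finset, Finset.card_range] at h2
  unfold gap at h2
  omega

lemma IsCurveDeg.finite_below [Finite E] (hv : IsCurveDeg E v) (d : ℕ) :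
    {x : B | v x < exp (d : ℤ)}.Finite := by
  have h1 := hv.card_below_ideal ⊤ d
  have h2 : Finite (below v (⊤ : Ideal B).toAddSubgroup d) :=
    Nat.finite_of_card_ne_zero (by rw [h1]; exact pow_ne_zero _ Nat.card_pos.ne')
  have h3 : (below v (⊤ : Ideal B).toAddSubgroup d : Set B).Finite := Set.toFinite _
  exact h3.subset (fun x hx => ⟨trivial, hx⟩)

lemma IsCurveDeg.finite_ideals [Finite E] [IsDedekindDomain B] (hv : IsCurveDeg E v) (m : ℕ) :
    {I : Ideal B | I ≠ ⊥ ∧ idg v I ≤ m}.Finite := by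
  have h1 := hv.finite_below (gap v ⊤ + m + 1)
  have h2 : ∀ y : B, {I : Ideal B | y ≠ 0 ∧ y ∈ I}.Finite := by
    intro y
    rcases eq_or_ne y 0 with rfl | hy
    · simp
    · have : Fintype (Ideal B)ˣ := Fintype.ofFinite _
      have h3 := UniqueFactorizationMonoid.fintypeSubtypeDvd (Ideal.span {y})
        (by simpa using hy)
      have h4 : {I : Ideal B | I ∣ Ideal.span {y}}.Finite :=
        Set.finite_coe_iff.1 (Finite.of_fintype {I : Ideal B // I ∣ Ideal.span {y}})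
      exact h4.subset (fun I hI => Ideal.dvd_span_singleton.2 hI.2)
  refine (h1.biUnion (fun y _ => h2 y)).subset ?_
  rintro I ⟨hI, hm⟩
  obtain ⟨y, hy, hy0, hy2⟩ := hv.exists_small hI
  simp only [Set.mem_iUnion, Set.mem_ofPred_eq]
  refine ⟨y, ?_, hy0, hy⟩
  rw [hv.v_eq hy0, exp_lt_exp]
  have := hv.gap_eq hI
  omega

lemma IsCurveDeg.finite_classGroup [Finite E] [IsDedekindDomain B] (hv : IsCurveDeg E v) :
    Finite (ClassGroup B) := by
  have h1 := hv.finite_ideals (gap v ⊤)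
  have : Finite {I : Ideal B | I ≠ ⊥ ∧ idg v I ≤ gap v ⊤} := h1
  refine Finite.of_surjective (fun I : {I : Ideal B | I ≠ ⊥ ∧ idg v I ≤ gap v ⊤} =>
    ClassGroup.mk0 ⟨I.1, mem_nonZeroDivisors_of_ne_zero I.2.1⟩) ?_
  intro c
  obtain ⟨J, hJ⟩ := ClassGroup.mk0_surjective c⁻¹
  have hJ0 : (J : Ideal B) ≠ ⊥ := nonZeroDivisors.coe_ne_zero J
  obtain ⟨y, hy, hy0, hy2⟩ := hv.exists_small hJ0
  obtain ⟨I, hI⟩ := Ideal.dvd_span_singleton.2 hy
  have hI0 : I ≠ ⊥ := by
    rintro rfl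
    simp at hI
    exact hy0 hI
  have h2 := hv.idg_mul hJ0 hI0
  rw [← hI, hv.idg_span hy0] at h2
  have h3 := hv.gap_eq hJ0
  refine ⟨⟨I, hI0, by omega⟩, ?_⟩
  have h4 : ClassGroup.mk0 (J * ⟨I, mem_nonZeroDivisors_of_ne_zero hI0⟩) = 1 := by
    rw [ClassGroup.mk0_eq_one_iff]
    exact ⟨⟨y, by simpa using hI.symm⟩⟩
  rw [map_mul, hJ] at h4
  exact (inv_mul_eq_one.1 h4).symm

lemma IsCurveDeg.unit_const [IsDomain B] (hv : IsCurveDeg E v) {u : B} (hu : IsUnit u) :
    ∃ c : E, c ≠ 0 ∧ u = algebraMap E B c := by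
  obtain ⟨w, hw⟩ := hu.exists_right_inv
  have hw0 : w ≠ 0 := by rintro rfl; simp at hw
  have h1 : v u * v w = 1 := by rw [← map_mul, hw, map_one]
  rw [hv.v_eq hu.ne_zero, hv.v_eq hw0, ← exp_add, exp_eq_one] at h1
  have h2 : v u = v 1 := by
    rw [hv.v_eq hu.ne_zero, map_one, exp_eq_one]; omega
  obtain ⟨c, hc⟩ := hv.res u 1 one_ne_zero h2
  have h3 : u - algebraMap E B c * 1 = 0 := by
    by_contra h
    exact absurd (hv.ge _ h) (by simpa using hc)
  rw [mul_one, sub_eq_zero] at h3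
  refine ⟨c, ?_, h3⟩
  rintro rfl
  exact hu.ne_zero (by simpa using h3)

end Ideals

end Pool.Agent.Lib.MP_145fc7_co
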