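import Pool.Agent.Lib.MP_145fc7_co.CoreDef
import Pool.Agent.Lib.MP_145fc7_co.Deg

/-! Valuations of values of polynomials in two variables (Newton polygon arguments). -/

set_option autoImplicit false

namespace Pool.Agent.Lib.MP_145fc7_co

open Polynomial WithZero

section Mono

variable {E : Type} [Field E]

/-- The monomial `c t^a s^b`. -/
noncomputable def mono (a b : ℕ) (c : E) : E[X][X] := monomial b (monomial a c)

lemma cf_mono (a b a' b' : ℕ) (c : E) :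
    cf (mono a b c) a' b' = if a = a' ∧ b = b' then c else 0 := by
  unfold cf mono
  rw [coeff_monomial]
  by_cases hb : b = b'
  · simp [hb, coeff_monomial]
  · simp [hb]

lemma cf_sub (g h : E[X][X]) (a b : ℕ) : cf (g - h) a b = cf g a b - cf h a b := by
  simp [cf]

lemma cf_sum {ι : Type} (s : Finset ι) (f : ι → E[X][X]) (a b : ℕ) :
    cf (∑ i ∈ s, f i) a b = ∑ i ∈ s, cf (f i) a b := by
  simp [cf]

lemma cf_C (g : E[X]) (a b : ℕ) : cf (C g) a b = if b = 0 then g.coeff a else 0 := by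
  unfold cf
  rw [coeff_C]
  split_ifs <;> simp

lemma eq_sum_mono (g : E[X][X]) :
    g = ∑ b ∈ g.support, ∑ a ∈ (g.coeff b).support, mono a b (cf g a b) := by
  conv_lhs => rw [g.as_sum_support]
  apply Finset.sum_congr rfl
  intro b _
  conv_lhs => rw [(g.coeff b).as_sum_support]
  rw [map_sum]
  rfl

lemma exists_max_weight (g : E[X][X]) (hg : g ≠ 0) (wt : ℕ → ℕ → ℕ) :
    ∃ a0 b0, cf g a0 b0 ≠ 0 ∧ ∀ a b, cf g a b ≠ 0 → wt a b ≤ wt a0 b0 := by
  have hmem : ∀ a b, cf g a b ≠ 0 →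
      (⟨b, a⟩ : Σ _ : ℕ, ℕ) ∈ g.support.sigma (fun b => (g.coeff b).support) := by
    intro a b h
    rw [Finset.mem_sigma, mem_support_iff, mem_support_iff]
    refine ⟨fun h0 => h ?_, h⟩
    simp only [cf] at *
    rw [h0, coeff_zero]
  have hne : (g.support.sigma (fun b => (g.coeff b).support)).Nonempty := by
    obtain ⟨b, hb⟩ := support_nonempty.2 hg
    obtain ⟨a, ha⟩ := support_nonempty.2 (mem_support_iff.1 hb)
    exact ⟨⟨b, a⟩, Finset.mem_sigma.2 ⟨hb, ha⟩⟩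
  obtain ⟨p, hp, hmax⟩ := Finset.exists_max_image _ (fun p => wt p.2 p.1) hne
  exact ⟨p.2, p.1, mem_support_iff.1 (Finset.mem_sigma.1 hp).2,
    fun a b h => hmax _ (hmem a b h)⟩

variable {L : Type} [CommRing L] [Algebra E L]

lemma pi_C (π : E[X][X] →ₐ[E] L) (g : E[X]) : π (C g) = aeval (π (C X)) g := by
  have : π.comp (CAlgHom (R := E) (A := E[X])) = aeval (π (C X)) := by
    ext; simp
  exact DFunLike.congr_fun this g

lemma pi_mono (π : E[X][X] →ₐ[E] L) (a b : ℕ) (c : E) :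
    π (mono a b c) = algebraMap E L c * π (C X) ^ a * π X ^ b := by
  unfold mono
  rw [← C_mul_X_pow_eq_monomial, map_mul, map_pow, pi_C, aeval_monomial]

end Mono

section Val

variable {E L Γ : Type} [Field E] [Field L] [Algebra E L] [LinearOrderedCommGroupWithZero Γ]
  (w : Valuation L Γ)

lemma val_alg_le (hw : ∀ c : E, c ≠ 0 → w (algebraMap E L c) = 1) (c : E) :
    w (algebraMap E L c) ≤ 1 := by
  rcases eq_or_ne c 0 with rfl | hc
  · simp
  · exact (hw c hc).le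

lemma val_mono (hw : ∀ c : E, c ≠ 0 → w (algebraMap E L c) = 1) (π : E[X][X] →ₐ[E] L)
    (a b : ℕ) {c : E} (hc : c ≠ 0) :
    w (π (mono a b c)) = w (π (C X)) ^ a * w (π X) ^ b := by
  rw [pi_mono, map_mul, map_mul, hw c hc, one_mul, map_pow, map_pow]

lemma val_bound (hw : ∀ c : E, c ≠ 0 → w (algebraMap E L c) = 1) (π : E[X][X] →ₐ[E] L)
    (g : E[X][X]) {γ : Γ} (hγ : γ ≠ 0)
    (h : ∀ a b, cf g a b ≠ 0 → w (π (C X)) ^ a * w (π X) ^ b < γ) : w (π g) < γ := by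
  rw [eq_sum_mono g, map_sum]
  apply w.map_sum_lt hγ
  intro b _
  rw [map_sum]
  apply w.map_sum_lt hγ
  intro a ha
  have h1 : cf g a b ≠ 0 := mem_support_iff.1 ha
  rw [val_mono w hw π a b h1]
  exact h a b h1

lemma val_dom (hw : ∀ c : E, c ≠ 0 → w (algebraMap E L c) = 1) (π : E[X][X] →ₐ[E] L)
    (g : E[X][X]) (a0 b0 : ℕ) (h0 : cf g a0 b0 ≠ 0)
    (hne : w (π (C X)) ^ a0 * w (π X) ^ b0 ≠ 0)
    (h : ∀ a b, cf g a b ≠ 0 → ¬ (a0 = a ∧ b0 = b) →
      w (π (C X)) ^ a * w (π X) ^ b < w (π (C X)) ^ a0 * w (π X) ^ b0) :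
    w (π g - π (mono a0 b0 (cf g a0 b0))) < w (π (C X)) ^ a0 * w (π X) ^ b0 ∧
      w (π g) = w (π (C X)) ^ a0 * w (π X) ^ b0 := by
  have h1 : w (π g - π (mono a0 b0 (cf g a0 b0))) < w (π (C X)) ^ a0 * w (π X) ^ b0 := by
    rw [← map_sub]
    apply val_bound w hw π _ hne
    intro a b hab
    rw [cf_sub, cf_mono] at hab
    by_cases h2 : a0 = a ∧ b0 = b
    · rw [if_pos h2, h2.1, h2.2, sub_self] at hab
      exact absurd rfl hab
    · rw [if_neg h2, sub_zero] at hab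
      exact h a b hab h2
  refine ⟨h1, ?_⟩
  rw [← val_mono w hw π a0 b0 h0] at h1 ⊢
  exact w.map_eq_of_sub_lt h1

lemma root_close (hw : ∀ c : E, c ≠ 0 → w (algebraMap E L c) = 1) {g : E[X]} (hg : g.Splits)
    (hg0 : g ≠ 0) (x : L) (hx : w (aeval x g) < 1) :
    ∃ r : E, g.IsRoot r ∧ w (x - algebraMap E L r) < 1 := by
  by_contra hcon
  push Not at hcon
  rw [hg.eq_prod_roots, map_mul, map_mul, aeval_C, hw _ (leadingCoeff_ne_zero.2 hg0), one_mul,
    map_multiset_prod, map_multiset_prod, Multiset.map_map, Multiset.map_map] at hx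
  refine absurd hx (not_lt.2 (Multiset.one_le_prod_of_one_le ?_))
  intro y hy
  obtain ⟨r, hr, rfl⟩ := Multiset.mem_map.1 hy
  simpa using hcon r ((mem_roots hg0).1 hr)

lemma hyp_eq {ρ N a b : ℕ} (hρ : 0 < ρ) (hN : 0 < N) (hc : Nat.Coprime N ρ)
    (h : ρ * a + N * b = ρ * N) : (a = 0 ∧ b = ρ) ∨ (a = N ∧ b = 0) := by
  have h1 : ρ ∣ N * b := (Nat.dvd_add_right (dvd_mul_right ρ a)).1 (h ▸ dvd_mul_right ρ N)
  obtain ⟨m, rfl⟩ := hc.symm.dvd_of_dvd_mul_left h1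
  have h2 : a + N * m = N := by
    apply Nat.eq_of_mul_eq_mul_left hρ
    rw [← h]; ring
  rcases Nat.eq_zero_or_pos m with rfl | hm
  · right; omega
  · left
    have : N ≤ N * m := Nat.le_mul_of_pos_right _ hm
    have h3 : N * m = N * 1 := by omega
    have := Nat.eq_of_mul_eq_mul_left hN h3
    subst this
    omega

lemma weight_inj {ρ N a b a' b' : ℕ} (hc : Nat.Coprime N ρ) (hb : b < ρ) (hb' : b' < ρ)
    (h : ρ * a + N * b = ρ * a' + N * b') : a = a' ∧ b = b' := by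
  have h1 : N * b ≡ N * b' [MOD ρ] := by
    have h2 : ρ * a + N * b ≡ ρ * a' + N * b' [MOD ρ] := by rw [h]
    simpa [Nat.ModEq, Nat.mul_add_mod] using h2
  have h3 : b = b' := Nat.ModEq.eq_of_lt_of_lt (Nat.ModEq.cancel_left_of_coprime hc.symm h1) hb hb'
  subst h3
  exact ⟨Nat.eq_of_mul_eq_mul_left (by omega) (Nat.add_right_cancel h), rfl⟩

lemma newton_inf (hw : ∀ c : E, c ≠ 0 → w (algebraMap E L c) = 1) (π : E[X][X] →ₐ[E] L)
    {ρ N : ℕ} (hρ : 0 < ρ) (hN : 0 < N) (hc : Nat.Coprime N ρ) (F : E[X][X])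
    (hsupp : ∀ a b, cf F a b ≠ 0 → ρ * a + N * b ≤ ρ * N) (h1 : cf F 0 ρ ≠ 0)
    (h3 : cf F N 0 ≠ 0) (hF : π F = 0) (ht : 1 < w (π (C X))) :
    w (π X) ^ ρ = w (π (C X)) ^ N := by
  set τ := w (π (C X)) with hτ
  set ς := w (π X) with hς
  have hτN : 1 < τ ^ N := one_lt_pow₀ ht hN.ne'
  have key : ∀ m : Γ, ς ^ ρ ≤ m → τ ^ N ≤ m → ∀ a b, ρ * a + N * b < ρ * N →
      τ ^ a * ς ^ b < m := by
    intro m hm1 hm2 a b hab
    have hm : 1 < m := hτN.trans_le hm2
    apply lt_of_pow_lt_pow_left₀ (ρ * N) zero_le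
    calc (τ ^ a * ς ^ b) ^ (ρ * N) = (τ ^ N) ^ (ρ * a) * (ς ^ ρ) ^ (N * b) := by
          rw [mul_pow, ← pow_mul, ← pow_mul, ← pow_mul, ← pow_mul]
          congr 2 <;> ring
      _ ≤ m ^ (ρ * a) * m ^ (N * b) :=
          mul_le_mul' (pow_le_pow_left₀ zero_le hm2 _) (pow_le_pow_left₀ zero_le hm1 _)
      _ < m ^ (ρ * N) := by rw [← pow_add]; exact pow_lt_pow_right₀ hm hab
  by_contra hne
  rcases lt_or_gt_of_ne hne with h | h
  · have h4 := (val_dom w hw π F N 0 h3 (by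
      rw [pow_zero, mul_one]; exact (zero_lt_one.trans hτN).ne') (by
      intro a b hab hn
      rw [pow_zero, mul_one]
      rcases (hsupp a b hab).lt_or_eq with h5 | h5
      · exact key _ h.le le_rfl a b h5
      · rcases hyp_eq hρ hN hc h5 with ⟨rfl, rfl⟩ | ⟨rfl, rfl⟩
        · simpa using h
        · exact absurd ⟨rfl, rfl⟩ hn)).2
    rw [hF, map_zero, pow_zero, mul_one] at h4
    exact (zero_lt_one.trans hτN).ne h4
  · have h4 := (val_dom w hw π F 0 ρ h1 (by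
      rw [pow_zero, one_mul]; exact ((zero_lt_one.trans hτN).trans h).ne') (by
      intro a b hab hn
      rw [pow_zero, one_mul]
      rcases (hsupp a b hab).lt_or_eq with h5 | h5
      · exact key _ le_rfl h.le a b h5
      · rcases hyp_eq hρ hN hc h5 with ⟨rfl, rfl⟩ | ⟨rfl, rfl⟩
        · exact absurd ⟨rfl, rfl⟩ hn
        · simpa using h)).2
    rw [hF, map_zero, pow_zero, one_mul] at h4
    exact ((zero_lt_one.trans hτN).trans h).ne h4

lemma mono_pow {τ ς : Γ} {ρ N : ℕ} (h : ς ^ ρ = τ ^ N) (a b : ℕ) :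
    (τ ^ a * ς ^ b) ^ ρ = τ ^ (ρ * a + N * b) := by
  rw [mul_pow, ← pow_mul, ← pow_mul, mul_comm b ρ, pow_mul ς, h, ← pow_mul, ← pow_add]
  congr 1; ring

lemma lead_term (hw : ∀ c : E, c ≠ 0 → w (algebraMap E L c) = 1) (π : E[X][X] →ₐ[E] L)
    {ρ N : ℕ} (hc : Nat.Coprime N ρ) (ht : 1 < w (π (C X)))
    (hs : w (π X) ^ ρ = w (π (C X)) ^ N) (g : E[X][X]) (hg : g ≠ 0) (hd : g.natDegree < ρ) :
    ∃ a b, ∃ c : E, b < ρ ∧ c ≠ 0 ∧ w (π g - π (mono a b c)) < w (π (C X)) ^ a * w (π X) ^ b ∧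
      w (π g) = w (π (C X)) ^ a * w (π X) ^ b := by
  obtain ⟨a0, b0, h0, hmax⟩ := exists_max_weight g hg (fun a b => ρ * a + N * b)
  have hb : ∀ a b, cf g a b ≠ 0 → b < ρ := by
    intro a b h
    refine lt_of_le_of_lt (le_natDegree_of_ne_zero (fun h1 => h ?_)) hd
    simp [cf, h1]
  have hτ : w (π (C X)) ≠ 0 := (zero_lt_one.trans ht).ne'
  refine ⟨a0, b0, cf g a0 b0, hb _ _ h0, h0, val_dom w hw π g a0 b0 h0 ?_ ?_⟩
  · intro h1
    have h2 := mono_pow hs a0 b0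
    rw [h1, zero_pow (by omega)] at h2
    exact pow_ne_zero _ hτ h2.symm
  · intro a b hab hn
    apply lt_of_pow_lt_pow_left₀ ρ zero_le
    rw [mono_pow hs, mono_pow hs]
    apply pow_lt_pow_right₀ ht
    refine lt_of_le_of_ne (hmax a b hab) (fun h1 => hn ?_)
    have := weight_inj hc (hb _ _ hab) (hb _ _ h0) h1
    exact ⟨this.1.symm, this.2.symm⟩

lemma exists_ZZ (τ : Γ) (hτ : 1 < τ) (ρ : ℕ)
    (h : ∀ x, x ≠ 0 → ∃ d : ℤ, w x ^ ρ = τ ^ d) :
    ∃ v : Valuation L ZZ, ∀ x (d : ℤ), x ≠ 0 → w x ^ ρ = τ ^ d → v x = exp d := by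
  classical
  choose! dd hdd using h
  have huniq : ∀ x (d : ℤ), x ≠ 0 → w x ^ ρ = τ ^ d → dd x = d := by
    intro x d hx hd
    rw [hdd x hx] at hd
    exact zpow_right_injective₀ (zero_lt_one.trans hτ) hτ.ne' hd
  have hle : ∀ x y, x ≠ 0 → y ≠ 0 → w x ≤ w y → dd x ≤ dd y := by
    intro x y hx hy hxy
    rw [← zpow_le_zpow_iff_right₀ hτ, ← hdd x hx, ← hdd y hy]
    exact pow_le_pow_left₀ zero_le hxy _
  have hmono : ∀ x y, w x ≤ w y →
      (if x = 0 then (0 : ZZ) else exp (dd x)) ≤ if y = 0 then 0 else exp (dd y) := by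
    intro x y hxy
    by_cases hx : x = 0
    · simp [hx]
    · have hy : y ≠ 0 := by
        rintro rfl
        exact hx (by simpa using hxy)
      rw [if_neg hx, if_neg hy, exp_le_exp]
      exact hle x y hx hy hxy
  refine ⟨{ toFun := fun x => if x = 0 then 0 else exp (dd x)
            map_zero' := by simp
            map_one' := by
              rw [if_neg one_ne_zero, huniq 1 0 one_ne_zero (by simp), exp_zero]
            map_mul' := ?_
            map_add_le_max' := ?_ }, ?_⟩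
  · intro x y
    by_cases hx : x = 0
    · simp [hx]
    by_cases hy : y = 0
    · simp [hy]
    rw [if_neg hx, if_neg hy, if_neg (mul_ne_zero hx hy), ← exp_add,
      huniq (x * y) (dd x + dd y) (mul_ne_zero hx hy)]
    rw [map_mul, mul_pow, hdd x hx, hdd y hy, zpow_add₀ (zero_lt_one.trans hτ).ne']
  · intro x y
    rcases w.map_add' x y with h1 | h1
    · exact (hmono _ _ h1).trans (le_max_left _ _)
    · exact (hmono _ _ h1).trans (le_max_right _ _)
  · intro x d hx hd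
    change (if x = 0 then (0 : ZZ) else exp (dd x)) = exp d
    rw [if_neg hx, huniq x d hx hd]

end Val

end Pool.Agent.Lib.MP_145fc7_co
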