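import Pool.Agent.Lib.MP_145fc7_co.Descent

/-! Action of the automorphism on ideals and ideal classes; counting invariant ideals. -/

set_option autoImplicit false

namespace Pool.Agent.Lib.MP_145fc7_co

open WithZero
open scoped Pointwise

section Cl

variable {B : Type} [CommRing B] [IsDedekindDomain B]

open Classical in
/-- The class of a nonzero ideal. -/
noncomputable def cl (I : Ideal B) : ClassGroup B :=
  if h : I = ⊥ then 1 else ClassGroup.mk0 ⟨I, mem_nonZeroDivisors_of_ne_zero h⟩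

lemma cl_eq {I : Ideal B} (h : I ≠ ⊥) :
    cl I = ClassGroup.mk0 ⟨I, mem_nonZeroDivisors_of_ne_zero h⟩ := dif_neg h

lemma cl_mul {I J : Ideal B} (hI : I ≠ ⊥) (hJ : J ≠ ⊥) : cl (I * J) = cl I * cl J := by
  rw [cl_eq hI, cl_eq hJ, cl_eq (mul_ne_zero hI hJ), ← map_mul]
  rfl

lemma cl_eq_iff {I J : Ideal B} (hI : I ≠ ⊥) (hJ : J ≠ ⊥) :
    cl I = cl J ↔ ∃ x y : B, x ≠ 0 ∧ y ≠ 0 ∧ Ideal.span {x} * I = Ideal.span {y} * J := by
  rw [cl_eq hI, cl_eq hJ, ClassGroup.mk0_eq_mk0_iff]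
  simp only [exists_prop]

lemma cl_surj (c : ClassGroup B) : ∃ I : Ideal B, I ≠ ⊥ ∧ cl I = c := by
  obtain ⟨J, hJ⟩ := ClassGroup.mk0_surjective c
  have hJ0 : (J : Ideal B) ≠ ⊥ := nonZeroDivisors.coe_ne_zero J
  exact ⟨J, hJ0, by rw [cl_eq hJ0]; exact hJ⟩

lemma cl_eq_one_iff {I : Ideal B} (hI : I ≠ ⊥) : cl I = 1 ↔ ∃ x, I = Ideal.span {x} := by
  rw [cl_eq hI, ClassGroup.mk0_eq_one_iff]
  exact ⟨fun ⟨x, hx⟩ => ⟨x, hx⟩, fun ⟨x, hx⟩ => ⟨x, hx⟩⟩

lemma cl_span {x : B} (hx : x ≠ 0) : cl (Ideal.span {x}) = 1 :=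
  (cl_eq_one_iff (by simpa using hx)).2 ⟨x, rfl⟩

lemma cl_top : cl (⊤ : Ideal B) = 1 := by
  rw [← Ideal.span_singleton_one]; exact cl_span one_ne_zero

lemma cl_pow {I : Ideal B} (hI : I ≠ ⊥) (r : ℕ) : cl (I ^ r) = cl I ^ r := by
  induction r with
  | zero => simp [cl_top]
  | succ r ih => rw [pow_succ, cl_mul (pow_ne_zero r hI) hI, ih, pow_succ]

lemma cl_prod {ι : Type} (s : Finset ι) (f : ι → Ideal B) (hf : ∀ i ∈ s, f i ≠ ⊥) :
    cl (∏ i ∈ s, f i) = ∏ i ∈ s, cl (f i) := by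
  classical
  induction s using Finset.induction_on with
  | empty => simp [cl_top]
  | insert a s ha ih =>
    rw [Finset.prod_insert ha, Finset.prod_insert ha, cl_mul (hf a (by simp))
      (Finset.prod_ne_zero_iff.2 (fun i hi => hf i (by simp [hi]))),
      ih (fun i hi => hf i (by simp [hi]))]

omit [IsDedekindDomain B] in
lemma smul_span (ψ : B ≃+* B) (x : B) : ψ • Ideal.span {x} = Ideal.span {ψ x} := by
  rw [Ideal.smul_closure, Set.smul_set_singleton]; rfl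

omit [IsDedekindDomain B] in
lemma smul_ne_bot (ψ : B ≃+* B) {I : Ideal B} (hI : I ≠ ⊥) : ψ • I ≠ ⊥ := by
  intro h
  apply hI
  rw [← inv_smul_smul ψ I, h, Ideal.smul_bot]

lemma cl_smul_congr (ψ : B ≃+* B) {I J : Ideal B} (hI : I ≠ ⊥) (hJ : J ≠ ⊥) (h : cl I = cl J) :
    cl (ψ • I) = cl (ψ • J) := by
  obtain ⟨x, y, hx, hy, hxy⟩ := (cl_eq_iff hI hJ).1 h
  refine (cl_eq_iff (smul_ne_bot ψ hI) (smul_ne_bot ψ hJ)).2
    ⟨ψ x, ψ y, by simpa using hx, by simpa using hy, ?_⟩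
  rw [← smul_span, ← smul_span, ← smul_mul', hxy, smul_mul']

/-- The action on ideal classes. -/
noncomputable def clAct (ψ : B ≃+* B) : ClassGroup B →* ClassGroup B :=
  MonoidHom.mk' (fun c => cl (ψ • (cl_surj c).choose)) (by
    intro a b
    have ha := (cl_surj a).choose_spec
    have hb := (cl_surj b).choose_spec
    have hab := (cl_surj (a * b)).choose_spec
    rw [← cl_mul (smul_ne_bot ψ ha.1) (smul_ne_bot ψ hb.1), ← smul_mul']
    apply cl_smul_congr ψ hab.1 (mul_ne_zero ha.1 hb.1)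
    rw [hab.2, cl_mul ha.1 hb.1, ha.2, hb.2])

lemma clAct_cl (ψ : B ≃+* B) {I : Ideal B} (hI : I ≠ ⊥) : clAct ψ (cl I) = cl (ψ • I) := by
  have h := (cl_surj (cl I)).choose_spec
  exact cl_smul_congr ψ h.1 hI h.2

/-- The norm of an ideal. -/
noncomputable def nrmI (Φ : B ≃+* B) (n : ℕ) (I : Ideal B) : Ideal B :=
  ∏ i ∈ Finset.range n, (Φ ^ i) • I

/-- The norm on ideal classes. -/
noncomputable def clNrm (Φ : B ≃+* B) (n : ℕ) : ClassGroup B →* ClassGroup B :=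
  ∏ i ∈ Finset.range n, clAct (Φ ^ i)

variable {Φ : B ≃+* B} {n : ℕ}

lemma nrmI_ne_bot {I : Ideal B} (hI : I ≠ ⊥) : nrmI Φ n I ≠ ⊥ :=
  Finset.prod_ne_zero_iff.2 (fun _ _ => smul_ne_bot _ hI)

lemma clNrm_cl {I : Ideal B} (hI : I ≠ ⊥) : clNrm Φ n (cl I) = cl (nrmI Φ n I) := by
  rw [clNrm, nrmI, MonoidHom.finsetProd_apply, cl_prod _ _ (fun _ _ => smul_ne_bot _ hI)]
  simp only [clAct_cl _ hI]

omit [IsDedekindDomain B] in
lemma nrmI_mul (I J : Ideal B) : nrmI Φ n (I * J) = nrmI Φ n I * nrmI Φ n J := by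
  simp [nrmI, smul_mul', Finset.prod_mul_distrib]

omit [IsDedekindDomain B] in
lemma nrmI_span (x : B) : nrmI Φ n (Ideal.span {x}) = Ideal.span {nrm Φ n x} := by
  simp only [nrmI, nrm, smul_span, Ideal.prod_span_singleton]

omit [IsDedekindDomain B] in
lemma smul_nrmI (hn : Φ ^ n = 1) (I : Ideal B) : Φ • nrmI Φ n I = nrmI Φ n I := by
  unfold nrmI
  rw [Finset.smul_prod', ← prod_shift (fun i => (Φ ^ i) • I) n (by rw [hn, pow_zero])]
  simp only [pow_succ', mul_smul]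

omit [IsDedekindDomain B] in
lemma nrmI_smul (hn : Φ ^ n = 1) (I : Ideal B) : nrmI Φ n (Φ • I) = nrmI Φ n I := by
  unfold nrmI
  rw [← prod_shift (fun i => (Φ ^ i) • I) n (by rw [hn, pow_zero])]
  simp only [pow_succ, mul_smul]

end Cl

/-- The data of an affine curve with one rational point at infinity and a Frobenius twist. -/
structure Setup {E B : Type} [Field E] [CommRing B] [Algebra E B] (Q n : ℕ) (σ : E ≃+* E)
    (Φ : B ≃+* B) (v : Valuation B ZZ) : Prop extends IsSemi Q n σ Φ, IsCurveDeg E v where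
  vinv : ∀ x, v (Φ x) = v x

section

variable {E B : Type} [Field E] [CommRing B] [Algebra E B] {Q n : ℕ} {σ : E ≃+* E}
  {Φ : B ≃+* B} {v : Valuation B ZZ}

lemma idg_smul {ψ : B ≃+* B} (hψ : ∀ x, v (ψ x) = v x) (I : Ideal B) :
    idg v (ψ • I) = idg v I := by
  have : degs v (ψ • I).toAddSubgroup = degs v I.toAddSubgroup := by
    ext d
    constructor
    · rintro ⟨x, hx, hd⟩
      refine ⟨ψ⁻¹ • x, Ideal.mem_pointwise_smul_iff_inv_smul_mem.1 hx, ?_⟩
      rw [← hd, ← hψ (ψ⁻¹ • x)]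
      exact congrArg v (smul_inv_smul ψ x)
    · rintro ⟨x, hx, hd⟩
      exact ⟨ψ • x, Ideal.smul_mem_pointwise_smul ψ x I hx, (hψ x).trans hd⟩
  unfold idg gap
  rw [this]

lemma app_mem_of_inv {I : Ideal B} (hI : Φ • I = I) : ∀ x ∈ I, Φ x ∈ I := by
  intro x hx
  rw [← hI]
  exact Ideal.smul_mem_pointwise_smul Φ x I hx

variable [IsDedekindDomain B]

lemma Setup.const_of_span (h : Setup Q n σ Φ v) {x y : B}
    (hxy : Ideal.span {x} = Ideal.span {y}) : ∃ c : E, c ≠ 0 ∧ y = algebraMap E B c * x := by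
  obtain ⟨u, hu⟩ := Ideal.span_singleton_eq_span_singleton.1 hxy
  obtain ⟨c, hc, hc2⟩ := h.toIsCurveDeg.unit_const u.isUnit
  exact ⟨c, hc, by rw [← hu, hc2, mul_comm]⟩

omit [IsDedekindDomain B] in
lemma span_const_mul {c : E} (hc : c ≠ 0) (x : B) :
    Ideal.span {algebraMap E B c * x} = Ideal.span {x} :=
  Ideal.span_singleton_mul_left_unit ((IsUnit.mk0 c hc).map _) x

lemma Setup.fixed_const (h : Setup Q n σ Φ v) {x y : B} {c : E} (hx0 : x ≠ 0) (hx : Φ x = x)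
    (hy : Φ y = y) (hc : y = algebraMap E B c * x) : σ c = c := by
  have h1 := hy
  rw [hc, map_mul, h.semi_alg, hx] at h1
  exact (algebraMap E B).injective (mul_right_cancel₀ hx0 h1)

/-- An invariant principal ideal has an invariant generator. -/
lemma Setup.inv_gen (h : Setup Q n σ Φ v) {x : B} (hx : x ≠ 0)
    (hinv : Φ • Ideal.span {x} = Ideal.span {x}) :
    ∃ y, y ≠ 0 ∧ Φ y = y ∧ Ideal.span {y} = Ideal.span {x} := by
  rw [smul_span] at hinv
  obtain ⟨u, hu, hu2⟩ := h.const_of_span hinv.symm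
  have h1 : nrm σ n u = nrm σ n 1 := by
    have h2 := nrm_app h.ord x
    rw [hu2, nrm_mul, h.toIsSemi.nrm_alg] at h2
    have h3 := mul_right_cancel₀ (nrm_ne_zero (Φ := Φ) (n := n) hx) (h2.trans (one_mul _).symm)
    rw [nrm_of_fixed (map_one σ), one_pow]
    exact (algebraMap E B).injective (by rw [h3, map_one])
  obtain ⟨θ, hθ, hθ2⟩ := h.toIsFrob.semi.h90 one_ne_zero h1
  refine ⟨algebraMap E B θ * x, mul_ne_zero (by simpa using hθ) hx, ?_, span_const_mul hθ x⟩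
  rw [map_mul, h.semi_alg, hu2, ← mul_assoc, ← map_mul, mul_comm (σ θ), hθ2, one_mul]

/-- Invariant elements that generate the same ideal differ by a norm of a constant. -/
lemma Setup.norm_const (h : Setup Q n σ Φ v) {x y : B} (hx0 : x ≠ 0) (hx : Φ x = x)
    (hy : Φ y = y) (hxy : Ideal.span {x} = Ideal.span {y}) :
    ∃ θ : E, θ ≠ 0 ∧ y = nrm Φ n (algebraMap E B θ) * x := by
  obtain ⟨c, hc, hc2⟩ := h.const_of_span hxy
  obtain ⟨θ, hθ, hθ2⟩ := h.toIsFrob.norm_surj hc (h.fixed_const hx0 hx hy hc2)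
  exact ⟨θ, hθ, by rw [h.toIsSemi.nrm_alg, hc2, ← hθ2]; rfl⟩

/-- Every fixed class contains an invariant ideal. -/
lemma Setup.exists_inv_ideal (h : Setup Q n σ Φ v) {c : ClassGroup B} (hc : clAct Φ c = c) :
    ∃ J : Ideal B, J ≠ ⊥ ∧ Φ • J = J ∧ cl J = c := by
  obtain ⟨I, hI, rfl⟩ := cl_surj c
  rw [clAct_cl _ hI] at hc
  obtain ⟨x, y, hx, hy, hxy⟩ := (cl_eq_iff (smul_ne_bot Φ hI) hI).1 hc
  have h1 := congrArg (nrmI Φ n) hxy
  rw [nrmI_mul, nrmI_mul, nrmI_smul h.ord, nrmI_span, nrmI_span] at h1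
  have h2 := mul_right_cancel₀ (nrmI_ne_bot hI) h1
  obtain ⟨θ, hθ, hθ2⟩ := h.norm_const (nrm_ne_zero hx) (nrm_fixed h.ord x) (nrm_fixed h.ord y) h2
  rw [← nrm_mul] at hθ2
  have hx' : algebraMap E B θ * x ≠ 0 := mul_ne_zero (by simpa using hθ) hx
  obtain ⟨w, hw, hw2⟩ := h.toIsSemi.h90 hx' hθ2
  have hy' : Ideal.span {y} ≠ ⊥ := by simpa using hy
  refine ⟨Ideal.span {w} * I, mul_ne_zero (by simpa using hw) hI, ?_, ?_⟩
  · apply mul_left_cancel₀ hy'
    rw [smul_mul', smul_span, ← mul_assoc, Ideal.span_singleton_mul_span_singleton, hw2,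
      ← Ideal.span_singleton_mul_span_singleton, span_const_mul hθ, mul_comm (Ideal.span {x}),
      mul_assoc, hxy]
    ring
  · rw [cl_mul (by simpa using hw) hI, cl_span hw, one_mul]

/-- Invariant nonzero ideals of degree `m` in the class `c`. -/
def invSet (Φ : B ≃+* B) (v : Valuation B ZZ) (m : ℕ) (c : ClassGroup B) : Set (Ideal B) :=
  {I | I ≠ ⊥ ∧ Φ • I = I ∧ idg v I = m ∧ cl I = c}

lemma Setup.card_level (h : Setup Q n σ Φ v) {J : Ideal B} (hJ : J ≠ ⊥) (hJi : Φ • J = J)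
    (m : ℕ) :
    Nat.card {x : B // x ∈ invs Φ J ∧ v x = exp ((m + idg v J : ℕ) : ℤ)} =
      Nat.card (invSet Φ v m (cl J)⁻¹) * Nat.card {u : E // σ u = u ∧ u ≠ 0} := by
  have := h.toIsFrob.finite
  have hgen : ∀ I : invSet Φ v m (cl J)⁻¹, ∃ y, y ≠ 0 ∧ Φ y = y ∧ Ideal.span {y} = J * I.1 := by
    rintro ⟨I, hI, hIi, -, hIc⟩
    have h1 : cl (J * I) = 1 := by rw [cl_mul hJ hI, hIc, mul_inv_cancel]
    obtain ⟨x, hx⟩ := (cl_eq_one_iff (mul_ne_zero hJ hI)).1 h1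
    have hx0 : x ≠ 0 := by
      rintro rfl
      exact mul_ne_zero hJ hI (by simpa using hx)
    obtain ⟨y, hy, hy1, hy2⟩ := h.inv_gen hx0 (by rw [← hx, smul_mul', hJi, hIi])
    exact ⟨y, hy, hy1, hy2.trans hx.symm⟩
  choose g hg0 hg1 hg2 using hgen
  rw [← Nat.card_prod]
  symm
  refine Nat.card_congr (Equiv.ofBijective
    (fun p => ⟨algebraMap E B p.2.1 * g p.1, ⟨?_, ?_⟩, ?_⟩) ⟨?_, ?_⟩)
  · apply J.mul_mem_left
    apply Ideal.mul_le_left (J := p.1.1)
    rw [← hg2]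
    exact Ideal.mem_span_singleton_self _
  · rw [map_mul, h.semi_alg, p.2.2.1, hg1]
  · rw [h.toIsDeg.alg_mul p.2.2.2, h.toIsCurveDeg.v_eq (hg0 _), ← h.toIsCurveDeg.idg_span (hg0 _),
      hg2, h.toIsCurveDeg.idg_mul hJ p.1.2.1, p.1.2.2.2.1, add_comm]
  · rintro ⟨I, u⟩ ⟨I', u'⟩ hh
    simp only [Subtype.mk.injEq] at hh
    have h1 : I = I' := by
      apply Subtype.ext
      apply mul_left_cancel₀ hJ
      rw [← hg2, ← hg2, ← span_const_mul u.2.2, hh, span_const_mul u'.2.2]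
    subst h1
    have h2 : u = u' :=
      Subtype.ext ((algebraMap E B).injective (mul_right_cancel₀ (hg0 I) hh))
    rw [h2]
  · rintro ⟨x, ⟨hx1, hx2⟩, hx3⟩
    have hx0 := ne_zero_of_v_eq hx3
    obtain ⟨I, hI⟩ := Ideal.dvd_span_singleton.2 hx1
    have hI0 : I ≠ ⊥ := by
      rintro rfl
      simp at hI
      exact hx0 hI
    have hIm : I ∈ invSet Φ v m (cl J)⁻¹ := by
      refine ⟨hI0, ?_, ?_, ?_⟩
      · apply mul_left_cancel₀ hJ
        rw [← hI]
        conv_lhs => rw [← hJi]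
        rw [← smul_mul', ← hI, smul_span, hx2]
      · have h1 := h.toIsCurveDeg.idg_mul hJ hI0
        rw [← hI, h.toIsCurveDeg.idg_span hx0, dgn_eq hx3] at h1
        omega
      · have h1 := cl_mul hJ hI0
        rw [← hI, cl_span hx0] at h1
        exact (eq_inv_of_mul_eq_one_right h1.symm)
    obtain ⟨c, hc, hc2⟩ := h.const_of_span ((hg2 ⟨I, hIm⟩).trans hI.symm)
    exact ⟨⟨⟨I, hIm⟩, ⟨c, h.fixed_const (hg0 _) (hg1 _) hx2 hc2, hc⟩⟩, Subtype.ext hc2.symm⟩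

omit [IsDedekindDomain B] in
lemma card_level_add (W : AddSubgroup B) (d : ℤ) [Finite (below v W (d + 1))] :
    Nat.card {x : B // x ∈ W ∧ v x = exp d} + Nat.card (below v W d) =
      Nat.card (below v W (d + 1)) := by
  have h1 : ((below v W (d + 1) : AddSubgroup B) : Set B) =
      {x | x ∈ W ∧ v x = exp d} ∪ (below v W d : Set B) := by
    ext x
    simp only [SetLike.mem_coe, mem_below, lt_exp_succ_iff, Set.mem_union, Set.mem_ofPred_eq]
    rw [le_iff_eq_or_lt]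
    tauto
  have h2 : ((below v W (d + 1) : AddSubgroup B) : Set B).Finite := Set.toFinite _
  have h3 := Set.ncard_union_eq (s := {x | x ∈ W ∧ v x = exp d}) (t := (below v W d : Set B))
    (Set.disjoint_left.2 (fun x hx hx' => absurd hx'.2 (by rw [hx.2]; exact lt_irrefl _)))
    (h2.subset (by rw [h1]; exact Set.subset_union_left))
    (h2.subset (by rw [h1]; exact Set.subset_union_right))
  rw [← h1] at h3
  exact h3.symm

lemma card_fixed_ne {σ : E ≃+* E} [Finite E] :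
    Nat.card {u : E // σ u = u ∧ u ≠ 0} + 1 = Nat.card {u : E // σ u = u} := by
  have h1 : {u : E | σ u = u} = insert 0 {u : E | σ u = u ∧ u ≠ 0} := by
    ext u
    by_cases hu : u = 0 <;> simp [hu]
  have h2 := Set.ncard_insert_of_notMem (a := (0 : E)) (s := {u : E | σ u = u ∧ u ≠ 0})
    (by simp) (Set.toFinite _)
  rw [← h1] at h2
  exact h2.symm

lemma Setup.card_invSet (h : Setup Q n σ Φ v) {c : ClassGroup B} (hc : clAct Φ c = c) :
    ∃ m0, ∀ m, m0 ≤ m →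
      Nat.card (invSet Φ v m c) = Nat.card {u : E // σ u = u} ^ (m - gap v ⊤) := by
  have := h.toIsFrob.finite
  obtain ⟨J, hJ, hJi, hJc⟩ := h.exists_inv_ideal (c := c⁻¹) (by rw [map_inv, hc])
  obtain ⟨c0, hc0⟩ := h.toIsCurveDeg.cof_ideal hJ
  refine ⟨c0 + gap v ⊤, fun m hm => ?_⟩
  have h1 := h.card_level hJ hJi m
  rw [hJc, inv_inv] at h1
  have h2 := h.toIsSemi.card_below_invs h.toIsCurveDeg h.vinv J (app_mem_of_inv hJi)
  have hq := card_fixed_ne (σ := σ)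
  have hq2 : 1 < Nat.card {u : E // σ u = u} := h.one_lt.trans_le h.toIsFrob.card_fixed
  have h3 := h2 (m + idg v J + 1)
  have hfin : Finite (below v (invs Φ J) (((m + idg v J : ℕ) : ℤ) + 1)) := by
    apply Nat.finite_of_card_ne_zero
    rw [← Nat.cast_succ, h3]
    positivity
  have h4 := card_level_add (v := v) (invs Φ J) ((m + idg v J : ℕ) : ℤ)
  rw [← Nat.cast_succ, h3, h2, h1] at h4
  have h5 := cnt_add_ncard (S := degs v J.toAddSubgroup) (d := m + idg v J)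
    (fun j hj => hc0 j (by omega))
  have h6 := cnt_add_ncard (S := degs v J.toAddSubgroup) (d := m + idg v J + 1)
    (fun j hj => hc0 j (by omega))
  have h7 := h.toIsCurveDeg.gap_eq hJ
  unfold gap at h7 hm ⊢
  rw [show cnt (degs v J.toAddSubgroup) (m + idg v J) =
      m - (degs v (⊤ : Ideal B).toAddSubgroup)ᶜ.ncard by omega,
    show cnt (degs v J.toAddSubgroup) (m + idg v J + 1) =
      m - (degs v (⊤ : Ideal B).toAddSubgroup)ᶜ.ncard + 1 by omega, pow_succ] at h4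
  apply Nat.eq_of_mul_eq_mul_right (m := Nat.card {u : E // σ u = u ∧ u ≠ 0}) (by omega)
  rw [← hq] at h4 ⊢
  linarith

end

end Pool.Agent.Lib.MP_145fc7_co
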