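import Mathlib

set_option autoImplicit false

namespace Pool.Agent.Lib.MP_145fc7_co

open Finset

/-- Every triple of distinct elements of `S` has a nonzero affine relation with coefficients
bounded by `κ`. -/
def SmallRel (κ : ℕ) (S : Finset ℤ) : Prop :=
  ∀ x ∈ S, ∀ y ∈ S, ∀ z ∈ S, x ≠ y → x ≠ z → y ≠ z →
    ∃ c1 c2 : ℤ, (c1 ≠ 0 ∨ c2 ≠ 0) ∧ |c1| ≤ κ ∧ |c2| ≤ κ ∧ |c1 + c2| ≤ κ ∧
      c1 * (y - x) + c2 * (z - x) = 0

theorem factF {κ : ℕ} {S : Finset ℤ} (hS : SmallRel κ S) {p : ℕ} (hp : p.Prime)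
    (hκ : κ < 2 * p) {x y z h : ℤ} (hx : x ∈ S) (hy : y ∈ S) (hz : z ∈ S) (hxy : x ≠ y)
    (hh : y - x = p * h) (hzx : ¬ (p : ℤ) ∣ z - x) :
    ∃ c : ℤ, z - x = c * h ∧ |c| ≤ κ ∧ |c - p| ≤ κ := by
  have hxz : x ≠ z := by
    rintro rfl
    simp at hzx
  have hyz : y ≠ z := by
    rintro rfl
    exact hzx ⟨h, hh⟩
  obtain ⟨c1, c2, hne, h1, h2, h3, hrel⟩ := hS x hx y hy z hz hxy hxz hyz
  have hpi : Prime (p : ℤ) := Nat.prime_iff_prime_int.mp hp
  have hdv : (p : ℤ) ∣ c2 * (z - x) := by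
    refine ⟨-(c1 * h), ?_⟩
    rw [hh] at hrel
    linear_combination hrel
  have hc2 : (p : ℤ) ∣ c2 := (hpi.dvd_or_dvd hdv).resolve_right hzx
  obtain ⟨e, he⟩ := hc2
  have hp0 : (0 : ℤ) < p := by exact_mod_cast hp.pos
  have hκ' : (κ : ℤ) < 2 * p := by exact_mod_cast hκ
  have he0 : e ≠ 0 := by
    rintro rfl
    have hc20 : c2 = 0 := by simpa using he
    have hc1 : c1 ≠ 0 := by tauto
    rw [hc20] at hrel
    have : c1 * (y - x) = 0 := by simpa using hrel
    rcases mul_eq_zero.mp this with h' | h'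
    · exact hc1 h'
    · exact hxy (by linarith)
  have he1 : e = 1 ∨ e = -1 := by
    rw [abs_le] at h2
    have a1 : e < 2 := by nlinarith
    have a2 : -2 < e := by nlinarith
    omega
  rw [hh] at hrel
  rcases he1 with rfl | rfl
  · refine ⟨-c1, ?_, by simpa using h1, ?_⟩
    · have : (p : ℤ) * (z - x - (-c1) * h) = 0 := by rw [he] at hrel; linear_combination hrel
      rcases mul_eq_zero.mp this with h' | h'
      · omega
      · linarith
    · rw [abs_le] at h3 ⊢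
      constructor <;> omega
  · refine ⟨c1, ?_, h1, ?_⟩
    · have : (p : ℤ) * (z - x - c1 * h) = 0 := by rw [he] at hrel; linear_combination -hrel
      rcases mul_eq_zero.mp this with h' | h'
      · omega
      · linarith
    · rw [abs_le] at h3 ⊢
      constructor <;> omega

theorem adjacent_bound {κ : ℕ} (hκ : 1 ≤ κ) {S : Finset ℤ} (hS : SmallRel κ S) {a z : ℤ}
    (ha : a ∈ S) (ha1 : a + 1 ∈ S) (hz : z ∈ S) : z - a ≤ κ ∧ a + 1 - z ≤ κ := by
  have hκ' : (1 : ℤ) ≤ κ := by exact_mod_cast hκ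
  by_cases h1 : a = z
  · omega
  by_cases h2 : a + 1 = z
  · omega
  obtain ⟨c1, c2, hne, b1, b2, b3, hrel⟩ := hS a ha (a + 1) ha1 z hz (by omega) h1 h2
  have hc1 : c1 = -(c2 * (z - a)) := by linear_combination hrel
  have hc2 : c2 ≠ 0 := by
    rintro rfl
    simp at hc1
    tauto
  have e1 : |c1| = |c2| * |z - a| := by rw [hc1, abs_neg, abs_mul]
  have e2 : |c1 + c2| = |c2| * |z - a - 1| := by
    rw [← abs_mul, ← abs_neg]
    congr 1
    rw [hc1]; ring
  have hc : 1 ≤ |c2| := Int.one_le_abs hc2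
  have f1 : |z - a| ≤ κ := by nlinarith [abs_nonneg (z - a)]
  have f2 : |z - a - 1| ≤ κ := by nlinarith [abs_nonneg (z - a - 1)]
  rw [abs_le] at f1 f2
  omega

theorem coprime_bound {κ : ℕ} {S : Finset ℤ} (hS : SmallRel κ S) {lo s hi : ℤ}
    (hlo : lo ∈ S) (hs : s ∈ S) (hhi : hi ∈ S) (h1 : lo < s) (h2 : s < hi)
    (hc : IsCoprime (hi - lo) (s - lo)) : hi - lo ≤ κ := by
  obtain ⟨c1, c2, hne, b1, b2, b3, hrel⟩ := hS lo hlo s hs hi hhi (by omega) (by omega) (by omega)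
  have hd : (hi - lo) ∣ c1 * (s - lo) := ⟨-c2, by linear_combination hrel⟩
  have hd' : (hi - lo) ∣ c1 := hc.dvd_of_dvd_mul_right hd
  have hc1 : c1 ≠ 0 := by
    rintro rfl
    have : c2 * (hi - lo) = 0 := by simpa using hrel
    rcases mul_eq_zero.mp this with h' | h'
    · tauto
    · omega
  have := Int.le_of_dvd (abs_pos.mpr hc1) ((dvd_abs _ _).mpr hd')
  omega

theorem card_noadj (S : Finset ℤ) (lo : ℤ) (m : ℕ)
    (h : ∀ a, lo ≤ a → a + 1 < lo + 2 * m → a ∈ S → a + 1 ∉ S) :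
    (S.filter (fun a => lo ≤ a ∧ a < lo + 2 * m)).card ≤ m := by
  have : (S.filter (fun a => lo ≤ a ∧ a < lo + 2 * m)).card ≤ (Finset.Ico (0 : ℤ) m).card := by
    apply Finset.card_le_card_of_injOn (fun a => (a - lo) / 2)
    · intro a ha
      simp only [coe_filter, Set.mem_ofPred_eq, coe_Ico, Set.mem_Ico] at ha ⊢
      omega
    · intro a ha b hb hab
      simp only [coe_filter, Set.mem_ofPred_eq] at ha hb hab
      by_contra hne
      have h' : b = a + 1 ∨ a = b + 1 := by omega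
      rcases h' with rfl | rfl
      · exact h a ha.2.1 hb.2.2 ha.1 hb.1
      · exact h b hb.2.1 ha.2.2 hb.1 ha.1
  simpa using this

theorem caseA {κ : ℕ} (hκ : 1 ≤ κ) {S : Finset ℤ} (hS : SmallRel κ S) (hcard : S.card = κ + 1)
    {lo hi : ℤ} (hlo : lo ∈ S) (hhi : hi ∈ S) (hb : ∀ z ∈ S, lo ≤ z ∧ z ≤ hi)
    (hD : 2 * (hi - lo) < 3 * κ) : S = Finset.Icc lo (lo + κ) := by
  by_cases hle : hi - lo ≤ κ
  · apply Finset.eq_of_subset_of_card_le
    · intro z hz
      have := hb z hz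
      rw [Finset.mem_Icc]
      omega
    · rw [hcard, Int.card_Icc]
      omega
  exfalso
  obtain ⟨E, hE⟩ : ∃ E : ℕ, hi - lo = κ + E := ⟨(hi - lo - κ).toNat, by omega⟩
  set m : ℕ := (E + 1) / 2 with hm
  have hL := card_noadj S lo m (fun a h1 h2 h3 h4 => by
    have := adjacent_bound hκ hS h3 h4 hhi
    omega)
  have hR := card_noadj S (hi + 1 - 2 * m) m (fun a h1 h2 h3 h4 => by
    have := adjacent_bound hκ hS h3 h4 hlo
    omega)
  have key : ∀ M : Finset ℤ, (∀ z ∈ S, lo + 2 * m ≤ z → z ≤ hi - 2 * m → z ∈ M) →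
      κ + 1 ≤ 2 * m + M.card := by
    intro M hM
    have hsub : S ⊆ (S.filter (fun a => lo ≤ a ∧ a < lo + 2 * m) ∪
        S.filter (fun a => hi + 1 - 2 * m ≤ a ∧ a < hi + 1 - 2 * m + 2 * m)) ∪ M := by
      intro z hz
      have := hb z hz
      simp only [mem_union, mem_filter]
      by_cases h1 : z < lo + 2 * m
      · exact Or.inl (Or.inl ⟨hz, this.1, h1⟩)
      by_cases h2 : hi - 2 * m < z
      · exact Or.inl (Or.inr ⟨hz, by omega, by omega⟩)
      exact Or.inr (hM z hz (by omega) (by omega))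
    have h1 := Finset.card_le_card hsub
    have h2 := Finset.card_union_le (S.filter (fun a => lo ≤ a ∧ a < lo + 2 * m) ∪
        S.filter (fun a => hi + 1 - 2 * m ≤ a ∧ a < hi + 1 - 2 * m + 2 * m)) M
    have h3 := Finset.card_union_le (S.filter (fun a => lo ≤ a ∧ a < lo + 2 * m))
        (S.filter (fun a => hi + 1 - 2 * m ≤ a ∧ a < hi + 1 - 2 * m + 2 * m))
    omega
  rcases Nat.even_or_odd' E with ⟨e, he | he⟩
  · -- even case
    have hs : ∃ s : ℤ, lo + 2 * m ≤ s ∧ s ≤ hi - 2 * m ∧ IsCoprime (hi - lo) (s - lo) := by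
      obtain ⟨D, hD'⟩ : ∃ D : ℤ, hi - lo = D := ⟨_, rfl⟩
      have h4 : D % 2 = 1 ∨ D % 4 = 0 ∨ D % 4 = 2 := by omega
      rcases h4 with h4 | h4 | h4
      · refine ⟨lo + (D + 1) / 2, by omega, by omega, ⟨-1, 2, ?_⟩⟩
        omega
      · obtain ⟨u, hu⟩ : ∃ u, D = 4 * u := ⟨D / 4, by omega⟩
        refine ⟨lo + (2 * u + 1), by omega, by omega, ⟨u, 1 - 2 * u, ?_⟩⟩
        rw [hD', hu]; ring
      · obtain ⟨u, hu⟩ : ∃ u, D = 4 * u + 2 := ⟨D / 4, by omega⟩
        refine ⟨lo + (2 * u + 3), by omega, by omega, ?_⟩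
        rw [hD', hu]
        have e1 : lo + (2 * u + 3) - lo = 2 * u + 3 := by ring
        rw [e1]
        have h2 : IsCoprime (2 : ℤ) (2 * u + 3) := ⟨-(u + 1), 1, by ring⟩
        have h3 : IsCoprime (-4 : ℤ) (2 * u + 3) := by
          have := (h2.mul_left h2).neg_left
          simpa using this
        have := h3.add_mul_right_left 2
        have e2 : (-4 : ℤ) + 2 * (2 * u + 3) = 4 * u + 2 := by ring
        rwa [e2] at this
    obtain ⟨s, hs1, hs2, hs3⟩ := hs
    have hsS : s ∉ S := fun hsS => by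
      have := coprime_bound hS hlo hsS hhi (by omega) (by omega) hs3
      omega
    have := key ((Finset.Icc (lo + 2 * m) (hi - 2 * m)).erase s) (fun z hz h1 h2 => by
      rw [Finset.mem_erase, Finset.mem_Icc]
      exact ⟨fun h => hsS (h ▸ hz), h1, h2⟩)
    rw [Finset.card_erase_of_mem (by rw [Finset.mem_Icc]; exact ⟨hs1, hs2⟩), Int.card_Icc] at this
    omega
  · have := key (Finset.Icc (lo + 2 * m) (hi - 2 * m)) (fun z hz h1 h2 => by
      rw [Finset.mem_Icc]
      exact ⟨h1, h2⟩)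
    rw [Int.card_Icc] at this
    omega

theorem doubling (n : ℕ) : ∀ (R : Finset ℤ) (a : ℤ), R.card = n + 1 → (∀ x ∈ R, a ≤ x) →
    (∀ x ∈ R, ∀ y ∈ R, x < y → 2 * x ≤ y) → ∃ b ∈ R, 2 ^ n * a ≤ b := by
  induction n with
  | zero =>
    intro R a hc ha _
    obtain ⟨b, hb⟩ := Finset.card_pos.mp (by omega : 0 < R.card)
    exact ⟨b, hb, by simpa using ha b hb⟩
  | succ n ih =>
    intro R a hc ha hd
    have hne : R.Nonempty := Finset.card_pos.mp (by omega)
    have hM := R.max'_mem hne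
    obtain ⟨b, hb, hb2⟩ := ih (R.erase (R.max' hne)) a (by rw [Finset.card_erase_of_mem hM]; omega)
      (fun x hx => ha x (Finset.mem_of_mem_erase hx))
      (fun x hx y hy => hd x (Finset.mem_of_mem_erase hx) y (Finset.mem_of_mem_erase hy))
    have hb' := Finset.mem_erase.mp hb
    have hlt : b < R.max' hne := lt_of_le_of_ne (R.le_max' b hb'.2) hb'.1
    have := hd b hb'.2 _ hM hlt
    refine ⟨_, hM, ?_⟩
    rw [pow_succ]
    linarith

theorem six_mul_le {h1 h2 N : ℤ} (p1 : 0 < h1) (hlt : h1 < h2) (hN : 0 < N)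
    (d1 : h1 ∣ N) (d2 : h2 ∣ N) (d3 : h1 + h2 ∣ N) : 6 * h1 ≤ N := by
  obtain ⟨g, a, b, hg, hab, ha, hb⟩ := Int.exists_gcd_one' (m := h1) (n := h2)
    (Int.gcd_pos_of_ne_zero_left _ (by omega))
  have hg' : (0 : ℤ) < g := by exact_mod_cast hg
  have hco : IsCoprime a b := Int.isCoprime_iff_gcd_eq_one.mpr hab
  obtain ⟨N', hN'⟩ : (g : ℤ) ∣ N := Dvd.dvd.trans ⟨a, by rw [ha]; ring⟩ d1
  have a0 : 0 < a := by
    by_contra h
    push Not at h
    nlinarith
  have ab : a < b := by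
    by_contra h
    push Not at h
    nlinarith
  have e1 : a ∣ N' := by
    rw [ha, hN', mul_comm a] at d1
    exact (mul_dvd_mul_iff_left hg'.ne').mp d1
  have e2 : b ∣ N' := by
    rw [hb, hN', mul_comm b] at d2
    exact (mul_dvd_mul_iff_left hg'.ne').mp d2
  have e3 : a + b ∣ N' := by
    have : h1 + h2 = g * (a + b) := by rw [ha, hb]; ring
    rw [this, hN'] at d3
    exact (mul_dvd_mul_iff_left hg'.ne').mp d3
  have c1 : IsCoprime a (a + b) := by
    have := hco.add_mul_left_right 1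
    simpa [add_comm] using this
  have c2 : IsCoprime b (a + b) := by
    have := hco.symm.add_mul_left_right 1
    simpa using this
  have e4 : a * b * (a + b) ∣ N' := (c1.mul_left c2).mul_dvd (hco.mul_dvd e1 e2) e3
  have N'0 : 0 < N' := by
    by_contra h
    push Not at h
    nlinarith
  have e5 := Int.le_of_dvd N'0 e4
  have e6 : 6 ≤ b * (a + b) := by nlinarith
  have e7 : 6 * a ≤ N' := by nlinarith
  rw [ha, hN']
  nlinarith

end Pool.Agent.Lib.MP_145fc7_co
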