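import Pool.Agent.Lib.MP_145fc7_co.CombA

set_option autoImplicit false

namespace Pool.Agent.Lib.MP_145fc7_co

open Finset

theorem exists_good_prime {κ : ℕ} (hκ : 2 ≤ κ) :
    ∃ p : ℕ, p.Prime ∧ κ < 2 * p ∧ p ≤ κ ∧ (11 ≤ κ ∨ (κ - p) ^ 2 * (p + 1) < κ ^ 2) ∧
      (p ≤ 3 → κ = p ∨ (κ = 4 ∧ p = 3)) := by
  by_cases h : 11 ≤ κ
  · obtain ⟨p, hp, h1, h2⟩ := Nat.exists_prime_lt_and_le_two_mul (κ / 2) (by omega)
    exact ⟨p, hp, by omega, by omega, Or.inl h, by omega⟩
  · have h' : κ ≤ 10 := by omega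
    interval_cases κ
    · exact ⟨2, by norm_num, by norm_num, by norm_num, Or.inr (by norm_num), by norm_num⟩
    · exact ⟨3, by norm_num, by norm_num, by norm_num, Or.inr (by norm_num), by norm_num⟩
    · exact ⟨3, by norm_num, by norm_num, by norm_num, Or.inr (by norm_num), by norm_num⟩
    · exact ⟨5, by norm_num, by norm_num, by norm_num, Or.inr (by norm_num), by norm_num⟩
    · exact ⟨5, by norm_num, by norm_num, by norm_num, Or.inr (by norm_num), by norm_num⟩
    · exact ⟨7, by norm_num, by norm_num, by norm_num, Or.inr (by norm_num), by norm_num⟩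
    · exact ⟨7, by norm_num, by norm_num, by norm_num, Or.inr (by norm_num), by norm_num⟩
    · exact ⟨7, by norm_num, by norm_num, by norm_num, Or.inr (by norm_num), by norm_num⟩
    · exact ⟨7, by norm_num, by norm_num, by norm_num, Or.inr (by norm_num), by norm_num⟩

/-- The relation between two elements of one class seen from an outside point, in the form
used for elements on the same side. -/
def SameSide (κ p : ℕ) (α β : ℤ) : Prop :=
  ∃ a h : ℤ, 0 < a ∧ 0 < h ∧ α = a * h ∧ β = (a + p) * h ∧ a + p ≤ κ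

theorem side_card {κ p : ℕ} (hκ : κ < 2 * p) (R : Finset ℤ)
    (hpos : ∀ x ∈ R, 0 < x) (hR : ∀ x ∈ R, ∀ y ∈ R, x < y → SameSide κ p x y) (n : ℕ)
    (hc : R.card = n + 1) : 2 ^ n ≤ p + 1 := by
  have hne : R.Nonempty := Finset.card_pos.mp (by omega)
  have hm := R.min'_mem hne
  obtain ⟨b, hb, hb2⟩ := doubling n R (R.min' hne) hc (fun x hx => R.min'_le x hx)
    (fun x hx y hy hxy => by
      obtain ⟨a, h, a0, h0, rfl, rfl, hle⟩ := hR x hx y hy hxy
      have : (κ : ℤ) < 2 * p := by exact_mod_cast hκ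
      nlinarith)
  have m0 := hpos _ hm
  have hb3 : b ≤ (p + 1) * R.min' hne := by
    rcases eq_or_lt_of_le (R.min'_le b hb) with h | h
    · rw [← h]
      nlinarith
    · obtain ⟨a, h, a0, h0, e1, e2, hle⟩ := hR _ hm _ hb h
      rw [e1, e2]
      have : (0 : ℤ) ≤ p := by positivity
      have : (0 : ℤ) ≤ p * (a - 1) * h := by
        apply mul_nonneg (mul_nonneg this (by omega)) h0.le
      nlinarith
  have : (2 : ℤ) ^ n ≤ p + 1 := by
    have := hb2.trans hb3
    exact le_of_mul_le_mul_right this m0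
  exact_mod_cast this

theorem side_card_small {κ p : ℕ} (hpκ : p ≤ κ) (hsm : (κ - p) ^ 2 * (p + 1) < κ ^ 2)
    (R : Finset ℤ) (hR : ∀ x ∈ R, ∀ y ∈ R, x < y → SameSide κ p x y) : R.card ≤ 2 := by
  by_contra hc
  have key : ∀ x ∈ R, ∀ y ∈ R, ∀ z ∈ R, x < y → y < z → False := by
    intro x hx y hy z hz hxy hyz
    obtain ⟨a1, h1, a10, h10, e1, e2, l1⟩ := hR x hx y hy hxy
    obtain ⟨a2, h2, a20, h20, e3, e4, l2⟩ := hR y hy z hz hyz
    obtain ⟨a3, h3, a30, h30, e5, e6, l3⟩ := hR x hx z hz (hxy.trans hyz)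
    have hsm' : ((κ : ℤ) - p) ^ 2 * (p + 1) < κ ^ 2 := by
      have : ((κ - p : ℕ) : ℤ) = (κ : ℤ) - p := by omega
      rw [← this]
      exact_mod_cast hsm
    have p0 : (0 : ℤ) ≤ p := by positivity
    have x0 : 0 < x := by rw [e1]; positivity
    have f1 : κ * x ≤ (κ - p) * y := by
      rw [e1, e2]
      have : 0 ≤ p * (κ - p - a1) * h1 := mul_nonneg (mul_nonneg p0 (by omega)) h10.le
      nlinarith
    have f2 : κ * y ≤ (κ - p) * z := by
      rw [e3, e4]
      have : 0 ≤ p * (κ - p - a2) * h2 := mul_nonneg (mul_nonneg p0 (by omega)) h20.le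
      nlinarith
    have f3 : z ≤ (p + 1) * x := by
      rw [e5, e6]
      have : 0 ≤ p * (a3 - 1) * h3 := mul_nonneg (mul_nonneg p0 (by omega)) h30.le
      nlinarith
    have k0 : (0 : ℤ) ≤ κ - p := by omega
    have k1 : (0 : ℤ) ≤ κ := by omega
    have g1 : κ * (κ * x) ≤ κ * ((κ - p) * y) := mul_le_mul_of_nonneg_left f1 k1
    have g2 : (κ - p) * (κ * y) ≤ (κ - p) * ((κ - p) * z) := mul_le_mul_of_nonneg_left f2 k0
    have g3 : (κ - p) ^ 2 * z ≤ (κ - p) ^ 2 * ((p + 1) * x) :=
      mul_le_mul_of_nonneg_left f3 (by positivity)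
    have g4 : ((κ : ℤ) - p) ^ 2 * (p + 1) * x < κ ^ 2 * x := mul_lt_mul_of_pos_right hsm' x0
    nlinarith
  obtain ⟨x, hx, y, hy, z, hz, hxy, hxz, hyz⟩ := Finset.two_lt_card.mp (by omega : 2 < R.card)
  rcases lt_or_gt_of_ne hxy with h1 | h1 <;> rcases lt_or_gt_of_ne hxz with h2 | h2 <;>
    rcases lt_or_gt_of_ne hyz with h3 | h3
  · exact key x hx y hy z hz h1 h3
  · exact key x hx z hz y hy h2 h3
  · omega
  · exact key z hz x hx y hy h2 h1
  · exact key y hy x hx z hz h1 h2
  · omega
  · exact key y hy z hz x hx h3 h2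
  · exact key z hz y hy x hx h3 h1

theorem sep_card (O : Finset ℤ) (lo hi g : ℤ) (hg : 0 < g) (hb : ∀ z ∈ O, lo ≤ z ∧ z ≤ hi)
    (hsep : ∀ z ∈ O, ∀ w ∈ O, z < w → g ≤ w - z) (hne : O.Nonempty) :
    g * ((O.card : ℤ) - 1) ≤ hi - lo := by
  have h1 : O.card ≤ (Finset.Icc (0 : ℤ) ((hi - lo) / g)).card := by
    apply Finset.card_le_card_of_injOn (fun a => (a - lo) / g)
    · intro a ha
      have := hb a ha
      simp only [coe_Icc, Set.mem_Icc]
      exact ⟨Int.ediv_nonneg (by omega) hg.le, Int.ediv_le_ediv hg (by omega)⟩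
    · intro a ha b hb' hab
      simp only at hab
      by_contra hne
      have e1 := Int.emod_add_mul_ediv (a - lo) g
      have e2 := Int.emod_add_mul_ediv (b - lo) g
      have e3 := Int.emod_nonneg (a - lo) hg.ne'
      have e4 := Int.emod_nonneg (b - lo) hg.ne'
      have e5 := Int.emod_lt_of_pos (a - lo) hg
      have e6 := Int.emod_lt_of_pos (b - lo) hg
      rw [hab] at e1
      rcases lt_or_gt_of_ne hne with h | h
      · have := hsep a ha b hb' h
        omega
      · have := hsep b hb' a ha h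
        omega
  obtain ⟨z, hz⟩ := hne
  have := hb z hz
  have h2 : 0 ≤ (hi - lo) / g := Int.ediv_nonneg (by omega) hg.le
  rw [Int.card_Icc] at h1
  have h3 : (O.card : ℤ) - 1 ≤ (hi - lo) / g := by omega
  have h4 : g * ((hi - lo) / g) ≤ hi - lo := Int.mul_ediv_self_le hg.ne'
  nlinarith

theorem pow_big (m : ℕ) (hm : 5 ≤ m) : 8 * m + 2 < 3 * 2 ^ (m - 1) := by
  induction m, hm using Nat.le_induction with
  | base => norm_num
  | succ m hm ih =>
    have : m + 1 - 1 = (m - 1) + 1 := by omega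
    rw [this, pow_succ]
    omega

theorem lemmaA {κ : ℕ} (hκ : 2 ≤ κ) {S : Finset ℤ} (hS : SmallRel κ S) (hcard : S.card = κ + 1)
    (hprim : ∀ d : ℤ, (∀ x ∈ S, ∀ y ∈ S, d ∣ y - x) → IsUnit d) :
    ∃ a : ℤ, S = Finset.Icc a (a + κ) ∨ (κ = 4 ∧ S = {a, a + 2, a + 3, a + 4, a + 6}) := by
  obtain ⟨p, hp, hκp, hpκ, hsm, hp3⟩ := exists_good_prime hκ
  have p0 : (0 : ℤ) < p := by exact_mod_cast hp.pos
  have p2 : 2 ≤ p := hp.two_le
  obtain ⟨x0, hx0, y0, hy0, hne0, hmod⟩ :=
    Finset.exists_ne_map_eq_of_card_lt_of_maps_to (s := S) (t := Finset.Ico (0 : ℤ) p)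
      (f := fun x => x % p) (by rw [hcard, Int.card_Ico]; omega) (fun x _ => by
        simp only [coe_Ico, Set.mem_Ico]
        exact ⟨Int.emod_nonneg _ p0.ne', Int.emod_lt_of_pos _ p0⟩)
  have hd0 : (p : ℤ) ∣ y0 - x0 := Int.ModEq.dvd hmod
  set C := S.filter (fun z => (p : ℤ) ∣ z - x0) with hC
  set O := S.filter (fun z => ¬ (p : ℤ) ∣ z - x0) with hO
  have hCO : C.card + O.card = κ + 1 := by
    rw [← hcard]; exact Finset.card_filter_add_card_filter_not _
  have hCS : ∀ x ∈ C, x ∈ S := fun x hx => (Finset.mem_filter.mp hx).1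
  have hOS : ∀ x ∈ O, x ∈ S := fun x hx => (Finset.mem_filter.mp hx).1
  have hSCO : ∀ x ∈ S, x ∈ C ∨ x ∈ O := fun x hx => by
    by_cases h : (p : ℤ) ∣ x - x0
    · exact Or.inl (Finset.mem_filter.mpr ⟨hx, h⟩)
    · exact Or.inr (Finset.mem_filter.mpr ⟨hx, h⟩)
  have hCC : ∀ x ∈ C, ∀ y ∈ C, (p : ℤ) ∣ y - x := fun x hx y hy => by
    have := dvd_sub (Finset.mem_filter.mp hy).2 (Finset.mem_filter.mp hx).2
    simpa using this
  have hOC : ∀ x ∈ C, ∀ z ∈ O, ¬ (p : ℤ) ∣ z - x := fun x hx z hz h => by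
    apply (Finset.mem_filter.mp hz).2
    have := dvd_add h (Finset.mem_filter.mp hx).2
    simpa using this
  have hx0C : x0 ∈ C := Finset.mem_filter.mpr ⟨hx0, by simp⟩
  have hy0C : y0 ∈ C := Finset.mem_filter.mpr ⟨hy0, hd0⟩
  have hOne : O.Nonempty := by
    by_contra h
    rw [Finset.not_nonempty_iff_eq_empty] at h
    have := hprim p (fun x hx y hy => by
      rcases hSCO x hx with h1 | h1
      · rcases hSCO y hy with h2 | h2
        · exact hCC x h1 y h2
        · simp [h] at h2
      · simp [h] at h1)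
    rw [Int.isUnit_iff] at this
    omega
  have hF : ∀ x ∈ C, ∀ y ∈ C, x ≠ y → ∀ h : ℤ, y - x = p * h → ∀ z ∈ O,
      ∃ c : ℤ, z - x = c * h ∧ |c| ≤ κ ∧ |c - p| ≤ κ :=
    fun x hx y hy hxy h hh z hz =>
      factF hS hp hκp (hCS x hx) (hCS y hy) (hOS z hz) hxy hh (hOC x hx z hz)
  by_cases hc2 : C.card ≤ 2
  · -- a class with two elements
    obtain ⟨x, hx, y, hy, hxy⟩ : ∃ x ∈ C, ∃ y ∈ C, x < y := by
      rcases lt_or_gt_of_ne hne0 with h | h
      · exact ⟨x0, hx0C, y0, hy0C, h⟩
      · exact ⟨y0, hy0C, x0, hx0C, h⟩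
    have hCxy : ∀ z ∈ C, z = x ∨ z = y := by
      intro z hz
      by_contra hcon
      push Not at hcon
      have : 2 < C.card := Finset.two_lt_card.mpr
        ⟨x, hx, y, hy, z, hz, hxy.ne, hcon.1.symm, hcon.2.symm⟩
      omega
    obtain ⟨h, hh⟩ := hCC x hx y hy
    have h0 : 0 < h := by
      by_contra hcon
      push Not at hcon
      nlinarith
    have hall : ∀ z ∈ S, h ∣ z - x := by
      intro z hz
      rcases hSCO z hz with h1 | h1
      · rcases hCxy z h1 with rfl | rfl
        · simp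
        · exact ⟨p, by rw [hh]; ring⟩
      · obtain ⟨c, hc, -⟩ := hF x hx y hy hxy.ne h hh z h1
        exact ⟨c, by rw [hc]; ring⟩
    have hu := hprim h (fun a ha b hb => by
      have := dvd_sub (hall b hb) (hall a ha)
      simpa using this)
    rw [Int.isUnit_iff] at hu
    have h1 : h = 1 := by omega
    subst h1
    have hb : ∀ z ∈ S, x + p - κ ≤ z ∧ z ≤ x + κ := by
      intro z hz
      rcases hSCO z hz with h1 | h1
      · rcases hCxy z h1 with rfl | rfl <;> omega
      · obtain ⟨c, hc, b1, b2⟩ := hF x hx y hy hxy.ne 1 hh z h1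
        rw [abs_le] at b1 b2
        omega
    have hne : S.Nonempty := ⟨x0, hx0⟩
    refine ⟨S.min' hne, Or.inl (caseA (by omega) hS hcard (S.min'_mem hne) (S.max'_mem hne)
      (fun z hz => ⟨S.min'_le z hz, S.le_max' z hz⟩) ?_)⟩
    have b1 := hb _ (S.min'_mem hne)
    have b2 := hb _ (S.max'_mem hne)
    omega
  by_cases hAP : ∃ x ∈ C, ∃ y ∈ C, ∃ w ∈ C, x < y ∧ y < w ∧ y - x ≠ w - y
  · exfalso
    obtain ⟨x, hx, y, hy, w, hw, hxy, hyw, hnAP⟩ := hAP
    obtain ⟨⟨x1, y1⟩, hm, hmin⟩ := Finset.exists_min_image ((C ×ˢ C).filter (fun u => u.1 < u.2))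
      (fun u => u.2 - u.1) ⟨(x, y), by simp [hx, hy, hxy]⟩
    simp only [mem_filter, mem_product] at hm hmin
    obtain ⟨⟨hx1, hy1⟩, hxy1⟩ := hm
    obtain ⟨h0, hh0⟩ := hCC x1 hx1 y1 hy1
    have h00 : 0 < h0 := by
      by_contra hcon
      push Not at hcon
      nlinarith
    obtain ⟨h1, hh1⟩ := hCC x hx y hy
    obtain ⟨h2, hh2⟩ := hCC y hy w hw
    have hh3 : w - x = p * (h1 + h2) := by linarith
    have l1 : h0 ≤ h1 := by
      have := hmin (x, y) ⟨⟨hx, hy⟩, hxy⟩
      simp only at this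
      rw [hh0, hh1] at this
      exact le_of_mul_le_mul_left this p0
    have l2 : h0 ≤ h2 := by
      have := hmin (y, w) ⟨⟨hy, hw⟩, hyw⟩
      simp only at this
      rw [hh0, hh2] at this
      exact le_of_mul_le_mul_left this p0
    have hne12 : h1 ≠ h2 := by
      rintro rfl
      exact hnAP (by rw [hh1, hh2])
    have hdv : ∀ a ∈ C, ∀ b ∈ C, a ≠ b → ∀ h : ℤ, b - a = p * h → ∀ z ∈ O, ∀ z' ∈ O,
        h ∣ z' - z := by
      intro a ha b hb hab h hh z hz z' hz'
      obtain ⟨c, hc, -⟩ := hF a ha b hb hab h hh z hz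
      obtain ⟨c', hc', -⟩ := hF a ha b hb hab h hh z' hz'
      exact ⟨c' - c, by linear_combination hc' - hc⟩
    have hsep := sep_card O (x1 + (p - κ) * h0) (x1 + κ * h0) (6 * h0) (by omega)
      (fun z hz => by
        obtain ⟨c, hc, b1, b2⟩ := hF x1 hx1 y1 hy1 hxy1.ne h0 hh0 z hz
        rw [abs_le] at b1 b2
        constructor <;> nlinarith)
      (fun z hz z' hz' hlt => by
        have d1 := hdv x hx y hy hxy.ne h1 hh1 z hz z' hz'
        have d2 := hdv y hy w hw hyw.ne h2 hh2 z hz z' hz'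
        have d3 := hdv x hx w hw (hxy.trans hyw).ne _ hh3 z hz z' hz'
        rcases lt_or_gt_of_ne hne12 with h | h
        · have := six_mul_le (by omega) h (by omega : 0 < z' - z) d1 d2 d3
          omega
        · have := six_mul_le (by omega) h (by omega : 0 < z' - z) d2 d1 (by rwa [add_comm])
          omega) hOne
    have hO6 : 6 * ((O.card : ℤ) - 1) ≤ 2 * κ - p := by
      apply le_of_mul_le_mul_right _ h00
      linarith
    obtain ⟨z, hz⟩ := hOne
    set R := (C.filter (fun a => z < a)).image (fun a => a - z) with hR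
    set L := (C.filter (fun a => ¬ z < a)).image (fun a => z - a) with hL
    have hRL : R.card + L.card = C.card := by
      rw [hR, hL, Finset.card_image_of_injective _ (fun a b h => by simpa using h),
        Finset.card_image_of_injective _ (fun a b h => by simpa using h)]
      exact Finset.card_filter_add_card_filter_not _
    have hRm : ∀ α ∈ R, 0 < α ∧ z + α ∈ C := by
      intro α hα
      obtain ⟨a, ha, rfl⟩ := Finset.mem_image.mp hα
      rw [Finset.mem_filter] at ha
      exact ⟨by omega, by simpa using ha.1⟩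
    have hLm : ∀ α ∈ L, 0 < α ∧ z - α ∈ C := by
      intro α hα
      obtain ⟨a, ha, rfl⟩ := Finset.mem_image.mp hα
      rw [Finset.mem_filter] at ha
      have : a ≠ z := by
        rintro rfl
        exact hOC a ha.1 a hz (by simp)
      exact ⟨by omega, by simpa using ha.1⟩
    have hRs : ∀ α ∈ R, ∀ β ∈ R, α < β → SameSide κ p α β := by
      intro α hα β hβ hlt
      obtain ⟨a0, a1⟩ := hRm α hα
      obtain ⟨b0, b1⟩ := hRm β hβ
      obtain ⟨h, hh⟩ := hCC _ a1 _ b1
      obtain ⟨c, hc, e1, e2⟩ := hF _ a1 _ b1 (by omega) h hh z hz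
      have hpos : 0 < h := by
        by_contra hcon
        push Not at hcon
        nlinarith
      have cneg : c < 0 := by
        by_contra hcon
        push Not at hcon
        nlinarith
      rw [abs_le] at e1 e2
      exact ⟨-c, h, by omega, hpos, by linarith, by linarith, by omega⟩
    have hLs : ∀ α ∈ L, ∀ β ∈ L, α < β → SameSide κ p α β := by
      intro α hα β hβ hlt
      obtain ⟨a0, a1⟩ := hLm α hα
      obtain ⟨b0, b1⟩ := hLm β hβ
      obtain ⟨h, hh⟩ := hCC _ a1 _ b1
      obtain ⟨c, hc, e1, e2⟩ := hF _ a1 _ b1 (by omega) h hh z hz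
      have hneg : h < 0 := by
        by_contra hcon
        push Not at hcon
        nlinarith
      have cneg : c < 0 := by
        by_contra hcon
        push Not at hcon
        nlinarith
      rw [abs_le] at e1 e2
      exact ⟨-c, -h, by omega, by omega, by linarith, by linarith, by omega⟩
    have big : ∀ T : Finset ℤ, (∀ α ∈ T, 0 < α) →
        (∀ α ∈ T, ∀ β ∈ T, α < β → SameSide κ p α β) → C.card ≤ 2 * T.card → 11 ≤ κ → False := by
      intro T h1 h2 h3 h4
      have h5 : 5 ≤ T.card := by omega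
      have h6 := side_card hκp T h1 h2 (T.card - 1) (by omega)
      have h7 := pow_big T.card h5
      omega
    rcases hsm with hsm | hsm
    · rcases le_total R.card L.card with h | h
      · exact big L (fun α hα => (hLm α hα).1) hLs (by omega) hsm
      · exact big R (fun α hα => (hRm α hα).1) hRs (by omega) hsm
    · have r2 := side_card_small hpκ hsm R hRs
      have l2 := side_card_small hpκ hsm L hLs
      have two : ∀ T : Finset ℤ, (∀ α ∈ T, ∀ β ∈ T, α < β → SameSide κ p α β) → 1 < T.card →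
          ∃ α ∈ T, ∃ β ∈ T, SameSide κ p α β := by
        intro T h1 h2
        obtain ⟨α, hα, β, hβ, hne⟩ := Finset.one_lt_card.mp h2
        rcases lt_or_gt_of_ne hne with h | h
        · exact ⟨α, hα, β, hβ, h1 α hα β hβ h⟩
        · exact ⟨β, hβ, α, hα, h1 β hβ α hα h⟩
      have hκ1 : p + 1 ≤ κ := by
        rcases le_total R.card L.card with h | h
        · obtain ⟨α, -, β, -, a, h, a0, -, -, -, hle⟩ := two L hLs (by omega)
          omega
        · obtain ⟨α, -, β, -, a, h, a0, -, -, -, hle⟩ := two R hRs (by omega)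
          omega
      have hp3' : p ≤ 3 := by
        have : p ≠ 4 := by
          rintro rfl
          norm_num at hp
        omega
      obtain ⟨rfl, rfl⟩ : κ = 4 ∧ p = 3 := by omega
      obtain ⟨α1, hα1, α2, hα2, a, h, a0, hh, e1, e2, hle⟩ := two L hLs (by omega)
      obtain ⟨β1, hβ1, β2, hβ2, b, g, b0, hg, e3, e4, hle'⟩ := two R hRs (by omega)
      have opp : ∀ α ∈ L, ∀ β ∈ R, β = 2 * α ∨ α = 2 * β := by
        intro α hα β hβ
        obtain ⟨a0, a1⟩ := hLm α hα
        obtain ⟨b0, b1⟩ := hRm β hβ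
        obtain ⟨h, hh⟩ := hCC _ a1 _ b1
        obtain ⟨c, hc, e1, e2⟩ := hF _ a1 _ b1 (by omega) h hh z hz
        push_cast at hh
        have hpos : 0 < h := by omega
        have c0 : 0 < c := by
          by_contra hcon
          push Not at hcon
          nlinarith
        have c3 : c < 3 := by
          by_contra hcon
          push Not at hcon
          nlinarith
        have : c = 1 ∨ c = 2 := by omega
        rcases this with rfl | rfl <;> omega
      have o1 := opp _ hα2 _ hβ1
      have o2 := opp _ hα1 _ hβ2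
      push_cast at hle hle' e2 e4
      obtain rfl : a = 1 := by omega
      obtain rfl : b = 1 := by omega
      omega
  · push Not at hAP
    obtain ⟨x, hx, y, hy, w, hw, hxy, hyw⟩ : ∃ x ∈ C, ∃ y ∈ C, ∃ w ∈ C, x < y ∧ y < w := by
      obtain ⟨x, hx, y, hy, z, hz, hxy, hxz, hyz⟩ := Finset.two_lt_card.mp (by omega : 2 < C.card)
      rcases lt_or_gt_of_ne hxy with h1 | h1 <;> rcases lt_or_gt_of_ne hxz with h2 | h2 <;>
        rcases lt_or_gt_of_ne hyz with h3 | h3
      · exact ⟨x, hx, y, hy, z, hz, h1, h3⟩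
      · exact ⟨x, hx, z, hz, y, hy, h2, h3⟩
      · omega
      · exact ⟨z, hz, x, hx, y, hy, h2, h1⟩
      · exact ⟨y, hy, x, hx, z, hz, h1, h2⟩
      · omega
      · exact ⟨y, hy, z, hz, x, hx, h3, h2⟩
      · exact ⟨z, hz, y, hy, x, hx, h3, h1⟩
    have hap := hAP x hx y hy w hw hxy hyw
    have hC3 : ∀ v ∈ C, v = x ∨ v = y ∨ v = w := by
      intro v hv
      rcases lt_trichotomy v x with h | h | h
      · have e1 := hAP v hv x hx y hy h hxy
        have e2 := hAP v hv x hx w hw h (hxy.trans hyw)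
        omega
      · exact Or.inl h
      rcases lt_trichotomy v w with h' | h' | h'
      · have e1 := hAP x hx v hv w hw h h'
        omega
      · exact Or.inr (Or.inr h')
      · have e1 := hAP x hx w hw v hv (hxy.trans hyw) h'
        have e2 := hAP y hy w hw v hv hyw h'
        omega
    have hCeq : C = {x, y, w} := by
      ext v
      simp only [mem_insert, mem_singleton]
      refine ⟨hC3 v, ?_⟩
      rintro (rfl | rfl | rfl) <;> assumption
    have hc3 : C.card = 3 := by
      rw [hCeq]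
      exact Finset.card_eq_three.mpr ⟨x, y, w, hxy.ne, (hxy.trans hyw).ne, hyw.ne, rfl⟩
    obtain ⟨h, hh⟩ := hCC x hx y hy
    have h0 : 0 < h := by
      by_contra hcon
      push Not at hcon
      nlinarith
    have hall : ∀ z ∈ S, h ∣ z - x := by
      intro z hz
      rcases hSCO z hz with h1 | h1
      · rcases hC3 z h1 with rfl | rfl | rfl
        · simp
        · exact ⟨p, by rw [hh]; ring⟩
        · exact ⟨2 * p, by linear_combination 2 * hh - hap⟩
      · obtain ⟨c, hc, -⟩ := hF x hx y hy hxy.ne h hh z h1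
        exact ⟨c, by rw [hc]; ring⟩
    have hu := hprim h (fun a ha b hb => by
      have := dvd_sub (hall b hb) (hall a ha)
      simpa using this)
    rw [Int.isUnit_iff] at hu
    have h1 : h = 1 := by omega
    subst h1
    have hOz : ∀ z ∈ O, (x + 2 * p - κ ≤ z ∧ z ≤ x + κ) ∧ (z - x) % 2 = 0 := by
      intro z hz
      obtain ⟨c1, hc1, b1, -⟩ := hF x hx y hy hxy.ne 1 hh z hz
      obtain ⟨c2, hc2, -, b2⟩ := hF y hy w hw hyw.ne 1 (by omega) z hz
      obtain ⟨c3, hc3, -, -⟩ := hF x hx w hw (hxy.trans hyw).ne 2 (by omega) z hz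
      rw [abs_le] at b1 b2
      omega
    have hsep := sep_card O _ _ 2 (by omega) (fun z hz => (hOz z hz).1)
      (fun z hz z' hz' hlt => by
        have := (hOz z hz).2
        have := (hOz z' hz').2
        omega) hOne
    have hOpos := hOne.card_pos
    rcases hp3 (by omega) with h' | ⟨rfl, rfl⟩
    · exfalso
      obtain ⟨z, hz⟩ := hOne
      have := hOz z hz
      omega
    · have hOsub : O ⊆ {x + 2, x + 4} := by
        intro z hz
        have := hOz z hz
        simp only [mem_insert, mem_singleton]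
        omega
      have hOeq : O = {x + 2, x + 4} := Finset.eq_of_subset_of_card_le hOsub (by
        rw [Finset.card_pair (by omega)]
        omega)
      refine ⟨x, Or.inr ⟨rfl, ?_⟩⟩
      ext v
      simp only [mem_insert, mem_singleton]
      constructor
      · intro hv
        rcases hSCO v hv with h1 | h1
        · have := hC3 v h1
          omega
        · rw [hOeq] at h1
          simp only [mem_insert, mem_singleton] at h1
          omega
      · have m1 : x + 2 ∈ O := by rw [hOeq]; simp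
        have m2 : x + 4 ∈ O := by rw [hOeq]; simp
        have e1 : y = x + 3 := by omega
        have e2 : w = x + 6 := by omega
        rintro (rfl | rfl | rfl | rfl | rfl)
        · exact hCS _ hx
        · exact hOS _ m1
        · exact hCS _ (e1 ▸ hy)
        · exact hOS _ m2
        · exact hCS _ (e2 ▸ hw)

end Pool.Agent.Lib.MP_145fc7_co
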