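import Pool.Agent.Lib.MP_145fc7_co.CombB

set_option autoImplicit false

namespace Pool.Agent.Lib.MP_145fc7_co

open Finset

/-- Small relations on triples of a family in an abelian group. -/
def FamRel {ι G : Type*} [AddCommGroup G] (κ : ℕ) (t : ι → G) : Prop :=
  ∀ i j l : ι, i ≠ j → i ≠ l → j ≠ l →
    ∃ c1 c2 : ℤ, (c1 ≠ 0 ∨ c2 ≠ 0) ∧ |c1| ≤ κ ∧ |c2| ≤ κ ∧ |c1 + c2| ≤ κ ∧
      c1 • (t j - t i) + c2 • (t l - t i) = 0

/-- Small relations valid simultaneously for an integer model and the family. -/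
def JointRel {ι G : Type*} [AddCommGroup G] (κ : ℕ) (B : ι → ℤ) (t : ι → G) : Prop :=
  ∀ i j l : ι, i ≠ j → i ≠ l → j ≠ l →
    ∃ c1 c2 : ℤ, (c1 ≠ 0 ∨ c2 ≠ 0) ∧ |c1| ≤ κ ∧ |c2| ≤ κ ∧ |c1 + c2| ≤ κ ∧
      c1 * (B j - B i) + c2 * (B l - B i) = 0 ∧ c1 • (t j - t i) + c2 • (t l - t i) = 0

theorem integer_model {ι G : Type*} [AddCommGroup G] {κ : ℕ} (hκ : 1 ≤ κ) (t : ι → G)
    (i0 i1 : ι) (h01 : i0 ≠ i1)
    (hord : ∀ i j, i ≠ j → ∀ m : ℤ, m ≠ 0 → |m| ≤ 4 * κ ^ 2 * κ.factorial → m • (t i - t j) ≠ 0)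
    (hrel : FamRel κ t) : ∃ A : ι → ℤ, Function.Injective A ∧ ∀ (i j l : ι) (c1 c2 : ℤ),
      |c1| ≤ κ → |c2| ≤ κ → c1 • (t j - t i) + c2 • (t l - t i) = 0 →
      c1 * (A j - A i) + c2 * (A l - A i) = 0 := by
  have F0 : (1 : ℤ) ≤ κ.factorial := by exact_mod_cast κ.factorial_pos
  have κ0 : (1 : ℤ) ≤ κ := by exact_mod_cast hκ
  have hbig : (κ : ℤ) * κ.factorial ≤ 4 * κ ^ 2 * κ.factorial :=
    mul_le_mul_of_nonneg_right (by nlinarith) (by omega)
  have hA : ∀ l, ∃ a : ℤ, |a| ≤ κ * κ.factorial ∧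
      (κ.factorial : ℤ) • (t l - t i0) = a • (t i1 - t i0) := by
    intro l
    by_cases h0 : l = i0
    · exact ⟨0, by simp; positivity, by simp [h0]⟩
    by_cases h1 : l = i1
    · exact ⟨κ.factorial, by rw [abs_of_pos (by omega)]; nlinarith, by simp [h1]⟩
    obtain ⟨c1, c2, hne, b1, b2, b3, hr⟩ := hrel i0 i1 l h01 (Ne.symm h0) (Ne.symm h1)
    have hc2 : c2 ≠ 0 := by
      rintro rfl
      have hc1 : c1 ≠ 0 := by tauto
      apply hord i1 i0 h01.symm c1 hc1 (by nlinarith)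
      simpa using hr
    have hdv : c2 ∣ (κ.factorial : ℤ) := by
      rw [← Int.natAbs_dvd]
      have : c2.natAbs ≤ κ := by
        have := Int.natCast_natAbs c2
        omega
      exact_mod_cast Nat.dvd_factorial (Int.natAbs_pos.mpr hc2) this
    obtain ⟨e, he⟩ := hdv
    refine ⟨-(e * c1), ?_, ?_⟩
    · rw [abs_neg, abs_mul]
      have h1 : |e| ≤ κ.factorial := by
        have : (κ.factorial : ℤ) = |c2| * |e| := by
          rw [← abs_mul, ← he, abs_of_pos (by omega)]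
        have := Int.one_le_abs hc2
        nlinarith [abs_nonneg e]
      nlinarith [abs_nonneg e, abs_nonneg c1]
    · rw [he]
      have : c2 • (t l - t i0) = -(c1 • (t i1 - t i0)) := by
        rw [eq_neg_iff_add_eq_zero, add_comm]; exact hr
      rw [mul_comm, mul_smul, this, smul_neg, neg_smul, mul_smul]
  choose A hA1 hA2 using hA
  have hdiff : ∀ i j, (κ.factorial : ℤ) • (t j - t i) = (A j - A i) • (t i1 - t i0) := by
    intro i j
    rw [sub_smul, ← hA2, ← hA2, ← smul_sub]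
    congr 1
    abel
  refine ⟨A, ?_, ?_⟩
  · intro i j hij
    by_contra hne
    apply hord j i (Ne.symm hne) κ.factorial (by omega)
      (by rw [abs_of_pos (by omega)]; nlinarith)
    rw [hdiff, hij]
    simp
  · intro i j l c1 c2 b1 b2 hr
    by_contra hcon
    apply hord i1 i0 h01.symm _ hcon
    · have e1 : |A j - A i| ≤ 2 * (κ * κ.factorial) := by
        have := hA1 i; have := hA1 j
        rw [abs_le] at *
        constructor <;> omega
      have e2 : |A l - A i| ≤ 2 * (κ * κ.factorial) := by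
        have := hA1 i; have := hA1 l
        rw [abs_le] at *
        constructor <;> omega
      have e3 := abs_add_le (c1 * (A j - A i)) (c2 * (A l - A i))
      rw [abs_mul, abs_mul] at e3
      have e4 : |c1| * |A j - A i| ≤ κ * (2 * (κ * κ.factorial)) :=
        mul_le_mul b1 e1 (abs_nonneg _) (by omega)
      have e5 : |c2| * |A l - A i| ≤ κ * (2 * (κ * κ.factorial)) :=
        mul_le_mul b2 e2 (abs_nonneg _) (by omega)
      nlinarith
    · rw [add_smul, mul_smul, mul_smul, ← hdiff, ← hdiff, smul_comm c1, smul_comm c2, ← smul_add,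
        hr, smul_zero]

theorem normalise {ι : Type*} [Fintype ι]
    (i0 i1 : ι) (h01 : i0 ≠ i1) (A : ι → ℤ) (hA : Function.Injective A) :
    ∃ B : ι → ℤ, Function.Injective B ∧ (∀ (i j l : ι) (c1 c2 : ℤ),
      c1 * (A j - A i) + c2 * (A l - A i) = 0 → c1 * (B j - B i) + c2 * (B l - B i) = 0) ∧
      ∀ d : ℤ, (∀ i j, d ∣ B j - B i) → IsUnit d := by
  classical
  set g : ℤ := Finset.univ.gcd (fun i => A i - A i0) with hg
  have hdv : ∀ i, g ∣ A i - A i0 := fun i => Finset.gcd_dvd (Finset.mem_univ i)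
  have g0 : g ≠ 0 := by
    intro h
    have := hdv i1
    rw [h, zero_dvd_iff, sub_eq_zero] at this
    exact h01 (hA this).symm
  choose B hB using hdv
  have hd : ∀ i j, A j - A i = g * (B j - B i) := fun i j => by
    linear_combination hB j - hB i
  refine ⟨B, ?_, ?_, ?_⟩
  · intro i j hij
    apply hA
    have := hd i j
    rw [hij] at this
    simp only [sub_self, mul_zero] at this
    omega
  · intro i j l c1 c2 hr
    rw [hd, hd] at hr
    apply mul_left_cancel₀ g0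
    linear_combination hr
  · intro d hdd
    have hB0 : B i0 = 0 := by
      have := hB i0
      simp only [sub_self] at this
      exact (mul_eq_zero.mp this.symm).resolve_left g0
    have : g * d ∣ g := by
      rw [hg]
      apply Finset.dvd_gcd
      intro i _
      rw [hB i, ← hg]
      apply mul_dvd_mul_left
      simpa [hB0] using hdd i0 i
    have h2 : d ∣ 1 := by
      have : g * d ∣ g * 1 := by simpa using this
      exact (mul_dvd_mul_iff_left g0).mp this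
    exact isUnit_of_dvd_one h2

/-- From a joint relation on a primitive triple with large width. -/
theorem rel_mult {G : Type*} [AddCommGroup G] {κ : ℕ} {a b : ℤ} (hab : IsCoprime a b)
    {u v : G} {c1 c2 : ℤ} (hne : c1 ≠ 0 ∨ c2 ≠ 0)
    (hr : c1 * a + c2 * b = 0) (hr' : c1 • u + c2 • v = 0) (b1 : |c1| ≤ κ) (b2 : |c2| ≤ κ)
    (b3 : |c1 + c2| ≤ κ) :
    ∃ m : ℤ, 0 < m ∧ m * |a| ≤ κ ∧ m * |b| ≤ κ ∧ m * |b - a| ≤ κ ∧ m • (b • u - a • v) = 0 := by
  obtain ⟨x, y, hxy⟩ := hab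
  have e1 : c1 = (c1 * y - c2 * x) * b := by linear_combination (-c1) * hxy + x * hr
  have e2 : c2 = -((c1 * y - c2 * x) * a) := by linear_combination (-c2) * hxy + y * hr
  set m := c1 * y - c2 * x
  have m0 : m ≠ 0 := by
    intro h
    rw [h] at e1 e2
    simp at e1 e2
    tauto
  have hz : m • (b • u - a • v) = 0 := by
    rw [smul_sub, ← mul_smul, ← mul_smul, ← e1, sub_eq_add_neg, ← neg_smul, ← e2, hr']
  refine ⟨|m|, abs_pos.mpr m0, ?_, ?_, ?_, ?_⟩
  · rwa [e2, abs_neg, abs_mul] at b2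
  · rwa [e1, abs_mul] at b1
  · have : c1 + c2 = m * (b - a) := by linear_combination e1 + e2
    rwa [this, abs_mul] at b3
  · rcases abs_cases m with h | h
    · rw [h.1, hz]
    · rw [h.1, neg_smul, hz, neg_zero]

/-- Joint relations on the integer side. -/
def TauRel {G : Type*} [AddCommGroup G] (κ : ℕ) (S : Finset ℤ) (τ : ℤ → G) : Prop :=
  ∀ x ∈ S, ∀ y ∈ S, ∀ z ∈ S, x ≠ y → x ≠ z → y ≠ z → IsCoprime (y - x) (z - x) →
    ∃ m : ℤ, 0 < m ∧ m * |y - x| ≤ κ ∧ m * |z - x| ≤ κ ∧ m * |z - y| ≤ κ ∧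
      m • ((z - x) • (τ y - τ x) - (y - x) • (τ z - τ x)) = 0

theorem transfer_interval {G : Type*} [AddCommGroup G] {κ : ℕ} (hκ : 2 ≤ κ) (a : ℤ) (τ : ℤ → G)
    (h : TauRel κ (Finset.Icc a (a + κ)) τ) :
    ∀ i : ℤ, 0 ≤ i → i ≤ κ → τ (a + i) = τ a + i • (τ (a + 1) - τ a) := by
  set d := τ (a + 1) - τ a with hd
  have mem : ∀ i : ℤ, 0 ≤ i → i ≤ κ → a + i ∈ Finset.Icc a (a + κ) := fun i h0 h1 => by
    rw [Finset.mem_Icc]; omega
  have step1 : ∀ i : ℤ, 2 ≤ i → i ≤ κ → ∃ m : ℤ, 0 < m ∧ m * i ≤ κ ∧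
      m • (τ (a + i) - (τ a + i • d)) = 0 := by
    intro i h2 hi
    obtain ⟨m, m0, -, b, -, e⟩ := h a (by simp) (a + 1)
      (mem 1 (by omega) (by omega)) (a + i) (mem i (by omega) hi) (by omega) (by omega) (by omega)
      (by simpa using isCoprime_one_left)
    simp only [add_sub_cancel_left, one_smul] at b e
    rw [abs_of_pos (by omega)] at b
    refine ⟨m, m0, b, ?_⟩
    rw [← neg_eq_zero, ← smul_neg, ← e]
    congr 1
    abel
  have big : ∀ i : ℤ, (κ : ℤ) < 2 * i ∨ i = 0 ∨ i = 1 → i ≤ κ → τ (a + i) = τ a + i • d := by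
    intro i h2 hi
    by_cases h0 : i = 0
    · simp [h0]
    by_cases h1 : i = 1
    · simp [h1, hd]
    obtain ⟨m, m0, b, e⟩ := step1 i (by omega) hi
    have : m = 1 := by
      by_contra hm
      have : 2 ≤ m := by omega
      have : (κ : ℤ) < 2 * i := by omega
      nlinarith
    rw [this, one_smul, sub_eq_zero] at e
    exact e
  have eκ := big κ (by omega) le_rfl
  have eκ1 := big (κ - 1) (by omega) (by omega)
  intro i h0 hi
  by_cases hb : (κ : ℤ) < 2 * i ∨ i = 0 ∨ i = 1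
  · exact big i hb hi
  by_cases hh : 2 * i < κ
  · obtain ⟨m, m0, -, b, -, e⟩ := h (a + κ) (mem κ (by omega) (by omega)) (a + (κ - 1))
      (mem _ (by omega) (by omega)) (a + i) (mem i (by omega) hi) (by omega) (by omega) (by omega)
      (by
        have : a + (κ - 1) - (a + κ) = -1 := by ring
        rw [this]
        exact isCoprime_one_left.neg_left)
    have e1 : a + (κ - 1) - (a + κ) = -1 := by ring
    have e2 : a + i - (a + κ) = i - κ := by ring
    rw [e2, abs_of_neg (by omega)] at b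
    have : m = 1 := by
      by_contra hm
      have : 2 ≤ m := by omega
      nlinarith
    rw [this, one_smul, e1, e2, eκ, eκ1] at e
    rw [← sub_eq_zero, ← e]
    module
  · have hi2 : (κ : ℤ) = 2 * i := by omega
    obtain ⟨m, m0, b, e⟩ := step1 i (by omega) hi
    obtain ⟨m', m0', -, b', -, e'⟩ := h (a + 1) (mem 1 (by omega) (by omega)) (a + i)
      (mem _ (by omega) (by omega)) (a + κ) (mem κ (by omega) le_rfl) (by omega) (by omega)
      (by omega) ⟨-2, 1, by omega⟩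
    have e1 : a + i - (a + 1) = i - 1 := by ring
    have e2 : a + κ - (a + 1) = 2 * i - 1 := by omega
    rw [e2, abs_of_pos (by omega)] at b'
    have hm' : m' = 1 := by
      by_contra hm
      have : 2 ≤ m' := by omega
      have : 2 ≤ i := by omega
      nlinarith
    have e3 : τ (a + 1) = τ a + d := by rw [hd]; abel
    rw [hm', one_smul, e1, e2, eκ, e3, hi2] at e'
    have e4 : (2 * i - 1) • (τ (a + i) - (τ a + i • d)) = 0 := by
      rw [← e']
      module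
    have hm : m = 1 ∨ m = 2 := by
      have : m < 3 := by
        by_contra hm
        have : 2 ≤ i := by omega
        nlinarith
      omega
    rw [← sub_eq_zero]
    rcases hm with rfl | rfl
    · simpa using e
    · have : τ (a + i) - (τ a + i • d) = i • ((2 : ℤ) • (τ (a + i) - (τ a + i • d))) -
          (2 * i - 1) • (τ (a + i) - (τ a + i • d)) := by module
      rw [this, e, e4]
      simp

theorem transfer_exc {G : Type*} [AddCommGroup G] (a : ℤ) (τ : ℤ → G)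
    (h : TauRel 4 {a, a + 2, a + 3, a + 4, a + 6} τ) :
    ∃ d : G, τ (a + 2) = τ a + (2 : ℤ) • d ∧ τ (a + 3) = τ a + (3 : ℤ) • d ∧
      τ (a + 4) = τ a + (4 : ℤ) • d ∧ τ (a + 6) = τ a + (6 : ℤ) • d := by
  obtain ⟨m1, p1, -, b1, -, e1⟩ := h a (by simp) (a + 2) (by simp) (a + 3) (by simp)
    (by omega) (by omega) (by omega) ⟨-1, 1, by omega⟩
  obtain ⟨m2, p2, -, b2, -, e2⟩ := h a (by simp) (a + 3) (by simp) (a + 4) (by simp)
    (by omega) (by omega) (by omega) ⟨-1, 1, by omega⟩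
  obtain ⟨m3, p3, -, b3, -, e3⟩ := h (a + 2) (by simp) (a + 3) (by simp) (a + 4) (by simp)
    (by omega) (by omega) (by omega) ⟨-1, 1, by omega⟩
  obtain ⟨m4, p4, -, b4, -, e4⟩ := h (a + 3) (by simp) (a + 4) (by simp) (a + 6) (by simp)
    (by omega) (by omega) (by omega) ⟨-2, 1, by omega⟩
  have s1 : a + 4 - (a + 2) = 2 := by ring
  have s2 : a + 3 - (a + 2) = 1 := by ring
  have s3 : a + 6 - (a + 3) = 3 := by ring
  have s4 : a + 4 - (a + 3) = 1 := by ring
  simp only [add_sub_cancel_left, s1, s2, s3, s4] at b1 b2 b3 b4 e1 e2 e3 e4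
  norm_num at b1 b2 b3 b4
  obtain rfl : m1 = 1 := by omega
  obtain rfl : m2 = 1 := by omega
  obtain rfl : m4 = 1 := by omega
  rw [one_smul] at e1 e2 e4
  have f2 : τ (a + 2) = τ a + (2 : ℤ) • (τ (a + 3) - τ (a + 2)) := by
    rw [← sub_eq_zero, ← e1]; module
  have f3 : τ (a + 3) = τ a + (3 : ℤ) • (τ (a + 3) - τ (a + 2)) := by
    rw [← sub_eq_zero, ← e1]; module
  have g1 : (3 : ℤ) • (τ (a + 4) - τ (a + 3) - (τ (a + 3) - τ (a + 2))) = 0 := by
    have : (3 : ℤ) • (τ (a + 4) - τ (a + 3) - (τ (a + 3) - τ (a + 2))) =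
      ((3 : ℤ) • (τ (a + 2) - τ a) - (2 : ℤ) • (τ (a + 3) - τ a)) -
      ((4 : ℤ) • (τ (a + 3) - τ a) - (3 : ℤ) • (τ (a + 4) - τ a)) := by module
    rw [this, e1, e2, sub_zero]
  have g2 : τ (a + 4) - τ (a + 3) - (τ (a + 3) - τ (a + 2)) = 0 := by
    have e3' : m3 • (τ (a + 4) - τ (a + 3) - (τ (a + 3) - τ (a + 2))) = 0 := by
      rw [← neg_eq_zero, ← e3]; module
    have : m3 = 1 ∨ m3 = 2 := by omega
    rcases this with rfl | rfl
    · simpa using e3'
    · have : τ (a + 4) - τ (a + 3) - (τ (a + 3) - τ (a + 2)) =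
          (3 : ℤ) • (τ (a + 4) - τ (a + 3) - (τ (a + 3) - τ (a + 2))) -
          (2 : ℤ) • (τ (a + 4) - τ (a + 3) - (τ (a + 3) - τ (a + 2))) := by module
      rw [this, g1, e3', sub_zero]
  have f4 : τ (a + 4) = τ a + (4 : ℤ) • (τ (a + 3) - τ (a + 2)) := by
    have : τ (a + 4) - (τ a + (4 : ℤ) • (τ (a + 3) - τ (a + 2))) =
      (τ (a + 4) - τ (a + 3) - (τ (a + 3) - τ (a + 2))) +
      (τ (a + 3) - (τ a + (3 : ℤ) • (τ (a + 3) - τ (a + 2)))) := by module
    rw [← sub_eq_zero, this, g2, ← f3]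
    simp
  refine ⟨τ (a + 3) - τ (a + 2), f2, f3, f4, ?_⟩
  have : τ (a + 6) - (τ a + (6 : ℤ) • (τ (a + 3) - τ (a + 2))) =
      (3 : ℤ) • (τ (a + 4) - τ (a + 3) - (τ (a + 3) - τ (a + 2))) +
      (τ (a + 3) - (τ a + (3 : ℤ) • (τ (a + 3) - τ (a + 2)))) -
      ((3 : ℤ) • (τ (a + 4) - τ (a + 3)) - (1 : ℤ) • (τ (a + 6) - τ (a + 3))) := by module
  rw [← sub_eq_zero, this, g2, e4, ← f3]
  simp

theorem tauRel_of_joint {ι G : Type*} [Fintype ι] [Nonempty ι] [AddCommGroup G] {κ : ℕ}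
    {B : ι → ℤ} (hB : Function.Injective B) {t : ι → G} (hJB : JointRel κ B t) (S : Finset ℤ)
    (hmem : ∀ x ∈ S, ∃ i, B i = x) : TauRel κ S (fun x => t (Function.invFun B x)) := by
  intro x hx y hy z hz hxy hxz hyz hco
  obtain ⟨i, rfl⟩ := hmem x hx
  obtain ⟨j, rfl⟩ := hmem y hy
  obtain ⟨l, rfl⟩ := hmem z hz
  obtain ⟨c1, c2, hne, b1, b2, b3, hr, hr'⟩ := hJB i j l (fun h => hxy (by rw [h]))
    (fun h => hxz (by rw [h])) (fun h => hyz (by rw [h]))
  obtain ⟨m, m0, a1, a2, a3, e⟩ := rel_mult hco hne hr hr' b1 b2 b3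
  refine ⟨m, m0, a1, a2, ?_, ?_⟩
  · have : B l - B j = B l - B i - (B j - B i) := by ring
    rwa [this]
  · simpa only [Function.leftInverse_invFun hB _] using e

/-- The combinatorial classification, with a family of levels `φ v` refining the level `φ0`. -/
theorem classify {G G0 V : Type*} {H : V → Type*} [AddCommGroup G] [AddCommGroup G0]
    [∀ v, AddCommGroup (H v)] (φ0 : G →+ G0) (φ : ∀ v, G →+ H v)
    (hker : ∀ v x, φ v x = 0 → φ0 x = 0) (hsep : ∀ x, (∀ v, φ v x = 0) → x = 0)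
    {κ : ℕ} (hκ : 2 ≤ κ) (t : Fin (κ + 1) → G)
    (hord : ∀ i j, i ≠ j → ∀ m : ℤ, m ≠ 0 → |m| ≤ 4 * κ ^ 2 * κ.factorial →
      m • (φ0 (t i) - φ0 (t j)) ≠ 0)
    (hrel0 : FamRel κ (fun i => φ0 (t i))) (hrel : ∀ v, FamRel κ (fun i => φ v (t i))) :
    (∃ s d : G, Set.range t = Set.range (fun i : Fin (κ + 1) => s + (i : ℕ) • d)) ∨
    (κ = 4 ∧ ∃ i0 i2 i3 i4 i6 : Fin (κ + 1), ∃ d : G0, i0 ≠ i2 ∧ i0 ≠ i3 ∧
      i2 ≠ i3 ∧ i2 ≠ i6 ∧ i3 ≠ i4 ∧ i3 ≠ i6 ∧
      φ0 (t i2) = φ0 (t i0) + (2 : ℤ) • d ∧ φ0 (t i3) = φ0 (t i0) + (3 : ℤ) • d ∧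
      φ0 (t i4) = φ0 (t i0) + (4 : ℤ) • d ∧ φ0 (t i6) = φ0 (t i0) + (6 : ℤ) • d) := by
  classical
  have h01 : (⟨0, by omega⟩ : Fin (κ + 1)) ≠ ⟨1, by omega⟩ := by simp
  obtain ⟨A, hA, hJ⟩ := integer_model (by omega) (fun i => φ0 (t i)) _ _ h01 hord hrel0
  obtain ⟨B, hB, hAB, hprim⟩ := normalise _ _ h01 A hA
  have hJ0 : JointRel κ B (fun i => φ0 (t i)) := by
    intro i j l hij hil hjl
    obtain ⟨c1, c2, hne, b1, b2, b3, hr⟩ := hrel0 i j l hij hil hjl
    exact ⟨c1, c2, hne, b1, b2, b3, hAB _ _ _ _ _ (hJ _ _ _ _ _ b1 b2 hr), hr⟩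
  have hJv : ∀ v, JointRel κ B (fun i => φ v (t i)) := by
    intro v i j l hij hil hjl
    obtain ⟨c1, c2, hne, b1, b2, b3, hr⟩ := hrel v i j l hij hil hjl
    refine ⟨c1, c2, hne, b1, b2, b3, hAB _ _ _ _ _ (hJ _ _ _ _ _ b1 b2 ?_), hr⟩
    have := hker v (c1 • (t j - t i) + c2 • (t l - t i)) (by simpa using hr)
    simpa using this
  set S := Finset.univ.image B with hS
  have hmem : ∀ x ∈ S, ∃ i, B i = x := fun x hx => by simpa [hS] using hx
  have hmem' : ∀ i, B i ∈ S := fun i => by simp [hS]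
  have hinv : ∀ i, Function.invFun B (B i) = i := Function.leftInverse_invFun hB
  obtain ⟨a, ha | ⟨h4, ha⟩⟩ := lemmaA hκ (S := S)
    (fun x hx y hy z hz hxy hxz hyz => by
      obtain ⟨i, rfl⟩ := hmem x hx
      obtain ⟨j, rfl⟩ := hmem y hy
      obtain ⟨l, rfl⟩ := hmem z hz
      obtain ⟨c1, c2, hne, b1, b2, b3, hr, -⟩ := hJ0 i j l (fun h => hxy (by rw [h]))
        (fun h => hxz (by rw [h])) (fun h => hyz (by rw [h]))
      exact ⟨c1, c2, hne, b1, b2, b3, hr⟩)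
    (by rw [hS, Finset.card_image_of_injective _ hB]; simp)
    (fun d hd => hprim d (fun i j => hd _ (hmem' i) _ (hmem' j)))
  · left
    set τ : ℤ → G := fun x => t (Function.invFun B x) with hτ
    have hτB : ∀ i, τ (B i) = t i := fun i => by simp only [hτ, hinv]
    have key : ∀ i : ℤ, 0 ≤ i → i ≤ κ → τ (a + i) = τ a + i • (τ (a + 1) - τ a) := by
      intro i h0 h1
      rw [← sub_eq_zero]
      apply hsep
      intro v
      have hT := tauRel_of_joint hB (hJv v) S hmem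
      rw [ha] at hT
      have := transfer_interval hκ a _ hT i h0 h1
      simp only [map_sub, map_add, map_zsmul, hτ]
      rw [sub_eq_zero]
      exact this
    refine ⟨τ a, τ (a + 1) - τ a, ?_⟩
    ext g
    simp only [Set.mem_range]
    constructor
    · rintro ⟨i, rfl⟩
      have := hmem' i
      rw [ha, Finset.mem_Icc] at this
      refine ⟨⟨(B i - a).toNat, by omega⟩, ?_⟩
      have e := key (B i - a) (by omega) (by omega)
      rw [add_sub_cancel, hτB] at e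
      rw [e, ← natCast_zsmul]
      simp only
      rw [Int.toNat_of_nonneg (by omega)]
    · rintro ⟨i, rfl⟩
      obtain ⟨j, hj⟩ := hmem (a + (i : ℕ)) (by rw [ha, Finset.mem_Icc]; omega)
      refine ⟨j, ?_⟩
      rw [← hτB, hj, key _ (by omega) (by omega), natCast_zsmul]
  · right
    refine ⟨h4, ?_⟩
    subst h4
    have hT := tauRel_of_joint hB hJ0 S hmem
    rw [ha] at hT
    obtain ⟨d, e2, e3, e4, e6⟩ := transfer_exc a _ hT
    obtain ⟨i0, h0⟩ := hmem a (by simp [ha])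
    obtain ⟨i2, h2⟩ := hmem (a + 2) (by simp [ha])
    obtain ⟨i3, h3⟩ := hmem (a + 3) (by simp [ha])
    obtain ⟨i4, h4⟩ := hmem (a + 4) (by simp [ha])
    obtain ⟨i6, h6⟩ := hmem (a + 6) (by simp [ha])
    have ne : ∀ i j, B i ≠ B j → i ≠ j := fun i j h h' => h (by rw [h'])
    refine ⟨i0, i2, i3, i4, i6, d, ne _ _ (by omega), ne _ _ (by omega), ne _ _ (by omega),
      ne _ _ (by omega), ne _ _ (by omega), ne _ _ (by omega), ?_, ?_, ?_, ?_⟩
    · rw [← h2, hinv, ← h0, hinv] at e2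
      exact e2
    · rw [← h3, hinv, ← h0, hinv] at e3
      exact e3
    · rw [← h4, hinv, ← h0, hinv] at e4
      exact e4
    · rw [← h6, hinv, ← h0, hinv] at e6
      exact e6

end Pool.Agent.Lib.MP_145fc7_co
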