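import Pool.Agent.Lib.MP_145fc7_co.DrinB

/-! From a norm equation to a linearized polynomial with many roots. -/

set_option autoImplicit false

namespace Pool.Agent.Lib.MP_145fc7_co

open Polynomial WithZero Finset

theorem nrm_add {R : Type} [CommRing R] (Φ : R ≃+* R) (m m' : ℕ) (y : R) :
    nrm Φ (m + m') y = nrm Φ m y * (Φ ^ m) (nrm Φ m' y) := by
  unfold nrm
  rw [Finset.prod_range_add, map_prod]
  simp only [pow_add_app]

/-- The twisted multiplication operators. -/
noncomputable def twOp {K : Type} [Field K] (Φ : K ≃+* K) (t s y : K) (A B : ℤ) (m : ℕ) :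
    K →+ K where
  toFun x := t ^ A * s ^ B * nrm Φ m y * (Φ ^ m) x
  map_zero' := by simp
  map_add' x x' := by rw [map_add]; ring

theorem twOp_apply {K : Type} [Field K] (Φ : K ≃+* K) (t s y : K) (A B : ℤ) (m : ℕ) (x : K) :
    twOp Φ t s y A B m x = t ^ A * s ^ B * nrm Φ m y * (Φ ^ m) x := rfl

section

variable {K : Type} [Field K] {Φ : K ≃+* K} {t s y : K}

theorem twOp_comp (ht0 : t ≠ 0) (hs0 : s ≠ 0) (htΦ : Φ t = t) (hsΦ : Φ s = s) (A B A' B' : ℤ)
    (m m' : ℕ) (x : K) : twOp Φ t s y A B m (twOp Φ t s y A' B' m' x) =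
      twOp Φ t s y (A + A') (B + B') (m + m') x := by
  simp only [twOp_apply, map_mul, map_zpow₀, pow_app_fixed htΦ, pow_app_fixed hsΦ, nrm_add,
    pow_add_app, zpow_add₀ ht0, zpow_add₀ hs0]
  ring

theorem twOp_period (ht0 : t ≠ 0) (hs0 : s ≠ 0) (htΦ : Φ t = t) (hsΦ : Φ s = s) {n : ℕ}
    (hn : Φ ^ n = 1) {az bz : ℤ} (hN : nrm Φ n y = t ^ az * s ^ bz) (A B : ℤ) (m c : ℕ) (x : K) :
    twOp Φ t s y A B (m + n * c) x = twOp Φ t s y (A + c * az) (B + c * bz) m x := by
  induction c generalizing A B with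
  | zero => simp
  | succ c ih =>
    have h1 : twOp Φ t s y A B (m + n * (c + 1)) x =
        twOp Φ t s y (A + az) (B + bz) (m + n * c) x := by
      rw [mul_add, mul_one, ← add_assoc]
      simp only [twOp_apply, nrm_add Φ (m + n * c) n, pow_add_app Φ (m + n * c) n, hn, hN, map_mul,
        map_zpow₀, pow_app_fixed htΦ, pow_app_fixed hsΦ, zpow_add₀ ht0, zpow_add₀ hs0,
        RingAut.one_apply]
      ring
    rw [h1, ih]
    congr 2 <;> push_cast <;> ring

theorem twOp_shift (ht0 : t ≠ 0) (hs0 : s ≠ 0) (A B A' B' : ℤ) (m : ℕ) (x : K) :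
    twOp Φ t s y A' B' m x = t ^ (A' - A) * s ^ (B' - B) * twOp Φ t s y A B m x := by
  have e1 : t ^ A' = t ^ (A' - A) * t ^ A := by rw [← zpow_add₀ ht0]; simp
  have e2 : s ^ B' = s ^ (B' - B) * s ^ B := by rw [← zpow_add₀ hs0]; simp
  simp only [twOp_apply]
  rw [e1, e2]
  ring

end

theorem drinfeld {E K : Type} [Field E] [Field K] [Algebra E K] {Q n : ℕ} {σ : E ≃+* E}
    {Φ : K ≃+* K} {v : Valuation K ZZ} (h : IsSemi Q n σ Φ) (hv : IsDeg E v)
    (hΦ : ∀ x, v (Φ x) = v x)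
    (π : E[X][X] →ₐ[E] K) (F : E[X][X]) (k : ℕ) (hker : ∀ g, π g = 0 → F ∣ g)
    (hge : ∀ g, π g ≠ 0 → 1 ≤ v (π g))
    (hjet : F ∈ (Ideal.span {(C X - 1 : E[X][X]), (X - 1 : E[X][X])}) ^ k)
    (t s : K) (ht : π (C X) = t) (hs : π X = s) (ht0 : t ≠ 0) (hs0 : s ≠ 0)
    (htΦ : Φ t = t) (hsΦ : Φ s = s)
    (B : Subalgebra E K) (_hBΦ : ∀ x ∈ B, Φ x ∈ B) (htB : t ∈ B) (hsB : s ∈ B)
    (w : K) (hw0 : w ≠ 0) (hw : ∀ x ∈ B, w * x ∈ π.range)
    (hfrac : ∀ x : K, ∃ b ∈ B, b ≠ 0 ∧ b * x ∈ B)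
    (y : K) (hy0 : y ≠ 0) (α β e : ℕ) (aX bX aY bY az bz : ℤ)
    (hN : nrm Φ n y = t ^ az * s ^ bz)
    (hXB : t ^ (n * aX + α * az) * s ^ (n * bX + α * bz) ∈ B)
    (hYB : t ^ (n * aY + β * az) * s ^ (n * bY + β * bz) ∈ B)
    (hXv : v (t ^ (n * aX + α * az) * s ^ (n * bX + α * bz)) = exp (n : ℤ))
    (hYv : v (t ^ (n * aY + β * az) * s ^ (n * bY + β * bz)) = exp ((n : ℤ) * e))
    (hab : ∃ i j : ℕ, α * i + β * j ≡ 1 [MOD n]) :
    ∃ a : ℕ → E, Q ^ k ≤ Nat.card {x : E //
      (σ ^ β) x = ∑ j ∈ Finset.range (e + 1), a j * (σ ^ (α * j)) x} := by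
  classical
  have hfin := h.finite
  have n0 := h.pos
  have n0' : (n : ℤ) ≠ 0 := by exact_mod_cast n0.ne'
  set Z : ℕ → ℕ → K →+ K := fun i j =>
    twOp Φ t s y (i * aX + j * aY) (i * bX + j * bY) (α * i + β * j) with hZdef
  obtain ⟨lt, hlt⟩ : ∃ l : ℤ, v t = exp l := ⟨_, (exp_log (hv.ne t ht0)).symm⟩
  obtain ⟨ls, hls⟩ : ∃ l : ℤ, v s = exp l := ⟨_, (exp_log (hv.ne s hs0)).symm⟩
  obtain ⟨ly, hly⟩ : ∃ l : ℤ, v y = exp l := ⟨_, (exp_log (hv.ne y hy0)).symm⟩
  have hvm : ∀ A B : ℤ, v (t ^ A * s ^ B) = exp (A * lt + B * ls) := by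
    intro A B
    rw [map_mul, map_zpow₀, map_zpow₀, hlt, hls, ← exp_zsmul, ← exp_zsmul, ← exp_add]
    simp
  have hvn : ∀ m : ℕ, v (nrm Φ m y) = exp (m * ly) := by
    intro m
    rw [nrm, map_prod, Finset.prod_congr rfl (fun i _ => v_pow_app hΦ i y), Finset.prod_const,
      Finset.card_range, hly, ← exp_nsmul]
    simp
  have e0 : n * ly = az * lt + bz * ls := by
    rw [← exp_inj, ← hvn, ← hvm, hN]
  have eX : aX * lt + bX * ls + α * ly = 1 := by
    rw [hvm, exp_inj] at hXv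
    apply mul_left_cancel₀ n0'
    linear_combination hXv + α * e0
  have eY : aY * lt + bY * ls + β * ly = e := by
    rw [hvm, exp_inj] at hYv
    apply mul_left_cancel₀ n0'
    linear_combination hYv + β * e0
  have hZ : Ops σ v t s α β e n Z := by
    refine ⟨?_, ?_, ?_, ?_, ?_, ?_, ?_⟩
    · intro i j c x
      simp only [hZdef, twOp_apply, Algebra.smul_def, map_mul, h.pow_alg]
      ring
    · intro i j i' j' x
      simp only [hZdef]
      rw [twOp_comp ht0 hs0 htΦ hsΦ]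
      congr 2 <;> push_cast <;> ring
    · intro x
      simp [hZdef, twOp_apply, nrm]
    · intro i j x
      simp only [hZdef, twOp_apply]
      rw [map_mul, map_mul, hvm, hvn, v_pow_app hΦ, ← exp_add]
      congr 2
      push_cast
      linear_combination i * eX + j * eY
    · intro i j x
      simp only [hZdef, twOp_apply, map_mul, pow_app_fixed htΦ]
      ring
    · intro i j x
      simp only [hZdef, twOp_apply, map_mul, pow_app_fixed hsΦ]
      ring
    · intro i j i' j' hm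
      simp only [hZdef]
      generalize α * i + β * j = m at hm ⊢
      generalize α * i' + β * j' = m' at hm ⊢
      have hm' : m' % n = m % n := hm.symm
      rw [← Nat.mod_add_div m n, ← Nat.mod_add_div m' n, hm']
      simp only [twOp_period ht0 hs0 htΦ hsΦ h.ord hN]
      exact ⟨_, _, fun x => twOp_shift ht0 hs0 _ _ _ _ _ _⟩
  have hZX : ∀ x, Z n 0 x = t ^ (n * aX + α * az) * s ^ (n * bX + α * bz) * x := by
    intro x
    simp only [hZdef]
    rw [show α * n + β * 0 = 0 + n * α by ring, twOp_period ht0 hs0 htΦ hsΦ h.ord hN]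
    simp [twOp_apply, nrm]
  have hZY : ∀ x, Z 0 n x = t ^ (n * aY + β * az) * s ^ (n * bY + β * bz) * x := by
    intro x
    simp only [hZdef]
    rw [show α * 0 + β * n = 0 + n * β by ring, twOp_period ht0 hs0 htΦ hsΦ h.ord hN]
    simp [twOp_apply, nrm]
  -- a common denominator
  choose den hdenB hden0 hden using hfrac
  set b0 := ∏ p ∈ range n ×ˢ range n, den (Z p.1 p.2 1) with hb0
  have hb00 : b0 ≠ 0 := Finset.prod_ne_zero_iff.mpr fun p _ => hden0 _
  have hb0Z : ∀ i j, b0 * Z i j 1 ∈ B := by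
    intro i
    induction i using Nat.strong_induction_on with
    | _ i ihi =>
      intro j
      by_cases hi : i < n
      · induction j using Nat.strong_induction_on with
        | _ j ihj =>
          by_cases hj : j < n
          · rw [hb0, ← Finset.prod_erase_mul _ _ (show (i, j) ∈ range n ×ˢ range n by simp [hi, hj]),
              mul_assoc]
            exact B.mul_mem (B.prod_mem fun p _ => hdenB _) (hden _)
          · have e1 := hZ.comp 0 n i (j - n) 1
            rw [zero_add, Nat.add_sub_cancel' (not_lt.mp hj), hZY] at e1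
            rw [← e1, mul_left_comm]
            exact B.mul_mem hYB (ihj (j - n) (by omega))
      · have e1 := hZ.comp n 0 (i - n) j 1
        rw [zero_add, Nat.add_sub_cancel' (not_lt.mp hi), hZX] at e1
        rw [← e1, mul_left_comm]
        exact B.mul_mem hXB (ihi (i - n) (by omega) j)
  -- the lattice
  let M0 : Submodule E K :=
    { carrier := {x | ∀ i j, b0 * Z i j x ∈ B}
      zero_mem' := fun i j => by simp
      add_mem' := fun {x x'} hx hx' i j => by
        rw [map_add, mul_add]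
        exact B.add_mem (hx i j) (hx' i j)
      smul_mem' := fun c x hx i j => by
        rw [hZ.smul, mul_smul_comm]
        exact B.smul_mem (hx i j) _ }
  have hM0 : Stab t s Z M0 := by
    refine ⟨fun x hx i j => ?_, fun x hx i j => ?_, fun i j x hx i' j' => ?_⟩
    · rw [hZ.mt, mul_left_comm]
      exact B.mul_mem htB (hx i j)
    · rw [hZ.ms, mul_left_comm]
      exact B.mul_mem hsB (hx i j)
    · rw [hZ.comp]
      exact hx _ _
  set I : Ideal E[X][X] := Ideal.span {(C X - 1 : E[X][X]), (X - 1 : E[X][X])} with hI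
  let M : ℕ → Submodule E K := fun ν => (nextM t s)^[ν] M0
  have hMs : ∀ ν, M (ν + 1) = nextM t s (M ν) := fun ν => Function.iterate_succ_apply' _ _ _
  have hM : ∀ ν, Stab t s Z (M ν) := by
    intro ν
    induction ν with
    | zero => exact hM0
    | succ ν ih => rw [hMs]; exact ih.next hZ
  set D := w * b0 with hD
  have hD0 : D ≠ 0 := mul_ne_zero hw0 hb00
  have hMI : ∀ ν, ∀ x ∈ M ν, ∃ g ∈ I ^ ν, π g = D * x := by
    intro ν
    induction ν with
    | zero =>
      intro x hx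
      have h1 := hx 0 0
      rw [hZ.zero] at h1
      obtain ⟨g, hg⟩ := hw _ h1
      exact ⟨g, by simp, by rw [hD, mul_assoc]; exact hg⟩
    | succ ν ih =>
      intro x hx
      rw [hMs] at hx
      obtain ⟨x1, h1, x2, h2, rfl⟩ := hx
      obtain ⟨g1, hg1, e1⟩ := ih x1 h1
      obtain ⟨g2, hg2, e2⟩ := ih x2 h2
      refine ⟨g1 * (C X - 1) + g2 * (X - 1), ?_, ?_⟩
      · rw [Submodule.pow_succ]
        exact Ideal.add_mem _ (Ideal.mul_mem_mul hg1 (Ideal.subset_span (by simp)))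
          (Ideal.mul_mem_mul hg2 (Ideal.subset_span (by simp)))
      · simp only [map_add, map_mul, map_sub, map_one, e1, e2, ht, hs]
        ring
  have hne : ∀ ν, ∃ x ∈ M ν, x ≠ 0 := by
    intro ν
    induction ν with
    | zero => exact ⟨1, hb0Z, one_ne_zero⟩
    | succ ν ih =>
      obtain ⟨x, hx, hx0⟩ := ih
      rw [hMs]
      by_cases h1 : t = 1
      · have h2 : s ≠ 1 := by
          intro h2
          rw [h1, h2, one_zpow, one_zpow, one_mul, map_one, eq_comm, exp_eq_one] at hXv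
          exact n0' hXv
        exact ⟨_, ⟨0, (M ν).zero_mem, x, hx, rfl⟩, by simp [sub_ne_zero.mpr h2, hx0]⟩
      · exact ⟨_, ⟨x, hx, 0, (M ν).zero_mem, rfl⟩, by simp [sub_ne_zero.mpr h1, hx0]⟩
  obtain ⟨lD, hlD⟩ : ∃ l : ℤ, v D = exp l := ⟨_, (exp_log (hv.ne D hD0)).symm⟩
  have hlow : ∀ ν, ∀ x ∈ M ν, ∀ d : ℤ, v x = exp d → 0 ≤ lD + d := by
    intro ν x hx d hd
    obtain ⟨g, -, hg⟩ := hMI ν x hx
    have x0 : x ≠ 0 := span_min.ne_zero_of_v_eq' hd
    have := hge g (hg ▸ mul_ne_zero hD0 x0)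
    rwa [hg, map_mul, hlD, hd, ← exp_add, ← exp_zero, exp_le_exp] at this
  have hmin : ∀ ν, ∃ d : ℤ, (∃ ψ ∈ M ν, v ψ = exp d) ∧ ∀ x ∈ M ν, x ≠ 0 → exp d ≤ v x := by
    intro ν
    obtain ⟨d, hd1, hd2⟩ := Int.exists_least_of_bdd (P := fun d => ∃ ψ ∈ M ν, v ψ = exp d)
      ⟨-lD, fun z ⟨ψ, h1, h2⟩ => by have := hlow ν ψ h1 z h2; omega⟩ (by
        obtain ⟨x, hx, hx0⟩ := hne ν
        exact ⟨_, x, hx, (exp_log (hv.ne x hx0)).symm⟩)
    refine ⟨d, hd1, fun x hx hx0 => ?_⟩
    rw [← exp_log (hv.ne x hx0), exp_le_exp]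
    exact hd2 _ ⟨x, hx, (exp_log (hv.ne x hx0)).symm⟩
  choose d hd1 hd2 using hmin
  have hHS : ∀ ν : ℕ, (k : ℤ) * ν ≤ lD + d (ν + k) := by
    intro ν
    obtain ⟨ψ, hψ, hψd⟩ := hd1 (ν + k)
    have hL0 := hlow _ ψ hψ _ hψd
    obtain ⟨L, hL⟩ : ∃ L : ℕ, (L : ℤ) = lD + d (ν + k) := ⟨(lD + d (ν + k)).toNat, by omega⟩
    let W : AddSubgroup K := π.range.toSubring.toAddSubgroup
    have hcard := card_below hv W Set.univ
      (fun c _ x hx => π.range.mul_mem (π.range.algebraMap_mem c) hx)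
      (fun _ _ _ _ _ _ _ => trivial) trivial (fun x hx hx0 => by
        obtain ⟨g, rfl⟩ := hx
        exact hge g hx0) L
    rw [Nat.card_congr (Equiv.Set.univ E)] at hcard
    have hcnt : cnt (degs v W) L ≤ L := by
      unfold cnt
      exact (Finset.card_filter_le _ _).trans (by simp)
    have : Finite (below v W L) := Nat.finite_of_card_ne_zero (by
      rw [hcard]; exact pow_ne_zero _ Nat.card_pos.ne')
    have hpre : ∀ x : below v W L, ∃ g, π g = x := fun x => x.2.1
    choose γ hγ using hpre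
    have red : ∀ N : ℕ, ∀ g, v (π g) < exp ((L : ℤ) + N) →
        ∃ g' ∈ I ^ (ν + k), v (π (g - g')) < exp (L : ℤ) := by
      intro N
      induction N with
      | zero => intro g hg; exact ⟨0, Ideal.zero_mem _, by simpa using hg⟩
      | succ N ih =>
        intro g hg
        rw [Nat.cast_succ, ← add_assoc, lt_exp_succ_iff] at hg
        rcases hg.lt_or_eq with hg | hg
        · exact ih g hg
        · obtain ⟨g1, hg1, e1⟩ := hMI _ _ ((hM (ν + k)).op N 0 ψ hψ)
          have e2 : v (π g1) = exp ((L : ℤ) + N) := by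
            rw [e1, map_mul, hZ.val, hlD, hψd, ← exp_add, ← exp_add, hL]
            congr 1
            simp only [Nat.cast_zero, mul_zero, add_zero]
            ring
          obtain ⟨c, hc⟩ := hv.res (π g) (π g1) (span_min.ne_zero_of_v_eq' e2) (hg.trans e2.symm)
          obtain ⟨g2, hg2, e3⟩ := ih (g - algebraMap E _ c * g1) (by
            rwa [map_sub, map_mul, AlgHom.commutes, ← e2])
          refine ⟨algebraMap E _ c * g1 + g2, Ideal.add_mem _ (Ideal.mul_mem_left _ _ hg1) hg2, ?_⟩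
          rwa [← sub_sub]
    have hb := hs_bound (ν := ν) hjet γ (fun g => by
      obtain ⟨N, hN⟩ : ∃ N : ℕ, v (π g) < exp ((L : ℤ) + N) :=
        ⟨(log (v (π g))).toNat + 1, lt_exp_of_log_lt (by push_cast; omega)⟩
      obtain ⟨g', hg', e1⟩ := red N g hN
      obtain ⟨q, hq⟩ := hker (g - g' - γ ⟨π (g - g'), ⟨g - g', rfl⟩, e1⟩) (by
        rw [map_sub, hγ, sub_self])
      refine ⟨⟨π (g - g'), ⟨g - g', rfl⟩, e1⟩, q, ?_⟩
      rw [← hq]
      simpa using hg')
    rw [hcard] at hb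
    have h2 := (Nat.pow_le_pow_iff_right Finite.one_lt_card).mp hb
    have h3 : ((k * ν : ℕ) : ℤ) ≤ L := by exact_mod_cast h2.trans hcnt
    push_cast at h3
    omega
  have hjump : ∃ j, d j + k ≤ d (j + 1) := by
    by_contra hc
    push Not at hc
    have h1 : ∀ j : ℕ, d j + j ≤ d 0 + k * j := by
      intro j
      induction j with
      | zero => simp
      | succ j ih =>
        have := hc j
        push_cast
        linarith
    have h2 := hHS ((lD + d 0 + k * k).toNat + 1)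
    have h3 := h1 ((lD + d 0 + k * k).toNat + 1 + k)
    have h4 := Int.self_le_toNat (lD + d 0 + k * k)
    have h5 : (0 : ℤ) ≤ k := by positivity
    push_cast at h2 h3
    nlinarith
  obtain ⟨j, hj⟩ := hjump
  obtain ⟨ψ, hψ, hψd⟩ := hd1 j
  exact final_count h.toIsFrob hv hZ (hM j) ht0 hs0 hab hψ hψd (hd2 j) k (fun x hx hx0 =>
    (exp_le_exp.mpr hj).trans (hd2 (j + 1) x (hMs j ▸ hx) hx0))

end Pool.Agent.Lib.MP_145fc7_co
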