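import Pool.Agent.Lib.MP_145fc7_co.Local
import Pool.Agent.Lib.MP_145fc7_co.Drinfeld

/-! Assembly of the function-field core. -/

set_option autoImplicit false

namespace Pool.Agent.Lib.MP_145fc7_co

open Polynomial WithZero

lemma exists_frob (E : Type) [Field E] [Fintype E] {Q n : ℕ} (hQ : 1 < Q) (hn : 0 < n)
    (hcard : Fintype.card E = Q ^ n) : ∃ σ : E ≃+* E, IsFrob Q n σ := by
  obtain ⟨p, hp, N, hpp, hN⟩ := FiniteField.card' E
  rw [hcard] at hN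
  obtain ⟨f, -, hf⟩ := (Nat.dvd_prime_pow hpp).1
    (show Q ∣ p ^ (N : ℕ) from hN ▸ dvd_pow_self Q hn.ne')
  have : Fact p.Prime := ⟨hpp⟩
  refine ⟨iterateFrobeniusEquiv E p f, hQ, hn, by rw [Nat.card_eq_fintype_card, hcard], ?_⟩
  intro x
  rw [iterateFrobeniusEquiv_def, hf]

theorem curveCore : CurveCore := by
  intro E _ _ Q n α β e i k hQ hn he hcard hcop hi F hF
  obtain ⟨σ, hσ⟩ := exists_frob E hQ hn hcard
  have hd : 0 < Nat.gcd α n := Nat.gcd_pos_of_pos_right α hn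
  have hnρ : n = n / Nat.gcd α n * Nat.gcd α n :=
    (Nat.div_mul_cancel (Nat.gcd_dvd_right α n)).symm
  have hα := Nat.gcd_dvd_left α n
  generalize Nat.gcd α n = d at *
  generalize n / d = ρ at *
  have hρ : 0 < ρ := Nat.pos_of_mul_pos_right (hnρ ▸ hn)
  have hN : 0 < i + e * d := Nat.add_pos_right _ (Nat.mul_pos he hd)
  obtain ⟨hc, aX, bX, aY, bY, az, bz, e1, e2, e3, e4, e5, e6, e7⟩ := numeric hn hnρ hα hcop hi
  obtain ⟨K, _, _, π, v, Φ, hK⟩ := exists_curve hρ hN hc F (fun a b h => (hF.supp a b h).1)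
    hF.vert1 hF.vert3 σ (fun a b => by rw [hσ.app, hF.fixed])
  obtain ⟨B, _, _, _, _, _, _, ΦB, hS, hΦ, hπB, w, hw0, hw⟩ := hK.exists_ded hρ hc hσ
  have hinj := IsFractionRing.injective B K
  obtain ⟨tB, ht⟩ := hπB (C X)
  obtain ⟨sB, hs⟩ := hπB X
  have hπF : π F = 0 := (hK.ker F).2 dvd_rfl
  have htB : tB ≠ 0 := by rintro rfl; exact hK.t_ne (by rw [← ht, map_zero])
  have hsB : sB ≠ 0 := by rintro rfl; exact hK.s_ne (by rw [← hs, map_zero])
  have htΦ : ΦB tB = tB := hinj (by rw [hΦ, ht, hK.phi_t])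
  have hsΦ : ΦB sB = sB := hinj (by rw [hΦ, hs, hK.phi_s])
  obtain ⟨y1, y2, hy1, hy2, hy⟩ := hS.hasse (z := tB ^ az * sB ^ bz)
    (mul_ne_zero (pow_ne_zero _ htB) (pow_ne_zero _ hsB))
    (by rw [map_mul, map_pow, map_pow, htΦ, hsΦ])
    (fun P hP => hF.local_cond hρ hd hN hπF hnρ hS.toIsSemi hΦ hK.phi_t hK.phi_s ht hs
      hK.t_ne hK.s_ne e5 e6 P hP)
  have hΦi : ∀ (j : ℕ) (x : B), algebraMap B K ((ΦB ^ j) x) = (Φ ^ j) (algebraMap B K x) := by
    intro j x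
    induction j with
    | zero => rfl
    | succ j ih => rw [pow_succ_app, pow_succ_app, hΦ, ih]
  have hnrm : ∀ x : B, algebraMap B K (nrm ΦB n x) = nrm Φ n (algebraMap B K x) := by
    intro x
    simp only [nrm, map_prod, hΦi]
  have hy1' : algebraMap B K y1 ≠ 0 := (map_ne_zero_iff _ hinj).2 hy1
  have hy2' : algebraMap B K y2 ≠ 0 := (map_ne_zero_iff _ hinj).2 hy2
  have hNy : nrm Φ n (algebraMap B K y1 / algebraMap B K y2) =
      π (C X) ^ (az : ℤ) * π X ^ (bz : ℤ) := by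
    apply mul_right_cancel₀ (nrm_ne_zero (Φ := Φ) (n := n) hy2')
    rw [← nrm_mul, div_mul_cancel₀ _ hy2', ← hnrm, ← hnrm, ← hy, map_mul, map_mul, map_pow,
      map_pow, ht, hs, zpow_natCast, zpow_natCast]
  obtain ⟨ω, hω⟩ := hF.omega_mem hρ hN hπF ht hs hK.t_ne hK.s_ne
  obtain ⟨a, ha⟩ := drinfeld (hK.isSemi hσ) (hK.isDeg hc) hK.vinv π F k
    (fun g hg => (hK.ker g).1 hg) hK.ge hF.jet _ _ rfl rfl hK.t_ne hK.s_ne hK.phi_t hK.phi_s
    (IsScalarTower.toAlgHom E B K).range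
    (by rintro _ ⟨x, rfl⟩; exact ⟨ΦB x, hΦ x⟩) ⟨tB, ht⟩ ⟨sB, hs⟩ (π w) hw0
    (by
      rintro _ ⟨x, rfl⟩
      obtain ⟨g, hg⟩ := hw x
      exact ⟨g, by rw [mul_comm]; exact hg.symm⟩)
    (by
      intro x
      obtain ⟨g, g', hg', hx⟩ := hK.frac x
      obtain ⟨b, hb⟩ := hπB g
      obtain ⟨b', hb'⟩ := hπB g'
      exact ⟨π g', ⟨b', hb'⟩, hg', ⟨b, by rw [mul_comm, hx]; exact hb⟩⟩)
    _ (div_ne_zero hy1' hy2') α β e aX bX aY bY az bz hNy
    (by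
      rw [e1, e2, zpow_zero, mul_one, zpow_natCast]
      exact ⟨tB ^ d, (map_pow (algebraMap B K) tB d).trans (by rw [ht])⟩)
    (by
      rw [e3, e4]
      refine ⟨ω ^ Nat.gcd ρ i, ?_⟩
      change algebraMap B K _ = _
      rw [map_pow, hω, div_pow, ← pow_mul, ← pow_mul,
        Nat.div_mul_cancel (Nat.gcd_dvd_left ρ i), Nat.div_mul_cancel (Nat.gcd_dvd_right ρ i),
        zpow_neg, zpow_natCast, zpow_natCast, div_eq_inv_mul])
    (by
      rw [e1, e2, zpow_zero, mul_one, zpow_natCast, map_pow, hK.vt, ← exp_nsmul, hnρ]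
      congr 1
      simp [mul_comm])
    (by
      rw [e3, e4, map_mul, map_zpow₀, map_zpow₀, hK.vt, hK.vs, ← exp_zsmul, ← exp_zsmul,
        ← exp_add, hnρ]
      congr 1
      simp only [smul_eq_mul]
      push_cast
      ring) e7
  refine ⟨a, ?_⟩
  simpa only [hσ.pow_app] using ha

end Pool.Agent.Lib.MP_145fc7_co
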