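import Mathlib

/-!
Statement of the function-field core for MP_145fc7_co (proved in `Core.lean`).

`F : E[X][X]` is the curve equation, inner variable `t`, outer variable `s`; the monomial `t^a s^b`
stands for the lattice point `a (ρ, 0) + b (i, d)` of the lattice of all `(I, J)` with
`n ∣ α I + β J`, where `d = gcd α n`, `ρ = n / d`, `n ∣ α i + β d`.
-/

set_option autoImplicit false

namespace Pool.Agent.Lib.MP_145fc7_co

open Polynomial

/-- The coefficient of `t^a s^b` in `F`. -/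
noncomputable def cf {E : Type} [Field E] (F : E[X][X]) (a b : ℕ) : E := (F.coeff b).coeff a

/-- The hypotheses on the curve equation `F`. The Newton triangle has vertices
`s^ρ`, `t^i`, `t^(i + e d)`. -/
structure GoodCurve {E : Type} [Field E] (Q ρ d i e k : ℕ) (F : E[X][X]) : Prop where
  /-- coefficients lie in the field with `Q` elements -/
  fixed : ∀ a b, cf F a b ^ Q = cf F a b
  /-- the support lies in the triangle -/
  supp : ∀ a b, cf F a b ≠ 0 → ρ * a + (i + e * d) * b ≤ ρ * (i + e * d) ∧ ρ * i ≤ ρ * a + i * b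
  /-- vertices -/
  vert1 : cf F 0 ρ ≠ 0
  vert2 : cf F i 0 ≠ 0
  vert3 : cf F (i + e * d) 0 ≠ 0
  /-- the edge from `t^i` to `t^(i + e d)` -/
  edge0 : (F.coeff 0).Splits ∧
    ∀ r : E, r ≠ 0 → (F.coeff 0).IsRoot r → ∀ g : ℕ, r ^ (Q ^ g) = r → d ∣ g
  /-- the edge from `t^i` to `s^ρ`, with `gcd ρ i + 1` lattice points -/
  edge1 : ∃ g1 : E[X], g1.Splits ∧ g1.natDegree ≤ Nat.gcd ρ i ∧
    (∀ κ ≤ Nat.gcd ρ i, g1.coeff κ =
      cf F ((Nat.gcd ρ i - κ) * (i / Nat.gcd ρ i)) (κ * (ρ / Nat.gcd ρ i))) ∧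
    ∀ r : E, g1.IsRoot r → ∀ g : ℕ, r ^ (Q ^ g) = r → Nat.gcd ρ i ∣ g
  /-- a `k`-fold point at `t = s = 1` -/
  jet : F ∈ (Ideal.span {(C X - 1 : E[X][X]), (X - 1 : E[X][X])}) ^ k

/-- The function-field core: a good curve gives a polynomial
`x^(Q^β) - ∑ j ≤ e, a j * x^(Q^(α j))` with at least `Q^k` roots in the field with `Q^n` elements. -/
def CurveCore : Prop :=
  ∀ (E : Type) [Field E] [Fintype E] (Q n α β e i k : ℕ), 1 < Q → 0 < n → 0 < e →
    Fintype.card E = Q ^ n →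
    IsCoprime ((β : ℤ) - e * α) (n : ℤ) →
    n ∣ α * i + β * Nat.gcd α n →
    ∀ F : E[X][X], GoodCurve Q (n / Nat.gcd α n) (Nat.gcd α n) i e k F →
    ∃ a : ℕ → E, Q ^ k ≤ Nat.card {x : E //
      x ^ (Q ^ β) = ∑ j ∈ Finset.range (e + 1), a j * x ^ (Q ^ (α * j))}

end Pool.Agent.Lib.MP_145fc7_co
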