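import Mathlib

set_option autoImplicit false

namespace Pool.Agent.Lib.MP_145fc7_co

open Finset

theorem target_point (lam : Fin 3 → ℤ) (jlo jhi : Fin 3) (hlo : ∀ j, lam jlo ≤ lam j)
    (hhi : ∀ j, lam j ≤ lam jhi) (N Y μ : ℤ) (hN : 0 < N) (hμ : 0 < μ) (h1 : μ ≤ Y - lam jlo)
    (h2 : μ ≤ lam jhi - Y) :
    ∃ B : Fin 3 → ℝ, ∑ j, B j = N ∧ ∑ j, B j * lam j = N * Y ∧
      ∀ j, (N : ℝ) * μ / (3 * (lam jhi - lam jlo)) ≤ B j := by
  have w0 : (0 : ℝ) < (lam jhi : ℝ) - lam jlo := by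
    have : (0 : ℤ) < lam jhi - lam jlo := by omega
    exact_mod_cast this
  set w : ℝ := (lam jhi : ℝ) - lam jlo with hw
  set c : ℝ := (N : ℝ) * μ / (3 * w) with hc
  have N0 : (0 : ℝ) < N := by exact_mod_cast hN
  have μ0 : (0 : ℝ) < μ := by exact_mod_cast hμ
  have c0 : 0 < c := by positivity
  have cw : 3 * c * w = N * μ := by rw [hc]; field_simp
  have h1' : (μ : ℝ) ≤ Y - lam jlo := by exact_mod_cast h1
  have h2' : (μ : ℝ) ≤ lam jhi - Y := by exact_mod_cast h2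
  have hlo' : ∀ j, (lam jlo : ℝ) ≤ lam j := fun j => by exact_mod_cast hlo j
  have hhi' : ∀ j, (lam j : ℝ) ≤ lam jhi := fun j => by exact_mod_cast hhi j
  set s : ℝ := (lam 0 : ℝ) + lam 1 + lam 2 with hs
  set y : ℝ := (N * (Y - lam jlo) - c * (s - 3 * lam jlo)) / w with hy
  set x : ℝ := (N * (lam jhi - Y) - c * (3 * lam jhi - s)) / w with hx
  have y0 : 0 ≤ y := by
    apply div_nonneg _ w0.le
    have a1 : s - 3 * lam jlo ≤ 3 * w := by
      have := hhi' 0; have := hhi' 1; have := hhi' 2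
      linarith
    nlinarith
  have x0 : 0 ≤ x := by
    apply div_nonneg _ w0.le
    have a1 : 3 * lam jhi - s ≤ 3 * w := by
      have := hlo' 0; have := hlo' 1; have := hlo' 2
      linarith
    nlinarith
  have e1 : y * w = N * (Y - lam jlo) - c * (s - 3 * lam jlo) := by rw [hy]; field_simp
  have e2 : x * w = N * (lam jhi - Y) - c * (3 * lam jhi - s) := by rw [hx]; field_simp
  have e3 : x + y = N - 3 * c := by
    apply mul_right_cancel₀ w0.ne'
    rw [add_mul, e1, e2, hw]; ring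
  refine ⟨fun j => c + (if j = jlo then x else 0) + (if j = jhi then y else 0), ?_, ?_, ?_⟩
  · simp only [sum_add_distrib, sum_const, card_univ, Fintype.card_fin, sum_ite_eq', mem_univ,
      if_true, nsmul_eq_mul]
    push_cast
    linarith
  · simp only [add_mul, sum_add_distrib, ite_mul, zero_mul, sum_ite_eq', mem_univ, if_true]
    rw [Fin.sum_univ_three]
    have : (lam jhi : ℝ) = lam jlo + w := by rw [hw]; ring
    rw [this]
    have e4 : x = N - 3 * c - y := by linarith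
    rw [e4]
    linear_combination e1
  · intro j
    have : 0 ≤ (if j = jlo then x else 0) := by split_ifs <;> simp [x0]
    have : 0 ≤ (if j = jhi then y else 0) := by split_ifs <;> simp [y0]
    simp only
    linarith

theorem row_points (l0 l1 l2 N Y A0 A1 A2 w : ℤ) (k : ℕ) (h01 : l0 ≠ l1)
    (hs : A0 + A1 + A2 = N) (hl : A0 * l0 + A1 * l1 + A2 * l2 = N * Y)
    (B0 B1 B2 : ℝ) (hsB : B0 + B1 + B2 = N) (hlB : B0 * l0 + B1 * l1 + B2 * l2 = N * Y)
    (d0 : |l1 - l2| ≤ w) (d1 : |l2 - l0| ≤ w) (d2 : |l0 - l1| ≤ w)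
    (b0 : (k : ℝ) * w < B0) (b1 : (k : ℝ) * w < B1) (b2 : (k : ℝ) * w < B2) :
    ∃ X0 : ℤ, ∀ r : ℕ, r < k → 0 < A0 + (X0 + r) * (l1 - l2) ∧ 0 < A1 + (X0 + r) * (l2 - l0) ∧
      0 < A2 + (X0 + r) * (l0 - l1) := by
  have h01' : (l0 : ℝ) - l1 ≠ 0 := by
    have : l0 - l1 ≠ 0 := by omega
    exact_mod_cast this
  set x : ℝ := (B2 - A2) / ((l0 : ℝ) - l1) with hx
  have hs' : (A0 : ℝ) + A1 + A2 = N := by exact_mod_cast hs
  have hl' : (A0 : ℝ) * l0 + A1 * l1 + A2 * l2 = N * Y := by exact_mod_cast hl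
  have e2 : B2 = A2 + x * ((l0 : ℝ) - l1) := by rw [hx]; field_simp; ring
  have e0 : B0 = A0 + x * ((l1 : ℝ) - l2) := by
    apply mul_right_cancel₀ h01'
    linear_combination hlB - hl' - (l1 : ℝ) * (hsB - hs') + ((l1 : ℝ) - l2) * e2
  have e1 : B1 = A1 + x * ((l2 : ℝ) - l0) := by
    linear_combination hsB - hs' - e0 - e2
  refine ⟨⌊x⌋, fun r hr => ?_⟩
  have f1 := Int.floor_le x
  have f2 := Int.lt_floor_add_one x
  have hr' : (r : ℝ) + 1 ≤ k := by exact_mod_cast hr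
  have r0 : (0 : ℝ) ≤ r := by positivity
  have hz : |(⌊x⌋ : ℝ) + r - x| ≤ k := by
    rw [abs_le]; constructor <;> linarith
  have key : ∀ (A δ : ℤ) (B : ℝ), B = A + x * δ → |δ| ≤ w → (k : ℝ) * w < B →
      0 < A + (⌊x⌋ + r) * δ := by
    intro A δ B hB hδ hb
    have hδ' : |(δ : ℝ)| ≤ w := by exact_mod_cast hδ
    have : |((⌊x⌋ : ℝ) + r - x) * δ| ≤ k * w := by
      rw [abs_mul]
      exact mul_le_mul hz hδ' (abs_nonneg _) (by positivity)
    have h3 := (abs_le.mp this).1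
    have : (0 : ℝ) < A + (⌊x⌋ + r) * δ := by linarith
    exact_mod_cast this
  exact ⟨key A0 _ B0 (by push_cast; exact e0) d0 b0, key A1 _ B1 (by push_cast; exact e1) d1 b1,
    key A2 _ B2 (by push_cast; exact e2) d2 b2⟩

/-- Rows far enough from the extreme levels contain `k` consecutive interior points. -/
theorem row_exists (lam : Fin 3 → ℤ) (jlo jhi : Fin 3) (hlo : ∀ j, lam jlo ≤ lam j)
    (hhi : ∀ j, lam j ≤ lam jhi) (h01 : lam 0 ≠ lam 1) (N Y μ : ℤ) (k : ℕ) (hμ : 0 < μ)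
    (h1 : μ ≤ Y - lam jlo) (h2 : μ ≤ lam jhi - Y)
    (hbig : 3 * k * (lam jhi - lam jlo) ^ 2 < N * μ) (A0 A1 A2 : ℤ) (hs : A0 + A1 + A2 = N)
    (hl : A0 * lam 0 + A1 * lam 1 + A2 * lam 2 = N * Y) :
    ∃ X0 : ℤ, ∀ r : ℕ, r < k → 0 < A0 + (X0 + r) * (lam 1 - lam 2) ∧
      0 < A1 + (X0 + r) * (lam 2 - lam 0) ∧ 0 < A2 + (X0 + r) * (lam 0 - lam 1) := by
  have hN : 0 < N := by
    have : 0 ≤ 3 * (k : ℤ) * (lam jhi - lam jlo) ^ 2 := by positivity
    by_contra h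
    push Not at h
    nlinarith
  obtain ⟨B, hB1, hB2, hB3⟩ := target_point lam jlo jhi hlo hhi N Y μ hN hμ h1 h2
  rw [Fin.sum_univ_three] at hB1 hB2
  have w0 : (0 : ℝ) < (lam jhi : ℝ) - lam jlo := by
    have : (0 : ℤ) < lam jhi - lam jlo := by omega
    exact_mod_cast this
  have hb : ∀ j, (k : ℝ) * ((lam jhi - lam jlo : ℤ) : ℝ) < B j := by
    intro j
    refine lt_of_lt_of_le ?_ (hB3 j)
    rw [lt_div_iff₀ (by positivity)]
    have : 3 * (k : ℝ) * ((lam jhi : ℝ) - lam jlo) ^ 2 < N * μ := by exact_mod_cast hbig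
    push_cast
    linarith
  have hd : ∀ a b, |lam a - lam b| ≤ lam jhi - lam jlo := by
    intro a b
    have := hlo a; have := hlo b; have := hhi a; have := hhi b
    rw [abs_le]; constructor <;> omega
  exact row_points _ _ _ N Y A0 A1 A2 _ k h01 hs hl (B 0) (B 1) (B 2) hB1 hB2 (hd _ _) (hd _ _)
    (hd _ _) (hb 0) (hb 1) (hb 2)

theorem exists_functional (ρ i M : ℕ) (hρ : 0 < ρ) (hM : 0 < M) :
    ∃ u v : ℤ, IsCoprime u v ∧ 0 < u ∧ u ≤ M ∧ (M + 1) * |v * ρ - u * i| ≤ ρ := by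
  obtain ⟨j, u, u0, uM, h⟩ := Real.exists_int_int_abs_mul_sub_le ((i : ℝ) / ρ) hM
  have ρ0 : (0 : ℝ) < ρ := by exact_mod_cast hρ
  have h1 : ((M : ℤ) + 1) * |j * ρ - u * i| ≤ ρ := by
    have e : (j : ℝ) * ρ - u * i = -(((u : ℝ) * (i / ρ) - j) * ρ) := by field_simp; ring
    have : ((M : ℝ) + 1) * |(j : ℝ) * ρ - u * i| ≤ ρ := by
      rw [e, abs_neg, abs_mul, abs_of_pos ρ0]
      rw [le_div_iff₀ (by positivity)] at h
      nlinarith
    exact_mod_cast this
  obtain ⟨g, u', v', hg, hco, hu, hv⟩ := Int.exists_gcd_one' (m := u) (n := j)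
    (Int.gcd_pos_of_ne_zero_left _ (by omega))
  have hg' : (1 : ℤ) ≤ g := by exact_mod_cast hg
  have u'0 : 0 < u' := by
    by_contra hc
    push Not at hc
    nlinarith
  refine ⟨u', v', Int.isCoprime_iff_gcd_eq_one.mpr hco, u'0, by nlinarith, ?_⟩
  have e : j * ρ - u * i = g * (v' * ρ - u' * i) := by rw [hu, hv]; ring
  rw [e, abs_mul, abs_of_pos (by omega : (0 : ℤ) < g)] at h1
  have := abs_nonneg (v' * ρ - u' * i)
  have h2 : (0 : ℤ) ≤ (M + 1) * |v' * ρ - u' * i| := by positivity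
  nlinarith

/-! Spanning lemmas in a ring with a nilpotent ideal. -/

theorem span_powers {R : Type*} [CommRing R] (W : AddSubgroup R) (ξ : Rˣ) (k : ℕ)
    (hξ : ((ξ : R) - 1) ^ k = 0) (m : R) (X0 : ℤ)
    (h : ∀ r : ℕ, r < k → ((ξ ^ (X0 + r) : Rˣ) : R) * m ∈ W) (X : ℤ) :
    ((ξ ^ X : Rˣ) : R) * m ∈ W := by
  -- the relation: the sum of binomial terms vanishes
  have rel : ∀ Z : ℤ, ∑ r ∈ range (k + 1), ((-1 : ℤ) ^ (r + k) * k.choose r) •
      (((ξ ^ (Z + r) : Rˣ) : R) * m) = 0 := by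
    intro Z
    have h1 := sub_pow (ξ : R) 1 k
    rw [hξ] at h1
    have h2 : ∑ r ∈ range (k + 1), ((-1 : ℤ) ^ (r + k) * k.choose r) •
        (((ξ ^ (Z + r) : Rˣ) : R) * m) = ((ξ ^ Z : Rˣ) : R) * m *
        ∑ r ∈ range (k + 1), (-1) ^ (r + k) * (ξ : R) ^ r * 1 ^ (k - r) * (k.choose r : R) := by
      rw [Finset.mul_sum]
      refine Finset.sum_congr rfl fun r _ => ?_
      rw [zpow_add, zpow_natCast]
      simp only [Units.val_mul, Units.val_pow_eq_pow_val, zsmul_eq_mul]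
      push_cast
      ring
    rw [h2, ← h1, mul_zero]
  have up : ∀ Z : ℤ, (∀ r : ℕ, r < k → ((ξ ^ (Z + r) : Rˣ) : R) * m ∈ W) →
      ((ξ ^ (Z + k) : Rˣ) : R) * m ∈ W := by
    intro Z hZ
    have h1 := rel Z
    rw [Finset.sum_range_succ, ← two_mul, pow_mul] at h1
    simp only [even_two, Even.neg_pow, one_pow, Nat.choose_self, Nat.cast_one, mul_one,
      one_smul] at h1
    rw [← neg_eq_iff_add_eq_zero] at h1
    rw [← h1]
    exact W.neg_mem (W.sum_mem fun r hr => W.zsmul_mem (hZ r (Finset.mem_range.mp hr)) _)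
  have down : ∀ Z : ℤ, (∀ r : ℕ, r < k → ((ξ ^ (Z + 1 + r) : Rˣ) : R) * m ∈ W) →
      ((ξ ^ Z : Rˣ) : R) * m ∈ W := by
    intro Z hZ
    have h1 := rel Z
    rw [Finset.sum_range_succ'] at h1
    simp only [zero_add, Nat.choose_zero_right, Nat.cast_one, mul_one, Nat.cast_zero,
      add_zero] at h1
    rw [← neg_eq_iff_add_eq_zero] at h1
    have h2 : ((-1 : ℤ) ^ k) • (((ξ ^ Z : Rˣ) : R) * m) ∈ W := by
      rw [← h1]
      refine W.neg_mem (W.sum_mem fun r hr => W.zsmul_mem ?_ _)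
      have := hZ r (Finset.mem_range.mp hr)
      push_cast
      rwa [show Z + (r + 1) = Z + 1 + r by ring]
    have h3 := W.zsmul_mem h2 ((-1 : ℤ) ^ k)
    rwa [smul_smul, ← mul_pow, neg_mul_neg, one_mul, one_pow, one_smul] at h3
  have all : ∀ Z : ℤ, ∀ r : ℕ, r < k → ((ξ ^ (Z + r) : Rˣ) : R) * m ∈ W := by
    intro Z
    refine Int.inductionOn' Z X0 h (fun Z _ ih => ?_) (fun Z _ ih => ?_)
    · intro r hr
      by_cases hr' : r + 1 < k
      · have := ih (r + 1) hr'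
        push_cast at this
        rwa [show Z + 1 + r = Z + (r + 1) by ring]
      · have := up Z ih
        rwa [show Z + 1 + r = Z + k by omega]
    · intro r hr
      rcases r with _ | r
      · simpa using down (Z - 1) (by simpa using ih)
      · have := ih r (by omega)
        push_cast
        rwa [show Z - 1 + (r + 1) = Z + r by ring]
  rcases k with _ | k
  · have : (1 : R) = 0 := by simpa using hξ
    have h0 : ((ξ ^ X : Rˣ) : R) * m = 0 := by
      rw [← mul_one m, this]; simp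
    rw [h0]
    exact W.zero_mem
  · simpa using all X 0 (by omega)

end Pool.Agent.Lib.MP_145fc7_co
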