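import Pool.Agent.Lib.MP_145fc7_co.CurveA

set_option autoImplicit false

namespace Pool.Agent.Lib.MP_145fc7_co

open Finset Polynomial

theorem binom_expand {R : Type*} [CommRing R] (η m : R) (n : ℕ) :
    (η - 1) ^ n * m = ∑ r ∈ range (n + 1), ((-1 : ℤ) ^ (r + n) * n.choose r) • (η ^ r * m) := by
  rw [sub_pow, Finset.sum_mul]
  refine Finset.sum_congr rfl fun r _ => ?_
  simp only [zsmul_eq_mul]
  push_cast
  ring

theorem zpow_sub_one_mem {R : Type*} [CommRing R] (J : Ideal R) (ξ : Rˣ) (h : (ξ : R) - 1 ∈ J)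
    (X : ℤ) : ((ξ ^ X : Rˣ) : R) - 1 ∈ J := by
  have h1 : Units.map (Ideal.Quotient.mk J : R →* R ⧸ J) ξ = 1 := by
    ext
    simpa using (Ideal.Quotient.eq (I := J) (x := ξ) (y := 1)).mpr h
  have h2 : Units.map (Ideal.Quotient.mk J : R →* R ⧸ J) (ξ ^ X) = 1 := by
    rw [map_zpow, h1, one_zpow]
  apply (Ideal.Quotient.eq (I := J)).mp
  have := congrArg Units.val h2
  rw [Units.coe_map] at this
  rw [map_one]
  exact this

theorem span_fat {R : Type*} [CommRing R] (W : AddSubgroup R) (J : Ideal R) (k : ℕ)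
    (hJ : J ^ k = ⊥) (ξ η : Rˣ) (hξ : (ξ : R) - 1 ∈ J) (hη : (η : R) - 1 ∈ J) (Y0 : ℤ)
    (h : ∀ l : ℕ, l < k → ∃ X0 : ℤ, ∀ r : ℕ, r < k →
      ((ξ ^ (X0 + r) * η ^ (Y0 + l) : Rˣ) : R) ∈ W) (X Y : ℤ) :
    ((ξ ^ X * η ^ Y : Rˣ) : R) ∈ W := by
  have e1 : ((ξ : R) - 1) ^ k = 0 := by
    have := Ideal.pow_mem_pow hξ k
    rwa [hJ, Ideal.mem_bot] at this
  have e2 : ((η : R) - 1) ^ k = 0 := by
    have := Ideal.pow_mem_pow hη k
    rwa [hJ, Ideal.mem_bot] at this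
  rw [Units.val_mul, mul_comm]
  apply span_powers W η k e2 _ Y0
  intro l hl
  obtain ⟨X0, hX⟩ := h l hl
  rw [mul_comm]
  exact span_powers W ξ k e1 _ X0 (fun r hr => by simpa only [Units.val_mul] using hX r hr) X

theorem span_row {R : Type*} [CommRing R] (W : AddSubgroup R) (J : Ideal R) (k : ℕ)
    (hJ : J ^ k = ⊥) (ξ η : Rˣ) (hξ : (ξ : R) - 1 ∈ J) (Y : ℤ)
    (h : ∃ X0 : ℤ, ∀ r : ℕ, r < k → ((ξ ^ (X0 + r) * η ^ Y : Rˣ) : R) ∈ W) (X : ℤ) :
    ((ξ ^ X * η ^ Y : Rˣ) : R) ∈ W := by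
  have e1 : ((ξ : R) - 1) ^ k = 0 := by
    have := Ideal.pow_mem_pow hξ k
    rwa [hJ, Ideal.mem_bot] at this
  obtain ⟨X0, hX⟩ := h
  rw [Units.val_mul]
  exact span_powers W ξ k e1 _ X0 (fun r hr => by simpa only [Units.val_mul] using hX r hr) X

theorem span_thin {R : Type*} [CommRing R] (W : AddSubgroup R) (J : Ideal R) (k : ℕ)
    (hJ : J ^ (k + 1) = ⊥) (ξ η : Rˣ) (hξ : (ξ : R) - 1 ∈ J) (hη : (η : R) - 1 ∈ J) (Y0 : ℤ)
    (h : ∀ l : ℕ, l < k → ∀ X : ℤ, ((ξ ^ X * η ^ (Y0 + 1 + l) : Rˣ) : R) ∈ W) (X1 X2 : ℤ) :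
    ((ξ ^ X2 * η ^ (Y0 + (k + 1 : ℕ)) : Rˣ) : R) +
      ((-1 : ℤ) ^ (k + 1)) • ((ξ ^ X1 * η ^ Y0 : Rˣ) : R) ∈ W := by
  have hrow : ∀ (X : ℤ) (l : ℕ), l < k →
      (η : R) ^ (l + 1) * ((ξ ^ X * η ^ Y0 : Rˣ) : R) ∈ W := by
    intro X l hl
    have := h l hl X
    rw [show Y0 + 1 + l = Y0 + ((l + 1 : ℕ) : ℤ) by push_cast; ring, zpow_add, zpow_natCast] at this
    simp only [Units.val_mul, Units.val_pow_eq_pow_val] at this ⊢
    rwa [show (η : R) ^ (l + 1) * (((ξ ^ X : Rˣ) : R) * ((η ^ Y0 : Rˣ) : R)) =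
      ((ξ ^ X : Rˣ) : R) * (((η ^ Y0 : Rˣ) : R) * (η : R) ^ (l + 1)) by ring]
  have e2 : ((η : R) - 1) ^ (k + 1) = 0 := by
    have := Ideal.pow_mem_pow hη (k + 1)
    rwa [hJ, Ideal.mem_bot] at this
  set m1 := ((ξ ^ X1 * η ^ Y0 : Rˣ) : R) with hm1
  set m2 := ((ξ ^ X2 * η ^ Y0 : Rˣ) : R) with hm2
  have e3 : ((η : R) - 1) ^ k * (m1 - m2) = 0 := by
    have a1 : m1 - m2 ∈ J := by
      have : m1 - m2 = ((((ξ ^ X1 : Rˣ) : R) - 1) - (((ξ ^ X2 : Rˣ) : R) - 1)) *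
          ((η ^ Y0 : Rˣ) : R) := by
        rw [hm1, hm2]; simp only [Units.val_mul]; ring
      rw [this]
      exact J.mul_mem_right _ (J.sub_mem (zpow_sub_one_mem J ξ hξ _) (zpow_sub_one_mem J ξ hξ _))
    have := Ideal.mul_mem_mul (Ideal.pow_mem_pow hη k) a1
    rwa [← pow_succ, hJ, Ideal.mem_bot] at this
  have f1 : (η : R) ^ (k + 1) * m2 + ((-1 : ℤ) ^ (k + 1)) • m2 ∈ W := by
    have h1 := binom_expand (η : R) m2 (k + 1)
    rw [e2, zero_mul, Finset.sum_range_succ, Finset.sum_range_succ', ← two_mul, pow_mul] at h1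
    simp only [even_two, Even.neg_pow, one_pow, Nat.choose_self, Nat.cast_one, mul_one,
      one_smul, zero_add, Nat.choose_zero_right, pow_zero, one_mul] at h1
    have h2 : (η : R) ^ (k + 1) * m2 + ((-1 : ℤ) ^ (k + 1)) • m2 =
        -∑ r ∈ range k, ((-1 : ℤ) ^ (r + 1 + (k + 1)) * (k + 1).choose (r + 1)) •
          ((η : R) ^ (r + 1) * m2) := by
      rw [eq_neg_iff_add_eq_zero, h1]; abel
    rw [h2]
    exact W.neg_mem (W.sum_mem fun r hr => W.zsmul_mem (hrow X2 r (Finset.mem_range.mp hr)) _)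
  have f2 : ((-1 : ℤ) ^ k) • (m1 - m2) ∈ W := by
    have h1 := binom_expand (η : R) (m1 - m2) k
    rw [e3, Finset.sum_range_succ'] at h1
    simp only [zero_add, Nat.choose_zero_right, pow_zero, one_mul, Nat.cast_one, mul_one] at h1
    have h2 : ((-1 : ℤ) ^ k) • (m1 - m2) =
        -∑ r ∈ range k, ((-1 : ℤ) ^ (r + 1 + k) * k.choose (r + 1)) •
          ((η : R) ^ (r + 1) * (m1 - m2)) := by
      rw [eq_neg_iff_add_eq_zero, h1]; abel
    rw [h2]
    refine W.neg_mem (W.sum_mem fun r hr => W.zsmul_mem ?_ _)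
    rw [mul_sub]
    exact W.sub_mem (hrow X1 r (Finset.mem_range.mp hr)) (hrow X2 r (Finset.mem_range.mp hr))
  have f3 := W.sub_mem f1 f2
  have e4 : ((ξ ^ X2 * η ^ (Y0 + (k + 1 : ℕ)) : Rˣ) : R) = (η : R) ^ (k + 1) * m2 := by
    rw [zpow_add, zpow_natCast, hm2]
    simp only [Units.val_mul, Units.val_pow_eq_pow_val]
    ring
  rw [e4]
  have e5 : (η : R) ^ (k + 1) * m2 + ((-1 : ℤ) ^ (k + 1)) • m1 =
      (η : R) ^ (k + 1) * m2 + ((-1 : ℤ) ^ (k + 1)) • m2 - ((-1 : ℤ) ^ k) • (m1 - m2) := by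
    rw [pow_succ (-1 : ℤ) k]
    module
  rwa [e5]

theorem exists_theta {E : Type*} [Field E] [Fintype E] (Q n d : ℕ) (hQ : 1 < Q)
    (hcard : Fintype.card E = Q ^ n) (hd : d ∣ n) (d0 : 0 < d) :
    ∃ θ : E, θ ≠ 0 ∧ θ ^ (∑ j ∈ range d, Q ^ j) = 1 ∧ θ ^ (Q ^ d) = θ ∧
      ∀ g, θ ^ (Q ^ g) = θ → d ∣ g := by
  classical
  set N := ∑ j ∈ range d, Q ^ j with hN
  have hN1 : N * (Q - 1) = Q ^ d - 1 := by
    have := Nat.geomSum_eq (m := Q) (by omega) d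
    rw [hN, this]
    exact Nat.div_mul_cancel (by simpa using Nat.sub_dvd_pow_sub_pow Q 1 d)
  have hN2 : N ∣ Q ^ n - 1 := by
    obtain ⟨c, rfl⟩ := hd
    refine Dvd.dvd.trans ⟨_, hN1.symm⟩ ?_
    simpa [pow_mul] using Nat.sub_dvd_pow_sub_pow (Q ^ d) 1 c
  obtain ⟨ζ, hζ⟩ := IsCyclic.exists_ofOrder_eq_natCard (α := Eˣ)
  rw [Nat.card_units, Nat.card_eq_fintype_card, hcard] at hζ
  have hζ0 : orderOf ζ ≠ 0 := (orderOf_pos ζ).ne'
  have hθ : orderOf (ζ ^ (orderOf ζ / N)) = N := orderOf_pow_orderOf_div hζ0 (hζ ▸ hN2)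
  set θ := ζ ^ (orderOf ζ / N)
  have key : ∀ g, (θ : E) ^ (Q ^ g) = θ ↔ N ∣ Q ^ g - 1 := by
    intro g
    rw [← hθ, orderOf_dvd_iff_pow_eq_one]
    have h1 : Q ^ g = (Q ^ g - 1) + 1 := by
      have := Nat.one_le_pow g Q (by omega)
      omega
    constructor
    · intro h
      rw [h1, pow_succ] at h
      ext
      simpa using mul_right_cancel₀ θ.ne_zero (h.trans (one_mul _).symm)
    · intro h
      rw [h1, pow_succ, ← Units.val_pow_eq_pow_val, h]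
      simp
  have hd' : (θ : E) ^ (Q ^ d) = θ := (key d).mpr ⟨_, hN1.symm⟩
  refine ⟨θ, θ.ne_zero, ?_, hd', ?_⟩
  · rw [← Units.val_pow_eq_pow_val, ← hθ, pow_orderOf_eq_one]
    simp
  · intro g hg
    have h1 : ∀ c, (θ : E) ^ (Q ^ (d * c)) = θ := by
      intro c
      induction c with
      | zero => simp
      | succ c ih => rw [mul_add, mul_one, pow_add, pow_mul, ih, hd']
    rw [← Nat.div_add_mod g d, pow_add, pow_mul, h1] at hg
    by_contra hcon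
    have g0 : 0 < g % d := Nat.pos_of_ne_zero (fun h => hcon (Nat.dvd_of_mod_eq_zero h))
    have g1 : g % d < d := Nat.mod_lt _ d0
    have h2 : 1 < Q ^ (g % d) := Nat.one_lt_pow g0.ne' hQ
    have h3 := Nat.le_of_dvd (by omega) ((key _).mp hg)
    have h4 : Q ^ (g % d) ≤ N :=
      Finset.single_le_sum (f := fun j => Q ^ j) (fun _ _ => Nat.zero_le _)
        (Finset.mem_range.mpr g1)
    omega

theorem edge_poly {E : Type*} [Field E] [Fintype E] (Q n d : ℕ) (hQ : 1 < Q)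
    (hcard : Fintype.card E = Q ^ n) (φ : E →+* E) (hφ : ∀ x, φ x = x ^ Q) (hd : d ∣ n)
    (d0 : 0 < d) (ε : E) (hε : ε = 1 ∨ ε = -1) :
    ∃ P : E[X], P.Splits ∧ P.natDegree ≤ d ∧ P.coeff 0 = 1 ∧ P.coeff d = ε ^ d ∧
      (∀ j, P.coeff j ^ Q = P.coeff j) ∧ ∀ r, P.IsRoot r → ∀ g, r ^ (Q ^ g) = r → d ∣ g := by
  obtain ⟨θ, θ0, hN, hθd, hper⟩ := exists_theta Q n d hQ hcard hd d0
  have hφε : φ ε = ε := by rcases hε with rfl | rfl <;> simp
  have ε2 : ε * ε = 1 := by rcases hε with rfl | rfl <;> simp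
  have ε0 : ε ≠ 0 := by rcases hε with rfl | rfl <;> simp
  have hit : ∀ (g : ℕ) (x : E), (φ ^ g) x = x ^ (Q ^ g) := by
    intro g
    induction g with
    | zero => simp
    | succ g ih => intro x; rw [pow_succ', RingHom.mul_def, RingHom.comp_apply, ih, hφ, ← pow_mul,
        ← pow_succ]
  have hεg : ∀ g : ℕ, (φ ^ g) ε = ε := by
    intro g
    rcases hε with rfl | rfl <;> simp
  set f : ℕ → E[X] := fun j => C (ε * θ ^ (Q ^ j)) * X + C 1 with hf
  have fne : ∀ j, ε * θ ^ (Q ^ j) ≠ 0 := fun j => mul_ne_zero ε0 (pow_ne_zero _ θ0)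
  have fdeg : ∀ j, (f j).natDegree = 1 := fun j => natDegree_linear (fne j)
  have f0 : ∀ j, f j ≠ 0 := fun j h => by simpa [h] using fdeg j
  have hdeg : (∏ j ∈ range d, f j).natDegree = d := by
    rw [natDegree_prod _ _ (fun j _ => f0 j)]
    simp [fdeg]
  refine ⟨∏ j ∈ range d, f j, ?_, hdeg.le, ?_, ?_, ?_, ?_⟩
  · exact Splits.prod (fun j _ => Splits.of_natDegree_le_one (fdeg j).le)
  · rw [coeff_zero_prod]
    simp [hf]
  · have : (∏ j ∈ range d, f j).coeff d = (∏ j ∈ range d, f j).leadingCoeff := by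
      rw [leadingCoeff, hdeg]
    rw [this, leadingCoeff_prod]
    have h2 : ∀ j ∈ range d, (f j).leadingCoeff = ε * θ ^ (Q ^ j) := fun j _ =>
      leadingCoeff_linear (fne j)
    rw [Finset.prod_congr rfl h2, Finset.prod_mul_distrib, Finset.prod_pow_eq_pow_sum, hN]
    simp
  · have hm : (∏ j ∈ range d, f j).map φ = ∏ j ∈ range d, f j := by
      rw [Polynomial.map_prod]
      have h1 : ∀ j ∈ range d, (f j).map φ = f (j + 1) := by
        intro j _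
        simp only [hf, Polynomial.map_add, Polynomial.map_mul, map_C, map_X, map_mul, hφε, map_one,
          Polynomial.map_one, hφ (θ ^ Q ^ j), ← pow_mul, ← pow_succ]
      rw [Finset.prod_congr rfl h1]
      have h2 := Finset.prod_range_succ f d
      rw [Finset.prod_range_succ'] at h2
      have h3 : f d = f 0 := by simp only [hf, hθd, pow_zero, pow_one]
      rw [h3] at h2
      exact mul_right_cancel₀ (f0 0) h2
    intro j
    rw [← hφ, ← coeff_map, hm]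
  · intro r hr g hg
    rw [IsRoot.def, eval_prod, Finset.prod_eq_zero_iff] at hr
    obtain ⟨j, -, hj⟩ := hr
    simp only [hf, eval_add, eval_mul, eval_C, eval_X] at hj
    have h1 := congrArg (φ ^ g) hj
    rw [map_add, map_mul, map_mul, hεg, map_one, map_zero, hit g r, hg, ← hj, add_left_inj] at h1
    have r0 : r ≠ 0 := by
      rintro rfl
      simp at hj
    have h2 := mul_left_cancel₀ ε0 (mul_right_cancel₀ r0 h1)
    apply hper g
    apply (φ ^ j).injective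
    rw [hit, hit, ← h2, hit, ← pow_mul, ← pow_mul, mul_comm]

end Pool.Agent.Lib.MP_145fc7_co
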