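import Pool.Agent.Lib.MP_145fc7_co.CurveB
import Pool.Agent.Lib.MP_145fc7_co.CoreDef

set_option autoImplicit false

namespace Pool.Agent.Lib.MP_145fc7_co

open Finset Polynomial

/-- The vertices of the Newton triangle. -/
def Vx (ρ d i e : ℕ) : Fin 3 → ℕ × ℕ := ![(i, 0), (i + e * d, 0), (0, ρ)]

/-- The levels of the vertices. -/
def lamf (ρ d i e : ℕ) (u v : ℤ) : Fin 3 → ℤ := ![u * i, u * (i + e * d), v * ρ]

theorem lamf_eq (ρ d i e : ℕ) (u v : ℤ) (j : Fin 3) :
    lamf ρ d i e u v j = u * (Vx ρ d i e j).1 + v * (Vx ρ d i e j).2 := by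
  fin_cases j <;> simp [lamf, Vx]

theorem bary (ρ d i e : ℕ) (ρ0 : 0 < ρ) (d0 : 0 < d) (e0 : 0 < e) (u v : ℤ) (a b : ℕ)
    (h : ρ * a + (i + e * d) * b ≤ ρ * (i + e * d) ∧ ρ * i ≤ ρ * a + i * b) (j0 : Fin 3)
    (hlo : ∀ j, j ≠ j0 → lamf ρ d i e u v j0 < lamf ρ d i e u v j) :
    (a, b) = Vx ρ d i e j0 ∨ lamf ρ d i e u v j0 < u * a + v * b := by
  set lam := lamf ρ d i e u v with hlam
  obtain ⟨h0, h1⟩ := h
  have h0' : (0 : ℤ) ≤ ρ * (i + e * d) - ρ * a - (i + e * d) * b := by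
    have : ((ρ * a + (i + e * d) * b : ℕ) : ℤ) ≤ (ρ * (i + e * d) : ℕ) := by exact_mod_cast h0
    push_cast at this
    linarith
  have h1' : (0 : ℤ) ≤ ρ * a + i * b - ρ * i := by
    have : ((ρ * i : ℕ) : ℤ) ≤ (ρ * a + i * b : ℕ) := by exact_mod_cast h1
    push_cast at this
    linarith
  have h2' : (0 : ℤ) ≤ e * d * b := by positivity
  set L0 : ℤ := ρ * (i + e * d) - ρ * a - (i + e * d) * b with hL0
  set L1 : ℤ := ρ * a + i * b - ρ * i with hL1
  set L2 : ℤ := e * d * b with hL2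
  have N0 : (0 : ℤ) < ρ * e * d := by positivity
  have ed0 : (0 : ℤ) < e * d := by positivity
  have ρ0' : (0 : ℤ) < ρ := by positivity
  have key : ρ * e * d * (u * a + v * b - lam j0) =
      L0 * (lam 0 - lam j0) + L1 * (lam 1 - lam j0) + L2 * (lam 2 - lam j0) := by
    have e0 : lam 0 = u * i := rfl
    have e1 : lam 1 = u * (i + e * d) := rfl
    have e2 : lam 2 = v * ρ := rfl
    rw [e0, e1, e2, hL0, hL1, hL2]
    ring
  by_contra hcon
  push Not at hcon
  obtain ⟨hne, hle⟩ := hcon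
  have hle' : ρ * e * d * (u * a + v * b - lam j0) ≤ 0 :=
    mul_nonpos_of_nonneg_of_nonpos N0.le (by omega)
  apply hne
  have aux : ∀ x y p q : ℤ, 0 ≤ x → 0 ≤ y → 0 < p → 0 < q → x * p + y * q ≤ 0 → x = 0 ∧ y = 0 := by
    intro x y p q hx hy hp hq h
    constructor <;> nlinarith [mul_nonneg hx hp.le, mul_nonneg hy hq.le]
  fin_cases j0
  · have a1 := hlo 1 (by simp)
    have a2 := hlo 2 (by simp)
    simp only [Fin.zero_eta, sub_self, mul_zero, zero_add] at key a1 a2 hle'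
    obtain ⟨z1, z2⟩ := aux L1 L2 _ _ h1' h2' (sub_pos.mpr a1) (sub_pos.mpr a2) (by linarith)
    have b0 : (b : ℤ) = 0 := (mul_eq_zero.mp z2).resolve_left ed0.ne'
    have a0 : (a : ℤ) = i := by
      apply mul_left_cancel₀ ρ0'.ne'
      rw [hL1, b0] at z1
      linarith
    simp only [Vx, Fin.zero_eta, Matrix.cons_val_zero, Prod.mk.injEq]
    omega
  · have a1 := hlo 0 (by simp)
    have a2 := hlo 2 (by simp)
    simp only [Fin.mk_one, sub_self, mul_zero, add_zero] at key a1 a2 hle'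
    obtain ⟨z1, z2⟩ := aux L0 L2 _ _ h0' h2' (sub_pos.mpr a1) (sub_pos.mpr a2) (by linarith)
    have b0 : (b : ℤ) = 0 := (mul_eq_zero.mp z2).resolve_left ed0.ne'
    have a0 : (a : ℤ) = i + e * d := by
      apply mul_left_cancel₀ ρ0'.ne'
      rw [hL0, b0] at z1
      linarith
    simp only [Vx, Fin.mk_one, Matrix.cons_val_one, Matrix.cons_val_zero, Prod.mk.injEq]
    constructor
    · exact_mod_cast a0
    · omega
  · have a1 := hlo 0 (by simp)
    have a2 := hlo 1 (by simp)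
    simp only [Fin.reduceFinMk, sub_self, mul_zero, add_zero] at key a1 a2 hle'
    obtain ⟨z1, z2⟩ := aux L0 L1 _ _ h0' h1' (sub_pos.mpr a1) (sub_pos.mpr a2) (by linarith)
    have b0 : (b : ℤ) = ρ := by
      apply mul_left_cancel₀ ed0.ne'
      rw [hL0] at z1
      rw [hL1] at z2
      linarith
    have a0 : (a : ℤ) = 0 := by
      apply mul_left_cancel₀ ρ0'.ne'
      rw [hL1, b0] at z2
      linarith
    simp only [Vx, Fin.reduceFinMk, Matrix.cons_val, Prod.mk.injEq]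
    omega

theorem cf_monomial {E : Type} [Field E] (a b a' b' : ℕ) (c : E) :
    cf (monomial b (monomial a c)) a' b' = if (a', b') = (a, b) then c else 0 := by
  unfold cf
  by_cases hb : b = b'
  · subst hb
    by_cases ha : a = a'
    · subst ha; simp
    · simp [coeff_monomial, ha, Ne.symm ha]
  · simp [coeff_monomial, hb, Ne.symm hb]

theorem cf_sub {E : Type} [Field E] (F G : E[X][X]) (a b : ℕ) :
    cf (F - G) a b = cf F a b - cf G a b := by simp [cf]

theorem cf_add {E : Type} [Field E] (F G : E[X][X]) (a b : ℕ) :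
    cf (F + G) a b = cf F a b + cf G a b := by simp [cf]

theorem mem_of_support {E R : Type} [Field E] [CommRing R] (π : E[X][X] →+* R)
    (W : AddSubgroup R) (H : E[X][X])
    (h : ∀ a b, cf H a b ≠ 0 → π (monomial b (monomial a (cf H a b))) ∈ W) : π H ∈ W := by
  rw [H.as_sum_support, map_sum]
  refine W.sum_mem fun b _ => ?_
  rw [(H.coeff b).as_sum_support, map_sum, map_sum]
  refine W.sum_mem fun a ha => ?_
  exact h a b (mem_support_iff.mp ha)

/-- The boundary polynomial. -/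
theorem exists_boundary {E : Type} [Field E] [Fintype E] (Q n ρ d i e : ℕ) (hQ : 1 < Q)
    (hcard : Fintype.card E = Q ^ n) (φ : E →+* E) (hφ : ∀ x, φ x = x ^ Q) (ρ0 : 0 < ρ)
    (d0 : 0 < d) (e0 : 0 < e) (hd : d ∣ n) (hρn : ρ ∣ n) (u v : ℤ) :
    ∃ B : E[X][X], GoodCurve Q ρ d i e 0 B ∧ ∀ j, cf B (Vx ρ d i e j).1 (Vx ρ d i e j).2 =
      (-1) ^ (lamf ρ d i e u v j - lamf ρ d i e u v 0) := by
  set d' := Nat.gcd ρ i with hd'
  have d'0 : 0 < d' := Nat.gcd_pos_of_pos_left _ ρ0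
  obtain ⟨ρ', hρ'⟩ : d' ∣ ρ := Nat.gcd_dvd_left _ _
  obtain ⟨i', hi'⟩ : d' ∣ i := Nat.gcd_dvd_right _ _
  have eρ : ρ / d' = ρ' := by rw [hρ']; exact Nat.mul_div_cancel_left _ d'0
  have ei : i / d' = i' := by rw [hi']; exact Nat.mul_div_cancel_left _ d'0
  have ρ'0 : 0 < ρ' := by
    rcases Nat.eq_zero_or_pos ρ' with h | h
    · rw [h] at hρ'; omega
    · exact h
  have sgn : ∀ z : ℤ, (-1 : E) ^ z = 1 ∨ (-1 : E) ^ z = -1 := by
    intro z
    rcases Int.even_or_odd z with h | h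
    · exact Or.inl h.neg_one_zpow
    · exact Or.inr h.neg_one_zpow
  obtain ⟨P, Ps, Pd, P0, Pl, Pf, Pr⟩ := edge_poly Q n d hQ hcard φ hφ hd d0 _ (sgn u)
  obtain ⟨g, gs, gd, g0, gl, gf, gr⟩ := edge_poly Q n d' hQ hcard φ hφ
    ((Nat.gcd_dvd_left _ _).trans hρn) d'0 _ (sgn (v * ρ' - u * i'))
  set B : E[X][X] := C (X ^ i * P ^ e) +
    ∑ κ ∈ Finset.Icc 1 d', monomial (κ * ρ') (monomial ((d' - κ) * i') (g.coeff κ)) with hB
  have hB0 : B.coeff 0 = X ^ i * P ^ e := by
    rw [hB, coeff_add, coeff_C_zero, finsetSum_coeff, Finset.sum_eq_zero, add_zero]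
    intro κ hκ
    rw [Finset.mem_Icc] at hκ
    rw [coeff_monomial, if_neg]
    exact (Nat.mul_pos (by omega) ρ'0).ne'
  have hBb : ∀ a b, b ≠ 0 → cf B a b = ∑ κ ∈ Finset.Icc 1 d',
      if (a, b) = ((d' - κ) * i', κ * ρ') then g.coeff κ else 0 := by
    intro a b hb
    rw [hB, cf_add]
    have : cf (C (X ^ i * P ^ e) : E[X][X]) a b = 0 := by
      rw [cf, coeff_C, if_neg hb, coeff_zero]
    rw [this, zero_add]
    simp only [← cf_monomial]
    simp [cf]
  have hBκ : ∀ κ, 1 ≤ κ → κ ≤ d' → cf B ((d' - κ) * i') (κ * ρ') = g.coeff κ := by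
    intro κ h1 h2
    rw [hBb _ _ (Nat.mul_pos (by omega) ρ'0).ne', Finset.sum_eq_single κ]
    · simp
    · intro κ' _ hne
      rw [if_neg]
      intro h
      exact hne (Nat.eq_of_mul_eq_mul_right ρ'0 (Prod.mk.inj h).2).symm
    · intro h
      exact absurd (Finset.mem_Icc.mpr ⟨h1, h2⟩) h
  have hPe : (P ^ e).natDegree ≤ e * d := natDegree_pow_le.trans (Nat.mul_le_mul_left _ Pd)
  have v0 : cf B i 0 = 1 := by
    rw [cf, hB0]
    have := coeff_X_pow_mul (P ^ e) i 0
    rw [zero_add] at this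
    rw [this, coeff_zero_eq_eval_zero, eval_pow, ← coeff_zero_eq_eval_zero, P0, one_pow]
  have v1 : cf B (i + e * d) 0 = (-1) ^ (u * (e * d : ℕ)) := by
    rw [cf, hB0, add_comm, coeff_X_pow_mul, coeff_pow_of_natDegree_le Pd, Pl, ← pow_mul,
      zpow_mul, zpow_natCast, mul_comm d e]
  have v2 : cf B 0 ρ = (-1) ^ (v * ρ - u * i) := by
    have := hBκ d' (by omega) le_rfl
    rw [Nat.sub_self, zero_mul, ← hρ', gl, ← zpow_natCast, ← zpow_mul] at this
    rw [this]
    congr 1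
    rw [hρ', hi']
    push_cast
    ring
  have m1 : (-1 : E) ≠ 0 := by simp
  refine ⟨B, ⟨?_, ?_, ?_, ?_, ?_, ⟨?_, ?_⟩, ⟨g, gs, gd, ?_, gr⟩, by simp⟩, ?_⟩
  · intro a b
    rw [← hφ]
    by_cases hb : b = 0
    · subst hb
      have hP : P.map φ = P := by
        ext j
        rw [coeff_map, hφ, Pf]
      rw [cf, hB0, ← coeff_map, Polynomial.map_mul, Polynomial.map_pow, Polynomial.map_pow, map_X,
        hP]
    · rw [hBb a b hb, map_sum]
      refine Finset.sum_congr rfl fun κ _ => ?_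
      split_ifs
      · rw [hφ, gf]
      · simp
  · intro a b h
    by_cases hb : b = 0
    · subst hb
      rw [cf, hB0, coeff_X_pow_mul'] at h
      have h1 : i ≤ a := by
        by_contra hc
        simp [hc] at h
      rw [if_pos h1] at h
      have h2 := (le_natDegree_of_ne_zero h).trans hPe
      simp only [mul_zero, add_zero]
      exact ⟨Nat.mul_le_mul_left _ (by omega), Nat.mul_le_mul_left _ h1⟩
    · rw [hBb a b hb] at h
      obtain ⟨κ, hκ, hne⟩ := Finset.exists_ne_zero_of_sum_ne_zero h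
      rw [Finset.mem_Icc] at hκ
      have h1 : (a, b) = ((d' - κ) * i', κ * ρ') := by
        by_contra hc
        simp [hc] at hne
      obtain ⟨rfl, rfl⟩ := Prod.mk.inj h1
      obtain ⟨m, hm⟩ : ∃ m, d' = κ + m := ⟨d' - κ, by omega⟩
      have : d' - κ = m := by omega
      rw [this, hρ', hi', hm]
      constructor
      · nlinarith [Nat.zero_le (m * ρ' * e * d)]
      · nlinarith
  · rw [v2]; exact zpow_ne_zero _ m1
  · rw [v0]; exact one_ne_zero
  · rw [v1]; exact zpow_ne_zero _ m1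
  · rw [hB0]
    exact (Splits.X.pow i).mul (Ps.pow e)
  · intro r r0 hr
    rw [hB0, IsRoot.def, eval_mul, eval_pow, eval_pow, eval_X] at hr
    have := (mul_eq_zero.mp hr).resolve_left (pow_ne_zero _ r0)
    exact Pr r (pow_eq_zero_iff e0.ne' |>.mp this)
  · intro κ hκ
    rw [← hd', eρ, ei]
    rcases Nat.eq_zero_or_pos κ with rfl | h
    · rw [Nat.sub_zero, ← hi', zero_mul, v0, g0]
    · exact (hBκ κ h hκ).symm
  · intro j
    fin_cases j
    · simpa [Vx] using v0
    · have : lamf ρ d i e u v 1 - lamf ρ d i e u v 0 = u * (e * d : ℕ) := by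
        simp [lamf]; ring
      simp only [Fin.mk_one, this]
      exact v1
    · exact v2

end Pool.Agent.Lib.MP_145fc7_co
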