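import Pool.Agent.Lib.MP_145fc7_co.CurveC

set_option autoImplicit false

namespace Pool.Agent.Lib.MP_145fc7_co

open Finset Polynomial

/-- Interior points of the Newton triangle. -/
def Inn (ρ d i e : ℕ) (a b : ℤ) : Prop :=
  0 < ρ * (i + e * d) - ρ * a - (i + e * d) * b ∧ 0 < ρ * a + i * b - ρ * i ∧ 0 < (e * d : ℤ) * b

theorem inn_nonneg {ρ d i e : ℕ} (ρ0 : 0 < ρ) (d0 : 0 < d) (e0 : 0 < e) {a b : ℤ}
    (h : Inn ρ d i e a b) : 0 ≤ a ∧ 0 ≤ b := by
  obtain ⟨h0, h1, h2⟩ := h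
  have ed0 : (0 : ℤ) < e * d := by positivity
  have ρ0' : (0 : ℤ) < ρ := by positivity
  have i0 : (0 : ℤ) ≤ i := by positivity
  have b0 : 0 < b := pos_of_mul_pos_left (by rwa [mul_comm]) ed0.le
  have bρ : b < ρ := by
    apply lt_of_mul_lt_mul_left _ ed0.le
    linarith
  refine ⟨?_, b0.le⟩
  by_contra hc
  push Not at hc
  nlinarith [mul_nonneg i0 (sub_pos.mpr bρ).le]

/-- Images of polynomials with fixed coefficients supported in the interior. -/
def innW {E R : Type} [Field E] [CommRing R] (φ : E →+* E) (π : E[X][X] →+* R) (ρ d i e : ℕ) :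
    AddSubgroup R where
  carrier := {r | ∃ G : E[X][X], (∀ a b, φ (cf G a b) = cf G a b) ∧
    (∀ a b : ℕ, cf G a b ≠ 0 → Inn ρ d i e a b) ∧ π G = r}
  zero_mem' := ⟨0, by simp [cf], by simp [cf], by simp⟩
  add_mem' := by
    rintro _ _ ⟨G, h1, h2, rfl⟩ ⟨G', h1', h2', rfl⟩
    refine ⟨G + G', fun a b => by rw [cf_add, map_add, h1, h1'], fun a b h => ?_, by simp⟩
    rw [cf_add] at h
    by_cases h0 : cf G a b = 0
    · exact h2' a b (by simpa [h0] using h)
    · exact h2 a b h0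
  neg_mem' := by
    rintro _ ⟨G, h1, h2, rfl⟩
    have : ∀ a b, cf (-G) a b = -cf G a b := fun a b => by simp [cf]
    exact ⟨-G, fun a b => by rw [this, map_neg, h1], fun a b h => h2 a b (by simpa [this] using h),
      by simp⟩

theorem innW_smul {E R : Type} [Field E] [CommRing R] (φ : E →+* E) (π : E[X][X] →+* R)
    (ρ d i e : ℕ) (c : E) (hc : φ c = c) (r : R) (hr : r ∈ innW φ π ρ d i e) :
    π (C (C c)) * r ∈ innW φ π ρ d i e := by
  obtain ⟨G, h1, h2, rfl⟩ := hr
  have : ∀ a b, cf (C (C c) * G) a b = c * cf G a b := fun a b => by simp [cf]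
  exact ⟨C (C c) * G, fun a b => by rw [this, map_mul, hc, h1],
    fun a b h => h2 a b (by rw [this] at h; exact right_ne_zero_of_mul h), by simp⟩

theorem goodCurve_sub {E : Type} [Field E] {Q ρ d i e k : ℕ} (φ : E →+* E)
    (hφ : ∀ x, φ x = x ^ Q) {B G : E[X][X]} (hB : GoodCurve Q ρ d i e 0 B)
    (h1 : ∀ a b, φ (cf G a b) = cf G a b) (h2 : ∀ a b : ℕ, cf G a b ≠ 0 → Inn ρ d i e a b)
    (hj : B - G ∈ (Ideal.span {(C X - 1 : E[X][X]), (X - 1 : E[X][X])}) ^ k) :
    GoodCurve Q ρ d i e k (B - G) := by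
  have z0 : ∀ a, cf G a 0 = 0 := by
    intro a
    by_contra h
    have := (h2 a 0 h).2.2
    simp at this
  have z1 : ∀ a b, ρ * a + i * b = ρ * i → cf G a b = 0 := by
    intro a b hab
    by_contra h
    have := (h2 a b h).2.1
    have e : (ρ : ℤ) * a + i * b = ρ * i := by exact_mod_cast hab
    omega
  have c0 : (B - G).coeff 0 = B.coeff 0 := by
    ext a
    have := z0 a
    rw [cf] at this
    simp [this]
  refine ⟨?_, ?_, ?_, ?_, ?_, ?_, ?_, hj⟩
  · intro a b
    rw [← hφ, cf_sub, map_sub, h1, hφ, hB.fixed]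
  · intro a b h
    rw [cf_sub] at h
    by_cases h0 : cf G a b = 0
    · exact hB.supp a b (by simpa [h0] using h)
    · obtain ⟨e0, e1, -⟩ := h2 a b h0
      constructor
      · have : (ρ : ℤ) * a + (i + e * d) * b ≤ ρ * (i + e * d) := by linarith
        exact_mod_cast this
      · have : (ρ : ℤ) * i ≤ ρ * a + i * b := by linarith
        exact_mod_cast this
  · rw [cf_sub, z1 0 ρ (by ring), sub_zero]; exact hB.vert1
  · rw [cf_sub, z0, sub_zero]; exact hB.vert2
  · rw [cf_sub, z0, sub_zero]; exact hB.vert3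
  · rw [c0]; exact hB.edge0
  · obtain ⟨g, g1, g2, g3, g4⟩ := hB.edge1
    refine ⟨g, g1, g2, fun κ hκ => ?_, g4⟩
    rw [cf_sub, z1, sub_zero, g3 κ hκ]
    obtain ⟨m, hm⟩ : ∃ m, Nat.gcd ρ i = κ + m := ⟨Nat.gcd ρ i - κ, by omega⟩
    have a1 := Nat.mul_div_cancel' (Nat.gcd_dvd_left ρ i)
    have a2 := Nat.mul_div_cancel' (Nat.gcd_dvd_right ρ i)
    have a3 : Nat.gcd ρ i - κ = m := by omega
    rw [a3]
    generalize ρ / Nat.gcd ρ i = ρ' at *
    generalize i / Nat.gcd ρ i = i' at *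
    rw [hm] at a1 a2
    rw [← a1, ← a2]
    ring

theorem le_gcd_mul {ρ i : ℕ} (ρ0 : 0 < ρ) {u v : ℤ} (u0 : 0 < u) (h : v * ρ = u * i) :
    (ρ : ℤ) ≤ Nat.gcd ρ i * u := by
  have h1 : (ρ : ℤ) ∣ u * Nat.gcd ρ i := by
    rw [Nat.gcd_eq_gcd_ab, mul_add, ← mul_assoc, ← mul_assoc, ← h]
    exact dvd_add (Dvd.dvd.mul_right (Dvd.intro_left _ rfl) _)
      (Dvd.dvd.mul_right (Dvd.intro_left _ rfl) _)
  have g0 : (0 : ℤ) < Nat.gcd ρ i := by exact_mod_cast Nat.gcd_pos_of_pos_left _ ρ0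
  rw [mul_comm]
  exact Int.le_of_dvd (by positivity) h1

theorem exists_aux {E R : Type} [Field E] [Fintype E] [CommRing R] (Q n ρ d i e k : ℕ) (hQ : 1 < Q)
    (hcard : Fintype.card E = Q ^ n) (φ : E →+* E) (hφ : ∀ x, φ x = x ^ Q) (k0 : 0 < k)
    (d0 : 0 < d) (e0 : 0 < e) (hd : d ∣ n) (hρn : ρ ∣ n) (hρ : (12 * k * (k + 1)) ^ 2 ≤ ρ)
    (g1 : Nat.gcd ρ i ≤ k) (g2 : Nat.gcd ρ (i + e * d) ≤ k)
    (hw : ∀ u v : ℤ, u ≠ 0 → (k : ℤ) ≤ |e * d * u| ∨ (k : ℤ) ≤ |v * ρ - u * i| ∨
      (k : ℤ) ≤ |v * ρ - u * i - e * d * u|)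
    (π : E[X][X] →+* R) (J : Ideal R) (hJk : J ^ k = ⊥) (ht : π (C X) - 1 ∈ J)
    (hs : π X - 1 ∈ J) :
    ∃ B G : E[X][X], GoodCurve Q ρ d i e 0 B ∧ (∀ a b, φ (cf G a b) = cf G a b) ∧
      (∀ a b : ℕ, cf G a b ≠ 0 → Inn ρ d i e a b) ∧ π G = π B := by
  classical
  set M := 12 * k * (k + 1) with hM
  have M0 : 0 < M := by positivity
  have ρ0 : 0 < ρ := lt_of_lt_of_le (by positivity) hρ
  obtain ⟨u, v, huv, u0, uM, hv⟩ := exists_functional ρ i M ρ0 M0
  obtain ⟨u', v', huv'⟩ := huv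
  obtain ⟨B, hB, hBv⟩ := exists_boundary Q n ρ d i e hQ hcard φ hφ ρ0 d0 e0 hd hρn u v
  set lam := lamf ρ d i e u v with hlam
  have l0 : lam 0 = u * i := rfl
  have l1 : lam 1 = u * (i + e * d) := rfl
  have l2 : lam 2 = v * ρ := rfl
  obtain ⟨jlo, -, hlo⟩ := Finset.exists_min_image Finset.univ lam Finset.univ_nonempty
  obtain ⟨jhi, -, hhi⟩ := Finset.exists_max_image Finset.univ lam Finset.univ_nonempty
  simp only [mem_univ, forall_const] at hlo hhi
  have ed0 : (0 : ℤ) < e * d := by positivity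
  have ed1 : (1 : ℤ) ≤ e * d := ed0
  have k1 : (1 : ℤ) ≤ k := by exact_mod_cast k0
  have ρ0' : (0 : ℤ) < ρ := by positivity
  set w := lam jhi - lam jlo with hwdef
  have hd' : ∀ a b, |lam a - lam b| ≤ w := by
    intro a b
    have := hlo a; have := hlo b; have := hhi a; have := hhi b
    rw [abs_le]; constructor <;> omega
  have hkw : (k : ℤ) ≤ w := by
    rcases hw u v u0.ne' with h | h | h
    · refine h.trans (le_of_eq_of_le ?_ (hd' 1 0))
      rw [l0, l1]; congr 1; ring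
    · refine h.trans (le_of_eq_of_le ?_ (hd' 2 0))
      rw [l0, l2]
    · refine h.trans (le_of_eq_of_le ?_ (hd' 2 1))
      rw [l2, l1]; congr 1; ring
  have hwle : w ≤ e * d * u + |v * ρ - u * i| := by
    have a1 := le_abs_self (v * ρ - u * i)
    have a2 := neg_abs_le (v * ρ - u * i)
    have a3 : 0 < e * d * u := by positivity
    have b1 : ∀ j, lam j ≤ u * i + e * d * u + (|v * ρ - u * i| + (v * ρ - u * i)) / 2 := by
      intro j
      fin_cases j
      · simp only [Fin.zero_eta, l0]; omega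
      · simp only [Fin.mk_one, l1, mul_add, mul_comm u (e * d)]; omega
      · simp only [Fin.reduceFinMk, l2]
        rcases abs_cases (v * ρ - u * i) with h | h <;> omega
    have b2 : ∀ j, u * i - (|v * ρ - u * i| - (v * ρ - u * i)) / 2 ≤ lam j := by
      intro j
      fin_cases j
      · simp only [Fin.zero_eta, l0]; omega
      · simp only [Fin.mk_one, l1, mul_add, mul_comm u (e * d)]; omega
      · simp only [Fin.reduceFinMk, l2]
        rcases abs_cases (v * ρ - u * i) with h | h <;> omega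
    have := b1 jhi
    have := b2 jlo
    rcases abs_cases (v * ρ - u * i) with h | h <;> omega
  have hM' : (M : ℤ) = 12 * k * (k + 1) := by rw [hM]; push_cast; ring
  have hρ' : (M : ℤ) ^ 2 ≤ ρ := by exact_mod_cast hρ
  have M0' : (0 : ℤ) < M := by exact_mod_cast M0
  have hN : M * w < 2 * (ρ * e * d) := by
    have a0 := abs_nonneg (v * ρ - u * i)
    have a1 : M * |v * ρ - u * i| < ρ * e * d := by
      rcases eq_or_lt_of_le a0 with h | h
      · rw [← h, mul_zero]; positivity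
      · nlinarith
    have a2 : M * (e * d * u) ≤ ρ * e * d := by
      have : (M : ℤ) * u ≤ ρ := by nlinarith
      nlinarith
    nlinarith
  have h01 : lam 0 ≠ lam 1 := by
    rw [l0, l1]
    nlinarith
  have unit : ∀ x, x - 1 ∈ J → IsUnit x := by
    intro x hx
    have h1 : IsNilpotent (x - 1) := ⟨k, by
      have := Ideal.pow_mem_pow hx k
      rwa [hJk, Ideal.mem_bot] at this⟩
    simpa using h1.isUnit_add_one
  obtain ⟨T, hT⟩ := unit _ ht
  obtain ⟨S, hS⟩ := unit _ hs
  rw [← hT] at ht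
  rw [← hS] at hs
  have hmul : ∀ a b : ℤ, ((T ^ a * S ^ b : Rˣ) : R) - 1 ∈ J := by
    intro a b
    have a1 := zpow_sub_one_mem J T ht a
    have a2 := zpow_sub_one_mem J S hs b
    have := J.add_mem (J.mul_mem_right ((S ^ b : Rˣ) : R) a1) a2
    rw [Units.val_mul]
    rwa [sub_mul, one_mul, sub_add_sub_cancel] at this
  have hmono : ∀ (a b : ℕ) (c : E), π (monomial b (monomial a c)) =
      π (C (C c)) * ((T ^ (a : ℤ) * S ^ (b : ℤ) : Rˣ) : R) := by
    intro a b c
    rw [← C_mul_X_pow_eq_monomial, ← C_mul_X_pow_eq_monomial, zpow_natCast, zpow_natCast]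
    simp only [map_mul, map_pow, Units.val_mul, Units.val_pow_eq_pow_val, hT, hS, mul_assoc]
  set W := innW φ π ρ d i e with hW
  have hinn : ∀ a b : ℤ, Inn ρ d i e a b →
      ((T ^ a * S ^ b : Rˣ) : R) ∈ W := by
    intro a b h
    obtain ⟨a0, b0⟩ := inn_nonneg ρ0 d0 e0 h
    lift a to ℕ using a0
    lift b to ℕ using b0
    refine ⟨monomial b (monomial a 1), fun a' b' => ?_, fun a' b' h' => ?_, ?_⟩
    · rw [cf_monomial]; split_ifs <;> simp
    · rw [cf_monomial] at h'
      have : (a', b') = (a, b) := by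
        by_contra hc
        simp [hc] at h'
      obtain ⟨rfl, rfl⟩ := Prod.mk.inj this
      exact h
    · rw [hmono]; simp
  set ξ := T ^ v * S ^ (-u) with hξ
  set η := T ^ u' * S ^ v' with hη
  have hXY : ∀ X Y : ℤ, ξ ^ X * η ^ Y = T ^ (v * X + u' * Y) * S ^ (-u * X + v' * Y) := by
    intro X Y
    rw [hξ, hη, mul_zpow, mul_zpow, ← zpow_mul, ← zpow_mul, ← zpow_mul, ← zpow_mul, zpow_add,
      zpow_add]
    ac_rfl
  have hab : ∀ a b : ℤ, T ^ a * S ^ b = ξ ^ (v' * a - u' * b) * η ^ (u * a + v * b) := by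
    intro a b
    rw [hXY]
    congr 2
    · linear_combination (-a) * huv'
    · linear_combination (-b) * huv'
  have hrow : ∀ Y μ : ℤ, 0 < μ → μ ≤ Y - lam jlo → μ ≤ lam jhi - Y → w ≤ 2 * (k + 1) * μ →
      ∃ X0 : ℤ, ∀ r : ℕ, r < k →
        ((ξ ^ (X0 + r) * η ^ Y : Rˣ) : R) ∈ W := by
    intro Y μ μ0 h1 h2 h3
    obtain ⟨X0, hX0⟩ := row_exists lam jlo jhi hlo hhi h01 (ρ * e * d) Y μ k μ0 h1 h2 (by
        rw [← hwdef]
        have w0 : 0 < w := by omega
        have a1 : 3 * k * w * w ≤ 3 * k * w * (2 * (k + 1) * μ) :=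
          mul_le_mul_of_nonneg_left h3 (by positivity)
        have a2 : M * w * μ < 2 * (ρ * e * d) * μ := mul_lt_mul_of_pos_right hN μ0
        rw [hM'] at a2
        nlinarith)
      (ρ * (i + e * d) - ρ * (u' * Y) - (i + e * d) * (v' * Y))
      (ρ * (u' * Y) + i * (v' * Y) - ρ * i) (e * d * (v' * Y)) (by ring)
      (by rw [l0, l1, l2]; linear_combination (ρ * e * d * Y : ℤ) * huv')
    refine ⟨X0, fun r hr => ?_⟩
    obtain ⟨a1, a2, a3⟩ := hX0 r hr
    rw [l1, l2] at a1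
    rw [l2, l0] at a2
    rw [l0, l1] at a3
    rw [hXY]
    exact hinn _ _ ⟨by linarith, by linarith, by linarith⟩
  have hBW : π B ∈ W := by
    rcases eq_or_lt_of_le hkw with hk | hk
    · -- the thin case
      have hinj : ∀ a b, a ≠ b → lam a ≠ lam b := by
        have kw : (k : ℤ) * w < ρ * e * d := by
          have : 0 < w := by omega
          rw [hM'] at hN
          nlinarith
        have hu : e * d * u ≤ w := by
          refine le_of_eq_of_le ?_ ((le_abs_self _).trans (hd' 1 0))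
          rw [l0, l1]; ring
        have h02 : lam 0 ≠ lam 2 := by
          rw [l0, l2]
          intro h
          have a1 := le_gcd_mul ρ0 u0 h.symm
          have a2 : (Nat.gcd ρ i : ℤ) ≤ k := by exact_mod_cast g1
          have a3 : (ρ : ℤ) ≤ k * u := by nlinarith
          nlinarith
        have h12 : lam 1 ≠ lam 2 := by
          rw [l1, l2]
          intro h
          have a1 := le_gcd_mul (i := i + e * d) ρ0 u0 (by push_cast; exact h.symm)
          have a2 : (Nat.gcd ρ (i + e * d) : ℤ) ≤ k := by exact_mod_cast g2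
          have a3 : (ρ : ℤ) ≤ k * u := by nlinarith
          nlinarith
        intro a b hab
        fin_cases a <;> fin_cases b <;> first
          | exact absurd rfl hab
          | exact h01 | exact h02 | exact h12 | exact h01.symm | exact h02.symm | exact h12.symm
      obtain ⟨k', rfl⟩ : ∃ k', k = k' + 1 := ⟨k - 1, by omega⟩
      have rows : ∀ Y, lam jlo < Y → Y < lam jhi → ∀ Z : ℤ,
          ((ξ ^ Z * η ^ Y : Rˣ) : R) ∈ W :=
        fun Y h1 h2 => span_row W J _ hJk ξ η (hmul _ _) Y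
          (hrow Y 1 one_pos (by omega) (by omega) (by omega))
      set Vl := Vx ρ d i e jlo with hVl
      set Vh := Vx ρ d i e jhi with hVh
      have hVne : Vl ≠ Vh := by
        intro h
        have a1 := lamf_eq ρ d i e u v jlo
        have a2 := lamf_eq ρ d i e u v jhi
        rw [← hVl, h, ← hlam] at a1
        rw [← hVh, ← hlam] at a2
        omega
      have hH : π (B - monomial Vl.2 (monomial Vl.1 (cf B Vl.1 Vl.2)) -
          monomial Vh.2 (monomial Vh.1 (cf B Vh.1 Vh.2))) ∈ W := by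
        apply mem_of_support
        intro a b hne
        have hcf := hne
        rw [cf_sub, cf_sub, cf_monomial, cf_monomial] at hcf
        have n1 : (a, b) ≠ Vl := by
          intro h
          have h' : (a, b) ≠ Vh := h ▸ hVne
          rw [if_pos h, if_neg h', ← h] at hcf
          simp at hcf
        have n2 : (a, b) ≠ Vh := by
          intro h
          rw [if_neg n1, if_pos h, ← h] at hcf
          simp at hcf
        rw [cf_sub, cf_sub, cf_monomial, cf_monomial, if_neg n1, if_neg n2, sub_zero, sub_zero]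
          at hne ⊢
        rw [hmono, hab]
        apply innW_smul _ _ _ _ _ _ _ (by rw [hφ, hB.fixed])
        apply rows
        · exact (bary ρ d i e ρ0 d0 e0 u v a b (hB.supp a b hne) jlo
            (fun j hj => lt_of_le_of_ne (hlo j) (hinj _ _ hj.symm))).resolve_left n1
        · have neg : ∀ j, lamf ρ d i e (-u) (-v) j = -lam j := by
            intro j
            rw [hlam, lamf_eq, lamf_eq]; ring
          have := (bary ρ d i e ρ0 d0 e0 (-u) (-v) a b (hB.supp a b hne) jhi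
            (fun j hj => by
              rw [neg, neg]
              exact neg_lt_neg (lt_of_le_of_ne (hhi j) (hinj _ _ hj)))).resolve_left n2
          rw [neg] at this
          linarith
      have hth := span_thin W J k' hJk ξ η (hmul _ _) (hmul _ _) (lam jlo)
        (fun l hl Z => rows _ (by omega) (by push_cast at hk; omega) Z)
        (v' * Vl.1 - u' * Vl.2) (v' * Vh.1 - u' * Vh.2)
      have ehi : lam jlo + (k' + 1 : ℕ) = u * Vh.1 + v * Vh.2 := by
        rw [hVh, ← lamf_eq, ← hlam]; omega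
      have elo : lam jlo = u * Vl.1 + v * Vl.2 := by
        rw [hVl, ← lamf_eq]
      rw [ehi, ← hab, elo, ← hab] at hth
      have hth' := innW_smul φ π ρ d i e (cf B Vh.1 Vh.2) (by rw [hφ, hB.fixed]) _ hth
      have hc : cf B Vl.1 Vl.2 = (-1) ^ (k' + 1) * cf B Vh.1 Vh.2 := by
        have m1 : (-1 : E) ≠ 0 := by simp
        rw [hVl, hVh, hBv, hBv, ← zpow_natCast, ← zpow_add₀ m1]
        have : ((k' + 1 : ℕ) : ℤ) + (lam jhi - lam 0) = (lam jlo - lam 0) + 2 * (k' + 1 : ℕ) := by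
          omega
        rw [this, zpow_add₀ m1, zpow_mul]
        simp
      have := W.add_mem hH hth'
      rw [map_sub, map_sub, hmono, hmono, hc] at this
      simp only [map_mul, map_pow, map_neg, map_one, zsmul_eq_mul, Int.cast_pow, Int.cast_neg,
        Int.cast_one] at this
      refine (congrArg (· ∈ W) ?_).mp this
      ring
    · -- the fat case
      apply mem_of_support
      intro a b hne
      rw [hmono, hab]
      apply innW_smul _ _ _ _ _ _ _ (by rw [hφ, hB.fixed])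
      apply span_fat W J k hJk ξ η (hmul _ _) (hmul _ _) (lam jlo + (w - k + 1) / 2)
      intro l hl
      apply hrow _ ((w - k + 1) / 2) (by omega) (by omega) (by omega)
      have : w - k ≤ 2 * ((w - k + 1) / 2) := by omega
      nlinarith
  obtain ⟨G, h1, h2, h3⟩ := hBW
  exact ⟨B, G, hB, h1, h2, h3⟩

theorem exists_goodCurve {E : Type} [Field E] [Fintype E] (Q n ρ d i e k : ℕ) (hQ : 1 < Q)
    (hcard : Fintype.card E = Q ^ n) (φ : E →+* E) (hφ : ∀ x, φ x = x ^ Q) (k0 : 0 < k)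
    (d0 : 0 < d) (e0 : 0 < e) (hd : d ∣ n) (hρn : ρ ∣ n) (hρ : (12 * k * (k + 1)) ^ 2 ≤ ρ)
    (g1 : Nat.gcd ρ i ≤ k) (g2 : Nat.gcd ρ (i + e * d) ≤ k)
    (hw : ∀ u v : ℤ, u ≠ 0 → (k : ℤ) ≤ |e * d * u| ∨ (k : ℤ) ≤ |v * ρ - u * i| ∨
      (k : ℤ) ≤ |v * ρ - u * i - e * d * u|) :
    ∃ F : E[X][X], GoodCurve Q ρ d i e k F := by
  set I : Ideal E[X][X] := Ideal.span {(C X - 1 : E[X][X]), (X - 1 : E[X][X])} with hI
  have ht : (C X - 1 : E[X][X]) ∈ I := Ideal.subset_span (by simp)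
  have hs : (X - 1 : E[X][X]) ∈ I := Ideal.subset_span (by simp)
  obtain ⟨B, G, hB, h1, h2, h3⟩ := exists_aux (R := E[X][X] ⧸ I ^ k) Q n ρ d i e k hQ hcard φ hφ
    k0 d0 e0 hd hρn hρ g1 g2 hw (Ideal.Quotient.mk (I ^ k)) (I.map (Ideal.Quotient.mk (I ^ k)))
    ((Ideal.map_pow _ _ _).symm.trans (Ideal.map_quotient_self _))
    (by simpa using Ideal.mem_map_of_mem (Ideal.Quotient.mk (I ^ k)) ht)
    (by simpa using Ideal.mem_map_of_mem (Ideal.Quotient.mk (I ^ k)) hs)
  exact ⟨B - G, goodCurve_sub φ hφ hB h1 h2 (Ideal.Quotient.eq.mp h3.symm)⟩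

end Pool.Agent.Lib.MP_145fc7_co
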