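import Mathlib

/-! Positivity lemma: a polynomial with constant term `1` cannot have a logarithmic derivative
whose coefficients along multiples of `j0` are nonnegative and not all zero. -/

set_option autoImplicit false

namespace Pool.Agent.Lib.MP_145fc7_co

open PowerSeries

/-- The product of the `1 - α X`. -/
noncomputable def eul (s : Multiset ℂ) : PowerSeries ℂ :=
  (s.map (fun α => (1 : PowerSeries ℂ) - C α * X)).prod

/-- Minus the power sums. -/
noncomputable def nps (s : Multiset ℂ) : PowerSeries ℂ :=
  PowerSeries.mk (fun j => if j = 0 then 0 else -(s.map (fun α => α ^ j)).sum)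

lemma nps_single (α : ℂ) : nps {α} * (1 - C α * X) = -(C α * X) := by
  ext j
  rw [mul_sub, mul_one, ← mul_assoc, map_sub]
  cases j with
  | zero => simp [nps]
  | succ j =>
    rw [coeff_succ_mul_X, coeff_mul_C, map_neg, coeff_succ_mul_X]
    cases j with
    | zero => simp [nps]
    | succ j => simp [nps, pow_succ]

lemma nps_cons (α : ℂ) (s : Multiset ℂ) : nps (α ::ₘ s) = nps {α} + nps s := by
  ext j
  by_cases h : j = 0
  · simp [nps, h]
  · simp [nps, h, add_comm]

lemma logder (s : Multiset ℂ) : X * d⁄dX ℂ (eul s) = nps s * eul s := by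
  induction s using Multiset.induction_on with
  | empty =>
    have : nps 0 = 0 := by ext j; simp [nps]
    simp [eul, this]
  | cons α s ih =>
    have h1 : eul (α ::ₘ s) = (1 - C α * X) * eul s := by simp [eul]
    have h2 : d⁄dX ℂ ((1 : PowerSeries ℂ) - C α * X) = - C α := by
      rw [map_sub, Derivation.leibniz]
      simp
    rw [h1, Derivation.leibniz, nps_cons, h2, smul_eq_mul, smul_eq_mul]
    linear_combination (1 - C α * X) * ih - eul s * nps_single α

lemma coeff_logder (P B : PowerSeries ℂ) (h : X * d⁄dX ℂ P = B * P) (m : ℕ) :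
    (m : ℂ) * coeff m P = ∑ j ∈ Finset.range (m + 1), coeff j B * coeff (m - j) P := by
  have h1 := congrArg (coeff m) h
  rw [coeff_mul m B P, Finset.Nat.sum_antidiagonal_eq_sum_range_succ_mk] at h1
  rw [← h1]
  cases m with
  | zero => simp
  | succ m => rw [coeff_succ_X_mul, coeff_derivative]; push_cast; ring

lemma eul_coeff_zero (s : Multiset ℂ) : coeff 0 (eul s) = 1 := by
  induction s using Multiset.induction_on with
  | empty => simp [eul]
  | cons α s ih =>
    have h1 : eul (α ::ₘ s) = (1 - C α * X) * eul s := by simp [eul]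
    rw [h1]
    simp only [coeff_zero_eq_constantCoeff, map_mul, map_sub, map_one, constantCoeff_X,
      mul_zero, sub_zero, one_mul] at ih ⊢
    exact ih

lemma eul_eq_coe (s : Multiset ℂ) :
    eul s = ((s.map (fun α => (1 : Polynomial ℂ) - Polynomial.C α * Polynomial.X)).prod :
      Polynomial ℂ) := by
  induction s using Multiset.induction_on with
  | empty => simp [eul]
  | cons α s ih =>
    have h1 : eul (α ::ₘ s) = (1 - C α * X) * eul s := by simp [eul]
    rw [h1, ih]
    simp

lemma poly_eq_eul (P : Polynomial ℂ) (h0 : P.coeff 0 = 1) :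
    ∃ s : Multiset ℂ, (P : PowerSeries ℂ) = eul s := by
  have hP : P ≠ 0 := by rintro rfl; simp at h0
  have hs := (IsAlgClosed.splits P).eq_prod_roots
  refine ⟨P.roots.map (fun r => r⁻¹), ?_⟩
  rw [eul_eq_coe]
  congr 1
  have hr : ∀ r ∈ P.roots, r ≠ 0 := by
    intro r hr h
    rw [Polynomial.mem_roots hP, h, Polynomial.IsRoot, ← Polynomial.coeff_zero_eq_eval_zero,
      h0] at hr
    exact one_ne_zero hr
  have h1 : (P.roots.map (fun r => Polynomial.X - Polynomial.C r)).prod =
      Polynomial.C (P.roots.map (fun r => -r)).prod *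
        ((P.roots.map (fun r => r⁻¹)).map
          (fun α => (1 : Polynomial ℂ) - Polynomial.C α * Polynomial.X)).prod := by
    rw [Multiset.map_map, map_multiset_prod, Multiset.map_map, ← Multiset.prod_map_mul]
    apply congrArg
    apply Multiset.map_congr rfl
    intro r hr'
    have := hr r hr'
    simp only [Function.comp]
    have h2 : Polynomial.C r * Polynomial.C r⁻¹ = (1 : Polynomial ℂ) := by
      rw [← map_mul, mul_inv_cancel₀ this, map_one]
    rw [map_neg]
    linear_combination (-Polynomial.X) * h2
  set R := ((P.roots.map (fun r => r⁻¹)).map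
          (fun α => (1 : Polynomial ℂ) - Polynomial.C α * Polynomial.X)).prod with hR
  have hR0 : R.coeff 0 = 1 := by
    have := eul_coeff_zero (P.roots.map (fun r => r⁻¹))
    rwa [eul_eq_coe, Polynomial.coeff_coe] at this
  rw [h1, ← mul_assoc, ← map_mul] at hs
  have h3 := congrArg (fun p => Polynomial.coeff p 0) hs
  simp only [Polynomial.coeff_C_mul, h0, hR0, mul_one] at h3
  rw [← h3] at hs
  simpa using hs

theorem newton_pos (a b : ℕ → ℂ) (ha0 : a 0 = 1) (hb0 : b 0 = 0)
    (hrec : ∀ m : ℕ, (m : ℂ) * a m = ∑ j ∈ Finset.range (m + 1), b j * a (m - j))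
    (M : ℕ) (hM : ∀ m, M ≤ m → a m = 0) (j0 : ℕ) (hj0 : 0 < j0)
    (hb : ∀ j, j0 ∣ j → ∃ r : ℝ, 0 ≤ r ∧ b j = r) (hpos : b j0 ≠ 0) : False := by
  let P : Polynomial ℂ := ∑ m ∈ Finset.range M, Polynomial.monomial m (a m)
  have hPc : ∀ m, P.coeff m = a m := by
    intro m
    simp only [P, Polynomial.finsetSum_coeff, Polynomial.coeff_monomial, Finset.sum_ite_eq',
      Finset.mem_range]
    split_ifs with h
    · rfl
    · exact (hM m (by omega)).symm
  obtain ⟨s, hs⟩ := poly_eq_eul P (by rw [hPc, ha0])
  have hac : ∀ m, coeff m (eul s) = a m := by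
    intro m; rw [← hs, Polynomial.coeff_coe, hPc]
  have h1 : PowerSeries.mk b * eul s = nps s * eul s := by
    rw [← logder]
    ext m
    rw [coeff_mul, Finset.Nat.sum_antidiagonal_eq_sum_range_succ_mk]
    simp only [coeff_mk, hac]
    rw [← hrec]
    cases m with
    | zero => simp
    | succ m => rw [coeff_succ_X_mul, coeff_derivative, hac]; push_cast; ring
  have hne : eul s ≠ 0 := by
    intro h
    have := eul_coeff_zero s
    rw [h] at this
    simp at this
  have h2 : PowerSeries.mk b = nps s := mul_right_cancel₀ hne h1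
  let s' := s.map (fun α => α ^ j0)
  have h3 : ∀ j, coeff j (nps s') = b (j0 * j) := by
    intro j
    have h4 : b (j0 * j) = coeff (j0 * j) (nps s) := by rw [← h2, coeff_mk]
    rw [h4]
    by_cases hj : j = 0
    · simp [nps, hj]
    · have : j0 * j ≠ 0 := by positivity
      simp [nps, hj, hj0.ne', s', pow_mul]
  have hrec' := coeff_logder _ _ (logder s')
  have key : ∀ m, ∃ r : ℝ, 0 < r ∧ coeff m (eul s') = r := by
    intro m
    induction m using Nat.strong_induction_on with
    | _ m ih =>
      cases m with
      | zero => exact ⟨1, one_pos, by rw [eul_coeff_zero]; simp⟩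
      | succ m =>
        have h5 := hrec' (m + 1)
        choose! rb hrb using hb
        choose! rc hrc using ih
        have h6 : ∑ j ∈ Finset.range (m + 1 + 1), coeff j (nps s') * coeff (m + 1 - j) (eul s') =
            ((∑ j ∈ Finset.range (m + 1), rb (j0 * (j + 1)) * rc (m - j) : ℝ) : ℂ) := by
          rw [Finset.sum_range_succ', h3 0, mul_zero, hb0, zero_mul, add_zero]
          push_cast
          apply Finset.sum_congr rfl
          intro j hj
          rw [Finset.mem_range] at hj
          rw [h3, (hrb _ (dvd_mul_right _ _)).2, (hrc (m - j) (by omega)).2]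
        have h7 : 0 < ∑ j ∈ Finset.range (m + 1), rb (j0 * (j + 1)) * rc (m - j) := by
          apply Finset.sum_pos'
          · intro j hj
            rw [Finset.mem_range] at hj
            exact mul_nonneg (hrb _ (dvd_mul_right _ _)).1 (hrc (m - j) (by omega)).1.le
          · refine ⟨0, by simp, mul_pos ?_ (hrc _ (by omega)).1⟩
            have h8 := hrb j0 dvd_rfl
            simp only [zero_add, mul_one]
            rcases h8.1.lt_or_eq with h9 | h9
            · exact h9
            · exfalso; apply hpos; rw [h8.2, ← h9]; simp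
        refine ⟨(∑ j ∈ Finset.range (m + 1), rb (j0 * (j + 1)) * rc (m - j)) / (m + 1 : ℕ),
          by positivity, ?_⟩
        rw [h6] at h5
        have h10 : ((m + 1 : ℕ) : ℂ) ≠ 0 := by exact_mod_cast Nat.succ_ne_zero m
        rw [Complex.ofReal_div, eq_div_iff (by exact_mod_cast h10), mul_comm]
        exact_mod_cast h5
  obtain ⟨r, hr, hr'⟩ := key
    (((s'.map (fun α => (1 : Polynomial ℂ) - Polynomial.C α * Polynomial.X)).prod).natDegree + 1)
  rw [eul_eq_coe, Polynomial.coeff_coe, Polynomial.coeff_eq_zero_of_natDegree_lt (by omega)] at hr'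
  have : r = 0 := by exact_mod_cast hr'.symm
  exact hr.ne' this

end Pool.Agent.Lib.MP_145fc7_co
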