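import Pool.Agent.Lib.MP_145fc7_co.Classes
import Pool.Agent.Lib.MP_145fc7_co.Newton

/-! The norm theorem for a constant field extension of a curve with one rational point at
infinity, by positivity of the logarithmic derivative of an L-series. -/

set_option autoImplicit false

namespace Pool.Agent.Lib.MP_145fc7_co

open WithZero MulAction
open scoped Pointwise

section Orbit

variable {B : Type} [CommRing B] [IsDedekindDomain B] {Φ : B ≃+* B} {n : ℕ}

/-- The product of the conjugates of an ideal. -/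
noncomputable def orb (Φ : B ≃+* B) (P : Ideal B) : Ideal B :=
  ∏ i ∈ Finset.range (period Φ P), (Φ ^ i) • P

lemma orb_ne_bot {P : Ideal B} (hP : P ≠ ⊥) : orb Φ P ≠ ⊥ :=
  Finset.prod_ne_zero_iff.2 (fun _ _ => smul_ne_bot _ hP)

omit [IsDedekindDomain B] in
lemma smul_orb (P : Ideal B) : Φ • orb Φ P = orb Φ P := by
  unfold orb
  rw [Finset.smul_prod', ← prod_shift (fun i => (Φ ^ i) • P) (period Φ P)
    (by rw [pow_period_smul, pow_zero, one_smul])]
  simp only [pow_succ', mul_smul]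

omit [IsDedekindDomain B] in
lemma period_dvd (hn : Φ ^ n = 1) (P : Ideal B) : period Φ P ∣ n := by
  rw [← pow_smul_eq_iff_period_dvd, hn, one_smul]

omit [IsDedekindDomain B] in
lemma nrmI_mul_period (P : Ideal B) (m : ℕ) : nrmI Φ (period Φ P * m) P = orb Φ P ^ m := by
  induction m with
  | zero => simp [nrmI]
  | succ m ih =>
    unfold nrmI at ih ⊢
    rw [Nat.mul_succ, Finset.prod_range_add, ih, pow_succ]
    congr 1
    apply Finset.prod_congr rfl
    intro i _
    rw [add_comm, pow_add, mul_smul, pow_smul_eq_iff_period_dvd.2 (dvd_mul_right _ _)]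

omit [IsDedekindDomain B] in
lemma nrmI_eq_orb (hn : Φ ^ n = 1) (P : Ideal B) :
    nrmI Φ n P = orb Φ P ^ (n / period Φ P) := by
  rw [← nrmI_mul_period, Nat.mul_div_cancel' (period_dvd hn P)]

lemma prime_smul (ψ : B ≃+* B) {P : Ideal B} (hP : Prime P) : Prime (ψ • P) := by
  have := Ideal.isPrime_of_prime hP
  exact Ideal.prime_of_isPrime (smul_ne_bot ψ hP.ne_zero) inferInstance

omit [IsDedekindDomain B] in
lemma pow_smul_fixed {I : Ideal B} (hI : Φ • I = I) (i : ℕ) : (Φ ^ i) • I = I := by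
  induction i with
  | zero => simp
  | succ i ih => rw [pow_succ, mul_smul, hI, ih]

omit [IsDedekindDomain B] in
lemma pow_smul_ne {P : Ideal B} {i j : ℕ} (hij : i < j) (hj : j < period Φ P) :
    (Φ ^ i) • P ≠ (Φ ^ j) • P := by
  intro h
  obtain ⟨m, rfl⟩ := Nat.exists_eq_add_of_lt hij
  rw [add_assoc, pow_add, mul_smul] at h
  exact pow_smul_ne_of_lt_period (m := Φ) (a := P) (n := m + 1) (by omega) (by omega)
    (MulAction.injective _ h).symm

lemma orb_pow_dvd {P I : Ideal B} (hP : Prime P) (hI : Φ • I = I) {r : ℕ} (h : P ^ r ∣ I) :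
    orb Φ P ^ r ∣ I := by
  unfold orb
  rw [← Finset.prod_pow]
  apply Finset.prod_dvd_of_coprime
  · intro i hi j hj hij
    have hne : (Φ ^ i) • P ≠ (Φ ^ j) • P := by
      rcases lt_or_gt_of_ne hij with h1 | h1
      · exact pow_smul_ne h1 (by simpa using hj)
      · exact (pow_smul_ne h1 (by simpa using hi)).symm
    have hm : ∀ i : ℕ, ((Φ ^ i) • P).IsMaximal := fun i =>
      (Ideal.isPrime_of_prime (prime_smul _ hP)).isMaximal (prime_smul _ hP).ne_zero
    exact (Ideal.isCoprime_iff_sup_eq.2 ((hm i).coprime_of_ne (hm j) hne)).pow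
  · intro i _
    obtain ⟨J, rfl⟩ := h
    rw [← pow_smul_fixed hI i, smul_mul', smul_pow']
    exact dvd_mul_right _ _

omit [IsDedekindDomain B] in
lemma dvd_orb (hn : Φ ^ n = 1) (hn0 : 0 < n) (P : Ideal B) : P ∣ orb Φ P := by
  have h1 : 0 < period Φ P := Nat.pos_of_dvd_of_pos (period_dvd hn P) hn0
  have h2 := Finset.dvd_prod_of_mem (fun i => (Φ ^ i) • P) (Finset.mem_range.2 h1)
  simpa [orb] using h2

omit [IsDedekindDomain B] in
lemma period_pow_smul (P : Ideal B) (i : ℕ) : period Φ ((Φ ^ i) • P) = period Φ P := by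
  have key : ∀ m : ℕ, (Φ ^ m) • (Φ ^ i) • P = (Φ ^ i) • P ↔ (Φ ^ m) • P = P := by
    intro m
    rw [← mul_smul, ← pow_add, add_comm, pow_add, mul_smul]
    exact (MulAction.injective _).eq_iff
  apply Nat.dvd_antisymm
  · rw [← pow_smul_eq_iff_period_dvd, key, pow_period_smul]
  · rw [← pow_smul_eq_iff_period_dvd, ← key, pow_period_smul]

lemma dvd_mult_nrmI (hn : Φ ^ n = 1) {P P0 : Ideal B} (hP : Prime P) (hP0 : Prime P0) :
    n / period Φ P ∣ multiplicity P (nrmI Φ n P0) := by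
  by_cases h : P ∣ nrmI Φ n P0
  · obtain ⟨i, -, hi⟩ := (hP.dvd_finsetProd_iff _).1 h
    have h1 : P = (Φ ^ i) • P0 :=
      associated_iff_eq.1 (hP.associated_of_dvd (prime_smul _ hP0) hi)
    have h2 : period Φ P = period Φ P0 := by rw [h1, period_pow_smul]
    rw [nrmI_eq_orb hn, h2, (FiniteMultiplicity.of_prime_left hP
      (orb_ne_bot hP0.ne_zero)).multiplicity_pow hP]
    exact dvd_mul_right _ _
  · rw [multiplicity_eq_zero.2 h]
    exact dvd_zero _

end Orbit

section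

variable {E B : Type} [Field E] [CommRing B] [Algebra E B] {Q n : ℕ} {σ : E ≃+* E}
  {Φ : B ≃+* B} {v : Valuation B ZZ} [IsDedekindDomain B]

lemma Setup.idg_orb (h : Setup Q n σ Φ v) {P : Ideal B} (hP : P ≠ ⊥) :
    idg v (orb Φ P) = period Φ P * idg v P := by
  have := h.toIsFrob.finite
  unfold orb
  rw [h.toIsCurveDeg.idg_prod _ _ (fun _ _ => smul_ne_bot _ hP)]
  simp [idg_smul (v_pow_app h.vinv _)]

omit [IsDedekindDomain B] in
lemma Setup.period_pos (h : Setup Q n σ Φ v) (P : Ideal B) : 0 < period Φ P :=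
  Nat.pos_of_dvd_of_pos (period_dvd h.ord P) h.pos

lemma Setup.idg_prime_pos (h : Setup Q n σ Φ v) {P : Ideal B} (hP : Prime P) : 0 < idg v P := by
  have := h.toIsFrob.finite
  exact h.toIsCurveDeg.idg_pos hP.ne_zero (Ideal.isPrime_of_prime hP).ne_top

lemma Setup.coprime_idg (h : Setup Q n σ Φ v) {P : Ideal B} (hP : Prime P) :
    Nat.Coprime (idg v P) (n / period Φ P) := by
  have := h.toIsFrob.finite
  have hm : P.IsMaximal := (Ideal.isPrime_of_prime hP).isMaximal hP.ne_zero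
  let _ : Field (B ⧸ P) := Ideal.Quotient.field P
  have hle : P ≤ P.comap (Φ ^ period Φ P : B ≃+* B).toRingHom := by
    intro x hx
    have h1 := Ideal.smul_mem_pointwise_smul (Φ ^ period Φ P) x P hx
    rwa [pow_period_smul] at h1
  refine h.toIsFrob.coprime_of_ext (L := B ⧸ P) (h.toIsCurveDeg.card_quot hP.ne_zero)
    (Nat.mul_div_cancel' (period_dvd h.ord P)).symm (Ideal.quotientMap P _ hle) ?_ ?_
  · intro c
    change Ideal.quotientMap P _ hle (Ideal.Quotient.mk P (algebraMap E B c)) =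
      Ideal.Quotient.mk P (algebraMap E B _)
    rw [Ideal.quotientMap_mk, ← h.toIsSemi.pow_alg]
    rfl
  · intro x
    obtain ⟨x, rfl⟩ := Ideal.Quotient.mk_surjective x
    have key : ∀ m : ℕ, (Ideal.quotientMap P _ hle)^[m] (Ideal.Quotient.mk P x) =
        Ideal.Quotient.mk P ((Φ ^ (period Φ P * m)) x) := by
      intro m
      induction m with
      | zero => simp
      | succ m ih =>
        rw [Function.iterate_succ_apply', ih, Ideal.quotientMap_mk, Nat.mul_succ, add_comm,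
          pow_add_app]
        rfl
    rw [key, Nat.mul_div_cancel' (period_dvd h.ord P), h.ord]
    rfl

lemma Setup.idg_eq_sum (h : Setup Q n σ Φ v) (S : Finset (Ideal B)) (hS : ∀ P ∈ S, Prime P)
    (I : Ideal B) (hI : I ≠ ⊥) (hIS : ∀ P, Prime P → P ∣ I → P ∈ S) :
    idg v I = ∑ P ∈ S, multiplicity P I * idg v P := by
  classical
  have := h.toIsFrob.finite
  induction I using UniqueFactorizationMonoid.induction_on_prime with
  | h₁ => exact absurd rfl hI
  | h₂ I hu =>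
    rw [Ideal.isUnit_iff.1 hu, idg_top]
    symm
    apply Finset.sum_eq_zero
    intro P hP
    rw [multiplicity_eq_zero.2, zero_mul]
    rw [← Ideal.one_eq_top]
    exact (hS P hP).not_dvd_one
  | h₃ J P0 hJ hP0 ih =>
    rw [h.toIsCurveDeg.idg_mul hP0.ne_zero hJ,
      ih hJ (fun P hP hPJ => hIS P hP (hPJ.mul_left _))]
    have h1 : ∀ P ∈ S, multiplicity P (P0 * J) * idg v P =
        (if P = P0 then idg v P0 else 0) + multiplicity P J * idg v P := by
      intro P hP
      rw [multiplicity_mul (hS P hP) (FiniteMultiplicity.of_prime_left (hS P hP) hI), add_mul]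
      congr 1
      split_ifs with h2
      · rw [h2, multiplicity_self, one_mul]
      · rw [multiplicity_eq_zero.2, zero_mul]
        intro h3
        exact h2 (associated_iff_eq.1 ((hS P hP).associated_of_dvd hP0 h3))
    rw [Finset.sum_congr rfl h1, Finset.sum_add_distrib, Finset.sum_ite_eq',
      if_pos (hIS P0 hP0 (dvd_mul_right _ _))]

lemma Setup.idg_le_of_dvd (h : Setup Q n σ Φ v) {I J : Ideal B} (hJ : J ≠ ⊥) (hIJ : I ∣ J) :
    idg v I ≤ idg v J := by
  have := h.toIsFrob.finite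
  obtain ⟨K, rfl⟩ := hIJ
  rw [h.toIsCurveDeg.idg_mul (left_ne_zero_of_mul hJ) (right_ne_zero_of_mul hJ)]
  omega

lemma Setup.finite_inv (h : Setup Q n σ Φ v) (m : ℕ) :
    {I : Ideal B | I ≠ ⊥ ∧ Φ • I = I ∧ idg v I = m}.Finite := by
  have := h.toIsFrob.finite
  exact (h.toIsCurveDeg.finite_ideals m).subset (fun I hI => ⟨hI.1, hI.2.2.le⟩)

lemma Setup.finite_primes (h : Setup Q n σ Φ v) (m : ℕ) :
    {P : Ideal B | Prime P ∧ idg v P ≤ m}.Finite := by
  have := h.toIsFrob.finite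
  exact (h.toIsCurveDeg.finite_ideals m).subset (fun I hI => ⟨hI.1.ne_zero, hI.2⟩)

/-- The coefficients of the L-series. -/
noncomputable def Setup.lco (h : Setup Q n σ Φ v) (χ : ClassGroup B →* ℂ) (m : ℕ) : ℂ :=
  ∑ I ∈ (h.finite_inv m).toFinset, χ (cl I)

open Classical in
/-- The pairs that contribute to the logarithmic derivative. -/
noncomputable def Setup.prs (h : Setup Q n σ Φ v) (m j : ℕ) : Finset (Ideal B × ℕ) :=
  ((h.finite_primes m).toFinset ×ˢ Finset.Icc 1 m).filter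
    (fun p => p.2 * idg v (orb Φ p.1) = j)

lemma Setup.mem_prs (h : Setup Q n σ Φ v) {m j : ℕ} (hj : j ≤ m) {p : Ideal B × ℕ} :
    p ∈ h.prs m j ↔ Prime p.1 ∧ 1 ≤ p.2 ∧ p.2 * idg v (orb Φ p.1) = j := by
  simp only [Setup.prs, Finset.mem_filter, Finset.mem_product, Set.Finite.mem_toFinset,
    Set.mem_ofPred_eq, Finset.mem_Icc]
  constructor
  · rintro ⟨⟨⟨h1, -⟩, h2, -⟩, h3⟩
    exact ⟨h1, h2, h3⟩
  · rintro ⟨h1, h2, h3⟩
    have h4 := h.idg_orb h1.ne_zero
    have h5 := h.period_pos p.1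
    have h6 := h.idg_prime_pos h1
    have h7 : idg v p.1 ≤ idg v (orb Φ p.1) := by rw [h4]; exact Nat.le_mul_of_pos_left _ h5
    have h8 : idg v (orb Φ p.1) ≤ j := by rw [← h3]; exact Nat.le_mul_of_pos_left _ h2
    have h9 : p.2 ≤ j := by rw [← h3]; exact Nat.le_mul_of_pos_right _ (by omega)
    exact ⟨⟨⟨h1, by omega⟩, h2, by omega⟩, h3⟩

/-- The coefficients of the logarithmic derivative. -/
noncomputable def Setup.bco (h : Setup Q n σ Φ v) (χ : ClassGroup B →* ℂ) (j : ℕ) : ℂ :=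
  ∑ p ∈ h.prs j j, (idg v p.1 : ℂ) * χ (cl (orb Φ p.1)) ^ p.2

open Classical in
lemma Setup.inner_sum (h : Setup Q n σ Φ v) (χ : ClassGroup B →* ℂ) (m : ℕ) {P : Ideal B}
    (hP : Prime P) (r : ℕ) :
    ∑ I ∈ (h.finite_inv m).toFinset, (if P ^ r ∣ I then χ (cl I) else 0) =
      if r * idg v (orb Φ P) ≤ m then
        χ (cl (orb Φ P)) ^ r * h.lco χ (m - r * idg v (orb Φ P)) else 0 := by
  have := h.toIsFrob.finite
  have hO : orb Φ P ≠ ⊥ := orb_ne_bot hP.ne_zero
  have hOr : orb Φ P ^ r ≠ ⊥ := pow_ne_zero r hO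
  split_ifs with hm
  · rw [← Finset.sum_filter, Setup.lco, Finset.mul_sum]
    symm
    apply Finset.sum_bij (fun I _ => orb Φ P ^ r * I)
    · intro I hI
      simp only [Set.Finite.mem_toFinset, Set.mem_ofPred_eq, Finset.mem_filter] at hI ⊢
      refine ⟨⟨mul_ne_zero hOr hI.1, ?_, ?_⟩, ?_⟩
      · rw [smul_mul', smul_pow', smul_orb, hI.2.1]
      · rw [h.toIsCurveDeg.idg_mul hOr hI.1, h.toIsCurveDeg.idg_pow hO, hI.2.2]
        omega
      · exact (pow_dvd_pow_of_dvd (dvd_orb h.ord h.pos P) r).mul_right _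
    · intro I _ J _ hIJ
      exact mul_left_cancel₀ hOr hIJ
    · intro I hI
      simp only [Set.Finite.mem_toFinset, Set.mem_ofPred_eq, Finset.mem_filter] at hI ⊢
      obtain ⟨J, hJ⟩ := orb_pow_dvd hP hI.1.2.1 hI.2
      have hJ0 : J ≠ ⊥ := by
        rintro rfl
        exact hI.1.1 (by simpa using hJ)
      refine ⟨J, ⟨hJ0, ?_, ?_⟩, hJ.symm⟩
      · apply mul_left_cancel₀ hOr
        rw [← hJ]
        conv_rhs => rw [← hI.1.2.1, hJ, smul_mul', smul_pow', smul_orb]
      · have h1 := h.toIsCurveDeg.idg_mul hOr hJ0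
        rw [← hJ, h.toIsCurveDeg.idg_pow hO, hI.1.2.2] at h1
        omega
    · intro I hI
      simp only [Set.Finite.mem_toFinset, Set.mem_ofPred_eq] at hI
      rw [cl_mul hOr hI.1, cl_pow hO, map_mul, map_pow]
  · apply Finset.sum_eq_zero
    intro I hI
    simp only [Set.Finite.mem_toFinset, Set.mem_ofPred_eq] at hI
    rw [if_neg]
    intro h1
    have h2 := h.idg_le_of_dvd hI.1 (orb_pow_dvd hP hI.2.1 h1)
    rw [h.toIsCurveDeg.idg_pow hO, hI.2.2] at h2
    exact hm h2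

lemma Setup.lco_rec (h : Setup Q n σ Φ v) (χ : ClassGroup B →* ℂ) (m : ℕ) :
    (m : ℂ) * h.lco χ m = ∑ j ∈ Finset.range (m + 1), h.bco χ j * h.lco χ (m - j) := by
  classical
  have := h.toIsFrob.finite
  set S := (h.finite_primes m).toFinset with hS
  have hSp : ∀ P ∈ S, Prime P := fun P hP => by
    simp only [hS, Set.Finite.mem_toFinset, Set.mem_ofPred_eq] at hP; exact hP.1
  have h1 : ∀ I ∈ (h.finite_inv m).toFinset, (m : ℂ) * χ (cl I) =
      ∑ p ∈ S ×ˢ Finset.Icc 1 m, (idg v p.1 : ℂ) * (if p.1 ^ p.2 ∣ I then χ (cl I) else 0) := by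
    intro I hI
    simp only [Set.Finite.mem_toFinset, Set.mem_ofPred_eq] at hI
    have h2 := h.idg_eq_sum S hSp I hI.1 (fun P hP hPI => by
      simp only [hS, Set.Finite.mem_toFinset, Set.mem_ofPred_eq]
      exact ⟨hP, hI.2.2 ▸ h.idg_le_of_dvd hI.1 hPI⟩)
    rw [hI.2.2] at h2
    rw [Finset.sum_product]
    conv_lhs => rw [h2]
    push_cast
    rw [Finset.sum_mul]
    apply Finset.sum_congr rfl
    intro P hP
    have hfin := FiniteMultiplicity.of_prime_left (hSp P hP) hI.1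
    have h3 : multiplicity P I ≤ m := by
      have h4 := h.idg_le_of_dvd hI.1 (pow_multiplicity_dvd P I)
      rw [h.toIsCurveDeg.idg_pow (hSp P hP).ne_zero, hI.2.2] at h4
      exact (Nat.le_mul_of_pos_right _ (h.idg_prime_pos (hSp P hP))).trans h4
    have h5 : (Finset.Icc 1 m).filter (fun r => P ^ r ∣ I) = Finset.Icc 1 (multiplicity P I) := by
      ext r
      simp only [Finset.mem_filter, Finset.mem_Icc, hfin.pow_dvd_iff_le_multiplicity]
      omega
    rw [← Finset.mul_sum, ← Finset.sum_filter, h5]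
    simp only [Finset.sum_const, Nat.card_Icc, add_tsub_cancel_right, nsmul_eq_mul]
    ring
  rw [Setup.lco, Finset.mul_sum, Finset.sum_congr rfl h1, Finset.sum_comm]
  have h6 : ∀ p ∈ S ×ˢ Finset.Icc 1 m, ∑ I ∈ (h.finite_inv m).toFinset,
      (idg v p.1 : ℂ) * (if p.1 ^ p.2 ∣ I then χ (cl I) else 0) =
      ∑ j ∈ Finset.range (m + 1), if p.2 * idg v (orb Φ p.1) = j then
        (idg v p.1 : ℂ) * χ (cl (orb Φ p.1)) ^ p.2 * h.lco χ (m - j) else 0 := by
    intro p hp
    rw [← Finset.mul_sum, h.inner_sum χ m (hSp _ (Finset.mem_product.1 hp).1), Finset.sum_ite_eq]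
    simp only [Finset.mem_range, Nat.lt_succ_iff]
    split_ifs
    · ring
    · simp
  rw [Finset.sum_congr rfl h6, Finset.sum_comm]
  apply Finset.sum_congr rfl
  intro j hj
  have hj' : j ≤ m := by simpa [Nat.lt_succ_iff] using hj
  have h7 : h.prs j j = h.prs m j := by
    ext p
    rw [h.mem_prs le_rfl, h.mem_prs hj']
  rw [← Finset.sum_filter, Setup.bco, Finset.sum_mul, h7]
  rfl

lemma Setup.lco_zero (h : Setup Q n σ Φ v) (χ : ClassGroup B →* ℂ) : h.lco χ 0 = 1 := by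
  have := h.toIsFrob.finite
  have h1 : (h.finite_inv 0).toFinset = {⊤} := by
    ext I
    simp only [Set.Finite.mem_toFinset, Set.mem_ofPred_eq, Finset.mem_singleton]
    constructor
    · rintro ⟨h2, -, h3⟩
      by_contra h4
      have := h.toIsCurveDeg.idg_pos h2 h4
      omega
    · rintro rfl
      exact ⟨top_ne_bot, by rw [← Ideal.one_eq_top, smul_one], idg_top⟩
  rw [Setup.lco, h1, Finset.sum_singleton, cl_top, map_one]

lemma Setup.lco_eventually (h : Setup Q n σ Φ v) (χ : ClassGroup B →* ℂ) (c0 : ClassGroup B)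
    (hc0 : clAct Φ c0 = c0) (hχ : χ c0 ≠ 1) : ∃ M, ∀ m, M ≤ m → h.lco χ m = 0 := by
  classical
  have := h.toIsFrob.finite
  have := h.toIsCurveDeg.finite_classGroup
  let H : Subgroup (ClassGroup B) := (clAct Φ).eqLocus (MonoidHom.id _)
  have := Fintype.ofFinite H
  choose m0 hm0 using fun c : H => h.card_invSet (c := c.1) c.2
  obtain ⟨M, hM⟩ := Finite.exists_le m0
  refine ⟨M, fun m hm => ?_⟩
  have hmem : ∀ I ∈ (h.finite_inv m).toFinset, cl I ∈ H := by
    intro I hI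
    simp only [Set.Finite.mem_toFinset, Set.mem_ofPred_eq] at hI
    change clAct Φ (cl I) = cl I
    rw [clAct_cl _ hI.1, hI.2.1]
  have h1 : h.lco χ m = ∑ c : H, ∑ I ∈ (h.finite_inv m).toFinset, if cl I = c.1 then χ c.1 else 0 := by
    rw [Finset.sum_comm, Setup.lco]
    apply Finset.sum_congr rfl
    intro I hI
    rw [Finset.sum_eq_single ⟨cl I, hmem I hI⟩]
    · simp
    · intro c _ hc
      rw [if_neg]
      intro h2
      exact hc (Subtype.ext h2.symm)
    · simp
  have h2 : ∀ c : H, (∑ I ∈ (h.finite_inv m).toFinset, if cl I = c.1 then χ c.1 else 0) =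
      (Nat.card {u : E // σ u = u} ^ (m - gap v ⊤) : ℕ) * χ c.1 := by
    intro c
    rw [← Finset.sum_filter, Finset.sum_const, nsmul_eq_mul, ← hm0 c m ((hM c).trans hm)]
    congr 2
    rw [Nat.card_coe_set_eq, ← Set.ncard_coe_finset]
    congr 1
    ext I
    simp [invSet, and_assoc]
  rw [h1, Finset.sum_congr rfl (fun c _ => h2 c), ← Finset.mul_sum]
  have h3 := sum_hom_units_eq_zero (χ.comp H.subtype) (fun h4 =>
    hχ (DFunLike.congr_fun h4 ⟨c0, hc0⟩))
  simp only [MonoidHom.comp_apply, Subgroup.coe_subtype] at h3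
  rw [h3, mul_zero]

lemma Setup.exists_prime (h : Setup Q n σ Φ v) : ∃ P : Ideal B, Prime P := by
  obtain ⟨c, hc⟩ := h.cof
  obtain ⟨x, -, hx⟩ := hc (c + 1) (by omega)
  have hx0 := ne_zero_of_v_eq hx
  have h1 := h.toIsCurveDeg.idg_span hx0
  rw [dgn_eq hx] at h1
  have h2 : ¬ IsUnit (Ideal.span {x}) := by
    intro h3
    rw [Ideal.isUnit_iff.1 h3, idg_top] at h1
    omega
  obtain ⟨P, hP, -⟩ := WfDvdMonoid.exists_irreducible_factor h2 (by simpa using hx0)
  exact ⟨P, hP.prime⟩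

/-- Every fixed class is a norm. -/
lemma Setup.fixed_is_norm (h : Setup Q n σ Φ v) (c : ClassGroup B) (hc : clAct Φ c = c) :
    c ∈ (clNrm Φ n).range := by
  have := h.toIsFrob.finite
  have := h.toIsCurveDeg.finite_classGroup
  by_contra hcon
  obtain ⟨χ, hχ1, hχ2⟩ := exists_char _ c hcon
  obtain ⟨M, hM⟩ := h.lco_eventually χ c hc hχ2
  obtain ⟨P0, hP0⟩ := h.exists_prime
  have hb : ∀ j, n ∣ j → h.bco χ j = ((∑ p ∈ h.prs j j, idg v p.1 : ℕ) : ℂ) := by
    intro j hj
    rw [Setup.bco]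
    push_cast
    apply Finset.sum_congr rfl
    intro p hp
    obtain ⟨hp1, -, hp3⟩ := (h.mem_prs le_rfl).1 hp
    have h1 : n / period Φ p.1 ∣ p.2 := by
      apply (h.coprime_idg hp1).symm.dvd_of_dvd_mul_right
      apply Nat.dvd_of_mul_dvd_mul_left (h.period_pos p.1)
      rw [Nat.mul_div_cancel' (period_dvd h.ord _), mul_left_comm, ← h.idg_orb hp1.ne_zero, hp3]
      exact hj
    obtain ⟨r, hr⟩ := h1
    have h2 : χ (cl (orb Φ p.1)) ^ (n / period Φ p.1) = 1 := by
      rw [← map_pow, ← cl_pow (orb_ne_bot hp1.ne_zero), ← nrmI_eq_orb h.ord,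
        ← clNrm_cl hp1.ne_zero]
      exact hχ1 _ ⟨_, rfl⟩
    rw [hr, pow_mul, h2, one_pow, mul_one]
  have hpos : 0 < idg v (orb Φ P0) := by
    rw [h.idg_orb hP0.ne_zero]
    exact Nat.mul_pos (h.period_pos P0) (h.idg_prime_pos hP0)
  refine newton_pos (h.lco χ) (h.bco χ) (h.lco_zero χ) ?_ (h.lco_rec χ) M hM
    (n * idg v (orb Φ P0)) (Nat.mul_pos h.pos hpos) ?_ ?_
  · rw [hb 0 (dvd_zero n)]
    have : h.prs 0 0 = ∅ := by simp [Setup.prs]
    simp [this]
  · intro j hj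
    exact ⟨(∑ p ∈ h.prs j j, idg v p.1 : ℕ), Nat.cast_nonneg _,
      by rw [hb j ((dvd_mul_right _ _).trans hj)]; simp⟩
  · rw [hb _ (dvd_mul_right _ _), Nat.cast_ne_zero]
    apply Nat.pos_iff_ne_zero.1
    exact Finset.sum_pos' (fun _ _ => Nat.zero_le _)
      ⟨(P0, n), (h.mem_prs le_rfl).2 ⟨hP0, h.pos, rfl⟩, h.idg_prime_pos hP0⟩

/-- An invariant ideal that is everywhere locally a norm is a norm. -/
lemma Setup.ideal_norm (h : Setup Q n σ Φ v) (m : ℕ) : ∀ Z : Ideal B, Z ≠ ⊥ → Φ • Z = Z →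
    idg v Z = m → (∀ P, Prime P → n / period Φ P ∣ multiplicity P Z) →
    ∃ I, I ≠ ⊥ ∧ nrmI Φ n I = Z := by
  have := h.toIsFrob.finite
  induction m using Nat.strong_induction_on with
  | _ m ih =>
    intro Z hZ hZi hZm hloc
    by_cases hu : IsUnit Z
    · refine ⟨⊤, top_ne_bot, ?_⟩
      rw [Ideal.isUnit_iff.1 hu, ← Ideal.one_eq_top]
      simp only [nrmI, smul_one, Finset.prod_const_one]
    · obtain ⟨P, hP, hPZ⟩ := WfDvdMonoid.exists_irreducible_factor hu hZ
      replace hP := hP.prime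
      have hfin := FiniteMultiplicity.of_prime_left hP hZ
      have h1 : P ^ (n / period Φ P) ∣ Z := by
        rw [hfin.pow_dvd_iff_le_multiplicity]
        exact Nat.le_of_dvd (multiplicity_pos_of_dvd hPZ) (hloc P hP)
      obtain ⟨Z', hZ'⟩ := orb_pow_dvd hP hZi h1
      rw [← nrmI_eq_orb h.ord] at hZ'
      have hN : nrmI Φ n P ≠ ⊥ := nrmI_ne_bot hP.ne_zero
      have hZ0 : Z' ≠ ⊥ := by
        rintro rfl
        exact hZ (by simpa using hZ')
      have h2 : idg v Z' < m := by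
        have h3 := h.toIsCurveDeg.idg_mul hN hZ0
        rw [← hZ', hZm] at h3
        have h4 : P ∣ nrmI Φ n P := by
          have := Finset.dvd_prod_of_mem (fun i => (Φ ^ i) • P) (Finset.mem_range.2 h.pos)
          simpa [nrmI] using this
        have h5 := h.idg_le_of_dvd hN h4
        have h6 := h.idg_prime_pos hP
        omega
      obtain ⟨I, hI, hI2⟩ := ih _ h2 Z' hZ0 (by
        apply mul_left_cancel₀ hN
        rw [← hZ']
        conv_rhs => rw [← hZi, hZ', smul_mul', smul_nrmI h.ord]) rfl (by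
        intro P' hP'
        have h7 := hloc P' hP'
        rw [hZ', multiplicity_mul hP' (FiniteMultiplicity.of_prime_left hP' (hZ' ▸ hZ))] at h7
        exact (Nat.dvd_add_right (dvd_mult_nrmI h.ord hP' hP)).1 h7)
      exact ⟨P * I, mul_ne_zero hP.ne_zero hI, by rw [nrmI_mul, hI2, hZ']⟩

/-- The norm theorem. -/
theorem Setup.hasse (h : Setup Q n σ Φ v) {z : B} (hz : z ≠ 0) (hzi : Φ z = z)
    (hloc : ∀ P : Ideal B, Prime P → n / period Φ P ∣ multiplicity P (Ideal.span {z})) :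
    ∃ y1 y2 : B, y1 ≠ 0 ∧ y2 ≠ 0 ∧ z * nrm Φ n y2 = nrm Φ n y1 := by
  have := h.toIsFrob.finite
  have := h.toIsCurveDeg.finite_classGroup
  obtain ⟨I, hI, hIz⟩ := h.ideal_norm _ (Ideal.span {z}) (by simpa using hz)
    (by rw [smul_span, hzi]) rfl hloc
  have hN1 : ∀ x, clNrm Φ n (clAct Φ x) = clNrm Φ n x := by
    intro x
    obtain ⟨J, hJ, rfl⟩ := cl_surj x
    rw [clAct_cl _ hJ, clNrm_cl (smul_ne_bot _ hJ), clNrm_cl hJ, nrmI_smul h.ord]
  have hN2 : ∀ x, clAct Φ (clNrm Φ n x) = clNrm Φ n x := by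
    intro x
    obtain ⟨J, hJ, rfl⟩ := cl_surj x
    rw [clNrm_cl hJ, clAct_cl _ (nrmI_ne_bot hJ), smul_nrmI h.ord]
  obtain ⟨c, hc⟩ := herbrand (clAct Φ / MonoidHom.id _) (clNrm Φ n)
    (fun x => by simp [hN1]) (fun x => by simp [hN2])
    (fun x hx => h.fixed_is_norm x (by simpa [div_eq_one] using hx)) (cl I)
    (by rw [clNrm_cl hI, hIz, cl_span hz])
  obtain ⟨J, hJ, rfl⟩ := cl_surj c
  have h1 : cl (I * J) = cl (Φ • J) := by
    rw [cl_mul hI hJ, ← hc, ← clAct_cl _ hJ]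
    simp
  obtain ⟨x, y, hx, hy, hxy⟩ := (cl_eq_iff (mul_ne_zero hI hJ) (smul_ne_bot _ hJ)).1 h1
  have h2 := congrArg (nrmI Φ n) hxy
  rw [nrmI_mul, nrmI_mul, nrmI_mul, nrmI_smul h.ord, nrmI_span, nrmI_span, hIz, ← mul_assoc,
    Ideal.span_singleton_mul_span_singleton] at h2
  have h3 := mul_right_cancel₀ (nrmI_ne_bot hJ) h2
  obtain ⟨θ, hθ, hθ2⟩ := h.norm_const (nrm_ne_zero hy) (nrm_fixed h.ord y)
    (by rw [map_mul, nrm_fixed h.ord, hzi]) h3.symm
  refine ⟨algebraMap E B θ * y, x, mul_ne_zero (by simpa using hθ) hy, hx, ?_⟩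
  rw [nrm_mul, ← hθ2, mul_comm]

end

end Pool.Agent.Lib.MP_145fc7_co
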