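import Pool.Agent.Lib.MP_145fc7_co.Cab
import Pool.Agent.Lib.MP_145fc7_co.Hasse

/-! The ring of functions regular away from infinity is a Dedekind domain. -/

set_option autoImplicit false

namespace Pool.Agent.Lib.MP_145fc7_co

open Polynomial WithZero

variable {E : Type} [Field E] {K : Type} [Field K] [Algebra E K] {ρ N : ℕ} {F : E[X][X]}
  {σ : E ≃+* E} {π : E[X][X] →ₐ[E] K} {v : Valuation K ZZ} {Φ : K ≃+* K}

section

variable [Algebra E[X] K] (halg : ∀ g, algebraMap E[X] K g = π (C g))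

include halg

lemma pi_eq_aeval (g : E[X][X]) : π g = aeval (π X) g := by
  induction g using Polynomial.induction_on' with
  | add p q hp hq => rw [map_add, map_add, hp, hq]
  | monomial b a => rw [aeval_monomial, halg, ← C_mul_X_pow_eq_monomial, map_mul, map_pow]

lemma CurveData.pi_mem (h : CurveData ρ N F σ π v Φ) (g : E[X][X]) :
    π g ∈ integralClosure E[X] K := by
  obtain ⟨F1, hm, hF1⟩ := h.integral
  have hs : IsIntegral E[X] (π X) := ⟨F1, hm, by rw [← aeval_def, ← pi_eq_aeval halg, hF1]⟩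
  rw [pi_eq_aeval halg]
  exact adjoin_le_integralClosure hs (aeval_mem_adjoin_singleton _ _)

lemma CurveData.common_den (h : CurveData ρ N F σ π v Φ) (M : Submodule E[X] K) (hM : M.FG) :
    ∃ d, π d ≠ 0 ∧ ∀ x ∈ M, ∃ g, x * π d = π g := by
  induction M, hM using Submodule.fg_induction with
  | singleton x =>
    obtain ⟨g, d, hd, hx⟩ := h.frac x
    refine ⟨d, hd, fun y hy => ?_⟩
    obtain ⟨a, rfl⟩ := Submodule.mem_span_singleton.1 hy
    exact ⟨C a * g, by rw [Algebra.smul_def, halg, map_mul, ← hx, mul_assoc]⟩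
  | sup M1 M2 _ _ ih1 ih2 =>
    obtain ⟨d1, hd1, h1⟩ := ih1
    obtain ⟨d2, hd2, h2⟩ := ih2
    refine ⟨d1 * d2, by rw [map_mul]; exact mul_ne_zero hd1 hd2, fun y hy => ?_⟩
    obtain ⟨a, ha, b, hb, rfl⟩ := Submodule.mem_sup.1 hy
    obtain ⟨g1, hg1⟩ := h1 a ha
    obtain ⟨g2, hg2⟩ := h2 b hb
    exact ⟨g1 * d2 + g2 * d1, by
      rw [map_add, map_mul, map_mul, map_mul, ← hg1, ← hg2]; ring⟩

lemma CurveData.ge_int (h : CurveData ρ N F σ π v Φ) {x : K} (hx : x ∈ integralClosure E[X] K)
    (hx0 : x ≠ 0) : 1 ≤ v x := by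
  obtain ⟨d, hd, hd2⟩ := h.common_den halg _ (IsIntegral.fg_adjoin_singleton hx)
  have h1 : ∀ m : ℕ, 0 ≤ (m : ℤ) * log (v x) + log (v (π d)) := by
    intro m
    obtain ⟨g, hg⟩ := hd2 (x ^ m) (Subalgebra.pow_mem _ (Algebra.self_mem_adjoin_singleton _ x) m)
    have h2 := h.ge g (hg ▸ mul_ne_zero (pow_ne_zero m hx0) hd)
    have h3 : v x ≠ 0 := v.ne_zero_iff.2 hx0
    have h4 : v (π d) ≠ 0 := v.ne_zero_iff.2 hd
    rw [← hg, map_mul, map_pow, ← exp_log h3, ← exp_log h4, ← exp_nsmul, ← exp_add, ← exp_zero,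
      exp_le_exp] at h2
    simpa using h2
  rw [← exp_zero, ← le_log_iff_exp_le (v.ne_zero_iff.2 hx0)]
  by_contra h5
  have h6 := h1 ((log (v (π d))).toNat + 1)
  have h7 : log (v (π d)) ≤ ((log (v (π d))).toNat : ℤ) := Int.self_le_toNat _
  push_cast at h6
  nlinarith

lemma CurveData.fg_int (h : CurveData ρ N F σ π v Φ) (hρ : 0 < ρ) (hc : Nat.Coprime N ρ) :
    (Subalgebra.toSubmodule (integralClosure E[X] K)).FG := by
  classical
  have hv := h.isDeg hc
  have hex : ∀ r : ℕ, ∃ b ∈ integralClosure E[X] K, ∀ x ∈ integralClosure E[X] K, ∀ d : ℕ,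
      v x = exp (d : ℤ) → d % ρ = r → ∃ m d' : ℕ, v b = exp (d' : ℤ) ∧ d = d' + ρ * m := by
    intro r
    by_cases h1 : ∃ d : ℕ, d % ρ = r ∧ ∃ x ∈ integralClosure E[X] K, v x = exp (d : ℤ)
    · obtain ⟨h2, b, hb, hb2⟩ := Nat.find_spec h1
      refine ⟨b, hb, fun x hx d hd hr => ?_⟩
      have h3 := Nat.find_min' h1 ⟨hr, x, hx, hd⟩
      obtain ⟨m, hm⟩ := (Nat.modEq_iff_dvd' h3).1 (h2.trans hr.symm)
      exact ⟨m, _, hb2, by omega⟩
    · exact ⟨0, Subalgebra.zero_mem _, fun x hx d hd hr => absurd ⟨d, hr, x, hx, hd⟩ h1⟩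
  choose b hb hb2 using hex
  refine ⟨(Finset.range ρ).image b, le_antisymm ?_ ?_⟩
  · rw [Submodule.span_le]
    intro x hx
    simp only [Finset.coe_image, Set.mem_image] at hx
    obtain ⟨r, -, rfl⟩ := hx
    exact hb r
  · have key : ∀ d : ℕ, ∀ x ∈ integralClosure E[X] K, v x < exp (d : ℤ) →
        x ∈ Submodule.span E[X] (((Finset.range ρ).image b : Finset K) : Set K) := by
      intro d
      induction d with
      | zero =>
        intro x hx hxd
        by_cases h0 : x = 0
        · rw [h0]; exact Submodule.zero_mem _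
        · exact absurd (h.ge_int halg hx h0) (by simpa using hxd)
      | succ d ih =>
        intro x hx hxd
        rw [Nat.cast_succ, lt_exp_succ_iff] at hxd
        rcases hxd.lt_or_eq with h1 | h1
        · exact ih x hx h1
        · obtain ⟨m, d', h2, h3⟩ := hb2 _ x hx d h1 rfl
          have h4 : v (π (C X) ^ m * b (d % ρ)) = exp (d : ℤ) := by
            rw [map_mul, map_pow, h.vt, h2, ← exp_nsmul, ← exp_add]
            congr 1
            rw [h3]; push_cast; simp; ring
          obtain ⟨c, hc2⟩ := hv.res x _ (ne_zero_of_v_eq h4) (h1.trans h4.symm)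
          have h5 : algebraMap E K c * (π (C X) ^ m * b (d % ρ)) =
              (monomial m c : E[X]) • b (d % ρ) := by
            rw [Algebra.smul_def, halg, pi_C π (monomial m c), aeval_monomial, mul_assoc]
          rw [h4, h5] at hc2
          have h6 := ih _ (Subalgebra.sub_mem _ hx (Subalgebra.smul_mem _ (hb _) _)) hc2
          have h7 : (monomial m c : E[X]) • b (d % ρ) ∈
              Submodule.span E[X] (((Finset.range ρ).image b : Finset K) : Set K) := by
            apply Submodule.smul_mem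
            apply Submodule.subset_span
            simp only [Finset.coe_image, Set.mem_image]
            exact ⟨d % ρ, by simpa using Nat.mod_lt d hρ, rfl⟩
          simpa using Submodule.add_mem _ h6 h7
    intro x hx
    by_cases h0 : x = 0
    · rw [h0]; exact Submodule.zero_mem _
    · refine key ((log (v x)).toNat + 1) x hx ?_
      rw [← log_lt_iff_lt_exp (v.ne_zero_iff.2 h0)]
      have := Int.self_le_toNat (log (v x))
      omega

lemma CurveData.phi_int (h : CurveData ρ N F σ π v Φ) {x : K} (hx : x ∈ integralClosure E[X] K) :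
    Φ x ∈ integralClosure E[X] K := by
  refine IsIntegral.map_of_comp_eq (mapRingHom (σ : E →+* E)) (Φ : K →+* K) ?_ hx
  apply RingHom.ext
  intro g
  simp only [RingHom.comp_apply, halg, RingHom.coe_coe, h.phi]
  congr 1
  simp [mapc, mapEquiv]

end

theorem CurveData.exists_ded (h : CurveData ρ N F σ π v Φ) (hρ : 0 < ρ) (hc : Nat.Coprime N ρ)
    {Q n : ℕ} (hσ : IsFrob Q n σ) :
    ∃ (B : Type) (_ : CommRing B) (_ : IsDedekindDomain B) (_ : Algebra E B) (_ : Algebra B K)
      (_ : IsScalarTower E B K) (_ : IsFractionRing B K) (ΦB : B ≃+* B),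
      Setup Q n σ ΦB (v.comap (algebraMap B K)) ∧
      (∀ x, algebraMap B K (ΦB x) = Φ (algebraMap B K x)) ∧
      (∀ g, ∃ x, algebraMap B K x = π g) ∧
      ∃ d, π d ≠ 0 ∧ ∀ x : B, ∃ g, algebraMap B K x * π d = π g := by
  let _ : Algebra E[X] K := (π.toRingHom.comp C).toAlgebra
  have halg : ∀ g, algebraMap E[X] K g = π (C g) := fun g => rfl
  have : IsScalarTower E E[X] K := IsScalarTower.of_algebraMap_eq (fun c => by
    rw [halg, ← π.commutes]; rfl)
  have hsemi := h.isSemi hσ
  have hv := h.isDeg hc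
  have hfin : Module.Finite E[X] (integralClosure E[X] K) :=
    Module.Finite.iff_fg.2 (h.fg_int halg hρ hc)
  have hfrac : IsFractionRing (integralClosure E[X] K) K := by
    apply IsFractionRing.of_field
    intro z
    obtain ⟨g, d, hd, hz⟩ := h.frac z
    exact ⟨⟨_, h.pi_mem halg g⟩, ⟨_, h.pi_mem halg d⟩, (eq_div_iff hd).2 hz⟩
  have hded : IsDedekindDomain (integralClosure E[X] K) := by
    rw [isDedekindDomain_iff _ K]
    exact ⟨inferInstance, IsNoetherianRing.of_finite E[X] _, inferInstance,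
      fun hx => IsIntegrallyClosedIn.algebraMap_eq_of_integral hx⟩
  have hpow : ∀ i : ℕ, ∀ x ∈ integralClosure E[X] K, (Φ ^ i) x ∈ integralClosure E[X] K := by
    intro i
    induction i with
    | zero => intro x hx; exact hx
    | succ i ih => intro x hx; rw [pow_succ_app]; exact h.phi_int halg (ih x hx)
  let ΦB : integralClosure E[X] K ≃+* integralClosure E[X] K :=
    { toFun := fun x => ⟨Φ x, h.phi_int halg x.2⟩
      invFun := fun x => ⟨(Φ ^ (n - 1)) x, hpow _ _ x.2⟩
      left_inv := fun x => Subtype.ext (by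
        change (Φ ^ (n - 1)) (Φ x) = x
        rw [← pow_succ_app', Nat.sub_add_cancel hσ.pos, hsemi.ord]; rfl)
      right_inv := fun x => Subtype.ext (by
        change Φ ((Φ ^ (n - 1)) x) = x
        rw [← pow_succ_app, Nat.sub_add_cancel hσ.pos, hsemi.ord]; rfl)
      map_mul' := fun x y => Subtype.ext (map_mul Φ _ _)
      map_add' := fun x y => Subtype.ext (map_add Φ _ _) }
  have hΦB : ∀ i : ℕ, ∀ x : integralClosure E[X] K, ((ΦB ^ i) x : K) = (Φ ^ i) x := by
    intro i x
    induction i with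
    | zero => rfl
    | succ i ih => rw [pow_succ_app, pow_succ_app, ← ih]; rfl
  obtain ⟨d, hd, hd2⟩ := h.common_den halg _ (h.fg_int halg hρ hc)
  refine ⟨integralClosure E[X] K, inferInstance, hded, inferInstance, inferInstance,
    inferInstance, hfrac, ΦB, ?_, fun x => rfl, fun g => ⟨⟨_, h.pi_mem halg g⟩, rfl⟩,
    d, hd, fun x => hd2 x x.2⟩
  refine { hσ with
    semi_alg := fun c => Subtype.ext (hsemi.semi_alg c)
    ord := ?_
    ne := fun x hx => v.ne_zero_iff.2 (fun h0 => hx (Subtype.ext h0))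
    alg := fun c hc0 => hv.alg c hc0
    res := fun x y hy hxy => hv.res x y (fun h0 => hy (Subtype.ext h0)) hxy
    ge := fun x hx => h.ge_int halg x.2 (fun h0 => hx (Subtype.ext h0))
    cof := ⟨ρ.pred * N.pred, fun m hm => ?_⟩
    vinv := fun x => h.vinv x }
  · ext x
    rw [hΦB, hsemi.ord]
    rfl
  · obtain ⟨a, b, hab⟩ := Nat.exists_add_mul_eq_of_gcd_dvd_of_mul_pred_le ρ N m
      (by rw [hc.symm.gcd_eq_one]; exact one_dvd _) hm
    refine ⟨⟨_, h.pi_mem halg (mono a b 1)⟩, trivial, ?_⟩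
    change v (π (mono a b 1)) = _
    rw [h.v_mono a b one_ne_zero, ← hab, mul_comm a, mul_comm b]

end Pool.Agent.Lib.MP_145fc7_co
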