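import Mathlib

/-! A Hilbert-Samuel type lower bound at a multiple point. -/

set_option autoImplicit false

namespace Pool.Agent.Lib.MP_145fc7_co

open Polynomial Finset

variable {E : Type} [Field E]

/-- Polynomials in two variables without terms of total degree less than `ν`. -/
def vanI (E : Type) [Field E] (ν : ℕ) : AddSubgroup E[X][X] where
  carrier := {g | ∀ a b, a + b < ν → (g.coeff b).coeff a = 0}
  zero_mem' := by simp
  add_mem' := fun {f g} hf hg a b h => by simp [hf a b h, hg a b h]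
  neg_mem' := fun {f} hf a b h => by simp [hf a b h]

theorem vanI_mul {i j : ℕ} {f g : E[X][X]} (hf : f ∈ vanI E i) (hg : g ∈ vanI E j) :
    f * g ∈ vanI E (i + j) := by
  intro a b h
  rw [coeff_mul, finsetSum_coeff]
  refine Finset.sum_eq_zero fun p hp => ?_
  rw [coeff_mul]
  refine Finset.sum_eq_zero fun q hq => ?_
  rw [HasAntidiagonal.mem_antidiagonal] at hp hq
  by_cases h1 : q.1 + p.1 < i
  · rw [hf _ _ h1, zero_mul]
  · rw [hg _ _ (by omega), mul_zero]

/-- The shift of both variables by one. -/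
noncomputable def shift1 (E : Type) [Field E] : E[X][X] →+* E[X][X] :=
  eval₂RingHom ((C : E[X] →+* E[X][X]).comp (compRingHom (X + 1))) (X + 1)

theorem shift1_C (c : E) : shift1 E (C (C c)) = C (C c) := by simp [shift1]

theorem shift1_t : shift1 E (C X - 1) = C X := by simp [shift1]

theorem shift1_s : shift1 E (X - 1) = X := by simp [shift1]

theorem shift1_mem {ν : ℕ} {g : E[X][X]}
    (hg : g ∈ (Ideal.span {(C X - 1 : E[X][X]), (X - 1 : E[X][X])}) ^ ν) :
    shift1 E g ∈ vanI E ν := by
  induction ν generalizing g with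
  | zero => intro a b h; omega
  | succ ν ih =>
    rw [Submodule.pow_succ] at hg
    refine Submodule.mul_induction_on hg (fun x hx y hy => ?_) (fun x y hx hy => ?_)
    · rw [map_mul]
      refine vanI_mul (ih hx) ?_
      obtain ⟨p, q, rfl⟩ := Ideal.mem_span_pair.mp hy
      rw [map_add, map_mul, map_mul, shift1_t, shift1_s]
      have h0 : ∀ f : E[X][X], f ∈ vanI E 0 := fun f a b h => by omega
      refine (vanI E 1).add_mem (vanI_mul (i := 0) (j := 1) (h0 _) ?_)
        (vanI_mul (i := 0) (j := 1) (h0 _) ?_)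
      · intro a b h
        obtain ⟨rfl, rfl⟩ : a = 0 ∧ b = 0 := by omega
        simp
      · intro a b h
        obtain ⟨rfl, rfl⟩ : a = 0 ∧ b = 0 := by omega
        simp
    · rw [map_add]
      exact (vanI E _).add_mem hx hy

/-- The exponents of total degree less than `ν`. -/
def lowS (ν : ℕ) : Finset (ℕ × ℕ) := (range ν ×ˢ range ν).filter (fun p => p.1 + p.2 < ν)

theorem mem_lowS {ν : ℕ} {p : ℕ × ℕ} : p ∈ lowS ν ↔ p.1 + p.2 < ν := by
  simp only [lowS, mem_filter, mem_product, mem_range]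
  omega

theorem card_lowS (ν k : ℕ) : (lowS ν).card + k * ν ≤ (lowS (ν + k)).card := by
  have h1 : ((range k ×ˢ range ν).image (fun p => (p.2, ν - p.2 + p.1))).card = k * ν := by
    rw [Finset.card_image_of_injOn, card_product, card_range, card_range]
    intro p hp q hq h
    simp only [coe_product, coe_range, Set.mem_prod, Set.mem_Iio, Prod.mk.injEq] at hp hq h
    ext <;> omega
  rw [← h1, ← Finset.card_union_of_disjoint]
  · apply Finset.card_le_card
    intro p hp
    rw [mem_union] at hp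
    rw [mem_lowS]
    rcases hp with hp | hp
    · rw [mem_lowS] at hp; omega
    · obtain ⟨q, hq, rfl⟩ := mem_image.mp hp
      simp only [mem_product, mem_range] at hq ⊢
      omega
  · rw [Finset.disjoint_left]
    intro p hp hp'
    obtain ⟨q, hq, rfl⟩ := mem_image.mp hp'
    rw [mem_lowS] at hp
    simp only [mem_product, mem_range] at hq hp
    omega

/-- The low order Taylor coefficients at `(1, 1)`. -/
noncomputable def jetc (ν : ℕ) (g : E[X][X]) : lowS ν → E :=
  fun p => ((shift1 E g).coeff p.1.2).coeff p.1.1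

/-- A polynomial with prescribed low order Taylor coefficients. -/
noncomputable def jetl (ν : ℕ) (f : lowS ν → E) : E[X][X] :=
  ∑ p : lowS ν, C (C (f p)) * (C X - 1) ^ p.1.1 * (X - 1) ^ p.1.2

theorem jetc_jetl (ν : ℕ) (f : lowS ν → E) : jetc ν (jetl ν f) = f := by
  funext p
  simp only [jetc, jetl, map_sum, map_mul, map_pow, shift1_C, shift1_t, shift1_s, finsetSum_coeff]
  rw [Finset.sum_eq_single p]
  · rw [← C_pow, ← C_mul, coeff_C_mul, coeff_X_pow, if_pos rfl, mul_one, coeff_C_mul, coeff_X_pow,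
      if_pos rfl, mul_one]
  · intro q _ hq
    rw [← C_pow, ← C_mul, coeff_C_mul, coeff_X_pow]
    split_ifs with h
    · rw [mul_one, coeff_C_mul, coeff_X_pow, if_neg, mul_zero]
      intro h'
      exact hq (Subtype.ext (Prod.ext h'.symm h.symm))
    · simp
  · simp

theorem jetc_add (ν : ℕ) (f g : E[X][X]) : jetc ν (f + g) = jetc ν f + jetc ν g := by
  funext p
  simp [jetc]

theorem jetc_sub (ν : ℕ) (f g : E[X][X]) : jetc ν (f - g) = jetc ν f - jetc ν g := by
  funext p
  simp [jetc]

theorem jetc_eq_zero {ν : ℕ} {g : E[X][X]} : jetc ν g = 0 ↔ shift1 E g ∈ vanI E ν := by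
  constructor
  · intro h a b hab
    exact congrFun h ⟨(a, b), mem_lowS.mpr hab⟩
  · intro h
    funext p
    exact h _ _ (mem_lowS.mp p.2)

theorem hs_bound [Finite E] {k ν : ℕ} {F : E[X][X]}
    (hF : F ∈ (Ideal.span {(C X - 1 : E[X][X]), (X - 1 : E[X][X])}) ^ k)
    {Γ : Type} [Finite Γ] (γ : Γ → E[X][X])
    (h : ∀ g, ∃ x : Γ, ∃ q, g - γ x - F * q ∈
      (Ideal.span {(C X - 1 : E[X][X]), (X - 1 : E[X][X])}) ^ (ν + k)) :
    Nat.card E ^ (k * ν) ≤ Nat.card Γ := by
  let φ : Γ × (lowS ν → E) → (lowS (ν + k) → E) :=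
    fun z => jetc (ν + k) (γ z.1) + jetc (ν + k) (F * jetl ν z.2)
  have hφ : Function.Surjective φ := by
    intro f
    obtain ⟨x, q, hq⟩ := h (jetl (ν + k) f)
    refine ⟨(x, jetc ν q), ?_⟩
    have h1 := jetc_eq_zero.mpr (shift1_mem hq)
    have h2 : jetc (ν + k) (F * (q - jetl ν (jetc ν q))) = 0 := by
      rw [jetc_eq_zero, map_mul, add_comm]
      refine vanI_mul (shift1_mem hF) (jetc_eq_zero.mp ?_)
      rw [jetc_sub, jetc_jetl, sub_self]
    rw [jetc_sub, jetc_sub, jetc_jetl] at h1
    rw [mul_sub, jetc_sub] at h2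
    simp only [φ]
    linear_combination -h1 - h2
  have h1 := Nat.card_le_card_of_surjective φ hφ
  rw [Nat.card_prod, Nat.card_fun, Nat.card_fun, Nat.card_eq_finsetCard,
    Nat.card_eq_finsetCard] at h1
  have h2 : Nat.card E ^ ((lowS ν).card + k * ν) ≤ Nat.card E ^ (lowS (ν + k)).card :=
    Nat.pow_le_pow_right Nat.card_pos (card_lowS ν k)
  rw [pow_add, mul_comm] at h2
  exact Nat.le_of_mul_le_mul_right (h2.trans h1) (pow_pos Nat.card_pos _)

end Pool.Agent.Lib.MP_145fc7_co
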