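import Pool.Agent.Lib.MP_145fc7_co.Descent
import Pool.Agent.Lib.MP_145fc7_co.DrinA

/-! Twisted multiplication operators acting on a lattice of a function field. -/

set_option autoImplicit false

namespace Pool.Agent.Lib.MP_145fc7_co

open Polynomial WithZero Finset

/-- A commuting family of semilinear operators. -/
structure Ops {E K : Type} [Field E] [Field K] [Algebra E K] (σ : E ≃+* E) (v : Valuation K ZZ)
    (t s : K) (α β e n : ℕ) (Z : ℕ → ℕ → K →+ K) : Prop where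
  smul : ∀ i j (c : E) x, Z i j (c • x) = (σ ^ (α * i + β * j)) c • Z i j x
  comp : ∀ i j i' j' x, Z i j (Z i' j' x) = Z (i + i') (j + j') x
  zero : ∀ x, Z 0 0 x = x
  val : ∀ i j x, v (Z i j x) = exp ((i : ℤ) + e * j) * v x
  mt : ∀ i j x, Z i j (t * x) = t * Z i j x
  ms : ∀ i j x, Z i j (s * x) = s * Z i j x
  cong : ∀ i j i' j', α * i + β * j ≡ α * i' + β * j' [MOD n] →
    ∃ A B : ℤ, ∀ x, Z i' j' x = t ^ A * s ^ B * Z i j x

/-- A submodule stable under `t`, `s` and the operators. -/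
structure Stab {E K : Type} [Field E] [Field K] [Algebra E K] (t s : K) (Z : ℕ → ℕ → K →+ K)
    (M : Submodule E K) : Prop where
  mt : ∀ x ∈ M, t * x ∈ M
  ms : ∀ x ∈ M, s * x ∈ M
  op : ∀ i j, ∀ x ∈ M, Z i j x ∈ M

/-- The next term of the filtration. -/
def nextM {E K : Type} [Field E] [Field K] [Algebra E K] (t s : K) (M : Submodule E K) :
    Submodule E K where
  carrier := {z | ∃ x ∈ M, ∃ y ∈ M, z = (t - 1) * x + (s - 1) * y}
  zero_mem' := ⟨0, M.zero_mem, 0, M.zero_mem, by simp⟩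
  add_mem' := by
    rintro _ _ ⟨x, hx, y, hy, rfl⟩ ⟨x', hx', y', hy', rfl⟩
    exact ⟨x + x', M.add_mem hx hx', y + y', M.add_mem hy hy', by ring⟩
  smul_mem' := by
    rintro c _ ⟨x, hx, y, hy, rfl⟩
    exact ⟨c • x, M.smul_mem c hx, c • y, M.smul_mem c hy, by
      simp only [Algebra.smul_def]; ring⟩

section

variable {E K : Type} [Field E] [Field K] [Algebra E K] {Q n : ℕ} {σ : E ≃+* E}
  {v : Valuation K ZZ} {t s : K} {α β e : ℕ} {Z : ℕ → ℕ → K →+ K} {M : Submodule E K}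

theorem Stab.next_le (hM : Stab t s Z M) : nextM t s M ≤ M := by
  rintro _ ⟨x, hx, y, hy, rfl⟩
  rw [sub_mul, sub_mul, one_mul, one_mul]
  exact M.add_mem (M.sub_mem (hM.mt x hx) hx) (M.sub_mem (hM.ms y hy) hy)

theorem Stab.next (hZ : Ops σ v t s α β e n Z) (hM : Stab t s Z M) :
    Stab t s Z (nextM t s M) := by
  refine ⟨?_, ?_, ?_⟩
  · rintro _ ⟨x, hx, y, hy, rfl⟩
    exact ⟨t * x, hM.mt x hx, t * y, hM.mt y hy, by ring⟩
  · rintro _ ⟨x, hx, y, hy, rfl⟩
    exact ⟨s * x, hM.ms x hx, s * y, hM.ms y hy, by ring⟩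
  · rintro i j _ ⟨x, hx, y, hy, rfl⟩
    refine ⟨Z i j x, hM.op i j x hx, Z i j y, hM.op i j y hy, ?_⟩
    simp only [sub_mul, one_mul, map_add, map_sub, hZ.mt, hZ.ms]

theorem Stab.pow_mem (hM : Stab t s Z M) (a b : ℕ) {x : K} (hx : x ∈ M) :
    t ^ a * s ^ b * x ∈ M ∧ t ^ a * s ^ b * x - x ∈ nextM t s M := by
  induction a with
  | zero =>
    induction b with
    | zero => simpa using hx
    | succ b ih =>
      have e1 : t ^ 0 * s ^ (b + 1) * x = s * (t ^ 0 * s ^ b * x) := by ring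
      refine ⟨e1 ▸ hM.ms _ ih.1, ?_⟩
      have e2 : t ^ 0 * s ^ (b + 1) * x - x =
          ((t - 1) * 0 + (s - 1) * (t ^ 0 * s ^ b * x)) + (t ^ 0 * s ^ b * x - x) := by ring
      rw [e2]
      exact (nextM t s M).add_mem ⟨0, M.zero_mem, _, ih.1, rfl⟩ ih.2
  | succ a ih =>
    have e1 : t ^ (a + 1) * s ^ b * x = t * (t ^ a * s ^ b * x) := by ring
    refine ⟨e1 ▸ hM.mt _ ih.1, ?_⟩
    have e2 : t ^ (a + 1) * s ^ b * x - x =
        ((t - 1) * (t ^ a * s ^ b * x) + (s - 1) * 0) + (t ^ a * s ^ b * x - x) := by ring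
    rw [e2]
    exact (nextM t s M).add_mem ⟨_, ih.1, 0, M.zero_mem, rfl⟩ ih.2

theorem Stab.zpow_sub (hM : Stab t s Z M) (ht0 : t ≠ 0) (hs0 : s ≠ 0) (A B : ℤ) {x y : K}
    (hx : x ∈ M) (hy : y ∈ M) (h : y = t ^ A * s ^ B * x) : y - x ∈ nextM t s M := by
  have h1 := (hM.pow_mem A.toNat B.toNat hx).2
  have h2 := (hM.pow_mem (-A).toNat (-B).toNat hy).2
  have e1 : t ^ (-A).toNat * t ^ A = t ^ A.toNat := by
    rw [← zpow_natCast, ← zpow_natCast, ← zpow_add₀ ht0]
    congr 1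
    omega
  have e2 : s ^ (-B).toNat * s ^ B = s ^ B.toNat := by
    rw [← zpow_natCast, ← zpow_natCast, ← zpow_add₀ hs0]
    congr 1
    omega
  have e3 : t ^ (-A).toNat * s ^ (-B).toNat * y = t ^ A.toNat * s ^ B.toNat * x := by
    rw [h, ← e1, ← e2]; ring
  rw [e3] at h2
  have := (nextM t s M).sub_mem h1 h2
  rwa [sub_sub_sub_cancel_left] at this

theorem Stab.cong (hZ : Ops σ v t s α β e n Z) (hM : Stab t s Z M) (ht0 : t ≠ 0) (hs0 : s ≠ 0)
    {i j i' j' : ℕ} (h : α * i + β * j ≡ α * i' + β * j' [MOD n]) {x : K} (hx : x ∈ M) :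
    Z i' j' x - Z i j x ∈ nextM t s M := by
  obtain ⟨A, B, hAB⟩ := hZ.cong i j i' j' h
  exact hM.zpow_sub ht0 hs0 A B (hM.op _ _ _ hx) (hM.op _ _ _ hx) (hAB x)

theorem span_min (hv : IsDeg E v) (hZ : Ops σ v t s α β e n Z) (hM : Stab t s Z M) {ψ : K}
    (hψ : ψ ∈ M) {d : ℤ} (hd : v ψ = exp d) (hmin : ∀ x ∈ M, x ≠ 0 → exp d ≤ v x) (N : ℕ) :
    ∀ x ∈ M, v x < exp (d + N) → ∃ c : ℕ → E, x = ∑ i ∈ range N, c i • Z i 0 ψ := by
  induction N with
  | zero =>
    intro x hx h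
    refine ⟨0, ?_⟩
    by_contra h0
    have := hmin x hx (by simpa using h0)
    simp only [Nat.cast_zero, add_zero] at h
    exact absurd h (not_lt.mpr this)
  | succ N ih =>
    intro x hx h
    rw [Nat.cast_succ, ← add_assoc, lt_exp_succ_iff] at h
    have hz : v (Z N 0 ψ) = exp (d + N) := by
      rw [hZ.val, hd, ← exp_add]; congr 1; simp; ring
    obtain ⟨a, ha⟩ : ∃ a : E, v (x - a • Z N 0 ψ) < exp (d + N) := by
      rcases h.lt_or_eq with h | h
      · exact ⟨0, by simpa using h⟩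
      · obtain ⟨a, ha⟩ := hv.res x (Z N 0 ψ) (ne_zero_of_v_eq' hz) (h.trans hz.symm)
        exact ⟨a, by rwa [Algebra.smul_def, ← hz]⟩
    obtain ⟨c, hc⟩ := ih _ (M.sub_mem hx (M.smul_mem a (hM.op _ _ _ hψ))) ha
    refine ⟨fun i => if i = N then a else c i, ?_⟩
    rw [Finset.sum_range_succ, Finset.sum_congr rfl (g := fun i => c i • Z i 0 ψ), ← hc]
    · simp
    · intro i hi
      simp only [if_neg (Finset.mem_range.mp hi).ne]
where
  ne_zero_of_v_eq' {x : K} {d : ℤ} (h : v x = exp d) : x ≠ 0 := by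
    rintro rfl
    rw [map_zero] at h
    exact exp_ne_zero h.symm

theorem comb_val (hv : IsDeg E v) (hZ : Ops σ v t s α β e n Z) {ψ : K} {d : ℤ}
    (hd : v ψ = exp d) (c : ℕ → E) (N : ℕ) :
    v (∑ i ∈ range N, c i • Z i 0 ψ) < exp (d + N) ∧
      (∑ i ∈ range N, c i • Z i 0 ψ = 0 → ∀ i < N, c i = 0) := by
  induction N with
  | zero => simp
  | succ N ih =>
    have hz : v (Z N 0 ψ) = exp (d + N) := by
      rw [hZ.val, hd, ← exp_add]; congr 1; simp; ring
    rw [Finset.sum_range_succ]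
    constructor
    · apply v.map_add_lt
      · exact ih.1.trans (exp_lt_exp.mpr (by push_cast; omega))
      · rw [Algebra.smul_def]
        exact (hv.alg_mul_le _ _).trans_lt (by rw [hz]; exact exp_lt_exp.mpr (by push_cast; omega))
    · intro h0
      have hN : c N = 0 := by
        by_contra hc
        have h1 := ih.1
        rw [eq_neg_of_add_eq_zero_left h0, v.map_neg, Algebra.smul_def, hv.alg_mul hc, hz] at h1
        exact lt_irrefl _ h1
      rw [hN, zero_smul, add_zero] at h0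
      intro i hi
      rcases Nat.lt_succ_iff_lt_or_eq.mp hi with h | rfl
      · exact ih.2 h0 i h
      · exact hN

theorem small_sol (h : IsFrob Q n σ) (α β e k : ℕ) (a : ℕ → E)
    (hc : Nat.card {x : E // (σ ^ β) x = ∑ j ∈ range (e + 1), a j * (σ ^ (α * j)) x} < Q ^ k) :
    ∃ c : ℕ → E, (∃ i < k, c i ≠ 0) ∧
      ∀ x : E, (σ ^ β) x = ∑ j ∈ range (e + 1), a j * (σ ^ (α * j)) x →
        ∑ i ∈ range k, c i * (σ ^ (α * i)) x = 0 := by
  have := h.finite
  let F : Subfield E := RingHom.eqLocusField (σ : E →+* E) (RingHom.id E)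
  have hF : ∀ (r : F) (m : ℕ), (σ ^ m) (r : E) = r := fun r m => pow_app_fixed r.2 m
  have hsm : ∀ (r : F) (m : ℕ) (x : E), (σ ^ m) (r • x) = r * (σ ^ m) x := by
    intro r m x
    rw [show r • x = (r : E) * x from rfl, map_mul, hF]
  let U : Submodule F E :=
    { carrier := {x | (σ ^ β) x = ∑ j ∈ range (e + 1), a j * (σ ^ (α * j)) x}
      zero_mem' := by simp
      add_mem' := fun {x y} hx hy => by
        simp only [Set.mem_ofPred_eq, map_add, mul_add, Finset.sum_add_distrib] at hx hy ⊢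
        rw [hx, hy]
      smul_mem' := fun r x hx => by
        simp only [Set.mem_ofPred_eq, hsm] at hx ⊢
        rw [hx, Finset.mul_sum]
        exact Finset.sum_congr rfl fun j _ => by ring }
  have hcard : Nat.card U = Nat.card F ^ Module.finrank F U := Module.natCard_eq_pow_finrank
  have hQF : Q ≤ Nat.card F := h.card_fixed
  have hr : Module.finrank F U < k := by
    by_contra hk
    push Not at hk
    have h1 : Q ^ k ≤ Nat.card F ^ Module.finrank F U :=
      (Nat.pow_le_pow_left hQF k).trans (Nat.pow_le_pow_right Nat.card_pos hk)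
    rw [← hcard] at h1
    exact absurd hc (not_lt.mpr h1)
  let b := Module.finBasis F U
  let L : (Fin k → E) →ₗ[E] (Fin (Module.finrank F U) → E) :=
    { toFun := fun c l => ∑ i : Fin k, c i * (σ ^ (α * i)) (b l : E)
      map_add' := fun c c' => by
        funext l
        simp [add_mul, Finset.sum_add_distrib]
      map_smul' := fun r c => by
        funext l
        simp [Finset.mul_sum, mul_assoc] }
  obtain ⟨c, hc1, hc0⟩ := (Submodule.ne_bot_iff _).mp
    (LinearMap.ker_ne_bot_of_finrank_lt (f := L) (by simpa using hr))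
  refine ⟨fun i => if hi : i < k then c ⟨i, hi⟩ else 0, ?_, ?_⟩
  · obtain ⟨i, hi⟩ := Function.ne_iff.mp hc0
    exact ⟨i, i.2, by simpa using hi⟩
  · intro x hx
    rw [Finset.sum_range]
    simp only [Fin.is_lt, dif_pos, Fin.eta]
    have h1 : x = ∑ l, b.repr ⟨x, hx⟩ l • (b l : E) := by
      have := congrArg U.subtype (b.sum_repr ⟨x, hx⟩)
      simp only [map_sum, map_smul, Submodule.subtype_apply] at this
      exact this.symm
    rw [h1]
    simp only [map_sum, hsm, Finset.mul_sum]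
    rw [Finset.sum_comm]
    refine Finset.sum_eq_zero fun l _ => ?_
    have h2 : ∑ i : Fin k, c i * (σ ^ (α * i)) (b l : E) = 0 := congrFun hc1 l
    have h3 := congrArg (fun z => (b.repr ⟨x, hx⟩ l : E) * z) h2
    simp only [Finset.mul_sum, mul_zero] at h3
    rw [← h3]
    exact Finset.sum_congr rfl fun i _ => by ring

theorem final_count (h : IsFrob Q n σ) (hv : IsDeg E v) (hZ : Ops σ v t s α β e n Z)
    (hM : Stab t s Z M) (ht0 : t ≠ 0) (hs0 : s ≠ 0) (hab : ∃ i j : ℕ, α * i + β * j ≡ 1 [MOD n])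
    {ψ : K} (hψ : ψ ∈ M) {d : ℤ} (hd : v ψ = exp d) (hmin : ∀ x ∈ M, x ≠ 0 → exp d ≤ v x)
    (k : ℕ) (hmin' : ∀ x ∈ nextM t s M, x ≠ 0 → exp (d + k) ≤ v x) :
    ∃ a : ℕ → E, Q ^ k ≤ Nat.card {x : E //
      (σ ^ β) x = ∑ j ∈ range (e + 1), a j * (σ ^ (α * j)) x} := by
  obtain ⟨a, ha⟩ := span_min hv hZ hM hψ hd hmin (e + 1) (Z 0 1 ψ) (hM.op _ _ _ hψ) (by
    rw [hZ.val, hd, ← exp_add]
    exact exp_lt_exp.mpr (by push_cast; omega))
  refine ⟨a, ?_⟩
  by_contra hcon
  obtain ⟨c, ⟨i0, hi0, hc0⟩, hc⟩ := small_sol h α β e k a (not_le.mp hcon)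
  set x := ∑ i ∈ range k, c i • Z i 0 ψ with hx
  have hxM : x ∈ M := M.sum_mem fun i _ => M.smul_mem _ (hM.op _ _ _ hψ)
  have hxv := comb_val hv hZ hd c k
  have hx0 : x ≠ 0 := fun h0 => hc0 (hxv.2 h0 i0 hi0)
  have hxM' : x ∉ nextM t s M := fun h' => absurd hxv.1 (not_lt.mpr (hmin' x h' hx0))
  obtain ⟨lam, hl1, hl2⟩ := Submodule.exists_dual_map_eq_bot_of_notMem hxM' inferInstance
  have hl0 : ∀ z ∈ nextM t s M, lam z = 0 := fun z hz => by
    have := Submodule.mem_map_of_mem (f := lam) hz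
    rwa [hl2, Submodule.mem_bot] at this
  obtain ⟨i1, j1, h1⟩ := hab
  have n0 := h.pos
  obtain ⟨n', rfl⟩ : ∃ n', n = n' + 1 := ⟨n - 1, by omega⟩
  have htw : ∀ m : ℕ, α * (m * (n' * i1)) + β * (m * (n' * j1)) + m ≡ 0 [MOD n' + 1] := by
    intro m
    have h2 : (m * n') * (α * i1 + β * j1) + m ≡ (m * n') * 1 + m [MOD n' + 1] :=
      (h1.mul_left _).add_right _
    have h3 : (m * n') * 1 + m ≡ 0 [MOD n' + 1] :=
      (Nat.modEq_zero_iff_dvd).mpr ⟨m, by ring⟩
    have h4 := h2.trans h3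
    rwa [show m * n' * (α * i1 + β * j1) = α * (m * (n' * i1)) + β * (m * (n' * j1)) by ring] at h4
  have hσ : ∀ m : ℕ, m ≡ 0 [MOD n' + 1] → σ ^ m = 1 := by
    intro m hm
    obtain ⟨c, rfl⟩ := (Nat.modEq_zero_iff_dvd).mp hm
    rw [pow_mul, h.pow_n, one_pow]
  have hlc : ∀ (i j i' j' : ℕ), α * i + β * j ≡ α * i' + β * j' [MOD n' + 1] → ∀ z ∈ M,
      lam (Z i' j' z) = lam (Z i j z) := by
    intro i j i' j' hm z hz
    rw [← sub_eq_zero, ← map_sub]
    exact hl0 _ (hM.cong hZ ht0 hs0 hm hz)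
  have key : ∀ θ : E, ∑ m ∈ range (n' + 1),
      (σ ^ m) (lam (Z (m * (n' * i1)) (m * (n' * j1)) x)) * algebraMap E E ((σ ^ m) θ) = 0 := by
    intro θ
    let ℓ : K → E := fun z => ∑ m ∈ range (n' + 1),
      (σ ^ m) (lam (Z (m * (n' * i1)) (m * (n' * j1)) z) * θ)
    have ladd : ∀ z z', ℓ (z + z') = ℓ z + ℓ z' := by
      intro z z'
      simp only [ℓ, map_add, add_mul, Finset.sum_add_distrib]
    have lsm : ∀ (r : E) z, ℓ (r • z) = r * ℓ z := by
      intro r z
      simp only [ℓ, Finset.mul_sum]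
      refine Finset.sum_congr rfl fun m _ => ?_
      rw [hZ.smul, map_smul, smul_eq_mul, mul_assoc, map_mul, ← pow_add_app, add_comm m,
        hσ _ (htw m)]
      rfl
    have lsum : ∀ (N : ℕ) (c : ℕ → E) (f : ℕ → K),
        ℓ (∑ i ∈ range N, c i • f i) = ∑ i ∈ range N, c i * ℓ (f i) := by
      intro N c f
      induction N with
      | zero => simp [ℓ]
      | succ N ih => rw [Finset.sum_range_succ, Finset.sum_range_succ, ladd, lsm, ih]
    have l1 : ∀ z ∈ M, σ (ℓ (Z (n' * i1) (n' * j1) z)) = ℓ z := by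
      intro z hz
      simp only [ℓ, map_sum]
      rw [← sum_shift (fun m => (σ ^ m) (lam (Z (m * (n' * i1)) (m * (n' * j1)) z) * θ)) (n' + 1)]
      · refine Finset.sum_congr rfl fun m _ => ?_
        rw [hZ.comp, pow_succ_app, add_mul, add_mul, one_mul, one_mul]
      · rw [h.pow_n, pow_zero, hlc ((n' + 1) * (n' * i1)) ((n' + 1) * (n' * j1)) (0 * (n' * i1))
          (0 * (n' * j1)) _ z hz]
        simp only [zero_mul, mul_zero, add_zero]
        exact (Nat.modEq_zero_iff_dvd).mpr ⟨α * (n' * i1) + β * (n' * j1), by ring⟩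
    have l2 : ∀ (m : ℕ), ∀ z ∈ M, (σ ^ m) (ℓ (Z (m * (n' * i1)) (m * (n' * j1)) z)) = ℓ z := by
      intro m
      induction m with
      | zero => intro z _; simp [hZ.zero]
      | succ m ih =>
        intro z hz
        rw [pow_succ_app', add_mul, add_mul, one_mul, one_mul, add_comm (m * _), add_comm (m * _),
          ← hZ.comp, l1 _ (hM.op _ _ _ hz), ih z hz]
    have l3 : ∀ (i j : ℕ), ∀ z ∈ M, ℓ (Z i j z) = (σ ^ (α * i + β * j)) (ℓ z) := by
      intro i j z hz
      rw [← l2 (α * i + β * j) _ (hM.op i j z hz), hZ.comp]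
      congr 1
      simp only [ℓ]
      refine Finset.sum_congr rfl fun m _ => ?_
      rw [hZ.comp, hlc _ _ (m * (n' * i1)) (m * (n' * j1)) _ z hz]
      have := (htw (α * i + β * j)).add_left (α * (m * (n' * i1)) + β * (m * (n' * j1)))
      rw [add_zero] at this
      refine (congrArg (fun w => w ≡ _ [MOD n' + 1]) ?_).mp this
      ring
    have hu : (σ ^ β) (ℓ ψ) = ∑ j ∈ range (e + 1), a j * (σ ^ (α * j)) (ℓ ψ) := by
      have := l3 0 1 ψ hψ
      rw [ha, lsum] at this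
      simp only [mul_zero, zero_add, mul_one] at this
      rw [← this]
      refine Finset.sum_congr rfl fun j _ => ?_
      rw [l3 j 0 ψ hψ, mul_zero, add_zero]
    have hx0 : ℓ x = 0 := by
      rw [hx, lsum, ← hc _ hu]
      refine Finset.sum_congr rfl fun j _ => ?_
      rw [l3 j 0 ψ hψ, mul_zero, add_zero]
    rw [← hx0]
    refine Finset.sum_congr rfl fun m _ => ?_
    rw [map_mul]
    rfl
  have := h.dedekind _ key 0 (by omega)
  simp only [pow_zero, zero_mul, hZ.zero, RingAut.one_apply] at this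
  exact hl1 this

end

end Pool.Agent.Lib.MP_145fc7_co
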