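import Pool.Agent.Lib.MP_145fc7_co.Ded

/-! Local conditions at the finite places, and the element with prescribed norm. -/

set_option autoImplicit false

namespace Pool.Agent.Lib.MP_145fc7_co

open Polynomial WithZero MulAction
open scoped Pointwise

variable {E : Type} [Field E] {K : Type} [Field K] [Algebra E K] {Q ρ d i e k : ℕ} {F : E[X][X]}
  {π : E[X][X] →ₐ[E] K}

lemma GoodCurve.b_le (hF : GoodCurve Q ρ d i e k F) (hρ : 0 < ρ) (hN : 0 < i + e * d) {a b : ℕ}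
    (h : cf F a b ≠ 0) : b < ρ ∨ (b = ρ ∧ a = 0) := by
  have h1 := (hF.supp a b h).1
  generalize i + e * d = N at *
  have h2 : b ≤ ρ := by
    by_contra h3
    have : N * ρ < N * b := Nat.mul_lt_mul_of_pos_left (by omega) hN
    rw [mul_comm N ρ] at this
    omega
  rcases h2.lt_or_eq with h3 | h3
  · exact Or.inl h3
  · right
    refine ⟨h3, ?_⟩
    subst h3
    rw [mul_comm N b] at h1
    by_contra h4
    have : 0 < b * a := Nat.mul_pos hρ (Nat.pos_of_ne_zero h4)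
    omega

section

variable (w : Valuation K ZZ) (hw : ∀ c : E, c ≠ 0 → w (algebraMap E K c) = 1)
  {τ ς : ℤ} (ht : w (π (C X)) = exp τ) (hs : w (π X) = exp ς)

include ht hs in
lemma w_mono (a b : ℕ) : w (π (C X)) ^ a * w (π X) ^ b = exp (a * τ + b * ς) := by
  rw [ht, hs, ← exp_nsmul, ← exp_nsmul, ← exp_add]
  simp

include hw ht hs

lemma GoodCurve.loc0 (hF : GoodCurve Q ρ d i e k F) (hπ : π F = 0) (hτ : τ = 0) (hς : ς < 0) :
    ∃ r : E, r ≠ 0 ∧ (F.coeff 0).IsRoot r ∧ w (π (C X) - algebraMap E K r) < 1 := by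
  have h1 : w (π (F - C (F.coeff 0))) < 1 := by
    apply val_bound w hw π _ one_ne_zero
    intro a b hab
    rw [cf_sub, cf_C] at hab
    have hb : b ≠ 0 := by
      rintro rfl
      exact hab (by simp [cf])
    rw [w_mono w ht hs, hτ, ← exp_zero, exp_lt_exp]
    have : (0 : ℤ) < b := by exact_mod_cast Nat.pos_of_ne_zero hb
    nlinarith
  rw [map_sub, hπ, zero_sub, w.map_neg, pi_C] at h1
  have h0 : F.coeff 0 ≠ 0 := by
    intro h
    exact hF.vert2 (by simp [cf, h])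
  obtain ⟨r, hr, hr2⟩ := root_close w hw hF.edge0.1 h0 _ h1
  refine ⟨r, ?_, hr, hr2⟩
  rintro rfl
  rw [map_zero, sub_zero, ht, hτ] at hr2
  exact lt_irrefl _ hr2

lemma GoodCurve.loc1 (hF : GoodCurve Q ρ d i e k F) (hρ : 0 < ρ) (hN : 0 < i + e * d)
    (hπ : π F = 0) (hτ : τ < 0) : ρ * ς = i * τ := by
  have hρ' : (0 : ℤ) < ρ := by exact_mod_cast hρ
  by_contra hne
  rcases lt_or_gt_of_ne hne with h | h
  · have h4 := (val_dom w hw π F i 0 hF.vert2 (by rw [w_mono w ht hs]; exact exp_ne_zero) (by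
      intro a b hab hn
      rw [w_mono w ht hs, w_mono w ht hs, exp_lt_exp]
      have h5 : (ρ : ℤ) * i ≤ ρ * a + i * b := by exact_mod_cast (hF.supp a b hab).2
      rcases Nat.eq_zero_or_pos b with rfl | hb
      · have h6 : (i : ℤ) ≤ a := by
          simp only [Nat.cast_zero, mul_zero, add_zero] at h5
          exact le_of_mul_le_mul_left h5 hρ'
        have h7 : (i : ℤ) ≠ a := fun h8 => hn ⟨by exact_mod_cast h8, rfl⟩
        have h9 : (i : ℤ) < a := lt_of_le_of_ne h6 h7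
        simp only [Nat.cast_zero, zero_mul, add_zero]
        nlinarith
      · have hb' : (0 : ℤ) < b := by exact_mod_cast hb
        simp only [Nat.cast_zero, zero_mul, add_zero]
        apply lt_of_mul_lt_mul_left _ hρ'.le
        nlinarith)).2
    rw [hπ, map_zero, w_mono w ht hs] at h4
    exact exp_ne_zero h4.symm
  · have h4 := (val_dom w hw π F 0 ρ hF.vert1 (by rw [w_mono w ht hs]; exact exp_ne_zero) (by
      intro a b hab hn
      rw [w_mono w ht hs, w_mono w ht hs, exp_lt_exp]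
      have h5 : (ρ : ℤ) * i ≤ ρ * a + i * b := by exact_mod_cast (hF.supp a b hab).2
      rcases hF.b_le hρ hN hab with hb | ⟨hb, ha⟩
      · have hb' : (b : ℤ) < ρ := by exact_mod_cast hb
        simp only [Nat.cast_zero, zero_mul, zero_add]
        apply lt_of_mul_lt_mul_left _ hρ'.le
        nlinarith
      · exact absurd ⟨ha.symm, hb.symm⟩ hn)).2
    rw [hπ, map_zero, w_mono w ht hs] at h4
    exact exp_ne_zero h4.symm

lemma GoodCurve.loc2 (hF : GoodCurve Q ρ d i e k F) (hρ : 0 < ρ) (hN : 0 < i + e * d)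
    (hπ : π F = 0) (hτ : τ < 0) :
    ∃ r : E, (∀ g : ℕ, r ^ (Q ^ g) = r → Nat.gcd ρ i ∣ g) ∧
      w (π X ^ (ρ / Nat.gcd ρ i) / π (C X) ^ (i / Nat.gcd ρ i) - algebraMap E K r) < 1 := by
  have h1 := hF.loc1 w hw ht hs hρ hN hπ hτ
  obtain ⟨g1, hg1, hg2, hg3, hg4⟩ := hF.edge1
  have hcop := Nat.coprime_div_gcd_div_gcd (m := ρ) (n := i) (Nat.gcd_pos_of_pos_left i hρ)
  have hd1 : 0 < Nat.gcd ρ i := Nat.gcd_pos_of_pos_left i hρ
  have hρe : ρ = Nat.gcd ρ i * (ρ / Nat.gcd ρ i) := (Nat.mul_div_cancel' (Nat.gcd_dvd_left ρ i)).symm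
  have hie : i = Nat.gcd ρ i * (i / Nat.gcd ρ i) :=
    (Nat.mul_div_cancel' (Nat.gcd_dvd_right ρ i)).symm
  generalize Nat.gcd ρ i = d1 at *
  generalize ρ / d1 = ρ' at *
  generalize i / d1 = i' at *
  have hρ'0 : 0 < ρ' := Nat.pos_of_mul_pos_left (hρe ▸ hρ)
  have ht0 : π (C X) ≠ 0 := ne_zero_of_v_eq ht
  let G : E[X][X] := ∑ κ ∈ Finset.range (d1 + 1), mono ((d1 - κ) * i') (κ * ρ') (g1.coeff κ)
  have hG : π G = π (C X) ^ i * aeval (π X ^ ρ' / π (C X) ^ i') g1 := by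
    rw [aeval_eq_sum_range' (Nat.lt_succ_of_le hg2), Finset.mul_sum, map_sum]
    apply Finset.sum_congr rfl
    intro κ hκ
    obtain ⟨m, hm⟩ := Nat.exists_eq_add_of_le (Nat.lt_succ_iff.1 (Finset.mem_range.1 hκ))
    rw [pi_mono, Algebra.smul_def, hie, hm, Nat.add_sub_cancel_left, div_pow]
    field_simp
    ring
  have h2 : w (π (F - G)) < exp (i * τ) := by
    apply val_bound w hw π _ exp_ne_zero
    intro a b hab
    rw [cf_sub, cf_sum] at hab
    simp only [cf_mono] at hab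
    by_cases h3 : ∃ κ, κ ≤ d1 ∧ (d1 - κ) * i' = a ∧ κ * ρ' = b
    · obtain ⟨κ, hκ, ha, hb⟩ := h3
      exfalso
      apply hab
      rw [Finset.sum_eq_single κ, if_pos ⟨ha, hb⟩, hg3 κ hκ, ha, hb, sub_self]
      · intro κ' _ hne
        rw [if_neg]
        rintro ⟨-, h4⟩
        exact hne (Nat.eq_of_mul_eq_mul_right hρ'0 (h4.trans hb.symm))
      · intro h4
        exact absurd (Finset.mem_range.2 (by omega)) h4
    · rw [Finset.sum_eq_zero, sub_zero] at hab
      · have h5 := (hF.supp a b hab).2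
        have h6 : ρ * i ≠ ρ * a + i * b := by
          intro h7
          apply h3
          have h8 : ρ' * (d1 * i') = ρ' * a + i' * b := by
            apply Nat.eq_of_mul_eq_mul_left hd1
            rw [hρe, hie] at h7
            linarith
          have h9 : ρ' ∣ i' * b :=
            (Nat.dvd_add_right (dvd_mul_right ρ' a)).1 (h8 ▸ dvd_mul_right _ _)
          obtain ⟨κ, rfl⟩ := hcop.dvd_of_dvd_mul_left h9
          have h10 : κ ≤ d1 := by
            have h11 : ρ' * κ ≤ ρ := by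
              rcases hF.b_le hρ hN hab with h12 | h12
              · exact h12.le
              · exact h12.1.le
            rw [hρe, mul_comm d1] at h11
            exact Nat.le_of_mul_le_mul_left h11 hρ'0
          refine ⟨κ, h10, ?_, mul_comm _ _⟩
          have h13 : d1 * i' = a + κ * i' := by
            apply Nat.eq_of_mul_eq_mul_left hρ'0
            rw [h8]; ring
          rw [Nat.sub_mul, h13, Nat.add_sub_cancel]
        have h14 : (ρ : ℤ) * i < ρ * a + i * b := by exact_mod_cast lt_of_le_of_ne h5 h6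
        have hρ' : (0 : ℤ) < ρ := by exact_mod_cast hρ
        rw [w_mono w ht hs, exp_lt_exp]
        apply lt_of_mul_lt_mul_left _ hρ'.le
        have h15 : (ρ : ℤ) * (a * τ + b * ς) = (ρ * a + i * b) * τ := by
          linear_combination (b : ℤ) * h1
        rw [h15]
        nlinarith
      · intro κ hκ
        rw [if_neg]
        rintro ⟨h4, h5⟩
        exact h3 ⟨κ, Nat.lt_succ_iff.1 (Finset.mem_range.1 hκ), h4, h5⟩
  rw [map_sub, hπ, zero_sub, w.map_neg, hG, map_mul, map_pow, ht, ← exp_nsmul, nsmul_eq_mul]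
    at h2
  have h3 : w (aeval (π X ^ ρ' / π (C X) ^ i') g1) < 1 := by
    by_contra h4
    exact absurd h2 (not_lt.2 (le_mul_of_one_le_right' (not_lt.1 h4)))
  have hg0 : g1 ≠ 0 := by
    intro h0
    have h4 := hg3 0 (Nat.zero_le _)
    rw [h0, coeff_zero, Nat.sub_zero, zero_mul, ← hie] at h4
    exact hF.vert2 h4.symm
  obtain ⟨r, hr, hr2⟩ := root_close w hw hg1 hg0 _ h3
  exact ⟨r, hg4 r hr, hr2⟩

end

section

variable {B : Type} [CommRing B] [IsDedekindDomain B] [Algebra E B] [Algebra B K]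
  [IsScalarTower E B K] [IsFractionRing B K]

open IsDedekindDomain

lemma hos_alg (P : HeightOneSpectrum B) (c : E) (hc : c ≠ 0) :
    P.valuation K (algebraMap E K c) = 1 := by
  rw [IsScalarTower.algebraMap_apply E B K, HeightOneSpectrum.valuation_eq_one_iff_notMem]
  intro h
  exact P.isPrime.ne_top (Ideal.eq_top_of_isUnit_mem _ h ((IsUnit.mk0 c hc).map _))

lemma hos_exp (P : HeightOneSpectrum B) {x : B} (hx : algebraMap B K x ≠ 0) :
    ∃ τ : ℤ, τ ≤ 0 ∧ P.valuation K (algebraMap B K x) = exp τ := by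
  have h1 : P.valuation K (algebraMap B K x) ≠ 0 := (Valuation.ne_zero_iff _).2 hx
  refine ⟨log (P.valuation K (algebraMap B K x)), ?_, (exp_log h1).symm⟩
  rw [log_le_iff_le_exp h1, exp_zero]
  exact P.valuation_le_one x

lemma period_root {n : ℕ} {σ : E ≃+* E} {Φ : B ≃+* B} (h : IsSemi Q n σ Φ)
    (P : HeightOneSpectrum B) {x : B} (hx : Φ x = x) {r : E}
    (hr : P.valuation K (algebraMap B K x - algebraMap E K r) < 1) :
    r ^ (Q ^ period Φ P.asIdeal) = r := by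
  rw [IsScalarTower.algebraMap_apply E B K, ← map_sub] at hr
  have h1 : x - algebraMap E B r ∈ P.asIdeal := (P.valuation_lt_one_iff_mem _).1 hr
  have h2 := Ideal.smul_mem_pointwise_smul (Φ ^ period Φ P.asIdeal) _ _ h1
  rw [pow_period_smul, RingAut.smul_def, map_sub, pow_app_fixed hx, h.pow_alg] at h2
  have h3 := P.asIdeal.sub_mem h1 h2
  rw [sub_sub_sub_cancel_left, ← map_sub] at h3
  by_contra h4
  rw [← h.toIsFrob.pow_app] at h4
  exact P.isPrime.ne_top (Ideal.eq_top_of_isUnit_mem _ h3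
    ((IsUnit.mk0 _ (sub_ne_zero.2 h4)).map _))

lemma GoodCurve.omega_mem (hF : GoodCurve Q ρ d i e k F) (hρ : 0 < ρ) (hN : 0 < i + e * d)
    (hπ : π F = 0) {tB sB : B} (ht : algebraMap B K tB = π (C X)) (hs : algebraMap B K sB = π X)
    (ht0 : π (C X) ≠ 0) (hs0 : π X ≠ 0) :
    ∃ ω : B, algebraMap B K ω = π X ^ (ρ / Nat.gcd ρ i) / π (C X) ^ (i / Nat.gcd ρ i) := by
  apply HeightOneSpectrum.mem_integers_of_valuation_le_one
  intro P
  obtain ⟨τ, hτ, hτ2⟩ := hos_exp P (ht ▸ ht0 : algebraMap B K tB ≠ 0)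
  obtain ⟨ς, hς, hς2⟩ := hos_exp P (hs ▸ hs0 : algebraMap B K sB ≠ 0)
  rw [ht] at hτ2
  rw [hs] at hς2
  rw [map_div₀, map_pow, map_pow, hτ2, hς2, ← exp_nsmul, ← exp_nsmul, ← exp_sub, ← exp_zero,
    exp_le_exp, nsmul_eq_mul, nsmul_eq_mul]
  rcases hτ.lt_or_eq with h1 | h1
  · have h2 := hF.loc1 _ (hos_alg P) hτ2 hς2 hρ hN hπ h1
    have hd1 : (0 : ℤ) < Nat.gcd ρ i := by exact_mod_cast Nat.gcd_pos_of_pos_left i hρ
    have hρe : (ρ : ℤ) = Nat.gcd ρ i * (ρ / Nat.gcd ρ i : ℕ) := by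
      exact_mod_cast (Nat.mul_div_cancel' (Nat.gcd_dvd_left ρ i)).symm
    have hie : (i : ℤ) = Nat.gcd ρ i * (i / Nat.gcd ρ i : ℕ) := by
      exact_mod_cast (Nat.mul_div_cancel' (Nat.gcd_dvd_right ρ i)).symm
    apply le_of_eq
    apply mul_left_cancel₀ hd1.ne'
    linear_combination h2 - ς * hρe + τ * hie
  · rw [h1, mul_zero, sub_zero]
    exact mul_nonpos_of_nonneg_of_nonpos (Int.natCast_nonneg _) hς

lemma div_dvd_of {n g d m : ℕ} (hn : n = d * m) (hd : 0 < d) (h1 : d ∣ g) (h2 : g ∣ n) :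
    n / g ∣ m := by
  obtain ⟨g', rfl⟩ := h1
  obtain ⟨q, hq⟩ := h2
  rcases Nat.eq_zero_or_pos g' with rfl | hg'
  · have : m = 0 := by
      rw [hn] at hq
      simpa [hd.ne'] using hq
    simp [this]
  · rw [hq, Nat.mul_div_cancel_left _ (Nat.mul_pos hd hg')]
    refine ⟨g', Nat.eq_of_mul_eq_mul_left hd ?_⟩
    rw [← hn, hq]; ring

lemma GoodCurve.local_cond (hF : GoodCurve Q ρ d i e k F) (hρ : 0 < ρ) (hd : 0 < d)
    (hN : 0 < i + e * d) (hπ : π F = 0) {n : ℕ} (hn : n = ρ * d) {σ : E ≃+* E} {ΦB : B ≃+* B}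
    {Φ : K ≃+* K} (h : IsSemi Q n σ ΦB)
    (hΦ : ∀ x, algebraMap B K (ΦB x) = Φ (algebraMap B K x))
    (hΦt : Φ (π (C X)) = π (C X)) (hΦs : Φ (π X) = π X)
    {tB sB : B} (ht : algebraMap B K tB = π (C X)) (hs : algebraMap B K sB = π X)
    (ht0 : π (C X) ≠ 0) (hs0 : π X ≠ 0) {az bz : ℕ} (h1 : ρ ∣ bz) (h2 : n ∣ ρ * az + i * bz)
    (P : Ideal B) (hP : Prime P) :
    n / period ΦB P ∣ multiplicity P (Ideal.span {tB ^ az * sB ^ bz}) := by
  have hinj := IsFractionRing.injective B K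
  let P' : HeightOneSpectrum B := ⟨P, Ideal.isPrime_of_prime hP, hP.ne_zero⟩
  obtain ⟨τ, hτ, hτ2⟩ := hos_exp P' (ht ▸ ht0 : algebraMap B K tB ≠ 0)
  obtain ⟨ς, hς, hς2⟩ := hos_exp P' (hs ▸ hs0 : algebraMap B K sB ≠ 0)
  have htB : tB ≠ 0 := by rintro rfl; exact ht0 (by rw [← ht, map_zero])
  have hsB : sB ≠ 0 := by rintro rfl; exact hs0 (by rw [← hs, map_zero])
  have hm : (multiplicity P (Ideal.span {tB ^ az * sB ^ bz}) : ℤ) = -(az * τ + bz * ς) := by
    have h3 := P'.intValuation_eq_exp_neg_multiplicity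
      (mul_ne_zero (pow_ne_zero az htB) (pow_ne_zero bz hsB))
    rw [← P'.valuation_of_algebraMap (K := K)] at h3
    change P'.valuation K (algebraMap B K _) = _ at h3
    rw [map_mul, map_pow, map_pow, map_mul, map_pow, map_pow, hτ2, hς2, ← exp_nsmul, ← exp_nsmul,
      ← exp_add, exp_inj, nsmul_eq_mul, nsmul_eq_mul] at h3
    rw [h3, neg_neg]
  rw [ht] at hτ2
  rw [hs] at hς2
  have hg := period_dvd h.ord P
  rw [← Int.natCast_dvd_natCast, hm, dvd_neg]
  rcases hτ.lt_or_eq with h3 | h3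
  · obtain ⟨r, hr, hr2⟩ := hF.loc2 _ (hos_alg P') hτ2 hς2 hρ hN hπ h3
    obtain ⟨ω, hω⟩ := hF.omega_mem hρ hN hπ ht hs ht0 hs0
    have hωΦ : ΦB ω = ω := hinj (by rw [hΦ, hω, map_div₀, map_pow, map_pow, hΦt, hΦs])
    rw [← hω] at hr2
    have h4 := hr _ (period_root h P' hωΦ hr2)
    have h5 := hF.loc1 _ (hos_alg P') hτ2 hς2 hρ hN hπ h3
    have hcop := Nat.coprime_div_gcd_div_gcd (m := ρ) (n := i) (Nat.gcd_pos_of_pos_left i hρ)
    have hd1 : 0 < Nat.gcd ρ i := Nat.gcd_pos_of_pos_left i hρ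
    have hρe : ρ = Nat.gcd ρ i * (ρ / Nat.gcd ρ i) :=
      (Nat.mul_div_cancel' (Nat.gcd_dvd_left ρ i)).symm
    have hie : i = Nat.gcd ρ i * (i / Nat.gcd ρ i) :=
      (Nat.mul_div_cancel' (Nat.gcd_dvd_right ρ i)).symm
    generalize Nat.gcd ρ i = d1 at *
    generalize ρ / d1 = ρ' at *
    generalize i / d1 = i' at *
    have h6 : n / period ΦB P ∣ ρ' * d :=
      div_dvd_of (by rw [hn, hρe, mul_assoc]) hd1 h4 hg
    have h7 : ρ' * d ∣ ρ' * az + i' * bz := by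
      apply Nat.dvd_of_mul_dvd_mul_left hd1
      rw [← mul_assoc, ← hρe, ← hn, mul_add, ← mul_assoc, ← mul_assoc, ← hρe, ← hie]
      exact h2
    have h8 : (ρ' : ℤ) * ς = i' * τ := by
      apply mul_left_cancel₀ (show (d1 : ℤ) ≠ 0 by exact_mod_cast hd1.ne')
      rw [hρe, hie] at h5
      push_cast at h5
      linear_combination h5
    obtain ⟨u, hu⟩ : (ρ' : ℤ) ∣ τ :=
      (Nat.isCoprime_iff_coprime.2 hcop).dvd_of_dvd_mul_left ⟨ς, h8.symm⟩
    have hρ'0 : (ρ' : ℤ) ≠ 0 := by exact_mod_cast (Nat.pos_of_mul_pos_left (hρe ▸ hρ)).ne'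
    have h9 : ς = i' * u := by
      apply mul_left_cancel₀ hρ'0
      rw [h8, hu]; ring
    have h10 : (az : ℤ) * τ + bz * ς = ((ρ' * az + i' * bz : ℕ) : ℤ) * u := by
      rw [hu, h9]; push_cast; ring
    rw [h10]
    exact (Int.natCast_dvd_natCast.2 (h6.trans h7)).mul_right _
  · rcases hς.lt_or_eq with h4 | h4
    · obtain ⟨r, hr0, hr, hr2⟩ := hF.loc0 _ (hos_alg P') hτ2 hς2 hπ h3 h4
      have htΦ : ΦB tB = tB := hinj (by rw [hΦ, ht, hΦt])
      rw [← ht] at hr2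
      have h5 := hF.edge0.2 r hr0 hr _ (period_root h P' htΦ hr2)
      have h6 : n / period ΦB P ∣ ρ := div_dvd_of (by rw [hn, mul_comm]) hd h5 hg
      rw [h3, mul_zero, zero_add]
      exact (Int.natCast_dvd_natCast.2 (h6.trans h1)).mul_right _
    · rw [h3, h4]
      simp

end

lemma numeric {n α β e i ρ d : ℕ} (hn0 : 0 < n) (hn : n = ρ * d) (hα : d ∣ α)
    (hcop : IsCoprime ((β : ℤ) - e * α) (n : ℤ)) (hi : n ∣ α * i + β * d) :
    Nat.Coprime (i + e * d) ρ ∧ ∃ (aX bX aY bY : ℤ) (az bz : ℕ),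
      n * aX + α * (az : ℤ) = d ∧ n * bX + α * (bz : ℤ) = 0 ∧ n * aY + β * (az : ℤ) = -i ∧
      n * bY + β * (bz : ℤ) = ρ ∧ ρ ∣ bz ∧ n ∣ ρ * az + i * bz ∧
      ∃ i0 j0 : ℕ, α * i0 + β * j0 ≡ 1 [MOD n] := by
  obtain ⟨α', rfl⟩ := hα
  have hd : 0 < d := Nat.pos_of_mul_pos_left (hn ▸ hn0)
  obtain ⟨c', hc'⟩ : ρ ∣ α' * i + β := by
    apply Nat.dvd_of_mul_dvd_mul_right hd
    rw [← hn]
    exact hi.trans (Dvd.intro 1 (by ring))
  have hc'' : (α' : ℤ) * i + β = ρ * c' := by exact_mod_cast hc'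
  obtain ⟨u, w, huw⟩ := hcop
  have hn' : (n : ℤ) = ρ * d := by exact_mod_cast hn
  have hn1 : (0 : ℤ) < n := by exact_mod_cast hn0
  refine ⟨?_, ?_⟩
  · rw [← Nat.isCoprime_iff_coprime]
    refine ⟨-u * α', u * c' + w * d, ?_⟩
    rw [hn'] at huw
    push_cast at huw ⊢
    linear_combination huw - u * hc''
  · obtain ⟨j0, hj0⟩ : ∃ j0 : ℕ, (j0 : ℤ) = u % n :=
      ⟨(u % n).toNat, Int.toNat_of_nonneg (Int.emod_nonneg _ hn1.ne')⟩
    obtain ⟨i1, hi1⟩ : ∃ i1 : ℕ, (i1 : ℤ) = (-(e * u)) % n :=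
      ⟨((-(e * u)) % n).toNat, Int.toNat_of_nonneg (Int.emod_nonneg _ hn1.ne')⟩
    have e1 := Int.emod_add_mul_ediv u n
    have e2 := Int.emod_add_mul_ediv (-(e * u)) n
    rw [← hj0] at e1
    rw [← hi1] at e2
    obtain ⟨c, hc⟩ : ∃ c : ℤ,
        ((d * α' : ℕ) : ℤ) * ((i1 + n * (i * j0) : ℕ) : ℤ) + β * j0 = 1 + n * c := by
      refine ⟨d * α' * (i * j0) - w - d * α' * (-(e * u) / n) - β * (u / n), ?_⟩
      push_cast at huw ⊢
      linear_combination huw + (d * α' : ℤ) * e2 + (β : ℤ) * e1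
    have hle : i * j0 ≤ d * (i1 + n * (i * j0)) := by
      calc i * j0 ≤ n * (i * j0) := Nat.le_mul_of_pos_left _ hn0
        _ ≤ i1 + n * (i * j0) := Nat.le_add_left _ _
        _ ≤ _ := Nat.le_mul_of_pos_left _ hd
    generalize i1 + n * (i * j0) = i0 at *
    obtain ⟨az, haz⟩ := Nat.exists_eq_add_of_le hle
    have haz' : (d : ℤ) * i0 = i * j0 + az := by exact_mod_cast haz
    push_cast at hc
    refine ⟨c' * j0 - d * c, -α' * j0, i * c - i0 * c', α' * i0 - ρ * c, az, ρ * j0,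
      ?_, ?_, ?_, ?_, dvd_mul_right _ _, ⟨i0, ?_⟩, i0, j0, ?_⟩
    · push_cast
      rw [hn'] at hc ⊢
      linear_combination (d : ℤ) * hc - (d * α' : ℤ) * haz' - (d * j0 : ℤ) * hc''
    · push_cast
      rw [hn']
      ring
    · rw [hn'] at hc ⊢
      linear_combination (-(i : ℤ)) * hc - (β : ℤ) * haz' + (d * i0 : ℤ) * hc''
    · push_cast
      rw [hn'] at hc ⊢
      linear_combination (ρ : ℤ) * hc
    · rw [hn, mul_assoc, haz]; ring
    · rw [Nat.modEq_iff_dvd]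
      refine ⟨-c, ?_⟩
      push_cast
      linear_combination -hc

end Pool.Agent.Lib.MP_145fc7_co
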