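import Pool.Agent.Lib.MP_145fc7_co.CurveD
import Pool.Agent.Lib.MP_145fc7_co.CombC

set_option autoImplicit false

namespace Pool.Agent.Lib.MP_145fc7_co

open Finset Polynomial

theorem fan_nat (core : CurveCore) {E : Type} [Field E] [Fintype E] (Q n α β e k : ℕ)
    (hQ : 1 < Q) (hcard : Fintype.card E = Q ^ n) (φ : E →+* E) (hφ : ∀ x, φ x = x ^ Q)
    (k0 : 0 < k) (e0 : 0 < e) (hco : IsCoprime ((β : ℤ) - e * α) (n : ℤ))
    (hα : ∀ c, c ∣ n → c ∣ α → c ≤ k) (hβ : ∀ c, c ∣ n → c ∣ β → c ≤ k)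
    (hn : k * (12 * k * (k + 1)) ^ 2 ≤ n)
    (hw : ∀ x y : ℤ, x ≠ 0 → (n : ℤ) ∣ β * x - α * y →
      (k : ℤ) ≤ |e * x| ∨ (k : ℤ) ≤ |y| ∨ (k : ℤ) ≤ |y - e * x|) :
    ∃ a : ℕ → E, Q ^ k ≤ Nat.card {x : E //
      x ^ (Q ^ β) = ∑ j ∈ Finset.range (e + 1), a j * x ^ (Q ^ (α * j))} := by
  have n0 : 0 < n := lt_of_lt_of_le (by positivity) hn
  set d := Nat.gcd α n with hd
  have d0 : 0 < d := Nat.gcd_pos_of_pos_right _ n0
  have hdn : d ∣ n := Nat.gcd_dvd_right _ _
  have hdk : d ≤ k := hα d hdn (Nat.gcd_dvd_left _ _)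
  have hcop : Nat.Coprime (α / d) (n / d) := Nat.coprime_div_gcd_div_gcd d0
  set ρ := n / d with hρ
  set α' := α / d with hα'
  have e1 : n = d * ρ := (Nat.mul_div_cancel' hdn).symm
  have e2 : α = d * α' := (Nat.mul_div_cancel' (Nat.gcd_dvd_left _ _)).symm
  have ρ0 : 0 < ρ := Nat.div_pos (Nat.le_of_dvd n0 hdn) d0
  have hρn : ρ ∣ n := ⟨d, by rw [e1, mul_comm]⟩
  obtain ⟨i, hi⟩ : ∃ i : ℕ, ρ ∣ α' * i + β := by
    obtain ⟨a, b, hab⟩ := Nat.isCoprime_iff_coprime.mpr hcop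
    have ρ0' : (0 : ℤ) < ρ := by exact_mod_cast ρ0
    refine ⟨((-(β * a)) % ρ).toNat, ?_⟩
    rw [← Int.natCast_dvd_natCast]
    push_cast
    rw [Int.toNat_of_nonneg (Int.emod_nonneg _ ρ0'.ne'), Int.emod_def]
    exact ⟨β * b - α' * (-(β * a) / ρ), by linear_combination (-(β : ℤ)) * hab⟩
  have hi' : n ∣ α * i + β * d := by
    obtain ⟨c, hc⟩ := hi
    exact ⟨c, by rw [e1, e2, mul_assoc d ρ, ← hc]; ring⟩
  obtain ⟨F, hF⟩ := exists_goodCurve (E := E) Q n ρ d i e k hQ hcard φ hφ k0 d0 e0 hdn hρn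
    (by
      have : k * (12 * k * (k + 1)) ^ 2 ≤ k * ρ := hn.trans (e1 ▸ Nat.mul_le_mul_right _ hdk)
      exact Nat.le_of_mul_le_mul_left this k0)
    (hβ _ ((Nat.gcd_dvd_left _ _).trans hρn) (by
      have h1 := (Nat.gcd_dvd_left ρ i).trans hi
      exact (Nat.dvd_add_right (Dvd.dvd.mul_left (Nat.gcd_dvd_right ρ i) _)).mp h1))
    (by
      have h1 : (Nat.gcd ρ (i + e * d) : ℤ) ∣ ρ := by exact_mod_cast Nat.gcd_dvd_left _ _
      have h2 : (Nat.gcd ρ (i + e * d) : ℤ) ∣ i + e * d := by exact_mod_cast Nat.gcd_dvd_right _ _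
      have h3 : (ρ : ℤ) ∣ α' * i + β := by exact_mod_cast hi
      have h4 : (Nat.gcd ρ (i + e * d) : ℤ) ∣ (β : ℤ) - e * α := by
        have := dvd_sub (h1.trans h3) (Dvd.dvd.mul_left h2 α')
        rwa [show (α' : ℤ) * i + β - α' * (i + e * d) = β - e * α by rw [e2]; push_cast; ring]
          at this
      have h5 : (Nat.gcd ρ (i + e * d) : ℤ) ∣ n := h1.trans (by exact_mod_cast hρn)
      have h6 := hco.isUnit_of_dvd' h4 h5
      rw [Int.isUnit_iff] at h6
      omega)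
    (fun u v u0 => by
      have := hw (d * u) (v * ρ - u * i) (mul_ne_zero (by exact_mod_cast d0.ne') u0) (by
        obtain ⟨c, hc⟩ := hi
        have hc' : (α' : ℤ) * i + β = ρ * c := by exact_mod_cast hc
        refine ⟨u * c - α' * v, ?_⟩
        rw [e1, e2]
        push_cast
        linear_combination (d * u : ℤ) * hc')
      simpa only [mul_assoc] using this)
  exact core E Q n α β e i k hQ n0 e0 hcard hco hi' F hF

/-- The MRD property of the span of the monomials `x^(q^(T i))` over the field `E`. -/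
def IsMRD (E : Type) [Field E] (q k : ℕ) (T : Fin k → ℕ) : Prop :=
  ∀ a : Fin k → E, a ≠ 0 → Nat.card {x : E // ∑ i, a i * x ^ (q ^ T i) = 0} ≤ q ^ (k - 1)

theorem IsMRD.sub {E E' : Type} [Field E] [Field E'] [Finite E] (ι : E' →+* E) {q k : ℕ}
    {T : Fin k → ℕ} (h : IsMRD E q k T) : IsMRD E' q k T := by
  intro a ha
  refine le_trans ?_ (h (fun i => ι (a i)) ?_)
  · refine Nat.card_le_card_of_injective (fun x => ⟨ι x.1, ?_⟩) ?_
    · have := congrArg ι x.2
      simpa using this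
    · intro x y hxy
      exact Subtype.ext (ι.injective (congrArg Subtype.val hxy))
  · intro h0
    apply ha
    funext i
    exact ι.injective (by simpa using congrFun h0 i)

theorem pow_congr {E : Type} [Field E] [Fintype E] {q m : ℕ} (hcard : Fintype.card E = q ^ m)
    (x : E) {a b : ℕ} (h : (m : ℤ) ∣ (a : ℤ) - b) : x ^ (q ^ a) = x ^ (q ^ b) := by
  have key : ∀ a c : ℕ, x ^ (q ^ (a + m * c)) = x ^ (q ^ a) := by
    intro a c
    rw [add_comm, pow_add, pow_mul, pow_mul q m c, ← hcard, FiniteField.pow_card_pow]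
  have h1 : a % m = b % m := ((Nat.modEq_iff_dvd).mpr h).symm
  rw [← Nat.mod_add_div a m, ← Nat.mod_add_div b m, key, key, h1]

theorem pair_bound {E : Type} [Field E] [Fintype E] {q g k : ℕ} (hq : 1 < q)
    (hcard : Fintype.card E = q ^ g) {T : Fin k → ℕ} (h : IsMRD E q k T) {i j : Fin k}
    (hij : i ≠ j) (hg : (g : ℤ) ∣ (T i : ℤ) - T j) : g ≤ k - 1 := by
  classical
  have := h (Pi.single i 1 - Pi.single j 1) (fun h0 => by
    have := congrFun h0 i
    simp [hij] at this)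
  have h1 : ∀ x : E, ∑ l, (Pi.single i 1 - Pi.single j 1 : Fin k → E) l * x ^ (q ^ T l) = 0 := by
    intro x
    simp only [Pi.sub_apply, sub_mul, Finset.sum_sub_distrib, Pi.single_apply, ite_mul, one_mul,
      zero_mul, Finset.sum_ite_eq', Finset.mem_univ, if_true]
    rw [pow_congr hcard x hg, sub_self]
  rw [Nat.card_congr (Equiv.subtypeUnivEquiv h1), Nat.card_eq_fintype_card, hcard] at this
  exact (Nat.pow_le_pow_iff_right hq).mp this

theorem fan_contra (core : CurveCore) {E : Type} [Field E] [Fintype E] (p f : ℕ) [Fact p.Prime]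
    [CharP E p] (f0 : 0 < f) (g n e k : ℕ) (g0 : 0 < g) (hcard : Fintype.card E = (p ^ f) ^ (g * n))
    {T : Fin k → ℕ} (h : IsMRD E (p ^ f) k T) (e0 : 0 < e) (a b : ℤ) (j : ℕ → Fin k) (l : Fin k)
    (hjl : ∀ r ≤ e, j r ≠ l)
    (hj : ∀ r ≤ e, ((g * n : ℕ) : ℤ) ∣ (T (j r) : ℤ) - T (j 0) - g * (a * r))
    (hl : ((g * n : ℕ) : ℤ) ∣ (T l : ℤ) - T (j 0) - g * b)
    (hco : IsCoprime (b - e * a) (n : ℤ))
    (ha : ∀ c : ℕ, c ∣ n → (c : ℤ) ∣ a → c ≤ k) (hb : ∀ c : ℕ, c ∣ n → (c : ℤ) ∣ b → c ≤ k)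
    (hn : k * (12 * k * (k + 1)) ^ 2 ≤ n)
    (hw : ∀ x y : ℤ, x ≠ 0 → (n : ℤ) ∣ b * x - a * y →
      (k : ℤ) ≤ |e * x| ∨ (k : ℤ) ≤ |y| ∨ (k : ℤ) ≤ |y - e * x|) : False := by
  classical
  have k0 : 0 < k := Fin.pos l
  have n0 : 0 < n := lt_of_lt_of_le (by positivity) hn
  have n0' : (n : ℤ) ≠ 0 := by exact_mod_cast n0.ne'
  set q := p ^ f with hq
  have hq1 : 1 < q := Nat.one_lt_pow f0.ne' (Fact.out : p.Prime).one_lt
  obtain ⟨α, ca, hα⟩ : ∃ (α : ℕ) (c : ℤ), (α : ℤ) = a + n * c :=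
    ⟨(a % n).toNat, -(a / n), by
      rw [Int.toNat_of_nonneg (Int.emod_nonneg _ n0'), Int.emod_def]; ring⟩
  obtain ⟨β, cb, hβ⟩ : ∃ (β : ℕ) (c : ℤ), (β : ℤ) = b + n * c :=
    ⟨(b % n).toNat, -(b / n), by
      rw [Int.toNat_of_nonneg (Int.emod_nonneg _ n0'), Int.emod_def]; ring⟩
  obtain ⟨A, hA⟩ := fan_nat core (E := E) (q ^ g) n α β e k (Nat.one_lt_pow g0.ne' hq1)
    (by rw [hcard, pow_mul]) (iterateFrobenius E p (f * g))
    (fun x => by rw [iterateFrobenius_def, pow_mul]) k0 e0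
    (by
      have := hco.add_mul_left_left (cb - e * ca)
      rwa [show b - e * a + n * (cb - e * ca) = β - e * α by rw [hα, hβ]; ring] at this)
    (fun c h1 h2 => ha c h1 (by
      have h3 : (c : ℤ) ∣ α := by exact_mod_cast h2
      have h4 : (c : ℤ) ∣ n := by exact_mod_cast h1
      rw [hα] at h3
      exact (dvd_add_left (Dvd.dvd.mul_right h4 _)).mp h3))
    (fun c h1 h2 => hb c h1 (by
      have h3 : (c : ℤ) ∣ β := by exact_mod_cast h2
      have h4 : (c : ℤ) ∣ n := by exact_mod_cast h1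
      rw [hβ] at h3
      exact (dvd_add_left (Dvd.dvd.mul_right h4 _)).mp h3))
    hn (fun x y x0 hxy => hw x y x0 (by
      have := dvd_sub hxy (dvd_mul_right (n : ℤ) (cb * x - ca * y))
      rwa [show (β : ℤ) * x - α * y - n * (cb * x - ca * y) = b * x - a * y by
        rw [hα, hβ]; ring] at this))
  set c : Fin k → E := Pi.single l 1 - ∑ r ∈ range (e + 1), Pi.single (j r) (A r) with hc
  have hc0 : c ≠ 0 := by
    intro h0
    have := congrFun h0 l
    rw [hc, Pi.sub_apply, Finset.sum_apply, Finset.sum_eq_zero] at this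
    · simp at this
    · intro r hr
      exact Pi.single_eq_of_ne' (hjl r (Nat.lt_succ_iff.mp (Finset.mem_range.mp hr))) _
  have hsum : ∀ y : E, ∑ i, c i * y ^ (q ^ T i) =
      y ^ (q ^ T l) - ∑ r ∈ range (e + 1), A r * y ^ (q ^ T (j r)) := by
    intro y
    simp only [hc, Pi.sub_apply, sub_mul, Finset.sum_sub_distrib, Finset.sum_apply, Finset.sum_mul]
    rw [Finset.sum_comm]
    simp only [Pi.single_apply, ite_mul, one_mul, zero_mul, Finset.sum_ite_eq', Finset.mem_univ,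
      if_true]
  have hbij : Function.Bijective (fun y : E => y ^ (q ^ T (j 0))) := by
    have : (fun y : E => y ^ (q ^ T (j 0))) = iterateFrobenius E p (f * T (j 0)) := by
      funext y
      rw [iterateFrobenius_def, pow_mul]
    rw [this]
    exact Finite.injective_iff_bijective.mp (RingHom.injective _)
  have hle := h c hc0
  have heq : Nat.card {y : E // ∑ i, c i * y ^ (q ^ T i) = 0} = Nat.card {x : E //
      x ^ ((q ^ g) ^ β) = ∑ r ∈ Finset.range (e + 1), A r * x ^ ((q ^ g) ^ (α * r))} := by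
    refine Nat.card_congr ((Equiv.ofBijective _ hbij).subtypeEquiv fun y => ?_)
    rw [hsum, sub_eq_zero, Equiv.ofBijective_apply, ← pow_mul y, ← pow_mul q, ← pow_add,
      pow_congr hcard y (a := T l) (b := T (j 0) + g * β)]
    · rw [Finset.sum_congr rfl]
      intro r hr
      rw [← pow_mul y, ← pow_mul q, ← pow_add,
        pow_congr hcard y (a := T (j r)) (b := T (j 0) + g * (α * r))]
      have := dvd_sub (hj r (Nat.lt_succ_iff.mp (Finset.mem_range.mp hr)))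
        (dvd_mul_right ((g * n : ℕ) : ℤ) (ca * r))
      push_cast at this ⊢
      rw [hα]
      rwa [show (T (j r) : ℤ) - (T (j 0) + g * ((a + n * ca) * r)) =
        T (j r) - T (j 0) - g * (a * r) - g * n * (ca * r) by ring]
    · have := dvd_sub hl (dvd_mul_right ((g * n : ℕ) : ℤ) cb)
      push_cast at this ⊢
      rw [hβ]
      rwa [show (T l : ℤ) - (T (j 0) + g * (b + n * cb)) =
        T l - T (j 0) - g * b - g * n * cb by ring]
  rw [heq] at hle
  have h1 := hA.trans hle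
  rw [← pow_mul] at h1
  have h2 := (Nat.pow_le_pow_iff_right hq1).mp h1
  have : k ≤ g * k := Nat.le_mul_of_pos_left _ g0
  omega

end Pool.Agent.Lib.MP_145fc7_co
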