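import Pool.Agent.Lib.MP_145fc7_co.ReduceA

set_option autoImplicit false

namespace Pool.Agent.Lib.MP_145fc7_co

open Finset

theorem exists_level (C : ℕ) (C1 : 1 ≤ C) (b : ℕ) : ∀ n : ℕ, C ^ (b + 1) < n →
    ∃ n0, n0 ∣ n ∧ C < n0 ∧ ∃ l0, ∀ l : ℕ, l.Prime → l ∣ n0 → l ≤ b → l = l0 := by
  induction b with
  | zero =>
    intro n hn
    exact ⟨n, dvd_rfl, by simpa using hn, 0, fun l _ _ h => by omega⟩
  | succ b ih =>
    intro n hn
    by_cases hb : (b + 1).Prime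
    · obtain ⟨v, m, hm, rfl⟩ := Nat.exists_eq_pow_mul_and_not_dvd (n := n) (by omega) (b + 1)
        hb.ne_one
      by_cases hv : C < (b + 1) ^ v
      · exact ⟨(b + 1) ^ v, dvd_mul_right _ _, hv, b + 1, fun l hl h _ =>
          (Nat.prime_dvd_prime_iff_eq hl hb).mp (hl.dvd_of_dvd_pow h)⟩
      · obtain ⟨n0, h1, h2, l0, h3⟩ := ih m (by
          by_contra hc
          push Not at hc hv
          have := Nat.mul_le_mul hv hc
          rw [← pow_succ'] at this
          omega)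
        refine ⟨n0, h1.mul_left _, h2, l0, fun l hl h hle => h3 l hl h ?_⟩
        by_contra hc
        have : l = b + 1 := by omega
        exact hm (this ▸ h.trans h1)
    · obtain ⟨n0, h1, h2, l0, h3⟩ := ih n
        (lt_of_le_of_lt (Nat.pow_le_pow_right C1 (by omega)) hn)
      refine ⟨n0, h1, h2, l0, fun l hl h hle => h3 l hl h ?_⟩
      by_contra hc
      have : l = b + 1 := by omega
      exact hb (this ▸ hl)

theorem galois_card (p f m : ℕ) [Fact p.Prime] (f0 : 0 < f) (m0 : 0 < m)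
    [Fintype (GaloisField p (f * m))] : Fintype.card (GaloisField p (f * m)) = (p ^ f) ^ m := by
  rw [← Nat.card_eq_fintype_card, GaloisField.card p (f * m) (by positivity), pow_mul]

/-- No small relation on a triple modulo `m`. -/
def NoRel (κ m : ℕ) (x y z : ℤ) : Prop :=
  ∀ c1 c2 : ℤ, (c1 ≠ 0 ∨ c2 ≠ 0) → |c1| ≤ κ → |c2| ≤ κ → |c1 + c2| ≤ κ →
    ¬ (m : ℤ) ∣ c1 * (y - x) + c2 * (z - x)

theorem tri_contra (core : CurveCore) (p f : ℕ) [Fact p.Prime] (f0 : 0 < f) (κ g n : ℕ)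
    (g0 : 0 < g) {T : Fin (κ + 1) → ℕ} (h : IsMRD (GaloisField p (f * (g * n))) (p ^ f) (κ + 1) T)
    (hpair : ∀ i j, i ≠ j → ∀ c : ℕ, c ∣ g * n → (c : ℤ) ∣ (T i : ℤ) - T j → c ≤ κ)
    (hbig : (κ + 1) * ((κ + 1) * (12 * (κ + 1) * (κ + 1 + 1)) ^ 2) ≤ g * n)
    {x y z : Fin (κ + 1)} (hxy : x ≠ y) (hxz : x ≠ z) (hyz : y ≠ z) (a b : ℤ)
    (ha : (T y : ℤ) - T x = g * a) (hb : (T z : ℤ) - T x = g * b)
    (hco : IsCoprime (b - a) (n : ℤ)) (hno : NoRel κ (g * n) (T x) (T y) (T z)) : False := by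
  have := Fintype.ofFinite (GaloisField p (f * (g * n)))
  have gn0 : 0 < g * n := lt_of_lt_of_le (by positivity) hbig
  have hg : g ≤ κ := hpair y x hxy.symm g (dvd_mul_right _ _) ⟨a, ha⟩
  have aux : ∀ (w : Fin (κ + 1)) (a : ℤ), x ≠ w → (T w : ℤ) - T x = g * a →
      ∀ c : ℕ, c ∣ n → (c : ℤ) ∣ a → c ≤ κ + 1 := by
    intro w a hw ha c h1 h2
    have := hpair w x hw.symm (g * c) (Nat.mul_dvd_mul_left _ h1) (by
      rw [ha]; push_cast; exact mul_dvd_mul_left _ h2)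
    have : c ≤ g * c := Nat.le_mul_of_pos_left _ g0
    omega
  refine fan_contra core p f f0 g n 1 (κ + 1) g0 (galois_card p f _ f0 gn0) h one_pos a b
    (fun r => if r = 0 then x else y) z ?_ ?_ ?_ (by simpa using hco) (aux y a hxy ha)
    (aux z b hxz hb) ?_ ?_
  · intro r _
    split_ifs <;> assumption
  · intro r hr
    interval_cases r
    · simp
    · simp [ha]
  · simp [hb]
  · have : (κ + 1) * ((κ + 1) * (12 * (κ + 1) * (κ + 1 + 1)) ^ 2) ≤ (κ + 1) * n :=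
      hbig.trans (Nat.mul_le_mul_right _ (by omega))
    exact Nat.le_of_mul_le_mul_left this (by omega)
  · intro X Y X0 hd
    by_contra hc
    push Not at hc
    obtain ⟨h1, h2, h3⟩ := hc
    simp only [Nat.cast_one, one_mul] at h1 h3
    push_cast at h1 h2 h3
    apply hno (-Y) X (Or.inr X0) (by rw [abs_neg]; omega) (by omega)
      (by rw [← abs_neg]; ring_nf at h3 ⊢; omega)
    rw [ha, hb]
    push_cast
    rw [show -Y * (g * a) + X * (g * b) = g * (b * X - a * Y) by ring]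
    exact mul_dvd_mul_left _ hd

theorem famRel_level (core : CurveCore) (p f : ℕ) [Fact p.Prime] (f0 : 0 < f) (κ m : ℕ)
    {T : Fin (κ + 1) → ℕ} (h : IsMRD (GaloisField p (f * m)) (p ^ f) (κ + 1) T)
    (hpair : ∀ i j, i ≠ j → ∀ c : ℕ, c ∣ m → (c : ℤ) ∣ (T i : ℤ) - T j → c ≤ κ)
    (hbig : (κ + 1) * ((κ + 1) * (12 * (κ + 1) * (κ + 1 + 1)) ^ 2) ≤ m) (l0 l1 : ℕ)
    (hl : ∀ l : ℕ, l.Prime → l ∣ m → l ≤ κ → l = l0 ∨ l = l1) :
    FamRel κ (fun i => ((T i : ℕ) : ZMod m)) := by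
  intro i j l hij hil hjl
  by_contra hcon
  have m0 : 0 < m := lt_of_lt_of_le (by positivity) hbig
  have hno : NoRel κ m (T i) (T j) (T l) := by
    intro c1 c2 h0 h1 h2 h3 hd
    apply hcon
    refine ⟨c1, c2, h0, h1, h2, h3, ?_⟩
    have := (ZMod.intCast_zmod_eq_zero_iff_dvd _ _).mpr hd
    push_cast at this
    simpa only [zsmul_eq_mul] using this
  obtain ⟨g, g0, ⟨a, ha⟩, ⟨b, hb⟩, hgm, hmax⟩ : ∃ g : ℕ, 0 < g ∧ (g : ℤ) ∣ (T j : ℤ) - T i ∧
      (g : ℤ) ∣ (T l : ℤ) - T i ∧ (g : ℤ) ∣ m ∧ ∀ c : ℤ, c ∣ (T j : ℤ) - T i →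
        c ∣ (T l : ℤ) - T i → c ∣ m → c ∣ g :=
    ⟨Int.gcd (Int.gcd ((T j : ℤ) - T i) ((T l : ℤ) - T i)) m,
      Int.gcd_pos_of_ne_zero_right _ (by exact_mod_cast m0.ne'),
      (Int.gcd_dvd_left _ _).trans (Int.gcd_dvd_left _ _),
      (Int.gcd_dvd_left _ _).trans (Int.gcd_dvd_right _ _), Int.gcd_dvd_right _ _,
      fun c h1 h2 h3 => Int.dvd_coe_gcd (Int.dvd_coe_gcd h1 h2) h3⟩
  obtain ⟨n, hn⟩ : g ∣ m := by exact_mod_cast hgm
  have g0' : (g : ℤ) ≠ 0 := by exact_mod_cast g0.ne'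
  have three : ∀ r : ℕ, r.Prime → r ∣ n → (r : ℤ) ∣ a → (r : ℤ) ∣ b → False := by
    intro r hr h1 h2 h3
    have h4 : (g : ℤ) * r ∣ g := by
      apply hmax
      · rw [ha]; exact mul_dvd_mul_left _ h2
      · rw [hb]; exact mul_dvd_mul_left _ h3
      · rw [hn]; push_cast; exact mul_dvd_mul_left _ (by exact_mod_cast h1)
    have h5 : (r : ℤ) ∣ 1 := (mul_dvd_mul_iff_left g0').mp (by simpa using h4)
    exact hr.one_lt.ne' (Nat.dvd_one.mp (by exact_mod_cast h5))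
  have small : ∀ (x y : Fin (κ + 1)) (c : ℤ), x ≠ y → (T x : ℤ) - T y = g * c →
      ¬ IsCoprime c (n : ℤ) → ∃ r : ℕ, r.Prime ∧ r ∣ n ∧ (r : ℤ) ∣ c ∧ (r = l0 ∨ r = l1) := by
    intro x y c hxy hc hnc
    rw [Int.isCoprime_iff_gcd_eq_one] at hnc
    obtain ⟨r, hr, hrd⟩ := Nat.exists_prime_and_dvd hnc
    have h1 : (r : ℤ) ∣ c := (Int.natCast_dvd_natCast.mpr hrd).trans (Int.gcd_dvd_left _ _)
    have h2 : r ∣ n := by
      exact_mod_cast (Int.natCast_dvd_natCast.mpr hrd).trans (Int.gcd_dvd_right _ _)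
    have h3 : r ∣ m := hn ▸ h2.mul_left _
    exact ⟨r, hr, h2, h1, hl r hr h3 (hpair x y hxy r h3 (hc ▸ h1.mul_left _))⟩
  subst hn
  by_cases c1 : IsCoprime (b - a) (n : ℤ)
  · exact tri_contra core p f f0 κ g n g0 h hpair hbig hij hil hjl a b ha hb c1 hno
  by_cases c2 : IsCoprime a (n : ℤ)
  · refine tri_contra core p f f0 κ g n g0 h hpair hbig hil.symm hjl.symm hij (-b) (a - b)
      (by linarith) (by linarith) (by simpa using c2) ?_
    intro c1 c2 h0 h1 h2 h3 hd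
    apply hno c2 (-c1 - c2) (by omega) h2 (by rw [← abs_neg]; ring_nf at h3 ⊢; exact h3)
      (by rw [← abs_neg]; ring_nf; exact h1)
    rwa [show c2 * ((T j : ℤ) - T i) + (-c1 - c2) * (T l - T i) =
      c1 * (T i - T l) + c2 * (T j - T l) by ring]
  by_cases c3 : IsCoprime b (n : ℤ)
  · refine tri_contra core p f f0 κ g n g0 h hpair hbig hij.symm hjl hil (-a) (b - a)
      (by linarith) (by linarith) (by simpa using c3) ?_
    intro c1 c2 h0 h1 h2 h3 hd
    apply hno (-c1 - c2) c2 (by omega) (by rw [← abs_neg]; ring_nf at h3 ⊢; exact h3) h2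
      (by rw [← abs_neg]; ring_nf; exact h1)
    rwa [show (-c1 - c2) * ((T j : ℤ) - T i) + c2 * (T l - T i) =
      c1 * (T i - T j) + c2 * (T l - T j) by ring]
  obtain ⟨r1, p1, d1, e1, f1⟩ := small l j (b - a) hjl.symm (by linarith) c1
  obtain ⟨r2, p2, d2, e2, f2⟩ := small j i a hij.symm ha c2
  obtain ⟨r3, p3, d3, e3, f3⟩ := small l i b hil.symm hb c3
  have : r1 = r2 ∨ r1 = r3 ∨ r2 = r3 := by omega
  rcases this with rfl | rfl | rfl
  · exact three r1 p1 d1 e2 (by simpa using dvd_add e1 e2)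
  · exact three r1 p1 d1 (by simpa using dvd_sub e3 e1) e3
  · exact three r2 p2 d2 e2 e3

theorem exc_contra (core : CurveCore) (p f : ℕ) [Fact p.Prime] (f0 : 0 < f) (m : ℕ)
    {T : Fin 5 → ℕ} (h : IsMRD (GaloisField p (f * m)) (p ^ f) 5 T)
    (hpair : ∀ i j, i ≠ j → ∀ c : ℕ, c ∣ m → (c : ℤ) ∣ (T i : ℤ) - T j → c ≤ 4)
    (hbig : 5 * (5 * (12 * 5 * (5 + 1)) ^ 2) ≤ m) (l0 : ℕ)
    (hl : ∀ l : ℕ, l.Prime → l ∣ m → l ≤ 4 → l = l0) {i0 i2 i3 i4 i6 : Fin 5} (d : ZMod m)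
    (h02 : i0 ≠ i2) (h03 : i0 ≠ i3) (h23 : i2 ≠ i3) (h26 : i2 ≠ i6) (h34 : i3 ≠ i4)
    (h36 : i3 ≠ i6) (e2 : (T i2 : ZMod m) = T i0 + (2 : ℤ) • d)
    (e3 : (T i3 : ZMod m) = T i0 + (3 : ℤ) • d) (e4 : (T i4 : ZMod m) = T i0 + (4 : ℤ) • d)
    (e6 : (T i6 : ZMod m) = T i0 + (6 : ℤ) • d) : False := by
  obtain ⟨δ, rfl⟩ := ZMod.intCast_surjective d
  have conv : ∀ (i : Fin 5) (c : ℤ), (T i : ZMod m) = T i0 + c • (δ : ZMod m) →
      (m : ℤ) ∣ (T i : ℤ) - T i0 - c * δ := by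
    intro i c hc
    rw [← ZMod.intCast_zmod_eq_zero_iff_dvd]
    push_cast
    rw [hc, zsmul_eq_mul]
    ring
  have d2 := conv _ _ e2
  have d3 := conv _ _ e3
  have d4 := conv _ _ e4
  have d6 := conv _ _ e6
  have m0 : 0 < m := lt_of_lt_of_le (by positivity) hbig
  obtain ⟨g, δ', n', g0, hco, hδ, hm⟩ := Int.exists_gcd_one' (m := δ) (n := m)
    (Int.gcd_pos_of_ne_zero_right _ (by exact_mod_cast m0.ne'))
  rw [← Int.isCoprime_iff_gcd_eq_one] at hco
  have g0' : (0 : ℤ) < g := by exact_mod_cast g0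
  have n'0 : 0 ≤ n' := by
    by_contra hc
    push Not at hc
    have : (0 : ℤ) < m := by exact_mod_cast m0
    nlinarith
  lift n' to ℕ using n'0 with n
  obtain rfl : m = g * n := by rw [mul_comm]; exact_mod_cast hm
  have := Fintype.ofFinite (GaloisField p (f * (g * n)))
  have hg : g ≤ 4 := hpair i3 i2 h23.symm g (dvd_mul_right _ _) (by
    have h1 : (g : ℤ) ∣ ((g * n : ℕ) : ℤ) := by push_cast; exact dvd_mul_right _ _
    have h2 : (g : ℤ) ∣ δ := ⟨δ', by rw [hδ]; ring⟩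
    have := dvd_add (dvd_sub (h1.trans d3) (h1.trans d2)) h2
    rwa [show (T i3 : ℤ) - T i0 - 3 * δ - (T i2 - T i0 - 2 * δ) + δ = T i3 - T i2 by ring] at this)
  have hn : 5 * (12 * 5 * (5 + 1)) ^ 2 ≤ n := by
    have : 5 * (5 * (12 * 5 * (5 + 1)) ^ 2) ≤ 5 * n :=
      hbig.trans (Nat.mul_le_mul_right _ (by omega))
    omega
  have div : ∀ (s : ℤ), 0 < s → s ≤ 5 → ∀ c : ℕ, c ∣ n → (c : ℤ) ∣ s * δ' → c ≤ 5 := by
    intro s s0 s5 c h1 h2
    have h3 : IsCoprime (c : ℤ) δ' :=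
      (hco.symm).of_isCoprime_of_dvd_left (by exact_mod_cast h1)
    have := Int.le_of_dvd s0 (h3.dvd_of_dvd_mul_right h2)
    omega
  have eqz : ∀ z : ℤ, (n : ℤ) ∣ z * δ' → |z| < 100 → z = 0 := by
    intro z h1 h2
    apply Int.eq_zero_of_abs_lt_dvd (hco.symm.dvd_of_dvd_mul_right h1)
    have : (5 * (12 * 5 * (5 + 1)) ^ 2 : ℤ) ≤ n := by exact_mod_cast hn
    omega
  have cop : ∀ r : ℕ, r.Prime → ¬ r ∣ n → IsCoprime (r : ℤ) (n : ℤ) := fun r hr h =>
    Nat.isCoprime_iff_coprime.mpr ((Nat.Prime.coprime_iff_not_dvd hr).mpr h)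
  by_cases h3 : 3 ∣ n
  · have h2 : ¬ 2 ∣ n := fun h2 => by
      have a1 := hl 2 Nat.prime_two (h2.mul_left _) (by norm_num)
      have a2 := hl 3 Nat.prime_three (h3.mul_left _) (by norm_num)
      omega
    refine fan_contra core p f f0 g n 2 5 g0 (galois_card p f _ f0 m0) h two_pos (3 * δ') (2 * δ')
      (fun r => if r = 0 then i0 else if r = 1 then i3 else i6) i2 ?_ ?_ ?_ ?_
      (div 3 (by norm_num) (by norm_num)) (div 2 (by norm_num) (by norm_num)) hn ?_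
    · intro r hr
      interval_cases r
      · simpa using h02
      · simpa using h23.symm
      · simpa using h26.symm
    · intro r hr
      interval_cases r
      · simp
      · refine (congrArg _ ?_).mp d3
        rw [hδ]; simp; ring
      · refine (congrArg _ ?_).mp d6
        rw [hδ]; simp; ring
    · refine (congrArg _ ?_).mp d2
      rw [hδ]; simp; ring
    · have c2 := cop 2 Nat.prime_two h2
      have := ((c2.mul_left c2).mul_left hco).neg_left
      refine (congrArg (fun z => IsCoprime z (n : ℤ)) ?_).mp this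
      push_cast; ring
    · intro X Y X0 hd
      by_contra hc
      push Not at hc
      obtain ⟨h1, h2, h3⟩ := hc
      push_cast at h1 h2 h3
      rw [abs_lt] at h1 h2 h3
      have := eqz (2 * X - 3 * Y) (by
        rwa [show (2 * X - 3 * Y) * δ' = 2 * δ' * X - 3 * δ' * Y by ring]) (by
        rw [abs_lt]; omega)
      omega
  · refine fan_contra core p f f0 g n 3 5 g0 (galois_card p f _ f0 m0) h three_pos (2 * δ')
      (3 * δ') (fun r => if r = 0 then i0 else if r = 1 then i2 else if r = 2 then i4 else i6) i3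
      ?_ ?_ ?_ ?_ (div 2 (by norm_num) (by norm_num)) (div 3 (by norm_num) (by norm_num)) hn ?_
    · intro r hr
      interval_cases r
      · simpa using h03
      · simpa using h23
      · simpa using h34.symm
      · simpa using h36.symm
    · intro r hr
      interval_cases r
      · simp
      · refine (congrArg _ ?_).mp d2
        rw [hδ]; simp; ring
      · refine (congrArg _ ?_).mp d4
        rw [hδ]; simp; ring
      · refine (congrArg _ ?_).mp d6
        rw [hδ]; simp; ring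
    · refine (congrArg _ ?_).mp d3
      rw [hδ]; simp; ring
    · have c3 := cop 3 Nat.prime_three h3
      have := (c3.mul_left hco).neg_left
      refine (congrArg (fun z => IsCoprime z (n : ℤ)) ?_).mp this
      push_cast; ring
    · intro X Y X0 hd
      by_contra hc
      push Not at hc
      obtain ⟨h1, h2, h3⟩ := hc
      push_cast at h1 h2 h3
      rw [abs_lt] at h1 h2 h3
      have := eqz (3 * X - 2 * Y) (by
        rwa [show (3 * X - 2 * Y) * δ' = 3 * δ' * X - 2 * δ' * Y by ring]) (by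
        rw [abs_lt]; omega)
      omega

/-- The full statement follows from the function-field core. -/
theorem main_of_core (core : CurveCore) :
    ∀ k : ℕ, 0 < k → ∃ c : ℕ, ∀ (p : ℕ) [Fact (Nat.Prime p)] (e : ℕ), 0 < e →
      ∀ n : ℕ, c < n →
      ∀ t : Fin k → ZMod n, Function.Injective t →
      (∀ a : Fin k → GaloisField p (e * n), a ≠ 0 →
        Nat.card {x : GaloisField p (e * n) //
          ∑ i, a i * x ^ ((p ^ e) ^ (t i).val) = 0} ≤ (p ^ e) ^ (k - 1)) →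
      ∃ s d : ZMod n, Set.range t = Set.range (fun i : Fin k => s + ((i : ℕ) : ZMod n) * d) := by
  intro k k0
  obtain ⟨κ, rfl⟩ : ∃ κ, k = κ + 1 := ⟨k - 1, by omega⟩
  by_cases hκ : κ < 2
  · refine ⟨0, fun p _ e _ n _ t _ _ => ?_⟩
    interval_cases κ
    · refine ⟨t 0, 0, ?_⟩
      congr 1
      funext i
      fin_cases i
      simp
    · refine ⟨t 0, t 1 - t 0, ?_⟩
      congr 1
      funext i
      fin_cases i <;> simp
  push Not at hκ
  set C := (κ + 1) * ((κ + 1) * (12 * (κ + 1) * (κ + 1 + 1)) ^ 2) +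
    κ * (4 * κ ^ 2 * κ.factorial) with hC
  have C1 : 1 ≤ C := by
    have : 0 < C := by positivity
    omega
  refine ⟨C ^ (κ + 1), fun p _ f f0 n hn t _ hM => ?_⟩
  have n0 : 0 < n := by omega
  have : NeZero n := ⟨n0.ne'⟩
  set T : Fin (κ + 1) → ℕ := fun i => (t i).val with hT
  have hM' : ∀ m, m ∣ n → IsMRD (GaloisField p (f * m)) (p ^ f) (κ + 1) T := by
    intro m hm
    have m0 : 0 < m := Nat.pos_of_dvd_of_pos hm n0
    obtain ⟨ι⟩ := FiniteField.nonempty_algHom_of_finrank_dvd (F := ZMod p)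
      (K := GaloisField p (f * m)) (L := GaloisField p (f * n)) (by
        rw [GaloisField.finrank p (by positivity), GaloisField.finrank p (by positivity)]
        exact Nat.mul_dvd_mul_left _ hm)
    exact IsMRD.sub ι.toRingHom hM
  have hq1 : 1 < p ^ f := Nat.one_lt_pow f0.ne' (Fact.out : p.Prime).one_lt
  have hpair : ∀ i j, i ≠ j → ∀ c : ℕ, c ∣ n → (c : ℤ) ∣ (T i : ℤ) - T j → c ≤ κ := by
    intro i j hij c hc hd
    have := Fintype.ofFinite (GaloisField p (f * c))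
    exact pair_bound hq1 (galois_card p f c f0 (Nat.pos_of_dvd_of_pos hc n0)) (hM' c hc) hij hd
  obtain ⟨m0, hm0, hCm, l0, hl0⟩ := exists_level C C1 κ n hn
  have m00 : 0 < m0 := by omega
  have hcast : ∀ m (hm : m ∣ n) i, (ZMod.castHom hm (ZMod m)).toAddMonoidHom (t i) =
      ((T i : ℕ) : ZMod m) := by
    intro m hm i
    simp [hT]
  have hz : ∀ m (hm : m ∣ n) (x : ZMod n), (ZMod.castHom hm (ZMod m)).toAddMonoidHom x = 0 ↔
      m ∣ x.val := by
    intro m hm x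
    rw [← ZMod.natCast_eq_zero_iff]
    simp
  have hlcm : ∀ v : {v : ℕ × ℕ // v.1.Prime ∧ v.1 ^ v.2 ∣ n},
      Nat.lcm m0 (v.1.1 ^ v.1.2) ∣ n := fun v => Nat.lcm_dvd hm0 v.2.2
  rcases classify (G := ZMod n) (ZMod.castHom hm0 (ZMod m0)).toAddMonoidHom
    (fun v => (ZMod.castHom (hlcm v) (ZMod (Nat.lcm m0 (v.1.1 ^ v.1.2)))).toAddMonoidHom)
    (fun v x hx => (hz _ _ _).mpr ((Nat.dvd_lcm_left _ _).trans ((hz _ _ _).mp hx)))
    (fun x hx => by
      have : n ∣ x.val := (Nat.dvd_iff_prime_pow_dvd_dvd _ _).mpr (fun l v hl hv =>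
        (Nat.dvd_lcm_right _ _).trans ((hz _ _ _).mp (hx ⟨(l, v), hl, hv⟩)))
      rw [← ZMod.val_eq_zero]
      exact Nat.eq_zero_of_dvd_of_lt this (ZMod.val_lt x))
    hκ t
    (fun i j hij c c0 hc h0 => by
      rw [hcast, hcast] at h0
      have h1 : (m0 : ℤ) ∣ c * ((T i : ℤ) - T j) := by
        rw [← ZMod.intCast_zmod_eq_zero_iff_dvd]
        push_cast
        simpa only [zsmul_eq_mul] using h0
      have h2 : (m0 : ℤ) ∣ c * Int.gcd m0 ((T i : ℤ) - T j) := by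
        rw [Int.gcd_eq_gcd_ab, mul_add, ← mul_assoc, ← mul_assoc]
        exact dvd_add (Dvd.dvd.mul_right (Dvd.intro_left _ rfl) _) (h1.mul_right _)
      have h3 : Int.gcd m0 ((T i : ℤ) - T j) ≤ κ := hpair i j hij _
        (Dvd.dvd.trans (by exact_mod_cast Int.gcd_dvd_left (m0 : ℤ) ((T i : ℤ) - T j)) hm0)
        (Int.gcd_dvd_right _ _)
      have h4 : 0 < Int.gcd m0 ((T i : ℤ) - T j) :=
        Int.gcd_pos_of_ne_zero_left _ (by exact_mod_cast m00.ne')
      have h5 := Int.le_of_dvd (abs_pos.mpr (mul_ne_zero c0 (by exact_mod_cast h4.ne')))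
        ((dvd_abs _ _).mpr h2)
      rw [abs_mul, Nat.abs_cast] at h5
      have h6 : (κ : ℤ) * (4 * κ ^ 2 * κ.factorial) < m0 := by
        have : κ * (4 * κ ^ 2 * κ.factorial) < m0 := by omega
        exact_mod_cast this
      have h3' : (Int.gcd m0 ((T i : ℤ) - T j) : ℤ) ≤ κ := by exact_mod_cast h3
      have h7 := mul_le_mul hc h3' (by positivity) (by positivity)
      linarith)
    (by
      simp only [hcast]
      exact famRel_level core p f f0 κ m0 (hM' m0 hm0)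
        (fun i j hij c hc => hpair i j hij c (hc.trans hm0)) (by omega) l0 l0
        (fun l hl h1 h2 => Or.inl (hl0 l hl h1 h2)))
    (fun v => by
      simp only [hcast]
      refine famRel_level core p f f0 κ _ (hM' _ (hlcm v))
        (fun i j hij c hc => hpair i j hij c (hc.trans (hlcm v))) ?_ l0 v.1.1 ?_
      · have := Nat.le_of_dvd (Nat.pos_of_dvd_of_pos (hlcm v) n0) (Nat.dvd_lcm_left _ _)
        omega
      · intro l hl h1 h2
        rcases (Nat.Prime.dvd_lcm hl).mp h1 with h | h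
        · exact Or.inl (hl0 l hl h h2)
        · exact Or.inr ((Nat.prime_dvd_prime_iff_eq hl v.2.1).mp (hl.dvd_of_dvd_pow h)))
    with ⟨s, d, h⟩ | ⟨h4, i0, i2, i3, i4, i6, d, h02, h03, h23, h26, h34, h36, e2, e3, e4, e6⟩
  · exact ⟨s, d, by simpa only [nsmul_eq_mul] using h⟩
  · exfalso
    subst h4
    simp only [hcast] at e2 e3 e4 e6
    exact exc_contra core p f f0 m0 (hM' m0 hm0)
      (fun i j hij c hc => hpair i j hij c (hc.trans hm0)) (by omega) l0 hl0 d h02 h03 h23 h26 h34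
      h36 e2 e3 e4 e6

end Pool.Agent.Lib.MP_145fc7_co
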